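import Mathlib

/-!
# Project FC: the statement

Coxeter groups, the cellular `ℓ²`-chain complex of the Davis complex, and the vanishing of its reduced
homology.
-/

set_option autoImplicit false

open Finset

namespace Pool.Agent.H4.FC

variable {V : Type}

/-- the standard parabolic subgroup `W_σ` generated by the `s_v`, `v ∈ σ` -/
def par (M : CoxeterMatrix V) (σ : Finset V) : Subgroup M.Group :=
  Subgroup.closure {w | ∃ v ∈ σ, w = M.simple v}

/-- `σ` is spherical: `W_σ` is finite -/
def Sph (M : CoxeterMatrix V) (σ : Finset V) : Prop := Finite (par M σ)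

variable [Fintype V] [DecidableEq V]

omit [Fintype V] [DecidableEq V] in
/-- Cellular `ℓ²`-chains of degree `i` of the Davis complex of the Coxeter group `W` of `M`. The cells
of dimension `i` are the cosets `w W_σ`, `σ` spherical with `i` elements (Coxeter polytopes); `f σ w` is
the coefficient of the cell `w W_σ` with the orientation given by the numbering of `σ` at the
vertex `w`; passing from the vertex `w` to the vertex `w s_v` (`v ∈ σ`) reverses the orientation. -/
structure IsL2Chain (M : CoxeterMatrix V) (i : ℕ) (f : Finset V → M.Group → ℂ) : Prop where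
  supp : ∀ σ w, f σ w ≠ 0 → Sph M σ ∧ σ.card = i
  anti : ∀ σ, ∀ v ∈ σ, ∀ w, f σ (w * M.simple v) = - f σ w
  l2 : ∀ σ, Summable fun w => ‖f σ w‖ ^ 2

/-- The cellular boundary operator: the cells with face `w W_τ` of dimension one more with vertex
`w` are the `w W_{τ ∪ v}`; the incidence sign is `(-1)` to the number of elements of `τ` that come before
`v` in the numbering `ν`. -/
noncomputable def dbd {M : CoxeterMatrix V} (ν : V → ℕ) (f : Finset V → M.Group → ℂ) :
    Finset V → M.Group → ℂ :=
  fun τ w => ∑ v ∈ τᶜ, (-1) ^ (τ.filter fun u => ν u < ν v).card * f (insert v τ) w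

/-- The reduced `ℓ²`-homology of the Davis complex vanishes in degree `i`: every `ℓ²`-cycle is an
`ℓ²`-limit of boundaries of `ℓ²`-chains. -/
def L2HomologyZero (M : CoxeterMatrix V) (i : ℕ) : Prop :=
  ∀ ν : V → ℕ, Function.Injective ν → ∀ z : Finset V → M.Group → ℂ, IsL2Chain M i z →
    dbd ν z = 0 → ∀ ε : ℝ, 0 < ε → ∃ y : Finset V → M.Group → ℂ, IsL2Chain M (i + 1) y ∧
      ∑ σ, ∑' w, ‖z σ w - dbd ν y σ w‖ ^ 2 < ε

end Pool.Agent.H4.FC
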