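import Pool.Agent.H85.Fold2.Defs

/-!
# Project FC: definitions

Labelled graphs, operators `J v` on functions on a finite set with `(J u J v) ^ m(u,v) = -1`,
projections, chains.
-/

set_option autoImplicit false

open Finset

namespace Pool.Agent.H4.FC

open Pool.Agent.H85.Fold

/-! ### Labels -/

/-- the graph of a Coxeter matrix: `u ≠ v` are adjacent if `m(u,v) < ∞` -/
def gr {V : Type} (M : CoxeterMatrix V) : SimpleGraph V where
  Adj u v := u ≠ v ∧ M u v ≠ 0
  symm := ⟨fun u v h => ⟨h.1.symm, by rw [M.symmetric]; exact h.2⟩⟩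
  loopless := ⟨fun _ h => h.1 rfl⟩

/-- dihedral type: of two different edges of a triangle one has the label 2 -/
def IsDih {V : Type} (M : CoxeterMatrix V) : Prop :=
  ∀ u v w, (gr M).Adj u v → (gr M).Adj v w → (gr M).Adj u w → M u v = 2 ∨ M v w = 2

/-- labels on the edges of a graph, of dihedral type -/
structure IsLab {V : Type} (G : SimpleGraph V) (m : V → V → ℕ) : Prop where
  symm : ∀ u v, m u v = m v u
  two : ∀ u v, G.Adj u v → 2 ≤ m u v
  dih : ∀ u v w, G.Adj u v → G.Adj v w → G.Adj u w → m u v = 2 ∨ m v w = 2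

/-! ### Matrices acting on functions -/

section Act

variable {V N X : Type} [Fintype N] [DecidableEq N] [AddCommGroup X] [Module ℝ X]

omit [DecidableEq N] in
/-- the action of a matrix on functions with values in `X` -/
def actL (J : Matrix N N ℝ) : (N → X) →ₗ[ℝ] (N → X) where
  toFun x ω := ∑ ω', J ω ω' • x ω'
  map_add' x y := by
    funext ω
    simp [smul_add, Finset.sum_add_distrib]
  map_smul' r x := by
    funext ω
    simp only [Pi.smul_apply, RingHom.id_apply, Finset.smul_sum]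
    exact Finset.sum_congr rfl fun ω' _ => smul_comm _ _ _

omit [DecidableEq N] in
/-- bounded rows -/
def RB (κ : ℝ) (J : Matrix N N ℝ) : Prop := ∀ ω, ∑ ω', |J ω ω'| ≤ κ

/-- The relations of the matrices `J v`. -/
structure IsRep (G : SimpleGraph V) (m : V → V → ℕ) (κ : ℝ) (J : V → Matrix N N ℝ) : Prop where
  sq : ∀ v, J v * J v = 1
  rel : ∀ u v, G.Adj u v → (J u * J v) ^ m u v = -1
  bound : ∀ v, RB κ (J v)

/-- the projection onto the eigenspace of `J u * J v + J v * J u` with eigenvalue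
`2 cos (π / m)`, `m` the label of `uv` -/
noncomputable def pe (m : V → V → ℕ) (J : V → Matrix N N ℝ) (u v : V) : Matrix N N ℝ :=
  (2 / (m u v : ℝ)) • ∑ j ∈ range (m u v), Real.cos (j * Real.pi / m u v) • (J u * J v) ^ j

/-- The operators of the perturbation. -/
structure IsPertL (G : SimpleGraph V) (m : V → V → ℕ) (e g : V → X →ₗ[ℝ] X) (γ : X →ₗ[ℝ] X) :
    Prop where
  e_sq : ∀ v x, e v (e v x) = 0
  ee : ∀ u v, G.Adj u v → ∀ x, e u (e v x) = -e v (e u x)
  g_sq : ∀ v x, g v (g v x) = x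
  gg : ∀ u v, G.Adj u v → ∀ x,
    g u (g v x) + g v (g u x) = (2 * Real.cos (Real.pi / m u v)) • x
  eg : ∀ u v x, e u (g v x) = -g v (e u x)
  γ_sq : ∀ x, γ (γ x) = -x
  eγ : ∀ v x, e v (γ x) = -γ (e v x)
  gγ : ∀ v x, g v (γ x) = -γ (g v x)

/-- the operators `X v` of square zero -/
def Xop (e g : V → X →ₗ[ℝ] X) (γ : X →ₗ[ℝ] X) (J : V → Matrix N N ℝ) (t : ℝ) (v : V) :
    (N → X) →ₗ[ℝ] (N → X) where
  toFun z ω := t • e v (z ω) + g v (z ω) + γ (actL (J v) z ω)
  map_add' x y := by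
    funext ω
    simp only [Pi.add_apply, map_add, smul_add]
    abel
  map_smul' r x := by
    funext ω
    simp only [Pi.smul_apply, map_smul, RingHom.id_apply, smul_add]
    rw [smul_comm t r]

end Act

/-! ### Chains -/

section Chains

variable {V : Type} [DecidableEq V] [Fintype V]

/-- the boundary of the complex of the simplices which contain `τ` -/
def bdr {S : Type} [AddCommGroup S] [Module ℝ S] (ν : V → ℕ) (τ : Finset V) :
    (Finset V → S) →ₗ[ℝ] (Finset V → S) where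
  toFun c ρ := if τ ⊆ ρ then bd ν c ρ else 0
  map_add' c c' := by
    funext ρ
    by_cases h : τ ⊆ ρ <;> simp [h]
  map_smul' r c := by
    funext ρ
    by_cases h : τ ⊆ ρ <;> simp [h]

/-- The homology with coefficients in the kernels of the complex of the simplices which contain `τ`
vanishes in degree `i` on `Y`. -/
def HVr {S : Type} [AddCommGroup S] [Module ℝ S] (ν : V → ℕ) (G : SimpleGraph V)
    (e : V → S →ₗ[ℝ] S) (M : Submodule ℝ S) (Y τ : Finset V) (i : ℕ) : Prop :=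
  ∀ c : Finset V → S, IsF G e M Y i c → (∀ σ, c σ ≠ 0 → τ ⊆ σ) → bdr ν τ c = 0 →
    ∃ y : Finset V → S, IsF G e M Y (i + 1) y ∧ (∀ σ, y σ ≠ 0 → τ ⊆ σ) ∧ bdr ν τ y = c

/-- the vertices of a set of pairs -/
def tB (B : Finset (V × V)) : Finset V := B.image Prod.fst ∪ B.image Prod.snd

variable {N X : Type} [Fintype N] [DecidableEq N] [AddCommGroup X] [Module ℝ X]

/-- Chains of degree `i` on the cliques which contain the pairs in `B`, with values in the kernels
of the `e v`, fixed by the projections of the pairs in `A` and killed by the projections of the pairs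
in `B`. -/
structure IsC (G : SimpleGraph V) (e : V → X →ₗ[ℝ] X) (m : V → V → ℕ) (J : V → Matrix N N ℝ)
    (A B : Finset (V × V)) (i : ℕ) (x : Finset V → N → X) : Prop where
  supp : ∀ σ, x σ ≠ 0 → tB B ⊆ σ ∧ Cl G σ ∧ σ.card = i
  ker : ∀ σ, ∀ v ∈ σ, ∀ ω, e v (x σ ω) = 0
  fix : ∀ f ∈ A, ∀ σ, f.1 ∈ σ → f.2 ∈ σ → actL (pe m J f.1 f.2) (x σ) = x σ
  nul : ∀ b ∈ B, ∀ σ, actL (pe m J b.1 b.2) (x σ) = 0

/-- twisted chains of degree `i` -/
structure IsTwL (G : SimpleGraph V) (e g : V → X →ₗ[ℝ] X) (γ : X →ₗ[ℝ] X)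
    (J : V → Matrix N N ℝ) (t : ℝ) (i : ℕ) (f : Finset V → N → X) : Prop where
  supp : ∀ σ, f σ ≠ 0 → Cl G σ ∧ σ.card = i
  eq : ∀ σ, ∀ v ∈ σ, Xop e g γ J t v (f σ) = 0

end Chains

/-- Quantitative exactness in degree `i`. -/
def QE {V X : Type} [DecidableEq V] [Fintype V] [NormedAddCommGroup X] [NormedSpace ℝ X]
    (ν : V → ℕ) (G : SimpleGraph V) (e : V → X →ₗ[ℝ] X) (m : V → V → ℕ) (κ : ℝ)
    (A B : Finset (V × V)) (i : ℕ) : Prop :=
  ∃ C : ℝ, 0 ≤ C ∧ ∀ (N : Type) [Fintype N] [DecidableEq N] (J : V → Matrix N N ℝ),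
    IsRep G m κ J → ∀ x : Finset V → N → X, IsC G e m J A B i x →
      ∃ y : Finset V → N → X, IsC G e m J A B (i + 1) y ∧ ‖y‖ ≤ C * ‖x‖ ∧
        ‖x - bdr ν (tB B) y‖ ≤ C * ‖bdr ν (tB B) x‖

end Pool.Agent.H4.FC
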