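import Pool.Agent.H85.Fold2.NumInt

/-!
# Project FC: number fields

`two_cos_integral`: `2 cos (π / m) = ζ + ζ⁻¹` with `ζ = exp (iπ/m)` a root of unity; the complex number
`2 cos` is integral over `ℤ` as a sum of roots of unity, hence the real number is. (Alternatively by
Chebyshev polynomials: `2 cos (π/m)` is a root of the monic integer polynomial `C_m + 2`,
`Polynomial.Chebyshev.C`.)

`exists_intdata`: by `exists_integral_fold` the fold data may be replaced by data in the ring of integers
of a number field `K₀` with an embedding `τ₀`. Apply `exists_numberField_int` to the finite family of the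
real numbers `τ₀ (p' v i)`, `τ₀ (a' v j)` and `y k`, all integral over `ℤ`.
-/

set_option autoImplicit false

open Finset

namespace Pool.Agent.H4.FC

open Pool.Agent.H85.Fold2

theorem two_cos_integral (m : ℕ) : IsIntegral ℤ (2 * Real.cos (Real.pi / m)) := by
  have h := Real.isIntegral_two_mul_cos_rat_mul_pi (1 / m : ℚ)
  have e : (((1 / m : ℚ) : ℝ)) * Real.pi = Real.pi / m := by
    push_cast
    ring
  rwa [e] at h

theorem exists_intdata {W : Type} [Finite W] (H : SimpleGraph W) {n k : ℕ}
    (p : W → Fin n → ℝ) (a : W → Fin k → ℝ) (hf : IsFoldR H p a) {ι : Type} [Finite ι]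
    (y : ι → ℝ) (hy : ∀ j, IsIntegral ℤ (y j)) :
    ∃ (K : Type) (_ : Field K) (_ : NumberField K) (τ : K →+* ℝ)
      (p' : W → Fin n → NumberField.RingOfIntegers K)
      (a' : W → Fin k → NumberField.RingOfIntegers K)
      (z : ι → NumberField.RingOfIntegers K),
      IsFoldR H (fun v i => τ (p' v i)) (fun v j => τ (a' v j)) ∧ ∀ j, τ (z j) = y j := by
  obtain ⟨K₀, iK₀, iN₀, τ₀, p', a', hf'⟩ := exists_integral_fold H p a hf
  have hint : ∀ x : NumberField.RingOfIntegers K₀, IsIntegral ℤ (τ₀ (x : K₀)) := fun x =>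
    (NumberField.RingOfIntegers.isIntegral_coe x).map τ₀.toIntAlgHom
  obtain ⟨K, iK, iN, τ, w, hw⟩ := exists_numberField_int
    (ι := ((W × Fin n) ⊕ (W × Fin k)) ⊕ ι)
    (Sum.elim (Sum.elim (fun q => τ₀ (p' q.1 q.2 : K₀)) (fun q => τ₀ (a' q.1 q.2 : K₀))) y)
    (by
      rintro ((q | q) | j)
      · exact hint _
      · exact hint _
      · exact hy j)
  refine ⟨K, iK, iN, τ, fun v i => w (Sum.inl (Sum.inl (v, i))),
    fun v j => w (Sum.inl (Sum.inr (v, j))), fun j => w (Sum.inr j), ?_, fun j => hw _⟩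
  have hp : (fun (v : W) (i : Fin n) => τ (w (Sum.inl (Sum.inl (v, i))) : K)) =
      fun v i => τ₀ (p' v i : K₀) := by
    funext v i
    exact hw (Sum.inl (Sum.inl (v, i)))
  have ha : (fun (v : W) (j : Fin k) => τ (w (Sum.inl (Sum.inr (v, j))) : K)) =
      fun v j => τ₀ (a' v j : K₀) := by
    funext v j
    exact hw (Sum.inl (Sum.inr (v, j)))
  rw [hp, ha]
  exact hf'

end Pool.Agent.H4.FC
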