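import Pool.Agent.H85.Fold2.Restr

/-!
# Project FC: restriction of scalars

The proof of `restrict_scalars` in `Pool.Agent.H85.Fold2.Restr` does not use the relations of the
matrices `B v` nor of the maps `s v`; restate it. `Φ` is the composition of
`(Algebra.leftMulMatrix w).toRingHom.mapMatrix` (`w` the integral basis) with `Matrix.compRingEquiv`. It is
injective because `Algebra.leftMulMatrix_injective` and the entrywise map is injective.
-/

set_option autoImplicit false

open Finset

namespace Pool.Agent.H4.FC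

open Pool.Agent.H85.Fold Pool.Agent.H85.Fold2 Pool.Agent.H85.Fold2.Restr

theorem restrict_scalarsL (K : Type) [Field K] [NumberField K] (D : Type) [Fintype D]
    [DecidableEq D] :
    ∃ (D' : Type) (_ : Fintype D') (_ : DecidableEq D')
      (Φ : Matrix D D (NumberField.RingOfIntegers K) →+* Matrix D' D' ℤ),
      Function.Injective Φ ∧ (Nonempty D → Nonempty D') ∧
      ∀ (τ : K →+* ℝ) (V : Type) [DecidableEq V] [Fintype V] (G : SimpleGraph V)
        (B : V → Matrix D D (NumberField.RingOfIntegers K)) (Y : Finset V) (ν : V → ℕ) (i : ℕ)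
        (Ω : Type) [Fintype Ω] (s : V → Ω → Ω),
        YZ ℝ G Y (fun v => (B v).map fun x => τ x) s ν i ≤
          YB ℝ G Y (fun v => (B v).map fun x => τ x) s ν i →
        YZ ℝ G Y (mc ℝ fun v => Φ (B v)) s ν i ≤ YB ℝ G Y (mc ℝ fun v => Φ (B v)) s ν i := by
  classical
  let w := NumberField.RingOfIntegers.basis K
  let ι := Module.Free.ChooseBasisIndex ℤ (NumberField.RingOfIntegers K)
  -- the representation
  let Φ : Matrix D D (NumberField.RingOfIntegers K) →+* Matrix (D × ι) (D × ι) ℤ :=
    (Matrix.compRingEquiv D ι ℤ).toRingHom.comp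
      ((Algebra.leftMulMatrix w).toRingHom.mapMatrix : Matrix D D _ →+* Matrix D D _)
  have hΦ : ∀ (X : Matrix D D (NumberField.RingOfIntegers K)) (d d' : D) (j j' : ι),
      Φ X (d, j) (d', j') = w.repr (X d d' * w j') j := by
    intro X d d' j j'
    exact Algebra.leftMulMatrix_eq_repr_mul w (X d d') j j'
  have hinj : Function.Injective Φ := by
    intro X X' h
    ext1 d d'
    refine Algebra.leftMulMatrix_injective w ?_
    ext j j'
    rw [Algebra.leftMulMatrix_eq_repr_mul, Algebra.leftMulMatrix_eq_repr_mul, ← hΦ, ← hΦ, h]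
  have hne : Nonempty ι := w.index_nonempty
  refine ⟨D × ι, inferInstance, inferInstance, Φ, hinj, fun h => ?_, ?_⟩
  · have := h
    exact (inferInstance : Nonempty (D × ι))
  intro τ V _ _ G B Y ν i Ω _ s h
  -- exactness over `K`
  have hK : YZ K G Y (fun v => (B v).map (algebraMap (NumberField.RingOfIntegers K) K)) s ν i ≤
      YB K G Y (fun v => (B v).map (algebraMap (NumberField.RingOfIntegers K) K)) s ν i := by
    refine exact_descend τ G Y _ s ν i ?_
    simp only [Matrix.map_map]
    exact h
  -- coordinates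
  let W := NumberField.integralBasis K
  let L : (D × ι → ℚ) →+ (D → K) :=
    { toFun := fun x d => ∑ j, x (d, j) • W j
      map_zero' := by
        funext d
        simp
      map_add' := fun x y => by
        funext d
        simp [add_smul, Finset.sum_add_distrib] }
  let L' : (D → K) →+ (D × ι → ℚ) :=
    { toFun := fun z q => W.repr (z q.1) q.2
      map_zero' := by
        funext q
        simp
      map_add' := fun x y => by
        funext q
        simp }
  have hLL' : ∀ z, L (L' z) = z := by
    intro z
    funext d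
    exact W.sum_repr (z d)
  have hL'L : ∀ x, L' (L x) = x := by
    intro x
    funext q
    obtain ⟨d, j⟩ := q
    show W.repr (∑ j', x (d, j') • W j') j = x (d, j)
    rw [W.repr_sum_self]
  have hW : ∀ o : NumberField.RingOfIntegers K,
      algebraMap (NumberField.RingOfIntegers K) K o = ∑ j, ((w.repr o j : ℤ) : ℚ) • W j := by
    intro o
    conv_lhs => rw [← W.sum_repr (algebraMap (NumberField.RingOfIntegers K) K o)]
    refine Finset.sum_congr rfl fun j _ => ?_
    rw [NumberField.integralBasis_repr_apply]
    rfl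
  have hL : ∀ v x, L ((mc ℚ (fun v => Φ (B v)) v).mulVec x) =
      ((B v).map (algebraMap (NumberField.RingOfIntegers K) K)).mulVec (L x) := by
    intro v x
    funext d
    show ∑ j, (∑ q : D × ι, ((Φ (B v) (d, j) q : ℤ) : ℚ) * x q) • W j =
      ∑ d', algebraMap (NumberField.RingOfIntegers K) K (B v d d') * ∑ j', x (d', j') • W j'
    have e1 : ∀ d' j', algebraMap (NumberField.RingOfIntegers K) K (B v d d') *
        (x (d', j') • W j') = ∑ j, (((Φ (B v) (d, j) (d', j') : ℤ) : ℚ) * x (d', j')) • W j := by
      intro d' j'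
      have e2 : W j' = algebraMap (NumberField.RingOfIntegers K) K (w j') :=
        NumberField.integralBasis_apply K j'
      rw [mul_smul_comm, e2, ← map_mul, hW, Finset.smul_sum]
      refine Finset.sum_congr rfl fun j _ => ?_
      rw [hΦ, smul_smul, mul_comm]
    simp only [Finset.mul_sum, e1, Finset.sum_smul]
    rw [Finset.sum_comm, Fintype.sum_prod_type]
  have hL' : ∀ v z, L' (((B v).map (algebraMap (NumberField.RingOfIntegers K) K)).mulVec z) =
      (mc ℚ (fun v => Φ (B v)) v).mulVec (L' z) := by
    intro v z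
    conv_lhs => rw [← hLL' z, ← hL v, hL'L]
  -- exactness over `ℚ`
  have hQ : YZ ℚ G Y (mc ℚ fun v => Φ (B v)) s ν i ≤
      YB ℚ G Y (mc ℚ fun v => Φ (B v)) s ν i := by
    intro f hf
    obtain ⟨y', hy', hy⟩ := hK (tr_z hL hf)
    refine ⟨tr L' y', tr_ch hL' hy', ?_⟩
    rw [tdl_tr, hy]
    funext σ ω
    exact hL'L _
  have hR := exact_ascend (algebraMap ℚ ℝ) G Y (mc ℚ fun v => Φ (B v)) s ν i hQ
  have e3 : (fun v => (mc ℚ (fun v => Φ (B v)) v).map (algebraMap ℚ ℝ)) =
      mc ℝ fun v => Φ (B v) := by
    funext v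
    ext a c
    show (algebraMap ℚ ℝ) ((Φ (B v) a c : ℤ) : ℚ) = ((Φ (B v) a c : ℤ) : ℝ)
    simp
  rw [e3] at hR
  exact hR

end Pool.Agent.H4.FC
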