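import Pool.Agent.H4.FC.TopL

/-!
# Project FC: parabolic subgroups and the sign character

`par_induction`: `Subgroup.closure_induction` or, as the generators are involutions, the set of all
products `s_{v1} … s_{vk}` (`vj ∈ σ`) is a subgroup. `parF`: the finite set of the elements of `par M σ`.
`eps_sq`: `eps` takes the values `±1` (induction with `simple_induction`), `eps M u⁻¹ = eps M u`.
`anti_ext`: `par_induction` (with `x` quantified).
`parF_inv`, `parF_simple_mul`: `par M σ` is a subgroup.
`alt_anti`: substitute `u = s_v u'`: `x s_v π u = x π (s_v u)`, `eps (s_v u) = -eps u`.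
-/

set_option autoImplicit false

open Finset

namespace Pool.Agent.H4.FC

variable {V : Type}

theorem simple_sq (M : CoxeterMatrix V) (v : V) : M.simple v * M.simple v = 1 := by
  have h := M.toCoxeterSystem.simple_mul_simple_self v
  rwa [M.toCoxeterSystem_simple] at h

theorem simple_inv (M : CoxeterMatrix V) (v : V) : (M.simple v)⁻¹ = M.simple v :=
  inv_eq_of_mul_eq_one_left (simple_sq M v)

/-- the sign character -/
noncomputable def eps (M : CoxeterMatrix V) : M.Group →* ℤ :=
  M.toCoxeterSystem.lift ⟨fun _ => -1, fun _ _ => by norm_num⟩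

theorem eps_simple (M : CoxeterMatrix V) (v : V) : eps M (M.simple v) = -1 := by
  exact M.toCoxeterSystem.lift_apply_simple _ v

theorem eps_mul_self (M : CoxeterMatrix V) (w : M.Group) : eps M w * eps M w = 1 := by
  induction w using M.toCoxeterSystem.simple_induction_left with
  | one => rw [map_one, one_mul]
  | mul_simple_left w i ih =>
    have h1 : eps M (M.toCoxeterSystem.simple i) = -1 := eps_simple M i
    rw [map_mul, h1]
    linear_combination ih

theorem eps_inv (M : CoxeterMatrix V) (w : M.Group) : eps M w⁻¹ = eps M w := by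
  have h1 : eps M w⁻¹ * eps M w = 1 := by rw [← map_mul, inv_mul_cancel, map_one]
  calc eps M w⁻¹ = eps M w⁻¹ * (eps M w * eps M w) := by rw [eps_mul_self, mul_one]
    _ = (eps M w⁻¹ * eps M w) * eps M w := by ring
    _ = eps M w := by rw [h1, one_mul]

theorem simple_mem_par (M : CoxeterMatrix V) {σ : Finset V} {v : V} (hv : v ∈ σ) :
    M.simple v ∈ par M σ := by
  exact Subgroup.subset_closure ⟨v, hv, rfl⟩

theorem par_mono (M : CoxeterMatrix V) {σ τ : Finset V} (h : σ ⊆ τ) : par M σ ≤ par M τ := by
  refine Subgroup.closure_mono ?_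
  rintro w ⟨v, hv, rfl⟩
  exact ⟨v, h hv, rfl⟩

theorem Sph.mono {M : CoxeterMatrix V} {σ τ : Finset V} (hτ : Sph M τ) (h : σ ⊆ τ) :
    Sph M σ := by
  have : Finite (par M τ) := hτ
  exact Finite.of_injective (Subgroup.inclusion (par_mono M h)) (Subgroup.inclusion_injective _)

theorem par_induction (M : CoxeterMatrix V) (σ : Finset V) {p : M.Group → Prop} (h1 : p 1)
    (hs : ∀ v ∈ σ, ∀ w, p w → p (M.simple v * w)) : ∀ w ∈ par M σ, p w := by
  intro w hw
  have h2 : w ∈ Subgroup.closure {w | ∃ v ∈ σ, w = M.simple v} := hw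
  induction h2 using Subgroup.closure_induction_left with
  | one => exact h1
  | mul_left x hx y hy ih =>
    obtain ⟨v, hv, rfl⟩ := hx
    exact hs v hv y (ih hy)
  | inv_mul_cancel x hx y hy ih =>
    obtain ⟨v, hv, rfl⟩ := hx
    rw [simple_inv]
    exact hs v hv y (ih hy)

open Classical in
/-- the elements of a finite parabolic subgroup -/
noncomputable def parF (M : CoxeterMatrix V) (σ : Finset V) : Finset M.Group :=
  if h : (par M σ : Set M.Group).Finite then h.toFinset else ∅

theorem mem_parF {M : CoxeterMatrix V} {σ : Finset V} (h : Sph M σ) (w : M.Group) :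
    w ∈ parF M σ ↔ w ∈ par M σ := by
  have hf : (par M σ : Set M.Group).Finite := by
    have : Finite (par M σ) := h
    exact Set.toFinite _
  unfold parF
  rw [dif_pos hf, Set.Finite.mem_toFinset]
  exact Iff.rfl

theorem parF_card_pos {M : CoxeterMatrix V} {σ : Finset V} (h : Sph M σ) :
    0 < (parF M σ).card := by
  exact Finset.card_pos.mpr ⟨1, (mem_parF h 1).mpr (one_mem _)⟩

theorem anti_ext (M : CoxeterMatrix V) (σ : Finset V) {H : Type} [Group H] (π : M.Group →* H)
    (c : H → ℂ) (hc : ∀ v ∈ σ, ∀ x, c (x * π (M.simple v)) = -c x) :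
    ∀ u ∈ par M σ, ∀ x, c (x * π u) = (eps M u : ℂ) * c x := by
  refine par_induction M σ ?_ ?_
  · intro x
    rw [map_one, map_one, mul_one, Int.cast_one, one_mul]
  · intro v hv w ih x
    rw [map_mul, map_mul, eps_simple, ← mul_assoc, ih, hc v hv]
    push_cast
    ring

/-- the antisymmetrization over a finite parabolic subgroup -/
noncomputable def altS (M : CoxeterMatrix V) {H : Type} [Group H] (π : M.Group →* H)
    (ρ : Finset V) (h : H → ℂ) (x : H) : ℂ := ∑ u ∈ parF M ρ, (eps M u : ℂ) * h (x * π u)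

theorem altS_anti (M : CoxeterMatrix V) {H : Type} [Group H] (π : M.Group →* H)
    {ρ : Finset V} (hρ : Sph M ρ) (h : H → ℂ) {v : V} (hv : v ∈ ρ) (x : H) :
    altS M π ρ h (x * π (M.simple v)) = -altS M π ρ h x := by
  unfold altS
  rw [← Finset.sum_neg_distrib]
  have hinv : ∀ u, u ∈ parF M ρ → M.simple v * u ∈ parF M ρ := by
    intro u hu
    rw [mem_parF hρ] at hu ⊢
    exact mul_mem (simple_mem_par M hv) hu
  refine Finset.sum_nbij' (fun u => M.simple v * u) (fun u => M.simple v * u) hinv hinv ?_ ?_ ?_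
  · intro u _
    rw [← mul_assoc, simple_sq, one_mul]
  · intro u _
    rw [← mul_assoc, simple_sq, one_mul]
  · intro u _
    rw [map_mul, map_mul, eps_simple, mul_assoc]
    push_cast
    ring

/-- the antisymmetrization with inverses -/
theorem altS_inv (M : CoxeterMatrix V) {H : Type} [Group H] (π : M.Group →* H)
    {ρ : Finset V} (hρ : Sph M ρ) (h : H → ℂ) (x : H) :
    altS M π ρ h x = ∑ u ∈ parF M ρ, (eps M u : ℂ) * h (x * (π u)⁻¹) := by
  unfold altS
  have hinv : ∀ u, u ∈ parF M ρ → u⁻¹ ∈ parF M ρ := by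
    intro u hu
    rw [mem_parF hρ] at hu ⊢
    exact inv_mem hu
  refine Finset.sum_nbij' (fun u => u⁻¹) (fun u => u⁻¹) hinv hinv ?_ ?_ ?_
  · intro u _
    exact inv_inv u
  · intro u _
    exact inv_inv u
  · intro u _
    have h1 : π u⁻¹ = (π u)⁻¹ := map_inv π u
    rw [h1, inv_inv, eps_inv]

end Pool.Agent.H4.FC
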