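import Pool.Agent.H4.FC.TitsAlt

/-!
# Project FC: positivity and faithfulness of the geometric representation

`tits_pos`: strong induction on `ℓ w` (all `w`, `s`). If `w = 1` clear. Otherwise there is a right
descent `t` of `w` (`exists_rightDescent_of_ne_one`), `t ≠ s`. Put `w_0 = w`,
`w_j = w * π (alternatingWord …)⁻¹`, i.e. `w = w_j * π (alternatingWord s t j)`
(`alternatingWord s t j` ends with `t` and alternates): `w_1 = w t`, `w_2 = w t s`, `w_3 = w t s t`, …
Let `k ≥ 1` be the largest number with `ℓ (w_k) = ℓ w - k` (i.e. `ℓ w_k + k = ℓ w`; exists since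
`k ≤ ℓ w`; the property holds for `k = 1`, and if it holds for `k` it holds for all smaller `j`, as
lengths change by one in each step). Let `v = w_k`. The next letter `r` (`s` if `k` odd, `t` if `k` even)
satisfies `ℓ (v r) = ℓ v + 1` by maximality (`w_{k+1} = v r`), and the previous letter `r'` (the other one of
`s`, `t`) satisfies `ℓ (v r') = ℓ w_{k-1} = ℓ v + 1`. So `s` and `t` are not right descents of `v`, and
`ℓ v < ℓ w`. By induction all coordinates of `T(v) α_s`, `T(v) α_t` are `≥ 0`.
Claim: `M s t = 0` or `k < M s t`. If `m = M s t ≠ 0` and `k ≥ m`, then `ℓ w_m + m = ℓ w` and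
`π (alternatingWord s t m) = π (alternatingWord t s m)` (`wordProd_braidWord_eq`, `symmetric`), which ends
with `s`, so `w s = w_m * π (alternatingWord s t (m-1))` (delete the last letter `s`:
`alternatingWord t s m = (alternatingWord s t (m-1)).concat s`) has length `≤ ℓ w_m + m - 1 < ℓ w`,
contradiction to `ℓ (w s) > ℓ w`. So `alt_nonneg` applies:
`T(w) α_s = T(v) (a α_s + b α_t)` is a nonnegative combination.

`tits_injective`: a homomorphism to a monoid is injective if only `1` is mapped to `1` (here `W` is a group:
if `T w = T w'` then `T (w⁻¹ w') = 1`). Let `w ≠ 1`, `s` a right descent, `w' = w s`; `s` is not a right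
descent of `w'`, so `T(w') α_s ≥ 0`, and `T(w) α_s = T(w') T_s α_s = -T(w') α_s ≤ 0`. If `T(w) = 1` then
the `s`-coordinate of `α_s` would be `≤ 0`.
-/

set_option autoImplicit false

open Finset CoxeterSystem

namespace Pool.Agent.H4.FC

variable {V : Type} [Fintype V] [DecidableEq V]

omit [Fintype V] [DecidableEq V] in
/-- the chain `w, w t, w t s, ...` -/
private theorem tp_next (M : CoxeterMatrix V) (w : M.Group) (s t : V) (k : ℕ) :
    w * (M.toCoxeterSystem.wordProd (alternatingWord s t (k + 1)))⁻¹ =
      w * (M.toCoxeterSystem.wordProd (alternatingWord s t k))⁻¹ *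
        M.toCoxeterSystem.simple (if Even k then t else s) := by
  rw [alternatingWord_succ', wordProd_cons, mul_inv_rev, inv_simple, mul_assoc]

theorem tits_pos (M : CoxeterMatrix V) (w : M.Group) (s : V)
    (h : ¬ M.toCoxeterSystem.IsRightDescent w s) (i : V) :
    0 ≤ (titsHom M w).mulVec (Pi.single s 1) i := by
  set cs := M.toCoxeterSystem with hcs
  obtain ⟨n, hn⟩ : ∃ n, n = cs.length w := ⟨_, rfl⟩
  induction n using Nat.strong_induction_on generalizing w s i with
  | _ n ih =>
  by_cases hw : w = 1
  · rw [hw, map_one, Matrix.one_mulVec]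
    by_cases hi : i = s
    · rw [hi, Pi.single_eq_same]; exact zero_le_one
    · rw [Pi.single_eq_of_ne hi]
  obtain ⟨t, ht⟩ := cs.exists_rightDescent_of_ne_one hw
  have hst : s ≠ t := by
    rintro rfl
    exact h ht
  obtain ⟨v, hv⟩ : ∃ v : ℕ → M.Group,
      v = fun k => w * (cs.wordProd (alternatingWord s t k))⁻¹ := ⟨_, rfl⟩
  have hv0 : v 0 = w := by
    rw [hv]
    show w * (cs.wordProd [])⁻¹ = w
    rw [wordProd_nil, inv_one, mul_one]
  have hvs : ∀ k, v (k + 1) = v k * cs.simple (if Even k then t else s) := by
    intro k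
    rw [hv]
    exact tp_next M w s t k
  have hvw : ∀ k, w = v k * cs.wordProd (alternatingWord s t k) := by
    intro k
    rw [hv]
    show w = w * (cs.wordProd (alternatingWord s t k))⁻¹ * cs.wordProd (alternatingWord s t k)
    rw [inv_mul_cancel_right]
  have hP1 : cs.length (v 1) + 1 = cs.length w := by
    have h1 := hvs 0
    rw [hv0] at h1
    have h2 : (if Even 0 then t else s) = t := by simp
    rw [h2] at h1
    have h3 := cs.isRightDescent_iff.mp ht
    rw [zero_add] at h1
    rw [h1]
    exact h3
  have hex : ∃ k, cs.length (v (k + 1)) + (k + 1) ≠ cs.length w :=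
    ⟨cs.length w, by omega⟩
  classical
  obtain ⟨k, hk, hkm⟩ : ∃ k, cs.length (v (k + 1)) + (k + 1) ≠ cs.length w ∧
      ∀ j < k, cs.length (v (j + 1)) + (j + 1) = cs.length w := by
    refine ⟨Nat.find hex, Nat.find_spec hex, ?_⟩
    intro j hj
    have := Nat.find_min hex hj
    push Not at this
    exact this
  have hall : ∀ j ≤ k, cs.length (v j) + j = cs.length w := by
    intro j hj
    rcases j with _ | j
    · rw [hv0, add_zero]
    · exact hkm j (by omega)
  have hk1 : 1 ≤ k := by
    rcases Nat.eq_zero_or_pos k with h0 | h0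
    · exfalso
      rw [h0] at hk
      exact hk hP1
    · exact h0
  obtain ⟨k', rfl⟩ : ∃ k', k = k' + 1 := ⟨k - 1, by omega⟩
  have hlk := hall (k' + 1) le_rfl
  have hd1 : ¬ cs.IsRightDescent (v (k' + 1)) (if Even (k' + 1) then t else s) := by
    intro hd
    have h1 := cs.isRightDescent_iff.mp hd
    rw [← hvs (k' + 1)] at h1
    omega
  have hd2 : ¬ cs.IsRightDescent (v (k' + 1)) (if Even k' then t else s) := by
    intro hd
    have h1 := cs.isRightDescent_iff.mp hd
    have h2 : v (k' + 1) * cs.simple (if Even k' then t else s) = v k' := by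
      rw [hvs k', mul_assoc, simple_mul_simple_self, mul_one]
    rw [h2] at h1
    have h3 := hall k' (by omega)
    omega
  have hds : ¬ cs.IsRightDescent (v (k' + 1)) s ∧ ¬ cs.IsRightDescent (v (k' + 1)) t := by
    by_cases he : Even k'
    · have ho : ¬ Even (k' + 1) := by
        rw [Nat.even_add_one]
        exact not_not.mpr he
      rw [if_neg ho] at hd1
      rw [if_pos he] at hd2
      exact ⟨hd1, hd2⟩
    · have ho : Even (k' + 1) := by
        rw [Nat.even_add_one]
        exact he
      rw [if_pos ho] at hd1
      rw [if_neg he] at hd2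
      exact ⟨hd2, hd1⟩
  have hlt : cs.length (v (k' + 1)) < n := by omega
  have hm : M s t = 0 ∨ k' + 1 < M s t := by
    by_contra hc
    push Not at hc
    obtain ⟨hc1, hc2⟩ := hc
    obtain ⟨m', hm'⟩ : ∃ m', M s t = m' + 1 := ⟨M s t - 1, by omega⟩
    have h1 := hall (M s t) hc2
    have h2 : w = v (M s t) * cs.wordProd (alternatingWord t s (M s t)) := by
      have h3 := cs.wordProd_braidWord_eq s t
      unfold braidWord at h3
      rw [M.symmetric t s] at h3
      rw [← h3]
      exact hvw (M s t)
    have h4 : w * cs.simple s = v (M s t) * cs.wordProd (alternatingWord s t m') := by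
      conv_lhs => rw [h2]
      rw [hm', alternatingWord_succ, wordProd_concat, mul_assoc, mul_assoc,
        simple_mul_simple_self, mul_one]
    have h5 : cs.length (w * cs.simple s) = cs.length w + 1 := cs.not_isRightDescent_iff.mp h
    have h6 := cs.length_mul_le (v (M s t)) (cs.wordProd (alternatingWord s t m'))
    have h7 := cs.length_wordProd_le (alternatingWord s t m')
    rw [length_alternatingWord] at h7
    rw [h4] at h5
    omega
  obtain ⟨a, b, ha, hb, hab⟩ := alt_nonneg M s t hst (k' + 1) hm
  have e : titsHom M w = titsHom M (v (k' + 1)) *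
      titsHom M (cs.wordProd (alternatingWord s t (k' + 1))) := by
    rw [← map_mul, ← hvw (k' + 1)]
  rw [e, ← Matrix.mulVec_mulVec, hab, Matrix.mulVec_add, Matrix.mulVec_smul, Matrix.mulVec_smul,
    Pi.add_apply, Pi.smul_apply, Pi.smul_apply, smul_eq_mul, smul_eq_mul]
  exact add_nonneg (mul_nonneg ha (ih _ hlt _ s i hds.1 rfl))
    (mul_nonneg hb (ih _ hlt _ t i hds.2 rfl))

/-- **The geometric representation is faithful.** -/
theorem tits_injective (M : CoxeterMatrix V) : Function.Injective (titsHom M) := by
  set cs := M.toCoxeterSystem with hcs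
  rw [injective_iff_map_eq_one']
  intro w
  constructor
  · intro h1
    by_contra hw
    obtain ⟨s, hs⟩ := cs.exists_rightDescent_of_ne_one hw
    have hs' : ¬ cs.IsRightDescent (w * cs.simple s) s :=
      cs.isRightDescent_iff_not_isRightDescent_mul.mp hs
    have h2 := tits_pos M (w * cs.simple s) s hs' s
    have h3 : titsHom M (w * cs.simple s) = refl (kR M) s := by
      rw [map_mul, h1, one_mul]
      exact titsHom_simple M s
    rw [h3, refl_mulVec] at h2
    have h4 : ∑ u, kR M s u * (Pi.single s 1 : V → ℝ) u = 2 := by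
      rw [Finset.sum_eq_single s]
      · rw [Pi.single_eq_same, mul_one, kR_self]
      · intro u _ hu
        rw [Pi.single_eq_of_ne hu, mul_zero]
      · intro hu
        exact absurd (Finset.mem_univ s) hu
    rw [h4] at h2
    simp only [Pi.sub_apply, Pi.smul_apply, Pi.single_eq_same, smul_eq_mul, mul_one] at h2
    norm_num at h2
  · rintro rfl
    exact map_one _

end Pool.Agent.H4.FC
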