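import Pool.Agent.H4.FC.TitsRel

/-!
# Project FC: alternating words in the geometric representation

Let `x = s`, `y = t`, `c = -kR M s t` (so `c = 2 cos θ`, `θ = π/m`, `m = M s t`, or `c = 2` if `m = 0`).
Define `a 0 = 0`, `a 1 = 1`, `a (j+2) = c a (j+1) - a j`. Then `a j = sin (jθ) / sin θ` (`m ≥ 2`) resp.
`a j = j` (`m = 0`). `T_t (p α_s + q α_t) = p α_s + (p c - q) α_t` and
`T_s (p α_s + q α_t) = (q c - p) α_s + q α_t`. By induction on `k` (`alternatingWord_succ'`: the new
letter is at the left end, it is `t` if `k` is even and `s` otherwise):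
the word `alternatingWord s t k` maps `α_s` to `a (k+1) α_s + a k α_t` if `k` is even and to
`a k α_s + a (k+1) α_t` if `k` is odd. For `k < m` both coefficients are `≥ 0` (`(k+1) θ ≤ π`,
`sin θ > 0`; `m ≥ 2` as `s ≠ t`, `M.off_diagonal` gives `m ≠ 1`).

`alt_infinite`: if `M s t = 0` then `alternatingWord s t (2 k)` represents `(s t)^k` and maps `α_s` to
`(2k+1) α_s + 2k α_t ≠ α_s` for `k > 0`.
-/

set_option autoImplicit false

open Finset CoxeterSystem

namespace Pool.Agent.H4.FC

variable {V : Type} [Fintype V] [DecidableEq V]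

/-- the coefficients -/
private noncomputable def TitsAlt_a (c : ℝ) : ℕ → ℝ
  | 0 => 0
  | 1 => 1
  | j + 2 => c * TitsAlt_a c (j + 1) - TitsAlt_a c j

private theorem TitsAlt_form (M : CoxeterMatrix V) (s t : V) (hst : s ≠ t) (v : V) (p q : ℝ) :
    ∑ u, kR M v u * (p • (Pi.single s 1 : V → ℝ) + q • (Pi.single t 1 : V → ℝ)) u =
      p * kR M v s + q * kR M v t := by
  have h1 : ∀ u, kR M v u * (p • (Pi.single s 1 : V → ℝ) + q • (Pi.single t 1 : V → ℝ)) u =
      (if u = s then p * kR M v s else 0) + (if u = t then q * kR M v t else 0) := by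
    intro u
    simp only [Pi.add_apply, Pi.smul_apply, smul_eq_mul, Pi.single_apply]
    by_cases hs : u = s
    · subst hs
      simp [hst, mul_comm]
    · by_cases ht : u = t
      · subst ht
        simp [hs, mul_comm]
      · simp [hs, ht]
  rw [Finset.sum_congr rfl fun u _ => h1 u, Finset.sum_add_distrib]
  simp

private theorem TitsAlt_t (M : CoxeterMatrix V) (s t : V) (hst : s ≠ t) (p q : ℝ) :
    (refl (kR M) t).mulVec (p • (Pi.single s 1 : V → ℝ) + q • (Pi.single t 1 : V → ℝ)) =
      p • (Pi.single s 1 : V → ℝ) + (-kR M s t * p - q) • (Pi.single t 1 : V → ℝ) := by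
  rw [refl_mulVec, TitsAlt_form M s t hst, kR_self, kR_symm M t s]
  module

private theorem TitsAlt_s (M : CoxeterMatrix V) (s t : V) (hst : s ≠ t) (p q : ℝ) :
    (refl (kR M) s).mulVec (p • (Pi.single s 1 : V → ℝ) + q • (Pi.single t 1 : V → ℝ)) =
      (-kR M s t * q - p) • (Pi.single s 1 : V → ℝ) + q • (Pi.single t 1 : V → ℝ) := by
  rw [refl_mulVec, TitsAlt_form M s t hst, kR_self]
  module

private theorem TitsAlt_word (M : CoxeterMatrix V) (s t : V) (hst : s ≠ t) (k : ℕ) :
    (titsHom M (M.toCoxeterSystem.wordProd (alternatingWord s t k))).mulVec (Pi.single s 1) =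
      if Even k then TitsAlt_a (-kR M s t) (k + 1) • (Pi.single s 1 : V → ℝ) +
        TitsAlt_a (-kR M s t) k • (Pi.single t 1 : V → ℝ)
      else TitsAlt_a (-kR M s t) k • (Pi.single s 1 : V → ℝ) +
        TitsAlt_a (-kR M s t) (k + 1) • (Pi.single t 1 : V → ℝ) := by
  induction k with
  | zero =>
    have h0 : M.toCoxeterSystem.wordProd (alternatingWord s t 0) = 1 := by simp [alternatingWord]
    rw [h0, map_one, Matrix.one_mulVec, if_pos (by simp)]
    simp [TitsAlt_a]
  | succ k ih =>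
    rw [alternatingWord_succ', wordProd_cons, map_mul, ← Matrix.mulVec_mulVec, ih]
    by_cases hk : Even k
    · have hk' : ¬ Even (k + 1) := by
        rw [Nat.even_add_one]
        exact fun h => h hk
      rw [if_pos hk, if_pos hk, if_neg hk', titsHom_simple, TitsAlt_t M s t hst]
      rfl
    · have hk' : Even (k + 1) := by
        rw [Nat.even_add_one]
        exact hk
      rw [if_neg hk, if_neg hk, if_pos hk', titsHom_simple, TitsAlt_s M s t hst]
      rfl

private theorem TitsAlt_two (j : ℕ) : TitsAlt_a 2 j = j ∧ TitsAlt_a 2 (j + 1) = j + 1 := by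
  induction j with
  | zero => simp [TitsAlt_a]
  | succ j ih =>
    refine ⟨by push_cast; exact ih.2, ?_⟩
    rw [TitsAlt_a, ih.1, ih.2]
    push_cast
    ring

private theorem TitsAlt_sin (θ : ℝ) (j : ℕ) :
    TitsAlt_a (2 * Real.cos θ) j * Real.sin θ = Real.sin (j * θ) ∧
      TitsAlt_a (2 * Real.cos θ) (j + 1) * Real.sin θ = Real.sin ((j + 1 : ℕ) * θ) := by
  induction j with
  | zero => simp [TitsAlt_a]
  | succ j ih =>
    refine ⟨ih.2, ?_⟩
    rw [TitsAlt_a, sub_mul, ih.1, mul_assoc, ih.2]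
    have h1 : ((j + 1 + 1 : ℕ) : ℝ) * θ = (j + 1 : ℕ) * θ + θ := by push_cast; ring
    have h2 : (j : ℝ) * θ = (j + 1 : ℕ) * θ - θ := by push_cast; ring
    rw [h1, h2, Real.sin_add, Real.sin_sub]
    ring

omit [Fintype V] [DecidableEq V] in
private theorem TitsAlt_pos (M : CoxeterMatrix V) (s t : V) (hst : s ≠ t) (j : ℕ)
    (hj : M s t = 0 ∨ j ≤ M s t) : 0 ≤ TitsAlt_a (-kR M s t) j := by
  by_cases h0 : M s t = 0
  · have h1 : -kR M s t = 2 := by simp [kR, h0]
    rw [h1, (TitsAlt_two j).1]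
    positivity
  · have hj' : j ≤ M s t := hj.resolve_left h0
    have h1 : -kR M s t = 2 * Real.cos (Real.pi / M s t) := by simp [kR, h0]
    have hm1 : M s t ≠ 1 := M.off_diagonal s t hst
    have hm2 : 2 ≤ M s t := by omega
    have hm : (0 : ℝ) < M s t := by
      have : 0 < M s t := by omega
      exact_mod_cast this
    have hm2' : (2 : ℝ) ≤ M s t := by exact_mod_cast hm2
    have hθ : 0 < Real.pi / M s t := div_pos Real.pi_pos hm
    have hθ2 : Real.pi / M s t < Real.pi := by
      rw [div_lt_iff₀ hm]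
      have := Real.pi_pos
      nlinarith
    have hs := Real.sin_pos_of_pos_of_lt_pi hθ hθ2
    have h2 : 0 ≤ Real.sin (j * (Real.pi / M s t)) := by
      apply Real.sin_nonneg_of_nonneg_of_le_pi (by positivity)
      rw [← mul_div_assoc, div_le_iff₀ hm, mul_comm]
      exact mul_le_mul_of_nonneg_left (by exact_mod_cast hj') Real.pi_pos.le
    rw [h1]
    rw [← (TitsAlt_sin _ j).1] at h2
    exact nonneg_of_mul_nonneg_left h2 hs

theorem alt_nonneg (M : CoxeterMatrix V) (s t : V) (hst : s ≠ t) (k : ℕ)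
    (hk : M s t = 0 ∨ k < M s t) :
    ∃ a b : ℝ, 0 ≤ a ∧ 0 ≤ b ∧
      (titsHom M (M.toCoxeterSystem.wordProd (alternatingWord s t k))).mulVec (Pi.single s 1) =
        a • (Pi.single s 1 : V → ℝ) + b • (Pi.single t 1 : V → ℝ) := by
  have h1 := TitsAlt_pos M s t hst k (hk.imp_right le_of_lt)
  have h2 := TitsAlt_pos M s t hst (k + 1) (hk.imp_right id)
  rw [TitsAlt_word M s t hst k]
  by_cases hk' : Even k
  · rw [if_pos hk']
    exact ⟨_, _, h2, h1, rfl⟩
  · rw [if_neg hk']
    exact ⟨_, _, h1, h2, rfl⟩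

theorem alt_infinite (M : CoxeterMatrix V) (s t : V) (hst : s ≠ t) (h : M s t = 0) (k : ℕ)
    (hk : 0 < k) :
    (M.toCoxeterSystem.simple s * M.toCoxeterSystem.simple t) ^ k ≠ 1 := by
  intro h1
  have h2 := TitsAlt_word M s t hst (2 * k)
  rw [prod_alternatingWord_eq_mul_pow, if_pos (by simp), if_pos (by simp), one_mul,
    Nat.mul_div_cancel_left k (by norm_num), h1, map_one, Matrix.one_mulVec] at h2
  have h3 : -kR M s t = 2 := by simp [kR, h]
  rw [h3, (TitsAlt_two (2 * k)).1, (TitsAlt_two (2 * k)).2] at h2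
  have h4 := congrFun h2 t
  simp [hst.symm] at h4
  omega

end Pool.Agent.H4.FC
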