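import Pool.Agent.H4.FC.ParFin
import Pool.Agent.H4.FC.TitsAlt

/-!
# Project FC: the nerve in dihedral type

If `σ` is spherical and `u ≠ v` are in `σ`, `M u v = 0`, then `k ↦ (s_u s_v)^k` is an injective map from
`ℕ` to the finite set `par M σ`: if `(s_u s_v)^j = (s_u s_v)^k` with `j < k` then
`(s_u s_v)^(k-j) = 1`, contradicting `alt_infinite`. The converse is `par_finite`.
-/

set_option autoImplicit false

open Finset

namespace Pool.Agent.H4.FC

open Pool.Agent.H85.Fold

variable {V : Type} [Fintype V] [DecidableEq V]

theorem sph_cl (M : CoxeterMatrix V) (σ : Finset V) (h : Sph M σ) : Cl (gr M) σ := by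
  intro u hu v hv huv
  refine ⟨huv, fun h0 => ?_⟩
  have hfin : Finite (par M σ) := h
  have hr : M.simple u * M.simple v ∈ par M σ :=
    mul_mem (simple_mem_par M hu) (simple_mem_par M hv)
  have key : ∀ j k : ℕ, j < k → (M.simple u * M.simple v) ^ j ≠ (M.simple u * M.simple v) ^ k := by
    intro j k hjk he
    refine alt_infinite M u v huv h0 (k - j) (Nat.sub_pos_of_lt hjk) ?_
    have e : k = j + (k - j) := by omega
    rw [e, pow_add] at he
    exact (mul_eq_left.mp he.symm)
  have hinj : Function.Injective
      (fun k : ℕ => (⟨(M.simple u * M.simple v) ^ k, pow_mem hr k⟩ : par M σ)) := by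
    intro j k hjk
    have he : (M.simple u * M.simple v) ^ j = (M.simple u * M.simple v) ^ k :=
      congrArg Subtype.val hjk
    rcases lt_trichotomy j k with h1 | h1 | h1
    · exact absurd he (key j k h1)
    · exact h1
    · exact absurd he.symm (key k j h1)
  exact not_injective_infinite_finite _ hinj

theorem sph_iff (M : CoxeterMatrix V) (hM : IsDih M) (σ : Finset V) :
    Sph M σ ↔ Cl (gr M) σ := by
  exact ⟨sph_cl M σ, par_finite M hM σ⟩

end Pool.Agent.H4.FC
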