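import Pool.Agent.H4.FC.AdjL
import Pool.Agent.H4.Singer.L2Hodge

/-!
# Project FC: harmonic `ℓ²`-chains and reduced homology

Modelled on `Pool.Agent.H4.Singer.L2Hodge` (its lemmas `l2h_mem_iff`, `l2h_sum`, `l2h_mul`, `l2h_add`,
`l2h_sub`, `l2h_prod`, `l2h_slice`, `l2h_norm`, `l2h_inner`, `l2hEv` on square summable functions are public and
generic; the others must be adapted: replace `RGrp G` by `M.Group`, `gen G v` by `M.simple v`,
`G.IsClique σ` by `Sph M σ`, `h (w) - h (w * gen v)` by `altS`, `adj_identity` by `adj_identityL` with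
`π = MonoidHom.id`). The coboundary `c ρ w = ∑_{v∈ρ} ± altS M id ρ (x (ρ.erase v)) w` for spherical `ρ` with
`i + 1` elements (zero otherwise) is an `ℓ²`-chain of degree `i + 1` (`altS_anti`; finite sums of
translates), and for `h` orthogonal to the boundaries
`0 = ⟨h, dbd c⟩ = ∑_ρ (1 / |W_ρ|) ‖c ρ‖²`, so `c = 0`. That the boundary of an `ℓ²`-chain is one uses
`Sph.mono`. `dbd ν (dbd ν y) = 0`: as for `dl_dl` (`Pool.Agent.H4.Singer.ActBasic`, which holds for
functions on an arbitrary set).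
-/

set_option autoImplicit false
set_option linter.unusedSectionVars false

open Finset

namespace Pool.Agent.H4.FC

variable {V : Type} [Fintype V] [DecidableEq V]

/-- Harmonic `ℓ²`-chains: kernel of the boundary and of the coboundary. -/
structure IsHarmL (M : CoxeterMatrix V) (ν : V → ℕ) (i : ℕ) (x : Finset V → M.Group → ℂ) :
    Prop where
  chain : IsL2Chain M i x
  cyc : dbd ν x = 0
  cocyc : ∀ (ρ : Finset V) (w : M.Group), Sph M ρ → ρ.card = i + 1 →
    ∑ v ∈ ρ, (-1 : ℂ) ^ ((ρ.erase v).filter fun u => ν u < ν v).card *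
      altS M (MonoidHom.id M.Group) ρ (x (ρ.erase v)) w = 0

/-! ### chains -/

private lemma hl_dbd_eq {M : CoxeterMatrix V} (ν : V → ℕ) (f : Finset V → M.Group → ℂ) :
    dbd ν f = Singer.dl ℂ ν f := by
  funext τ w
  rw [Singer.dl_apply]
  unfold dbd Singer.sg
  refine Finset.sum_congr rfl fun v _ => ?_
  push_cast
  rfl

private lemma hl_dbd_l2 {M : CoxeterMatrix V} (ν : V → ℕ) {f : Finset V → M.Group → ℂ}
    (hf : ∀ σ, Summable fun w => ‖f σ w‖ ^ 2) (τ : Finset V) :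
    Summable fun w => ‖dbd ν f τ w‖ ^ 2 :=
  Singer.l2h_sum _ _ fun v _ => Singer.l2h_mul _ (hf (insert v τ))

private lemma hl_chain_add {M : CoxeterMatrix V} {i : ℕ} {f g : Finset V → M.Group → ℂ}
    (hf : IsL2Chain M i f) (hg : IsL2Chain M i g) : IsL2Chain M i (f + g) where
  supp σ w h := by
    by_cases h1 : f σ w = 0
    · by_cases h2 : g σ w = 0
      · exact absurd (by simp [h1, h2]) h
      · exact hg.supp σ w h2
    · exact hf.supp σ w h1
  anti σ v hv w := by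
    simp only [Pi.add_apply]
    rw [hf.anti σ v hv w, hg.anti σ v hv w]
    ring
  l2 σ := Singer.l2h_add (hf.l2 σ) (hg.l2 σ)

private lemma hl_chain_smul {M : CoxeterMatrix V} {i : ℕ} (a : ℂ) {f : Finset V → M.Group → ℂ}
    (hf : IsL2Chain M i f) : IsL2Chain M i (a • f) where
  supp σ w h := hf.supp σ w (right_ne_zero_of_mul h)
  anti σ v hv w := by
    simp only [Pi.smul_apply, smul_eq_mul]
    rw [hf.anti σ v hv w]
    ring
  l2 σ := Singer.l2h_mul a (hf.l2 σ)

private lemma hl_chain_zero {M : CoxeterMatrix V} {i : ℕ} :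
    IsL2Chain M i (0 : Finset V → M.Group → ℂ) where
  supp σ w h := absurd rfl h
  anti σ v hv w := by simp
  l2 σ := by simp

/-- boundaries -/
private noncomputable def hlB (M : CoxeterMatrix V) (ν : V → ℕ) (i : ℕ) :
    Submodule ℂ (lp (fun _ : Finset V × M.Group => ℂ) 2) where
  carrier := {e | ∃ y : Finset V → M.Group → ℂ, IsL2Chain M (i + 1) y ∧
    ∀ σ w, e (σ, w) = dbd ν y σ w}
  zero_mem' := ⟨0, hl_chain_zero, fun σ w => by simp [dbd]⟩
  add_mem' := by
    rintro e e' ⟨y, hy, h⟩ ⟨y', hy', h'⟩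
    refine ⟨y + y', hl_chain_add hy hy', fun σ w => ?_⟩
    rw [hl_dbd_eq, map_add, ← hl_dbd_eq, ← hl_dbd_eq]
    show e (σ, w) + e' (σ, w) = dbd ν y σ w + dbd ν y' σ w
    rw [h, h']
  smul_mem' := by
    rintro a e ⟨y, hy, h⟩
    refine ⟨a • y, hl_chain_smul a hy, fun σ w => ?_⟩
    rw [hl_dbd_eq, map_smul, ← hl_dbd_eq]
    show a * e (σ, w) = a * dbd ν y σ w
    rw [h]

/-- cycles -/
private noncomputable def hlT (M : CoxeterMatrix V) (ν : V → ℕ) (i : ℕ) :
    Submodule ℂ (lp (fun _ : Finset V × M.Group => ℂ) 2) where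
  carrier := {e | (∀ (σ : Finset V) (w : M.Group),
      ¬ (Sph M σ ∧ σ.card = i) → e (σ, w) = 0) ∧
    (∀ (σ : Finset V), ∀ v ∈ σ, ∀ w : M.Group, e (σ, w * M.simple v) = - e (σ, w)) ∧
    ∀ (τ : Finset V) (w : M.Group), ∑ v ∈ τᶜ, (-1 : ℂ) ^ (τ.filter fun u => ν u < ν v).card * e (insert v τ, w) = 0}
  zero_mem' := by
    refine ⟨fun σ w _ => rfl, fun σ v _ w => ?_, fun τ w => ?_⟩
    · show (0 : ℂ) = - 0
      simp
    · refine Finset.sum_eq_zero fun v _ => ?_
      show _ * (0 : ℂ) = 0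
      simp
  add_mem' := by
    rintro e e' ⟨h1, h2, h3⟩ ⟨h1', h2', h3'⟩
    refine ⟨fun σ w h => ?_, fun σ v hv w => ?_, fun τ w => ?_⟩
    · show e (σ, w) + e' (σ, w) = 0
      rw [h1 σ w h, h1' σ w h, add_zero]
    · show e (σ, w * M.simple v) + e' (σ, w * M.simple v) = - (e (σ, w) + e' (σ, w))
      rw [h2 σ v hv w, h2' σ v hv w]
      ring
    · show ∑ v ∈ τᶜ, (-1 : ℂ) ^ (τ.filter fun u => ν u < ν v).card *
        (e (insert v τ, w) + e' (insert v τ, w)) = 0
      simp only [mul_add, Finset.sum_add_distrib]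
      rw [h3, h3', add_zero]
  smul_mem' := by
    rintro a e ⟨h1, h2, h3⟩
    refine ⟨fun σ w h => ?_, fun σ v hv w => ?_, fun τ w => ?_⟩
    · show a * e (σ, w) = 0
      rw [h1 σ w h, mul_zero]
    · show a * e (σ, w * M.simple v) = - (a * e (σ, w))
      rw [h2 σ v hv w]
      ring
    · show ∑ v ∈ τᶜ, (-1 : ℂ) ^ (τ.filter fun u => ν u < ν v).card *
        (a * e (insert v τ, w)) = 0
      have := h3 τ w
      calc _ = a * ∑ v ∈ τᶜ, (-1 : ℂ) ^ (τ.filter fun u => ν u < ν v).card *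
            e (insert v τ, w) := by
            rw [Finset.mul_sum]
            exact Finset.sum_congr rfl fun v _ => by ring
        _ = 0 := by rw [this, mul_zero]

private lemma hlT_closed (M : CoxeterMatrix V) (ν : V → ℕ) (i : ℕ) :
    IsClosed (hlT M ν i : Set (lp (fun _ : Finset V × M.Group => ℂ) 2)) := by
  have h : (hlT M ν i : Set (lp (fun _ : Finset V × M.Group => ℂ) 2)) =
      ((⋂ σ : Finset V, ⋂ w : M.Group, ⋂ _ : ¬ (Sph M σ ∧ σ.card = i),
        {e | Singer.l2hEv (σ, w) e = 0}) ∩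
      (⋂ σ : Finset V, ⋂ v : V, ⋂ _ : v ∈ σ, ⋂ w : M.Group,
        {e | Singer.l2hEv (σ, w * M.simple v) e = - Singer.l2hEv (σ, w) e})) ∩
      (⋂ τ : Finset V, ⋂ w : M.Group,
        {e | ∑ v ∈ τᶜ, (-1 : ℂ) ^ (τ.filter fun u => ν u < ν v).card *
          Singer.l2hEv (insert v τ, w) e = 0}) := by
    ext e
    simp only [Set.mem_inter_iff, Set.mem_iInter, Set.mem_ofPred_eq, Singer.l2hEv_apply]
    constructor
    · rintro ⟨h1, h2, h3⟩
      exact ⟨⟨h1, fun σ v hv w => h2 σ v hv w⟩, h3⟩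
    · rintro ⟨⟨h1, h2⟩, h3⟩
      exact ⟨h1, fun σ v hv w => h2 σ v hv w, h3⟩
  rw [h]
  refine (IsClosed.inter ?_ ?_).inter ?_
  · refine isClosed_iInter fun σ => isClosed_iInter fun w => isClosed_iInter fun _ => ?_
    exact isClosed_eq (Singer.l2hEv _).continuous continuous_const
  · refine isClosed_iInter fun σ => isClosed_iInter fun v => isClosed_iInter fun _ =>
      isClosed_iInter fun w => ?_
    exact isClosed_eq (Singer.l2hEv _).continuous (Singer.l2hEv _).continuous.neg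
  · refine isClosed_iInter fun τ => isClosed_iInter fun w => ?_
    refine isClosed_eq ?_ continuous_const
    exact continuous_finsetSum _ fun v _ => continuous_const.mul (Singer.l2hEv _).continuous

private lemma hlB_le (M : CoxeterMatrix V) (ν : V → ℕ) (hν : Function.Injective ν) (i : ℕ) :
    hlB M ν i ≤ hlT M ν i := by
  rintro e ⟨y, hy, h⟩
  refine ⟨fun σ w hσ => ?_, fun σ v hv w => ?_, fun τ w => ?_⟩
  · rw [h]
    unfold dbd
    refine Finset.sum_eq_zero fun v hv => ?_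
    rw [Finset.mem_compl] at hv
    by_contra hne
    obtain ⟨h1, h2⟩ := hy.supp _ _ (right_ne_zero_of_mul hne)
    apply hσ
    refine ⟨h1.mono (Finset.subset_insert _ _), ?_⟩
    rw [Finset.card_insert_of_notMem hv] at h2
    omega
  · rw [h, h]
    unfold dbd
    rw [← Finset.sum_neg_distrib]
    refine Finset.sum_congr rfl fun u _ => ?_
    rw [hy.anti (insert u σ) v (mem_insert_of_mem hv)]
    ring
  · have h1 := congrFun (congrFun (Singer.dl_dl (F := ℂ) ν hν y) τ) w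
    rw [← hl_dbd_eq, ← hl_dbd_eq] at h1
    simp only [Pi.zero_apply] at h1
    rw [← h1]
    show _ = ∑ v ∈ τᶜ, (-1 : ℂ) ^ (τ.filter fun u => ν u < ν v).card * dbd ν y (insert v τ) w
    exact Finset.sum_congr rfl fun v _ => by rw [h]

open Classical in
/-- the coboundary, restricted to cliques with `i + 1` elements -/
private noncomputable def hlC (M : CoxeterMatrix V) (ν : V → ℕ) (i : ℕ) (x : Finset V → M.Group → ℂ) :
    Finset V → M.Group → ℂ := fun ρ w =>
  if Sph M ρ ∧ ρ.card = i + 1 then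
    ∑ v ∈ ρ, (-1 : ℂ) ^ ((ρ.erase v).filter fun u => ν u < ν v).card *
      altS M (MonoidHom.id M.Group) ρ (x (ρ.erase v)) w else 0

private lemma hlC_chain (M : CoxeterMatrix V) (ν : V → ℕ) (i : ℕ) {x : Finset V → M.Group → ℂ}
    (hx : IsL2Chain M i x) : IsL2Chain M (i + 1) (hlC M ν i x) where
  supp σ w h := by
    unfold hlC at h
    by_contra hcon
    rw [if_neg hcon] at h
    exact h rfl
  anti ρ u hu w := by
    unfold hlC
    by_cases hρ : Sph M ρ ∧ ρ.card = i + 1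
    · rw [if_pos hρ, if_pos hρ, ← Finset.sum_neg_distrib]
      refine Finset.sum_congr rfl fun v hv => ?_
      have h1 := altS_anti M (MonoidHom.id M.Group) hρ.1 (x (ρ.erase v)) hu w
      have h2 : altS M (MonoidHom.id M.Group) ρ (x (ρ.erase v)) (w * M.simple u) =
          -altS M (MonoidHom.id M.Group) ρ (x (ρ.erase v)) w := h1
      rw [h2]
      ring
    · rw [if_neg hρ, if_neg hρ, neg_zero]
  l2 ρ := by
    unfold hlC
    by_cases hρ : Sph M ρ ∧ ρ.card = i + 1
    · simp only [if_pos hρ]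
      refine Singer.l2h_sum _ _ fun v _ => Singer.l2h_mul _ ?_
      unfold altS
      refine Singer.l2h_sum _ _ fun u _ => Singer.l2h_mul _ ?_
      exact (Equiv.mulRight u).summable_iff (f := fun w => ‖x (ρ.erase v) w‖ ^ 2) |>.2
        (hx.l2 _)
    · simp only [if_neg hρ]
      simp

private lemma hl_harm (M : CoxeterMatrix V) (ν : V → ℕ) (i : ℕ)
    (h : lp (fun _ : Finset V × M.Group => ℂ) 2) (hT : h ∈ hlT M ν i)
    (hperp : ∀ e ∈ hlB M ν i, inner ℂ h e = 0) : IsHarmL M ν i (fun σ w => h (σ, w)) := by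
  classical
  obtain ⟨x, hx⟩ : ∃ x : Finset V → M.Group → ℂ, x = fun σ w => h (σ, w) := ⟨_, rfl⟩
  have hxa : ∀ σ w, h (σ, w) = x σ w := fun σ w => by rw [hx]
  rw [← hx]
  obtain ⟨hT1, hT2, hT3⟩ := hT
  have hxc : IsL2Chain M i x :=
    { supp := fun σ w hne => by
        by_contra hcon
        apply hne
        rw [← hxa]
        exact hT1 σ w hcon
      anti := fun σ v hv w => by
        rw [← hxa, ← hxa]
        exact hT2 σ v hv w
      l2 := fun σ => by
        have := Singer.l2h_slice h σ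
        simp only [hxa] at this
        exact this }
  have hcyc : dbd ν x = 0 := by
    funext τ w
    have := hT3 τ w
    simp only [hxa] at this
    exact this
  obtain ⟨c, hc⟩ : ∃ c, c = hlC M ν i x := ⟨_, rfl⟩
  have hcc : IsL2Chain M (i + 1) c := by
    rw [hc]
    exact hlC_chain M ν i hxc
  obtain ⟨dE, hdEa⟩ : ∃ dE : lp (fun _ : Finset V × M.Group => ℂ) 2,
      ∀ σ w, dE (σ, w) = dbd ν c σ w :=
    ⟨⟨fun p => dbd ν c p.1 p.2, Singer.l2h_prod (dbd ν c) (hl_dbd_l2 ν hcc.l2)⟩, fun _ _ => rfl⟩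
  have hdE : dE ∈ hlB M ν i := ⟨c, hcc, hdEa⟩
  have hinner : inner ℂ h dE = 0 := hperp dE hdE
  rw [Singer.l2h_inner h dE] at hinner
  have hsph : ∀ ρ, c ρ ≠ 0 → Sph M ρ := by
    intro ρ hne
    by_contra hcon
    apply hne
    funext w
    by_contra hw
    exact hcon (hcc.supp ρ w hw).1
  have key := adj_identityL M (MonoidHom.id M.Group) ν x c hxc.l2 hcc.l2 hsph
    (fun ρ v hv w => hcc.anti ρ v hv w)
  have e1 : ∑ τ : Finset V, ∑' w, (starRingEnd ℂ) (x τ w) *
      (∑ v ∈ τᶜ, (-1 : ℂ) ^ (τ.filter fun u => ν u < ν v).card * c (insert v τ) w) = 0 := by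
    rw [← hinner]
    refine Finset.sum_congr rfl fun τ _ => tsum_congr fun w => ?_
    rw [hdEa, hxa]
    rfl
  rw [e1] at key
  have e2 : ∀ ρ w, (starRingEnd ℂ)
        (∑ v ∈ ρ, (-1 : ℂ) ^ ((ρ.erase v).filter fun u => ν u < ν v).card *
          altS M (MonoidHom.id M.Group) ρ (x (ρ.erase v)) w) * c ρ w =
        ((‖c ρ w‖ ^ 2 : ℝ) : ℂ) := by
    intro ρ w
    have hsq : ∀ z : ℂ, (starRingEnd ℂ) z * z = ((‖z‖ ^ 2 : ℝ) : ℂ) := by
      intro z
      rw [mul_comm, Complex.mul_conj, Complex.normSq_eq_norm_sq]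
    by_cases hρ : Sph M ρ ∧ ρ.card = i + 1
    · have : c ρ w = ∑ v ∈ ρ, (-1 : ℂ) ^ ((ρ.erase v).filter fun u => ν u < ν v).card *
          altS M (MonoidHom.id M.Group) ρ (x (ρ.erase v)) w := by
        simp only [hc, hlC]
        rw [if_pos hρ]
      rw [← this]
      exact hsq _
    · have : c ρ w = 0 := by
        simp only [hc, hlC]
        rw [if_neg hρ]
      rw [this]
      simp
  simp only [e2] at key
  have key2 : ∑ ρ : Finset V, (1 / ((parF M ρ).card : ℝ)) * ∑' w, ‖c ρ w‖ ^ 2 = 0 := by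
    have h2 : ((∑ ρ : Finset V, (1 / ((parF M ρ).card : ℝ)) * ∑' w, ‖c ρ w‖ ^ 2 : ℝ) : ℂ) = 0 := by
      rw [key]
      push_cast
      rfl
    exact_mod_cast h2
  have hc0 : ∀ ρ w, c ρ w = 0 := by
    intro ρ w
    by_cases hρ : Sph M ρ
    · have h1 := (Finset.sum_eq_zero_iff_of_nonneg (fun ρ _ => mul_nonneg
        (div_nonneg zero_le_one (Nat.cast_nonneg _))
        (tsum_nonneg fun w => sq_nonneg ‖c ρ w‖))).1 key2 ρ (mem_univ ρ)
      have hpos : (0 : ℝ) < 1 / ((parF M ρ).card : ℝ) :=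
        div_pos one_pos (Nat.cast_pos.mpr (parF_card_pos hρ))
      have h1' : ∑' w, ‖c ρ w‖ ^ 2 = 0 := (mul_eq_zero.1 h1).resolve_left hpos.ne'
      have h2 := (hcc.l2 ρ).hasSum
      rw [h1'] at h2
      have h3 := (hasSum_zero_iff_of_nonneg fun w => sq_nonneg ‖c ρ w‖).1 h2
      have h4 := congrFun h3 w
      simpa using h4
    · by_contra hw
      exact hρ (hcc.supp ρ w hw).1
  exact
    { chain := hxc
      cyc := hcyc
      cocyc := fun ρ w h1 h2 => by
        have h3 := hc0 ρ w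
        simp only [hc, hlC] at h3
        rw [if_pos ⟨h1, h2⟩] at h3
        exact h3 }

private lemma hl_closure (M : CoxeterMatrix V) (ν : V → ℕ) (hν : Function.Injective ν) (i : ℕ)
    (h0 : ∀ x : Finset V → M.Group → ℂ, IsHarmL M ν i x → x = 0)
    (zE : lp (fun _ : Finset V × M.Group => ℂ) 2) (hzT : zE ∈ hlT M ν i) :
    zE ∈ (hlB M ν i).topologicalClosure := by
  obtain ⟨B, hB⟩ : ∃ B, B = (hlB M ν i).topologicalClosure := ⟨_, rfl⟩
  rw [← hB]
  have hcl : IsClosed (B : Set (lp (fun _ : Finset V × M.Group => ℂ) 2)) := by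
    rw [hB]
    exact (hlB M ν i).isClosed_topologicalClosure
  have : CompleteSpace B := hcl.completeSpace_coe
  have hBT : B ≤ hlT M ν i := by
    rw [hB]
    exact Submodule.topologicalClosure_minimal _ (hlB_le M ν hν i) (hlT_closed M ν i)
  have hBB : hlB M ν i ≤ B := by
    rw [hB]
    exact Submodule.le_topologicalClosure _
  obtain ⟨b, hb⟩ : ∃ b, b = B.starProjection zE := ⟨_, rfl⟩
  have hbB : b ∈ B := by
    rw [hb]
    exact Submodule.starProjection_apply_mem B zE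
  have hperp : zE - b ∈ Bᗮ := by
    rw [hb]
    exact Submodule.sub_starProjection_mem_orthogonal zE
  have hT : zE - b ∈ hlT M ν i := (hlT M ν i).sub_mem hzT (hBT hbB)
  have hharm := hl_harm M ν i (zE - b) hT
    (fun e he => (Submodule.mem_orthogonal' B (zE - b)).1 hperp e (hBB he))
  have hx0 := h0 _ hharm
  have hh0 : zE - b = 0 := by
    ext p
    exact congrFun (congrFun hx0 p.1) p.2
  rw [sub_eq_zero] at hh0
  rw [hh0]
  exact hbB

/-- **Hodge decomposition.** -/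
theorem l2_hodgeL (M : CoxeterMatrix V) (ν : V → ℕ) (hν : Function.Injective ν) (i : ℕ)
    (h0 : ∀ x : Finset V → M.Group → ℂ, IsHarmL M ν i x → x = 0)
    (z : Finset V → M.Group → ℂ) (hz : IsL2Chain M i z) (hdz : dbd ν z = 0) (ε : ℝ)
    (hε : 0 < ε) :
    ∃ y : Finset V → M.Group → ℂ, IsL2Chain M (i + 1) y ∧
      ∑ σ, ∑' w, ‖z σ w - dbd ν y σ w‖ ^ 2 < ε := by
  obtain ⟨zE, hzE⟩ : ∃ zE : lp (fun _ : Finset V × M.Group => ℂ) 2, ∀ σ w, zE (σ, w) = z σ w :=
    ⟨⟨fun p => z p.1 p.2, Singer.l2h_prod z hz.l2⟩, fun _ _ => rfl⟩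
  have hzT : zE ∈ hlT M ν i := by
    refine ⟨fun σ w h => ?_, fun σ v hv w => ?_, fun τ w => ?_⟩
    · rw [hzE]
      by_contra hne
      exact h (hz.supp σ w hne)
    · rw [hzE, hzE]
      exact hz.anti σ v hv w
    · simp only [hzE]
      exact congrFun (congrFun hdz τ) w
  have hcl : zE ∈ closure (hlB M ν i : Set (lp (fun _ : Finset V × M.Group => ℂ) 2)) :=
    hl_closure M ν hν i h0 zE hzT
  rw [Metric.mem_closure_iff] at hcl
  obtain ⟨e, ⟨y, hy, hey⟩, hdist⟩ := hcl (Real.sqrt ε) (Real.sqrt_pos.2 hε)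
  refine ⟨y, hy, ?_⟩
  rw [dist_eq_norm] at hdist
  have hn := Singer.l2h_norm (zE - e)
  have e3 : ∑ σ, ∑' w, ‖z σ w - dbd ν y σ w‖ ^ 2 = ∑ σ, ∑' w, ‖(zE - e) (σ, w)‖ ^ 2 := by
    refine Finset.sum_congr rfl fun σ _ => tsum_congr fun w => ?_
    have e4 : (zE - e) (σ, w) = zE (σ, w) - e (σ, w) := rfl
    rw [e4, hzE, hey]
  rw [e3, ← hn]
  calc ‖zE - e‖ ^ 2 < Real.sqrt ε ^ 2 := pow_lt_pow_left₀ hdist (norm_nonneg _) two_ne_zero
    _ = ε := Real.sq_sqrt hε.le


end Pool.Agent.H4.FC
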