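import Pool.Agent.H4.FC.DropL

/-!
# Project FC: Betti numbers over the complex numbers and modulo an odd prime

`D = Unit`, all matrices `1`; `exists_matsL` for `A v = 1` (note `mc K (fun _ => 1) = fun _ => 1`) in the
degrees `i` and `i + 1`, and `finrank_YB`.
`bP K = dim YZ_i - dim YB_i = dim YZ_i + dim YZ_{i+1} - dim YCh_{i+1}`.
(1) `dim_ℂ YZ_j ≤ dim_{𝔽_p} YZ_j`: the rank of an integer matrix over `ℂ` is at least its rank modulo
`p` (`rank_le_real` and the proof there; ranks over `ℝ` and `ℂ` of an integer matrix are equal, or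
repeat the proof of `rank_le_real` with `ℂ`).
(2) `dim_{𝔽_p} YCh_{i+1} ≤ dim_ℂ YCh_{i+1}` for odd `p`: the map `ZMod.valMinAbs` is odd
(`ZMod.valMinAbs_neg` for odd `p`), so if `f` is a chain over `𝔽_p` (`f σ (x g_v) = -f σ x` for
`v ∈ σ`, supports) then the integer-valued function `f̃ = valMinAbs ∘ f` satisfies exactly the same
equations. Take a basis `f_1, …, f_d` of `YCh` over `𝔽_p`; the lifts `f̃_j`, seen over `ℂ`, are in `YCh` over
`ℂ`, and they are linearly independent: the integer matrix with rows `f̃_j` has rank `d` modulo `p`,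
hence rank `≥ d` over `ℂ`.
(3) `YB ≤ YZ` is not needed: with truncated subtraction
`dim YZ_i(ℂ) - dim YB_i(ℂ) ≤ dim YZ_i(p) - dim YB_i(p)` follows from (1), (2) and `finrank_YB`.
-/

set_option autoImplicit false

open Finset

namespace Pool.Agent.H4.FC

open Pool.Agent.H85.Fold Pool.Agent.H85.Fold2

private theorem cmp_minor {m n K : Type} [Fintype m] [Fintype n] [Field K] (A : Matrix m n K) :
    ∃ (r : Fin A.rank → m) (c : Fin A.rank → n), (A.submatrix r c).det ≠ 0 := by
  classical
  have h1 : A.rank = Module.finrank K (Submodule.span K (Set.range A.row)) :=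
    Matrix.rank_eq_finrank_span_row A
  obtain ⟨f, hf, -, hli⟩ := Submodule.exists_fun_fin_finrank_span_eq K (Set.range A.row)
  choose r0 hr0 using hf
  have hli' : LinearIndependent K (fun i : Fin A.rank => A (r0 (Fin.cast h1 i))) := by
    have h2 : (fun i : Fin A.rank => A (r0 (Fin.cast h1 i))) = f ∘ (Fin.cast h1) := by
      funext i
      exact hr0 _
    rw [h2]
    exact hli.comp _ (Fin.cast_injective h1)
  set r : Fin A.rank → m := fun i => r0 (Fin.cast h1 i) with hr
  let B : Matrix (Fin A.rank) n K := A.submatrix r id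
  have hB : B.rank = A.rank := by
    have := LinearIndependent.rank_matrix (M := B) hli'
    simpa using this
  have h3 : B.rank = Module.finrank K (Submodule.span K (Set.range B.col)) :=
    Matrix.rank_eq_finrank_span_cols B
  obtain ⟨g, hg, -, hgli⟩ := Submodule.exists_fun_fin_finrank_span_eq K (Set.range B.col)
  choose c0 hc0 using hg
  have h4 : A.rank = Module.finrank K (Submodule.span K (Set.range B.col)) := by
    rw [← h3, hB]
  refine ⟨r, fun i => c0 (Fin.cast h4 i), ?_⟩
  have hli2 : LinearIndependent K (fun i : Fin A.rank => B.col (c0 (Fin.cast h4 i))) := by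
    have h2 : (fun i : Fin A.rank => B.col (c0 (Fin.cast h4 i))) = g ∘ (Fin.cast h4) := by
      funext i
      exact hc0 _
    rw [h2]
    exact hgli.comp _ (Fin.cast_injective h4)
  have h5 : IsUnit (A.submatrix r fun i => c0 (Fin.cast h4 i)) := by
    rw [← Matrix.linearIndependent_cols_iff_isUnit]
    exact hli2
  exact ((Matrix.isUnit_iff_isUnit_det _).1 h5).ne_zero

/-- ranks over the complex numbers and over an arbitrary field -/
private theorem cmp_rank {m n : Type} [Fintype m] [Fintype n] (A : Matrix m n ℤ) (F : Type)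
    [Field F] : (A.map (Int.cast : ℤ → F)).rank ≤ (A.map (Int.cast : ℤ → ℂ)).rank := by
  classical
  obtain ⟨r, c, hdet⟩ := cmp_minor (A.map (Int.cast : ℤ → F))
  generalize (A.map (Int.cast : ℤ → F)).rank = k at r c hdet ⊢
  have h1 : (((A.submatrix r c).det : ℤ) : F) ≠ 0 := by
    have : ((A.map (Int.cast : ℤ → F)).submatrix r c) =
        (Int.castRingHom F).mapMatrix (A.submatrix r c) := by
      ext i j
      simp
    rw [this, ← RingHom.map_det] at hdet
    simpa using hdet
  have h2 : (A.submatrix r c).det ≠ 0 := by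
    intro h
    rw [h] at h1
    simp at h1
  have h3 : ((A.map (Int.cast : ℤ → ℂ)).submatrix r c).det ≠ 0 := by
    have : ((A.map (Int.cast : ℤ → ℂ)).submatrix r c) =
        (Int.castRingHom ℂ).mapMatrix (A.submatrix r c) := by
      ext i j
      simp
    rw [this, ← RingHom.map_det]
    simpa using h2
  have h4 : LinearIndependent ℂ ((A.map (Int.cast : ℤ → ℂ)).submatrix r c).row := by
    rw [Matrix.linearIndependent_rows_iff_isUnit, Matrix.isUnit_iff_isUnit_det]
    exact isUnit_iff_ne_zero.2 h3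
  have h5 : LinearIndependent ℂ (fun i => (A.map (Int.cast : ℤ → ℂ)).row (r i)) := by
    refine LinearIndependent.of_comp (LinearMap.funLeft ℂ ℂ c) ?_
    exact h4
  rw [Matrix.rank_eq_finrank_span_row]
  have h6 : Submodule.span ℂ (Set.range fun i => (A.map (Int.cast : ℤ → ℂ)).row (r i)) ≤
      Submodule.span ℂ (Set.range (A.map (Int.cast : ℤ → ℂ)).row) := by
    refine Submodule.span_mono ?_
    rintro _ ⟨i, rfl⟩
    exact ⟨r i, rfl⟩
  have h7 := Submodule.finrank_mono h6
  rw [finrank_span_eq_card h5] at h7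
  simpa using h7

/-- the lift of a chain modulo an odd prime -/
private theorem cmp_mem {V Ω : Type} [DecidableEq V] [Fintype V] [Fintype Ω]
    (G : SimpleGraph V) (Y : Finset V) (s : V → Ω → Ω) (i : ℕ) (p : ℕ) [Fact p.Prime]
    (hp : p ≠ 2) (f : Finset V → Ω → Unit → ZMod p)
    (hf : f ∈ YCh (ZMod p) G Y (fun _ => (1 : Matrix Unit Unit (ZMod p))) s i) :
    (fun σ ω u => (((f σ ω u).valMinAbs : ℤ) : ℂ)) ∈
      YCh ℂ G Y (fun _ => (1 : Matrix Unit Unit ℂ)) s i := by
  obtain ⟨h1, h2⟩ := hf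
  have hodd : ∀ a : ZMod p, (-a).valMinAbs = -a.valMinAbs := by
    intro a
    refine ZMod.valMinAbs_neg_of_ne_half ?_
    have := (Fact.out : p.Prime).eq_two_or_odd
    omega
  refine ⟨fun σ ω h => h1 σ ω ?_, fun σ v hv ω => ?_⟩
  · intro h0
    apply h
    funext u
    show (((f σ ω u).valMinAbs : ℤ) : ℂ) = 0
    rw [h0, Pi.zero_apply, ZMod.valMinAbs_zero, Int.cast_zero]
  · have h3 := h2 σ v hv ω
    rw [Matrix.one_mulVec] at h3
    rw [Matrix.one_mulVec]
    funext u
    show (((f σ (s v ω) u).valMinAbs : ℤ) : ℂ) = -(((f σ ω u).valMinAbs : ℤ) : ℂ)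
    rw [h3, Pi.neg_apply, hodd, Int.cast_neg]

/-- the dimension of the chains -/
private theorem cmp_ch {V Ω : Type} [DecidableEq V] [Fintype V] [Fintype Ω]
    (G : SimpleGraph V) (Y : Finset V) (s : V → Ω → Ω) (i : ℕ) (p : ℕ) [Fact p.Prime]
    (hp : p ≠ 2) :
    Module.finrank (ZMod p) (YCh (ZMod p) G Y (fun _ => (1 : Matrix Unit Unit (ZMod p))) s i) ≤
      Module.finrank ℂ (YCh ℂ G Y (fun _ => (1 : Matrix Unit Unit ℂ)) s i) := by
  set W := YCh (ZMod p) G Y (fun _ => (1 : Matrix Unit Unit (ZMod p))) s i with hW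
  set d := Module.finrank (ZMod p) W with hd
  let b := Module.finBasis (ZMod p) W
  let M : Matrix (Fin d) (Finset V × Ω × Unit) ℤ :=
    Matrix.of fun j q => ((b j : Finset V → Ω → Unit → ZMod p) q.1 q.2.1 q.2.2).valMinAbs
  have hli : LinearIndependent (ZMod p) (M.map (Int.cast : ℤ → ZMod p)).row := by
    have h1 := (b.linearIndependent.map' W.subtype W.ker_subtype).map'
      (Pool.Agent.H85.Fold.ModM.cur (V := V) (Ω := Ω) (D := Unit) (ZMod p)).symm.toLinearMap
      (LinearEquiv.ker _)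
    have h2 : (M.map (Int.cast : ℤ → ZMod p)).row =
        (Pool.Agent.H85.Fold.ModM.cur (V := V) (Ω := Ω) (D := Unit) (ZMod p)).symm.toLinearMap ∘
          W.subtype ∘ b := by
      funext j q
      show ((((b j : Finset V → Ω → Unit → ZMod p) q.1 q.2.1 q.2.2).valMinAbs : ℤ) : ZMod p) =
        (b j : Finset V → Ω → Unit → ZMod p) q.1 q.2.1 q.2.2
      exact ZMod.coe_valMinAbs _
    rw [h2]
    exact h1
  have hrank : (M.map (Int.cast : ℤ → ZMod p)).rank = d := by
    rw [hli.rank_matrix, Fintype.card_fin]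
  have h3 := cmp_rank M (ZMod p)
  rw [hrank, Matrix.rank_eq_finrank_span_row] at h3
  refine h3.trans ?_
  have h4 : Submodule.span ℂ (Set.range (M.map (Int.cast : ℤ → ℂ)).row) ≤
      (YCh ℂ G Y (fun _ => (1 : Matrix Unit Unit ℂ)) s i).map
        (Pool.Agent.H85.Fold.ModM.cur (V := V) (Ω := Ω) (D := Unit) ℂ).symm.toLinearMap := by
    rw [Submodule.span_le]
    rintro _ ⟨j, rfl⟩
    exact ⟨_, cmp_mem G Y s i p hp _ (b j).2, rfl⟩
  refine (Submodule.finrank_mono h4).trans (le_of_eq ?_)
  exact LinearEquiv.finrank_map_eq _ _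

theorem bP_complex_le {V : Type} [DecidableEq V] [Fintype V] (G : SimpleGraph V)
    (Y : Finset V) {P : Type} [Group P] [Fintype P] (g : V → P) (ν : V → ℕ) (i : ℕ) (p : ℕ)
    [Fact p.Prime] (hp : p ≠ 2) : bP ℂ G Y g ν i ≤ bP (ZMod p) G Y g ν i := by
  obtain ⟨C, R, -, H⟩ := exists_matsL G (fun _ => (1 : Matrix Unit Unit ℤ)) ν Y i
  obtain ⟨m, n, _, _, A₀, A₁, -, -, hA⟩ := H P (fun v x => x * g v)
  obtain ⟨C', R', -, H'⟩ := exists_matsL G (fun _ => (1 : Matrix Unit Unit ℤ)) ν Y (i + 1)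
  obtain ⟨m', n', _, _, A₀', A₁', -, -, hA'⟩ := H' P (fun v x => x * g v)
  have hmc : ∀ (K : Type) [Field K], mc K (fun _ : V => (1 : Matrix Unit Unit ℤ)) =
      fun _ => (1 : Matrix Unit Unit K) := by
    intro K _
    funext v
    exact Matrix.map_one _ Int.cast_zero Int.cast_one
  have a1 := (hA ℂ).2
  have a2 := (hA (ZMod p)).2
  have b1 := (hA' ℂ).2
  have b2 := (hA' (ZMod p)).2
  rw [hmc] at a1 a2 b1 b2
  have c1 := cmp_rank A₁ (ZMod p)
  have c2 := cmp_rank A₁' (ZMod p)
  have d1 := finrank_YB ℂ G Y (fun _ => (1 : Matrix Unit Unit ℂ)) (fun v (x : P) => x * g v) ν i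
  have d2 := finrank_YB (ZMod p) G Y (fun _ => (1 : Matrix Unit Unit (ZMod p)))
    (fun v (x : P) => x * g v) ν i
  have e1 := cmp_ch G Y (fun v (x : P) => x * g v) (i + 1) p hp
  unfold bP bY
  omega

end Pool.Agent.H4.FC
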