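import Pool.Agent.H4.FC.Defs

/-!
# Project FC: integer representations of Coxeter groups
-/

set_option autoImplicit false

open Finset

namespace Pool.Agent.H4.FC

/-- an integer representation of a Coxeter group -/
structure IModL {V : Type} (M : CoxeterMatrix V) where
  D : Type
  fin : Fintype D
  dec : DecidableEq D
  A : V → Matrix D D ℤ
  rel : ∀ u v, (A u * A v) ^ M u v = 1

attribute [instance] IModL.fin IModL.dec

/-- elements of a group which satisfy the Coxeter relations -/
def IsGen {V : Type} (M : CoxeterMatrix V) {P : Type} [Group P] (g : V → P) : Prop :=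
  ∀ u v, (g u * g v) ^ M u v = 1

theorem IModL.sq {V : Type} {M : CoxeterMatrix V} (ρ : IModL M) (v : V) :
    ρ.A v * ρ.A v = 1 := by
  have h := ρ.rel v v
  rwa [M.diagonal, pow_one] at h

theorem IsGen.sq {V : Type} {M : CoxeterMatrix V} {P : Type} [Group P] {g : V → P}
    (h : IsGen M g) (v : V) : g v * g v = 1 := by
  have h := h v v
  rwa [M.diagonal, pow_one] at h

end Pool.Agent.H4.FC
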