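import Pool.Agent.H4.FC.DropL
import Pool.Agent.H4.FC.TrivL
import Pool.Agent.H4.FC.CmpL
import Pool.Agent.H4.FC.IModDefs

/-!
# Project FC: growth of the Betti numbers

Let `C` be the constant of `drop_genL` for `A = ρ.A`, `Y = univ`. For a prime `p ≥ 3`, a finite group `P`
with `IsGen M g` and `r` as in the statement: `p ^ bY ≤ C ^ |P|`, `bY = |D| * bP (ZMod p)`
(`tw_trivL`), `bP ℂ ≤ bP (ZMod p) ≤ |D| * bP (ZMod p)` (`bP_complex_le`, `|D| ≥ 1`). So
`bP ℂ * log p ≤ |P| * log C`. Choose `p₀ ≥ 3` with `log C ≤ η log p₀`. Compare `harm_of_exact` in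
`Pool.Agent.H85.Fold.ModB`.
-/

set_option autoImplicit false

open Finset

namespace Pool.Agent.H4.FC

open Pool.Agent.H85.Fold Pool.Agent.H85.Fold2

theorem growL {V : Type} [DecidableEq V] [Fintype V] {M : CoxeterMatrix V} (ρ : IModL M)
    [Nonempty ρ.D] (ν : V → ℕ) (i : ℕ)
    (hex : ∀ (P : Type) [Group P] [Fintype P] (g : V → P), IsGen M g →
      YZ ℝ (gr M) univ (mc ℝ ρ.A) (fun v x => x * g v) ν i ≤
        YB ℝ (gr M) univ (mc ℝ ρ.A) (fun v x => x * g v) ν i) (η : ℝ) (hη : 0 < η) :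
    ∃ p₀ : ℕ, ∀ (p : ℕ) [Fact p.Prime], p₀ ≤ p → ∀ (P : Type) [Group P] [Fintype P]
      (g : V → P), IsGen M g →
      (∃ r : P →* Matrix ρ.D ρ.D (ZMod p), ∀ v, r (g v) = (ρ.A v).map (Int.cast : ℤ → ZMod p)) →
        (bP ℂ (gr M) univ g ν i : ℝ) ≤ η * Fintype.card P := by
  classical
  obtain ⟨C, hC1, hC⟩ := drop_genL (gr M) ρ.A ν univ i
  have hD : 1 ≤ Fintype.card ρ.D := Fintype.card_pos
  obtain ⟨N, hN⟩ := exists_nat_ge (Real.exp (Real.log C / η))
  refine ⟨max N 3, ?_⟩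
  intro p _ hp P _ _ g hg hr
  obtain ⟨r, hr⟩ := hr
  have hp3 : 3 ≤ p := (le_max_right _ _).trans hp
  have hpN : N ≤ p := (le_max_left _ _).trans hp
  have h1 : bP ℂ (gr M) univ g ν i ≤ bP (ZMod p) (gr M) univ g ν i :=
    bP_complex_le (gr M) univ g ν i p (by omega)
  have h2 := hC P (fun v x => x * g v) (hex P g hg) p
  rw [tw_trivL (gr M) ρ.A (fun v => ρ.sq v) g (ZMod p) r hr ν univ i] at h2
  have h3 : (p : ℝ) ^ (Fintype.card ρ.D * bP (ZMod p) (gr M) univ g ν i) ≤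
      (C : ℝ) ^ Fintype.card P := by exact_mod_cast h2
  have hp1 : (1 : ℝ) < p := by
    have : (3 : ℝ) ≤ p := by exact_mod_cast hp3
    linarith
  have hp0 : (0 : ℝ) < p := by linarith
  have hlp : 0 < Real.log p := Real.log_pos hp1
  have h4 := Real.log_le_log (pow_pos hp0 _) h3
  rw [Real.log_pow, Real.log_pow] at h4
  push_cast at h4
  have h5 : (bP ℂ (gr M) univ g ν i : ℝ) ≤
      Fintype.card ρ.D * bP (ZMod p) (gr M) univ g ν i := by
    have : bP ℂ (gr M) univ g ν i ≤ Fintype.card ρ.D * bP (ZMod p) (gr M) univ g ν i :=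
      h1.trans (Nat.le_mul_of_pos_left _ hD)
    exact_mod_cast this
  have h6 : (bP ℂ (gr M) univ g ν i : ℝ) * Real.log p ≤ Fintype.card P * Real.log C := by
    refine le_trans ?_ h4
    exact mul_le_mul_of_nonneg_right h5 hlp.le
  have h7 : Real.log C ≤ η * Real.log p := by
    have h8 : Real.log C / η ≤ Real.log p := by
      rw [Real.le_log_iff_exp_le hp0]
      refine hN.trans ?_
      exact_mod_cast hpN
    rw [div_le_iff₀ hη] at h8
    linarith
  have h8 : (bP ℂ (gr M) univ g ν i : ℝ) * Real.log p ≤ (η * Fintype.card P) * Real.log p := by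
    calc (bP ℂ (gr M) univ g ν i : ℝ) * Real.log p ≤ Fintype.card P * Real.log C := h6
      _ ≤ Fintype.card P * (η * Real.log p) := by
          exact mul_le_mul_of_nonneg_left h7 (Nat.cast_nonneg _)
      _ = _ := by ring
  exact le_of_mul_le_mul_right h8 hlp

end Pool.Agent.H4.FC
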