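import Pool.Agent.H4.FC.AdjL
import Pool.Agent.H85.Fold2.Defs
import Pool.Agent.H4.Singer.ActBasic

/-!
# Project FC: harmonic chains on finite quotients

Modelled on `Pool.Agent.H4.Singer.FinHodge`. `H ⊓ YB = ⊥`: let `f ∈ H`, `f = tdl ℂ ν y`,
`y ∈ YCh ℂ (gr M) univ (fun _ => 1) … (i + 1)`. `adj_identityL` with `h σ x = f σ x ()`,
`c σ x = y σ x ()` (all sums finite; `c` is supported on cliques with `i + 1` elements, which are
spherical by `hS`, and antisymmetric): the right hand side vanishes by the hypothesis on `f`, the left hand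
side is `∑ |f τ x ()|²`. `YB ≤ YZ` (`tdl ∘ tdl = 0` and the boundary of a chain is a chain), so
`dim H + dim YB ≤ dim YZ`. The sign `(-1 : ℂ) ^ …` is the cast of `Pool.Agent.H4.Singer.sg`.
-/

set_option autoImplicit false

open Finset

namespace Pool.Agent.H4.FC

open Pool.Agent.H85.Fold Pool.Agent.H85.Fold2

variable {V : Type} [Fintype V] [DecidableEq V]

private theorem tdl_app {Ω : Type} (ν : V → ℕ) (f : Finset V → Ω → Unit → ℂ) (τ : Finset V)
    (ω : Ω) (u : Unit) : tdl ℂ ν f τ ω u =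
      ∑ v ∈ τᶜ, (Pool.Agent.H4.Singer.sg ν v τ : ℂ) * f (insert v τ) ω u := by
  show (∑ v ∈ τᶜ, (Pool.Agent.H4.Singer.sg ν v τ : ℂ) • f (insert v τ) ω) u = _
  rw [Finset.sum_apply]
  exact Finset.sum_congr rfl fun v _ => rfl

private theorem tdl_tdl {Ω : Type} (ν : V → ℕ) (hν : Function.Injective ν)
    (f : Finset V → Ω → Unit → ℂ) : tdl ℂ ν (tdl ℂ ν f) = 0 := by
  funext τ ω u
  have h1 := congrFun (congrFun
    (Pool.Agent.H4.Singer.dl_dl (F := ℂ) ν hν (fun σ (ω : Ω) => f σ ω u)) τ) ω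
  rw [Pool.Agent.H4.Singer.dl_apply] at h1
  rw [tdl_app]
  rw [Pi.zero_apply, Pi.zero_apply, Pi.zero_apply]
  rw [Pi.zero_apply, Pi.zero_apply] at h1
  rw [← h1]
  refine Finset.sum_congr rfl fun v _ => ?_
  rw [tdl_app, Pool.Agent.H4.Singer.dl_apply]

private theorem YB_le {G : SimpleGraph V} {P : Type} (s : V → P → P) (ν : V → ℕ)
    (hν : Function.Injective ν) (i : ℕ) :
    YB ℂ G univ (fun _ => (1 : Matrix Unit Unit ℂ)) s ν i ≤
      YZ ℂ G univ (fun _ => (1 : Matrix Unit Unit ℂ)) s ν i := by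
  rintro f ⟨y, hy, rfl⟩
  obtain ⟨hy1, hy2⟩ := hy
  refine ⟨⟨?_, ?_⟩, LinearMap.mem_ker.mpr (tdl_tdl ν hν y)⟩
  · intro τ ω hne
    have h' : ∑ v ∈ τᶜ, (Pool.Agent.H4.Singer.sg ν v τ : ℂ) • y (insert v τ) ω ≠ 0 := hne
    obtain ⟨w, hw, hw'⟩ := Finset.exists_ne_zero_of_sum_ne_zero h'
    have hne' : y (insert w τ) ω ≠ 0 := by
      intro h0
      exact hw' (by rw [h0, smul_zero])
    obtain ⟨-, h1, h2⟩ := hy1 _ _ hne'
    refine ⟨Finset.subset_univ _, fun a ha b hb hab => h1 a (Finset.mem_insert_of_mem ha) b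
      (Finset.mem_insert_of_mem hb) hab, ?_⟩
    rw [Finset.card_insert_of_notMem (Finset.mem_compl.mp hw)] at h2
    omega
  · intro τ v hv ω
    show ∑ w ∈ τᶜ, (Pool.Agent.H4.Singer.sg ν w τ : ℂ) • y (insert w τ) (s v ω) =
      -(1 : Matrix Unit Unit ℂ).mulVec
        (∑ w ∈ τᶜ, (Pool.Agent.H4.Singer.sg ν w τ : ℂ) • y (insert w τ) ω)
    rw [Matrix.one_mulVec, ← Finset.sum_neg_distrib]
    refine Finset.sum_congr rfl fun w _ => ?_
    rw [hy2 _ v (Finset.mem_insert_of_mem hv) ω, Matrix.one_mulVec, smul_neg]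

theorem harm_finrank_leL (M : CoxeterMatrix V) (G : SimpleGraph V)
    (hS : ∀ σ, Sph M σ ↔ Cl G σ) {P : Type} [Group P] [Fintype P] (π : M.Group →* P)
    (ν : V → ℕ) (hν : Function.Injective ν) (i : ℕ)
    (H : Submodule ℂ (Finset V → P → Unit → ℂ))
    (hH : ∀ f ∈ H, f ∈ YZ ℂ G univ (fun _ => (1 : Matrix Unit Unit ℂ))
        (fun v x => x * π (M.simple v)) ν i ∧ ∀ ρ x, Sph M ρ → ρ.card = i + 1 →
      ∑ v ∈ ρ, (-1 : ℂ) ^ ((ρ.erase v).filter fun u => ν u < ν v).card *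
        altS M π ρ (fun x => f (ρ.erase v) x ()) x = 0) :
    Module.finrank ℂ H ≤ bP ℂ G univ (fun v => π (M.simple v)) ν i := by
  have hbot : H ⊓ YB ℂ G univ (fun _ => (1 : Matrix Unit Unit ℂ))
        (fun v x => x * π (M.simple v)) ν i = ⊥ := by
    rw [eq_bot_iff]
    rintro f ⟨hf, y, hy, hyf⟩
    obtain ⟨hy1, hy2⟩ := hy
    obtain ⟨-, hcoc⟩ := hH f hf
    have key := adj_identityL M π ν (fun σ x => f σ x ()) (fun σ x => y σ x ())
      (fun σ => (hasSum_fintype _).summable) (fun σ => (hasSum_fintype _).summable)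
      (by
        intro ρ hρ
        by_contra hcon
        apply hρ
        funext x
        by_contra h0
        have h1 : y ρ x ≠ 0 := by
          intro h2
          exact h0 (by rw [h2]; rfl)
        exact hcon ((hS ρ).2 (hy1 ρ x h1).2.1))
      (by
        intro ρ v hv x
        have h1 := congrFun (hy2 ρ v hv x) ()
        rw [Matrix.one_mulVec] at h1
        exact h1)
    have hl : ∀ τ x, (∑ v ∈ τᶜ, (-1 : ℂ) ^ (τ.filter fun u => ν u < ν v).card *
        y (insert v τ) x ()) = f τ x () := by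
      intro τ x
      rw [← hyf, tdl_app]
      refine Finset.sum_congr rfl fun v _ => ?_
      unfold Pool.Agent.H4.Singer.sg
      push_cast
      rfl
    have hr : ∀ ρ x, (starRingEnd ℂ)
        (∑ v ∈ ρ, (-1 : ℂ) ^ ((ρ.erase v).filter fun u => ν u < ν v).card *
          altS M π ρ (fun x => f (ρ.erase v) x ()) x) * y ρ x () = 0 := by
      intro ρ x
      by_cases h0 : y ρ x = 0
      · rw [h0, Pi.zero_apply, mul_zero]
      · obtain ⟨-, h1, h2⟩ := hy1 ρ x h0
        rw [hcoc ρ x ((hS ρ).2 h1) h2, map_zero, zero_mul]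
    simp only [hl, hr, tsum_fintype, Finset.sum_const_zero, mul_zero] at key
    have hsq : ∀ z : ℂ, (starRingEnd ℂ) z * z = ((‖z‖ ^ 2 : ℝ) : ℂ) := by
      intro z
      rw [mul_comm, Complex.mul_conj, Complex.normSq_eq_norm_sq]
    simp only [hsq, ← Complex.ofReal_sum] at key
    have key' : ∑ τ : Finset V, ∑ x : P, ‖f τ x ()‖ ^ 2 = 0 := by exact_mod_cast key
    rw [Submodule.mem_bot]
    funext τ x u
    have h1 := (Finset.sum_eq_zero_iff_of_nonneg
      (fun τ _ => Finset.sum_nonneg fun x _ => sq_nonneg ‖f τ x ()‖)).1 key' τ (mem_univ τ)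
    have h2 := (Finset.sum_eq_zero_iff_of_nonneg
      (fun x _ => sq_nonneg ‖f τ x ()‖)).1 h1 x (mem_univ x)
    simpa using h2
  have hle : H ⊔ YB ℂ G univ (fun _ => (1 : Matrix Unit Unit ℂ))
        (fun v x => x * π (M.simple v)) ν i ≤ YZ ℂ G univ (fun _ => (1 : Matrix Unit Unit ℂ))
        (fun v x => x * π (M.simple v)) ν i :=
    sup_le (fun f hf => (hH f hf).1) (YB_le _ ν hν i)
  have h1 := Submodule.finrank_sup_add_finrank_inf_eq H
    (YB ℂ G univ (fun _ => (1 : Matrix Unit Unit ℂ)) (fun v x => x * π (M.simple v)) ν i)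
  rw [hbot, finrank_bot, add_zero] at h1
  have h2 := Submodule.finrank_mono hle
  show Module.finrank ℂ H ≤
    Module.finrank ℂ (YZ ℂ G univ (fun _ => (1 : Matrix Unit Unit ℂ))
      (fun v x => x * π (M.simple v)) ν i) -
    Module.finrank ℂ (YB ℂ G univ (fun _ => (1 : Matrix Unit Unit ℂ))
      (fun v x => x * π (M.simple v)) ν i)
  omega

end Pool.Agent.H4.FC
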