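import Pool.Agent.H4.FC.HarmInfL
import Pool.Agent.H4.FC.FinHodgeL

/-!
# Project FC: the kernel of the matrix over a finite quotient

Modelled on `Pool.Agent.H4.Singer.HarmFin` (copy the private lemmas `harmFin_coeff`, `harmFinExt…`,
`harmFin_key`); the extension by zero now has values in `Finset V → P → Unit → ℂ`, and
`harm_finrank_leL` replaces `harm_finrank_le`.
-/

set_option autoImplicit false

open Finset

namespace Pool.Agent.H4.FC

open Pool.Agent.H4.Atiyah Pool.Agent.H4.Singer Pool.Agent.H85.Fold Pool.Agent.H85.Fold2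

variable {V : Type} [Fintype V] [DecidableEq V]

private theorem harmFin_coeff {W P : Type} [Group W] [Group P] [Fintype P] (π : W →* P)
    (a : MonoidAlgebra ℤ W) (φ : P → ℂ) (h : P) :
    ∑ g, φ g * (MonoidAlgebra.mapDomainRingHom ℂ π
      (MonoidAlgebra.mapRingHom W (Int.castRingHom ℂ) a)).coeff (g⁻¹ * h) = gact π a φ h := by
  classical
  induction a using MonoidAlgebra.induction_linear with
  | zero => simp [gact_zero]
  | add a b ha hb =>
    rw [gact_add, ← ha, ← hb, ← Finset.sum_add_distrib]
    refine Finset.sum_congr rfl fun g _ => ?_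
    rw [map_add, map_add, MonoidAlgebra.coeff_add, Finsupp.add_apply, mul_add]
  | single g r =>
    rw [gact_single, MonoidAlgebra.mapRingHom_single, MonoidAlgebra.mapDomainRingHom_apply,
      MonoidAlgebra.mapDomain_single, Finset.sum_eq_single (h * (π g)⁻¹)]
    · rw [MonoidAlgebra.coeff_single, mul_inv_rev, inv_inv, inv_mul_cancel_right,
        Finsupp.single_eq_same]
      simp
    · intro g' _ hg'
      rw [MonoidAlgebra.coeff_single, Finsupp.single_eq_of_ne, mul_zero]
      intro he
      apply hg'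
      rw [← he]
      group
    · intro hh
      exact absurd (Finset.mem_univ _) hh

/-- the extension by zero of a vector indexed by the spherical sets -/
private noncomputable def harmFinExt (M : CoxeterMatrix V) (i : ℕ) (P : Type) :
    (Fin (Fintype.card (RIL M i)) × P → ℂ) →ₗ[ℂ] (Finset V → P → Unit → ℂ) := by
  classical
  exact
  { toFun := fun x σ p _ => if h : Sph M σ ∧ σ.card = i then
      x (Fintype.equivFin (RIL M i) ⟨σ, h⟩, p) else 0
    map_add' := by
      intro x y
      funext σ p u
      simp only [Pi.add_apply]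
      split_ifs <;> simp
    map_smul' := by
      intro c x
      funext σ p u
      simp only [Pi.smul_apply, RingHom.id_apply]
      split_ifs <;> simp }

omit [DecidableEq V] in
private theorem harmFinExt_of (M : CoxeterMatrix V) (i : ℕ) (P : Type)
    (x : Fin (Fintype.card (RIL M i)) × P → ℂ) (σ : RIL M i) (p : P) :
    harmFinExt M i P x σ.1 p () = x (Fintype.equivFin (RIL M i) σ, p) := by
  classical
  show (if h : Sph M σ.1 ∧ σ.1.card = i then
      x (Fintype.equivFin (RIL M i) ⟨σ.1, h⟩, p) else 0) = _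
  rw [dif_pos σ.2]

omit [DecidableEq V] in
private theorem harmFinExt_not (M : CoxeterMatrix V) (i : ℕ) (P : Type)
    (x : Fin (Fintype.card (RIL M i)) × P → ℂ) (σ : Finset V)
    (hσ : ¬ (Sph M σ ∧ σ.card = i)) : (fun p => harmFinExt M i P x σ p ()) = 0 := by
  classical
  funext p
  show (if h : Sph M σ ∧ σ.card = i then
      x (Fintype.equivFin (RIL M i) ⟨σ, h⟩, p) else 0) = _
  rw [dif_neg hσ]
  rfl

private theorem harmFinExt_injective (M : CoxeterMatrix V) (i : ℕ) (P : Type) :
    Function.Injective (harmFinExt M i P) := by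
  intro x y hxy
  funext ⟨j, p⟩
  have h1 := congrFun (congrFun (congrFun hxy ((Fintype.equivFin (RIL M i)).symm j).1) p) ()
  rwa [harmFinExt_of, harmFinExt_of, Equiv.apply_symm_apply] at h1

private theorem harmFin_key (M : CoxeterMatrix V) (ν : V → ℕ) (i : ℕ) (P : Type) [Group P]
    [Fintype P] (π : M.Group →* P) (x : Fin (Fintype.card (RIL M i)) × P → ℂ) (c : CIL M i)
    (h : P) :
    Matrix.vecMul x (op ((toC (HAL M ν i)).map (MonoidAlgebra.mapDomainRingHom ℂ π)))
      (Fintype.equivFin (CIL M i) c, h) =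
      ∑ σ : RIL M i, gact π (HML M ν i σ c) (fun p => harmFinExt M i P x σ.1 p ()) h := by
  rw [Matrix.vecMul, dotProduct, Fintype.sum_prod_type]
  rw [← Equiv.sum_comp (Fintype.equivFin (RIL M i))]
  refine Finset.sum_congr rfl fun σ _ => ?_
  rw [← harmFin_coeff]
  refine Finset.sum_congr rfl fun g _ => ?_
  rw [harmFinExt_of]
  congr 1
  simp only [op, Matrix.of_apply, Matrix.map_apply, toC, HAL, Matrix.submatrix_apply,
    Equiv.symm_apply_apply]

theorem harm_finL (M : CoxeterMatrix V) (G : SimpleGraph V) (hS : ∀ σ, Sph M σ ↔ Cl G σ)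
    (ν : V → ℕ) (hν : Function.Injective ν) (i : ℕ) (P : Type) [Group P] [Fintype P]
    (π : M.Group →* P) :
    ((Fintype.card (RIL M i) : ℕ) * Fintype.card P : ℝ) -
      (op ((toC (HAL M ν i)).map (MonoidAlgebra.mapDomainRingHom ℂ π))).rank ≤
        bP ℂ G univ (fun v => π (M.simple v)) ν i := by
  classical
  set A := op ((toC (HAL M ν i)).map (MonoidAlgebra.mapDomainRingHom ℂ π)) with hA
  have hker : ∀ x ∈ LinearMap.ker (Matrix.vecMulLinear A), ∀ (c : CIL M i) (h : P),
      ∑ σ : RIL M i, gact π (HML M ν i σ c) (fun p => harmFinExt M i P x σ.1 p ()) h = 0 := by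
    intro x hx c h
    have h1 : Matrix.vecMul x A = 0 := hx
    rw [← harmFin_key, ← hA, h1]
    rfl
  have hH : ∀ f ∈ (LinearMap.ker (Matrix.vecMulLinear A)).map (harmFinExt M i P),
      f ∈ YZ ℂ G univ (fun _ => (1 : Matrix Unit Unit ℂ))
        (fun v x => x * π (M.simple v)) ν i ∧ ∀ ρ x, Sph M ρ → ρ.card = i + 1 →
      ∑ v ∈ ρ, (-1 : ℂ) ^ ((ρ.erase v).filter fun u => ν u < ν v).card *
        altS M π ρ (fun x => f (ρ.erase v) x ()) x = 0 := by
    rintro f ⟨x, hx, rfl⟩
    have hk := hker x hx
    have h0 := harmFinExt_not M i P x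
    have h0' : ∀ σ : Finset V, ¬ (Sph M σ ∧ σ.card = i) → harmFinExt M i P x σ = 0 := by
      intro σ hσ
      funext p u
      exact congrFun (h0 σ hσ) p
    refine ⟨⟨⟨?_, ?_⟩, ?_⟩, ?_⟩
    · intro σ ω hne
      by_contra hcon
      have hσ : ¬ (Sph M σ ∧ σ.card = i) := fun h =>
        hcon ⟨Finset.subset_univ _, (hS σ).1 h.1, h.2⟩
      rw [h0' σ hσ] at hne
      exact hne rfl
    · intro σ v hv ω
      by_cases hσ : Sph M σ ∧ σ.card = i
      · have h1 := hk (Sum.inl (⟨σ, hσ⟩, v)) (ω * π (M.simple v))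
        rw [HML_anti M ν i π (fun τ p => harmFinExt M i P x τ p ()), if_pos hv] at h1
        have h2 : ω * π (M.simple v) * (π (M.simple v))⁻¹ = ω := by group
        rw [h2] at h1
        funext u
        rw [Matrix.one_mulVec]
        exact eq_neg_of_add_eq_zero_left h1
      · rw [h0' σ hσ]
        simp
    · show tdl ℂ ν (harmFinExt M i P x) = 0
      funext τ h u
      have h1 := hk (Sum.inr (Sum.inl τ)) h
      rw [HML_bd M ν i π (fun τ p => harmFinExt M i P x τ p ()) h0] at h1
      show (∑ v ∈ τᶜ, (sg ν v τ : ℂ) • harmFinExt M i P x (insert v τ) h) u = 0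
      rw [Finset.sum_apply, ← h1]
      refine Finset.sum_congr rfl fun v _ => ?_
      rw [Pi.smul_apply, smul_eq_mul]
      unfold sg
      push_cast
      rfl
    · intro ρ ω hρ hρi
      have h1 := hk (Sum.inr (Sum.inr ρ)) ω
      rw [HML_cobd M ν i π (fun τ p => harmFinExt M i P x τ p ()) h0 ρ hρ hρi] at h1
      exact h1
  have hle := harm_finrank_leL M G hS π ν hν i _ hH
  have hfin : Module.finrank ℂ
      ((LinearMap.ker (Matrix.vecMulLinear A)).map (harmFinExt M i P)) =
      Module.finrank ℂ (LinearMap.ker (Matrix.vecMulLinear A)) :=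
    (Submodule.equivMapOfInjective _ (harmFinExt_injective M i P) _).finrank_eq.symm
  have h1 := LinearMap.finrank_range_add_finrank_ker (Matrix.vecMulLinear A)
  rw [Module.finrank_fintype_fun_eq_card, Fintype.card_prod, Fintype.card_fin] at h1
  have h3 : Module.finrank ℂ (LinearMap.range (Matrix.vecMulLinear A)) = A.rank := by
    have h4 : Matrix.vecMulLinear A = (Matrix.transpose A).mulVecLin := by
      apply LinearMap.ext
      intro x
      rw [Matrix.vecMulLinear_apply, Matrix.mulVecLin_apply, Matrix.mulVec_transpose]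
    rw [h4, ← Matrix.rank_transpose A, Matrix.rank]
  rw [h3] at h1
  rw [hfin] at hle
  have h5 : ((Fintype.card (RIL M i) : ℕ) * Fintype.card P : ℝ) =
      (A.rank : ℝ) + Module.finrank ℂ (LinearMap.ker (Matrix.vecMulLinear A)) := by
    exact_mod_cast h1.symm
  rw [h5]
  have h6 : (Module.finrank ℂ (LinearMap.ker (Matrix.vecMulLinear A)) : ℝ) ≤
      bP ℂ G univ (fun v => π (M.simple v)) ν i := by
    exact_mod_cast hle
  linarith

end Pool.Agent.H4.FC
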