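import Pool.Agent.H4.FC.TitsPos
import Pool.Agent.H4.FC.NumK
import Pool.Agent.H4.FC.RestrL

/-!
# Project FC: a faithful integral representation

By `two_cos_integral` and `exists_numberField_int` (index set `V × V`) there are a number field `K`, an
embedding `τ : K → ℝ` and `c : V → V → 𝓞 K` with `τ (c u v) = kR M u v`. Let `τ' : 𝓞 K → ℝ` be the
composition; it is injective, so the induced ring homomorphism on matrices is injective
and maps `refl c v` to `refl (kR M) v` (`refl_map`). So the matrices `refl c v` satisfy the Coxeter
relations, and the homomorphism `M.Group →* Matrix V V (𝓞 K)` (by `lift`) composed with the induced map is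
`titsHom M` (`ext_simple`), so it is injective (`tits_injective`). Compose with `Φ` of
`restrict_scalarsL`.
-/

set_option autoImplicit false

open Finset

namespace Pool.Agent.H4.FC

theorem exists_int_faithful {V : Type} [Fintype V] [DecidableEq V] (M : CoxeterMatrix V) :
    ∃ (D : Type) (_ : Fintype D) (_ : DecidableEq D) (τ : M.Group →* Matrix D D ℤ),
      Function.Injective τ := by
  have hy : ∀ p : V × V, IsIntegral ℤ (kR M p.1 p.2) := by
    intro p
    unfold kR
    split_ifs
    · have h2 : ((-2 : ℤ) : ℝ) = -2 := by norm_num
      rw [← h2]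
      exact isIntegral_algebraMap (R := ℤ) (x := (-2 : ℤ))
    · have h2 : -2 * Real.cos (Real.pi / M p.1 p.2) =
          -(2 * Real.cos (Real.pi / M p.1 p.2)) := by ring
      rw [h2]
      exact (two_cos_integral _).neg
  obtain ⟨K, iK, iN, τ, w, hw⟩ :=
    Pool.Agent.H85.Fold2.exists_numberField_int (fun p : V × V => kR M p.1 p.2) hy
  let f : NumberField.RingOfIntegers K →+* ℝ :=
    τ.comp (algebraMap (NumberField.RingOfIntegers K) K)
  have hf : Function.Injective f :=
    τ.injective.comp (NumberField.RingOfIntegers.coe_injective)
  let c : V → V → NumberField.RingOfIntegers K := fun u v => w (u, v)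
  have hc : ∀ v, (refl c v).map f = refl (kR M) v := by
    intro v
    rw [refl_map]
    congr 1
    funext u v
    exact hw (u, v)
  have hF : Function.Injective (fun X : Matrix V V (NumberField.RingOfIntegers K) => X.map f) :=
    Matrix.map_injective hf
  have hrel : M.IsLiftable (refl c) := by
    intro u v
    have h1 : f.mapMatrix ((refl c u * refl c v) ^ M u v) = f.mapMatrix 1 := by
      rw [map_pow, map_mul, map_one]
      show ((refl c u).map f * (refl c v).map f) ^ M u v = 1
      rw [hc, hc]
      exact refl_rel M u v
    exact hF h1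
  let g : M.Group →* Matrix V V (NumberField.RingOfIntegers K) :=
    M.toCoxeterSystem.lift ⟨refl c, hrel⟩
  have hg : (f.mapMatrix : Matrix V V (NumberField.RingOfIntegers K) →+*
      Matrix V V ℝ).toMonoidHom.comp g = titsHom M := by
    apply M.toCoxeterSystem.ext_simple
    intro v
    have h1 : g (M.toCoxeterSystem.simple v) = refl c v :=
      M.toCoxeterSystem.lift_apply_simple hrel v
    show f.mapMatrix (g (M.toCoxeterSystem.simple v)) = _
    rw [titsHom_simple, h1]
    exact hc v
  have hgi : Function.Injective g := by
    intro x y hxy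
    apply tits_injective M
    rw [← hg]
    show f.mapMatrix (g x) = f.mapMatrix (g y)
    rw [hxy]
  obtain ⟨D', i1, i2, Φ, hΦ, -, -⟩ := restrict_scalarsL K V
  exact ⟨D', i1, i2, Φ.toMonoidHom.comp g,
    hΦ.comp hgi⟩

end Pool.Agent.H4.FC
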