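import Pool.Agent.H4.FC.IModDefs
import Pool.Agent.H4.FC.TitsInt

/-!
# Project FC: finite quotients

Let `τ : M.Group →* Matrix D D ℤ` be injective (`exists_int_faithful`). Choose primes `q j ≥ j`
(`Nat.exists_infinite_primes`). `P j = (Matrix D D (ZMod (q j)))ˣ × (Matrix ρ.D ρ.D (ZMod (q j)))ˣ`
(finite, `NeZero (q j)`). `π j` = (`τ` modulo `q j`, as units: a monoid homomorphism from a group to a monoid
lands in the units, `MonoidHom.toHomUnits`) times (the lift of the matrices `ρ.A v` modulo `q j`;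
`M.toCoxeterSystem.lift`, then `toHomUnits`). Separation: if `w ≠ 1` then `τ w ≠ 1`, some entry of
`τ w - 1` is a nonzero integer, which is nonzero modulo `q j` as soon as `j` is larger than its absolute
value. `r` = projection to the second factor and `Units.coeHom`.
-/

set_option autoImplicit false

open Finset Filter

namespace Pool.Agent.H4.FC

theorem exists_levelsL {V : Type} [DecidableEq V] [Fintype V] (M : CoxeterMatrix V)
    (ρ : IModL M) :
    ∃ (q : ℕ → ℕ) (P : ℕ → Type) (_ : ∀ j, Group (P j)) (_ : ∀ j, Fintype (P j))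
      (π : ∀ j, M.Group →* P j),
      (∀ j, (q j).Prime ∧ j ≤ q j) ∧ (∀ w : M.Group, w ≠ 1 → ∀ᶠ j in atTop, π j w ≠ 1) ∧
      ∀ j, ∃ r : P j →* Matrix ρ.D ρ.D (ZMod (q j)),
        ∀ v, r (π j (M.simple v)) = (ρ.A v).map (Int.cast : ℤ → ZMod (q j)) := by
  classical
  obtain ⟨D, _, _, τ, hτ⟩ := exists_int_faithful M
  have h2 := fun j : ℕ => Nat.exists_infinite_primes j
  choose q hq hprime using h2
  have hne : ∀ j, NeZero (q j) := fun j => ⟨(hprime j).ne_zero⟩
  let π₁ : ∀ j, M.Group →* (Matrix D D (ZMod (q j)))ˣ := fun j =>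
    ((((Int.castRingHom (ZMod (q j))).mapMatrix : Matrix D D ℤ →+* Matrix D D (ZMod (q j))) :
      Matrix D D ℤ →* Matrix D D (ZMod (q j))).comp τ).toHomUnits
  let ρ' : M.Group →* Matrix ρ.D ρ.D ℤ := M.toCoxeterSystem.lift ⟨ρ.A, ρ.rel⟩
  have hρ' : ∀ v, ρ' (M.simple v) = ρ.A v := by
    intro v
    have h := M.toCoxeterSystem.lift_apply_simple (f := ρ.A) ρ.rel v
    rwa [M.toCoxeterSystem_simple] at h
  let π₂ : ∀ j, M.Group →* (Matrix ρ.D ρ.D (ZMod (q j)))ˣ := fun j =>
    ((((Int.castRingHom (ZMod (q j))).mapMatrix : Matrix ρ.D ρ.D ℤ →+*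
      Matrix ρ.D ρ.D (ZMod (q j))) : Matrix ρ.D ρ.D ℤ →* Matrix ρ.D ρ.D (ZMod (q j))).comp
        ρ').toHomUnits
  refine ⟨q, fun j => (Matrix D D (ZMod (q j)))ˣ × (Matrix ρ.D ρ.D (ZMod (q j)))ˣ,
    fun j => inferInstance, fun j => inferInstance, fun j => (π₁ j).prod (π₂ j),
    fun j => ⟨hprime j, hq j⟩, ?_, ?_⟩
  · intro w hw
    have h1 : τ w - 1 ≠ 0 := by
      intro h0
      apply hw
      apply hτ
      rw [map_one]
      exact sub_eq_zero.1 h0
    obtain ⟨a, b, hab⟩ : ∃ a b, (τ w - 1) a b ≠ 0 := by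
      by_contra hc
      push Not at hc
      exact h1 (Matrix.ext hc)
    filter_upwards [eventually_gt_atTop ((τ w - 1) a b).natAbs] with j hj h
    have h3 : π₁ j w = 1 := congrArg Prod.fst h
    have h4 : (Int.castRingHom (ZMod (q j))).mapMatrix (τ w) = 1 := congrArg Units.val h3
    have h5 : (Int.castRingHom (ZMod (q j))).mapMatrix (τ w - 1) = 0 := by
      rw [map_sub, h4, map_one, sub_self]
    have h6 : (((τ w - 1) a b : ℤ) : ZMod (q j)) = 0 := congrFun (congrFun h5 a) b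
    rw [ZMod.intCast_zmod_eq_zero_iff_dvd] at h6
    have h7 := Int.natAbs_dvd_natAbs.2 h6
    rw [Int.natAbs_natCast] at h7
    have h8 := Nat.le_of_dvd (Int.natAbs_pos.2 hab) h7
    have h9 := hq j
    omega
  · intro j
    refine ⟨(Units.coeHom _).comp (MonoidHom.snd _ _), fun v => ?_⟩
    show (Int.castRingHom (ZMod (q j))).mapMatrix (ρ' (M.simple v)) = _
    rw [hρ']
    rfl

end Pool.Agent.H4.FC
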