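import Pool.Agent.H4.FC.IModEx
import Pool.Agent.H4.FC.GrowL
import Pool.Agent.H4.FC.SphIff
import Pool.Agent.H4.FC.HarmFinL
import Pool.Agent.H4.FC.LevelsL

/-!
# Project FC: the main theorem

`harm_zeroL`: modelled on `GVan.harm` in `Pool.Agent.H85.Fold2.Final`: `exists_levelsL`, `harm_finL`,
`harm_infL`, `l2ker_trivial` (`Pool.Agent.H4.Singer.LuckVanish`); `IsGen M (fun v => π j (M.simple v))`
from `simple_mul_simple_pow`.

`mainL`: `exists_imodL`, `growL`, `harm_zeroL`, `l2_hodgeL`, `sph_iff`.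
-/

set_option autoImplicit false

open Finset

namespace Pool.Agent.H4.FC

open Pool.Agent.H85.Fold Pool.Agent.H85.Fold2

variable {V : Type} [DecidableEq V] [Fintype V]

theorem harm_zeroL (M : CoxeterMatrix V) (hS : ∀ σ, Sph M σ ↔ Cl (gr M) σ) {ν : V → ℕ}
    (hν : Function.Injective ν) (i : ℕ) (ρ : IModL M)
    (h : ∀ η : ℝ, 0 < η → ∃ p₀ : ℕ, ∀ (p : ℕ) [Fact p.Prime], p₀ ≤ p →
      ∀ (P : Type) [Group P] [Fintype P] (g : V → P), IsGen M g →
      (∃ r : P →* Matrix ρ.D ρ.D (ZMod p), ∀ v, r (g v) = (ρ.A v).map (Int.cast : ℤ → ZMod p)) →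
        (bP ℂ (gr M) univ g ν i : ℝ) ≤ η * Fintype.card P) :
    ∀ x : Finset V → M.Group → ℂ, IsHarmL M ν i x → x = 0 := by
  classical
  obtain ⟨q, P, grp, fin, π, hq, hsep, hr⟩ := exists_levelsL M ρ
  refine harm_infL M ν i (Pool.Agent.H4.Singer.l2ker_trivial π hsep (HAL M ν i) ?_)
  intro η hη
  obtain ⟨p₀, hp₀⟩ := h η hη
  filter_upwards [Filter.eventually_ge_atTop p₀] with j hj
  have : Fact (q j).Prime := ⟨(hq j).1⟩
  refine (harm_finL M (gr M) hS ν hν i (P j) (π j)).trans ?_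
  refine hp₀ (q j) (hj.trans (hq j).2) (P j) (fun v => π j (M.simple v)) ?_ (hr j)
  intro u v
  have h1 := M.toCoxeterSystem.simple_mul_simple_pow u v
  rw [M.toCoxeterSystem_simple] at h1
  rw [← map_mul, ← map_pow, h1, map_one]

/-- **The main theorem.** -/
theorem mainL {W : Type} [DecidableEq W] [Fintype W] (M : CoxeterMatrix V) (hM : IsDih M)
    (n : ℕ) (H : SimpleGraph W) (hH : IsFoldSphere H n) (φ : V → W)
    (hφ : Function.Injective φ) (hadj : ∀ u v, (gr M).Adj u v ↔ H.Adj (φ u) (φ v)) (i : ℕ)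
    (hi : n < 2 * i) : L2HomologyZero M i := by
  intro ν hν z hz hdz ε hε
  obtain ⟨ρ, hne, hex⟩ := exists_imodL M hM n H hH φ hφ hadj hν i hi
  have h0 := harm_zeroL M (sph_iff M hM) hν i ρ (fun η hη => growL ρ ν i hex η hη)
  exact l2_hodgeL M ν hν i h0 z hz hdz ε hε

end Pool.Agent.H4.FC
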