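import Pool.Agent.H4.FC.Defs

/-!
# Project FC: matrices acting on functions

Basic facts on `actL` and on the row bounds `RB`.

Proofs: direct computations. `actL_mul`: exchange two finite sums. `actL_comp`: a linear map applied
pointwise commutes with `actL J`. `RB.mul`: `∑ω' |(J K) ω ω'| ≤ ∑ω'' |J ω ω''| ∑ω' |K ω'' ω'| ≤ κ κ'`.
`norm_actL_le`: at `ω` the norm is at most `∑ω' |J ω ω'| ‖x ω'‖ ≤ κ ‖x‖`; if `N` is empty both sides are
zero (use `pi_norm_le_iff_of_nonneg`).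
-/

set_option autoImplicit false

open Finset

namespace Pool.Agent.H4.FC

section Lin

variable {N X Y : Type} [Fintype N] [DecidableEq N] [AddCommGroup X] [Module ℝ X]
  [AddCommGroup Y] [Module ℝ Y]

theorem actL_apply (J : Matrix N N ℝ) (x : N → X) (ω : N) :
    actL J x ω = ∑ ω', J ω ω' • x ω' := rfl

theorem actL_one (x : N → X) : actL (1 : Matrix N N ℝ) x = x := by
  funext ω
  rw [actL_apply, Finset.sum_eq_single ω]
  · rw [Matrix.one_apply_eq, one_smul]
  · intro b _ hb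
    rw [Matrix.one_apply_ne (Ne.symm hb), zero_smul]
  · intro h
    exact absurd (Finset.mem_univ ω) h

theorem actL_mul (J K : Matrix N N ℝ) (x : N → X) : actL (J * K) x = actL J (actL K x) := by
  funext ω
  simp only [actL_apply, Matrix.mul_apply, Finset.sum_smul, Finset.smul_sum, smul_smul]
  exact Finset.sum_comm

theorem actL_add (J K : Matrix N N ℝ) (x : N → X) : actL (J + K) x = actL J x + actL K x := by
  funext ω
  simp only [actL_apply, Matrix.add_apply, Pi.add_apply, add_smul, Finset.sum_add_distrib]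

theorem actL_neg (J : Matrix N N ℝ) (x : N → X) : actL (-J) x = -actL J x := by
  funext ω
  simp only [actL_apply, Matrix.neg_apply, Pi.neg_apply, neg_smul, Finset.sum_neg_distrib]

theorem actL_sub (J K : Matrix N N ℝ) (x : N → X) : actL (J - K) x = actL J x - actL K x := by
  funext ω
  simp only [actL_apply, Matrix.sub_apply, Pi.sub_apply, sub_smul, Finset.sum_sub_distrib]

theorem actL_smul (r : ℝ) (J : Matrix N N ℝ) (x : N → X) : actL (r • J) x = r • actL J x := by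
  funext ω
  simp only [actL_apply, Matrix.smul_apply, Pi.smul_apply, smul_eq_mul, Finset.smul_sum, smul_smul]

/-- pointwise linear maps commute with the action of matrices -/
theorem actL_comp (T : X →ₗ[ℝ] Y) (J : Matrix N N ℝ) (x : N → X) :
    actL J (fun ω => T (x ω)) = fun ω => T (actL J x ω) := by
  funext ω
  simp only [actL_apply, map_sum, map_smul]

/-- families of functions -/
theorem actL_family {ι : Type} (J : Matrix N N ℝ) (x : N → ι → X) :
    actL J x = fun ω k => actL J (fun ω' => x ω' k) ω := by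
  funext ω k
  simp only [actL_apply, Finset.sum_apply, Pi.smul_apply]

end Lin

section Bounds

variable {N : Type} [Fintype N] [DecidableEq N]

theorem RB.one : RB 1 (1 : Matrix N N ℝ) := by
  intro ω
  rw [Finset.sum_eq_single ω]
  · rw [Matrix.one_apply_eq, abs_one]
  · intro b _ hb
    rw [Matrix.one_apply_ne (Ne.symm hb), abs_zero]
  · intro h
    exact absurd (Finset.mem_univ ω) h

theorem RB.mul {κ κ' : ℝ} (hκ' : 0 ≤ κ') {J K : Matrix N N ℝ} (hJ : RB κ J)
    (hK : RB κ' K) : RB (κ * κ') (J * K) := by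
  intro ω
  calc ∑ ω', |(J * K) ω ω'| ≤ ∑ ω', ∑ ω'', |J ω ω''| * |K ω'' ω'| := by
        refine Finset.sum_le_sum fun ω' _ => ?_
        rw [Matrix.mul_apply]
        refine (Finset.abs_sum_le_sum_abs _ _).trans (le_of_eq ?_)
        exact Finset.sum_congr rfl fun ω'' _ => abs_mul _ _
    _ = ∑ ω'', |J ω ω''| * ∑ ω', |K ω'' ω'| := by
        rw [Finset.sum_comm]
        exact Finset.sum_congr rfl fun ω'' _ => (Finset.mul_sum _ _ _).symm
    _ ≤ ∑ ω'', |J ω ω''| * κ' :=
        Finset.sum_le_sum fun ω'' _ => mul_le_mul_of_nonneg_left (hK ω'') (abs_nonneg _)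
    _ = (∑ ω'', |J ω ω''|) * κ' := (Finset.sum_mul _ _ _).symm
    _ ≤ κ * κ' := mul_le_mul_of_nonneg_right (hJ ω) hκ'

theorem RB.pow {κ : ℝ} (hκ : 0 ≤ κ) {J : Matrix N N ℝ} (hJ : RB κ J) (n : ℕ) :
    RB (κ ^ n) (J ^ n) := by
  induction n with
  | zero =>
    rw [pow_zero, pow_zero]
    exact RB.one
  | succ n ih =>
    rw [pow_succ, pow_succ]
    exact RB.mul hκ ih hJ

theorem RB.smul {κ : ℝ} {J : Matrix N N ℝ} (hJ : RB κ J) (r : ℝ) : RB (|r| * κ) (r • J) := by
  intro ω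
  calc ∑ ω', |(r • J) ω ω'| = |r| * ∑ ω', |J ω ω'| := by
        rw [Finset.mul_sum]
        refine Finset.sum_congr rfl fun ω' _ => ?_
        rw [Matrix.smul_apply, smul_eq_mul, abs_mul]
    _ ≤ |r| * κ := mul_le_mul_of_nonneg_left (hJ ω) (abs_nonneg _)

theorem RB.sum {ι : Type} (s : Finset ι) {κ : ι → ℝ} {J : ι → Matrix N N ℝ}
    (hJ : ∀ k ∈ s, RB (κ k) (J k)) : RB (∑ k ∈ s, κ k) (∑ k ∈ s, J k) := by
  intro ω
  calc ∑ ω', |(∑ k ∈ s, J k) ω ω'| ≤ ∑ ω', ∑ k ∈ s, |J k ω ω'| := by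
        refine Finset.sum_le_sum fun ω' _ => ?_
        rw [Matrix.sum_apply]
        exact Finset.abs_sum_le_sum_abs _ _
    _ = ∑ k ∈ s, ∑ ω', |J k ω ω'| := Finset.sum_comm
    _ ≤ ∑ k ∈ s, κ k := Finset.sum_le_sum fun k hk => hJ k hk ω

theorem RB.mono {κ κ' : ℝ} (h : κ ≤ κ') {J : Matrix N N ℝ} (hJ : RB κ J) : RB κ' J :=
  fun ω => (hJ ω).trans h

theorem norm_actL_le {X : Type} [NormedAddCommGroup X] [NormedSpace ℝ X] {κ : ℝ} (hκ : 0 ≤ κ)
    {J : Matrix N N ℝ} (hJ : RB κ J) (x : N → X) : ‖actL J x‖ ≤ κ * ‖x‖ := by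
  refine (pi_norm_le_iff_of_nonneg (mul_nonneg hκ (norm_nonneg x))).2 fun ω => ?_
  rw [actL_apply]
  calc ‖∑ ω', J ω ω' • x ω'‖ ≤ ∑ ω', ‖J ω ω' • x ω'‖ := norm_sum_le _ _
    _ ≤ ∑ ω', |J ω ω'| * ‖x‖ := by
        refine Finset.sum_le_sum fun ω' _ => ?_
        rw [norm_smul, Real.norm_eq_abs]
        exact mul_le_mul_of_nonneg_left (norm_le_pi_norm x ω') (abs_nonneg _)
    _ = (∑ ω', |J ω ω'|) * ‖x‖ := (Finset.sum_mul _ _ _).symm
    _ ≤ κ * ‖x‖ := mul_le_mul_of_nonneg_right (hJ ω) (norm_nonneg x)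

end Bounds

end Pool.Agent.H4.FC
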