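import Pool.Agent.H4.FC.Par
import Pool.Agent.H4.Singer.AdjId

/-!
# Project FC: the adjoint of the boundary operator

Modelled on `adj_identity` in `Pool.Agent.H4.Singer.AdjId` (`adjId_summable`, `adjId_comp` are public).
Exchange the sums as there: the left hand side is
`∑_ρ ∑_{v ∈ ρ} ± ∑' x, conj (h (ρ.erase v) x) * c ρ x`. For fixed `ρ` with `c ρ ≠ 0` (so `ρ` is
spherical) and `h' = h (ρ.erase v)`: for every `u ∈ par M ρ` the substitution `x ↦ x * π u` and
`anti_ext` give `∑' x, conj (h' x) c ρ x = eps u * ∑' x, conj (h' (x * π u)) c ρ x`; sum over `u ∈ parF`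
and divide by `|parF|`: `∑' conj (h' x) c ρ x = (1 / |parF|) ∑' conj (altS M π ρ h' x) c ρ x`.
(`conj` of the real number `eps u` is itself.) For `c ρ = 0` both sides vanish.
-/

set_option autoImplicit false

open Finset

namespace Pool.Agent.H4.FC

open Pool.Agent.H4.Singer

private theorem adjL_one {V : Type} (M : CoxeterMatrix V)
    {H : Type} [Group H] (π : M.Group →* H) (ρ : Finset V) (hρ : Sph M ρ) (f g : H → ℂ)
    (hf : Summable fun x => ‖f x‖ ^ 2) (hg : Summable fun x => ‖g x‖ ^ 2)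
    (hanti : ∀ v ∈ ρ, ∀ x, g (x * π (M.simple v)) = - g x) :
    ∑' x, (starRingEnd ℂ) (altS M π ρ f x) * g x =
      ((parF M ρ).card : ℂ) * ∑' x, (starRingEnd ℂ) (f x) * g x := by
  have h1 : ∀ x, (starRingEnd ℂ) (altS M π ρ f x) * g x =
      ∑ u ∈ parF M ρ, (eps M u : ℂ) * ((starRingEnd ℂ) (f (x * π u)) * g x) := by
    intro x
    unfold altS
    rw [map_sum, Finset.sum_mul]
    refine Finset.sum_congr rfl fun u _ => ?_
    rw [map_mul, map_intCast]
    ring
  have h2 : ∀ u : M.Group, Summable fun x => (starRingEnd ℂ) (f (x * π u)) * g x := by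
    intro u
    exact adjId_summable (adjId_comp (Equiv.mulRight (π u)) hf) hg
  have h3 : ∀ u ∈ parF M ρ, ∑' x, (eps M u : ℂ) * ((starRingEnd ℂ) (f (x * π u)) * g x) =
      ∑' x, (starRingEnd ℂ) (f x) * g x := by
    intro u hu
    have hu' := (mem_parF hρ u).1 hu
    rw [← (Equiv.mulRight (π u)).tsum_eq fun x => (starRingEnd ℂ) (f x) * g x]
    refine tsum_congr fun x => ?_
    rw [Equiv.coe_mulRight, anti_ext M ρ π g hanti u hu' x]
    ring
  rw [tsum_congr h1, Summable.tsum_finsetSum fun u _ => (h2 u).mul_left _,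
    Finset.sum_congr rfl h3, Finset.sum_const, nsmul_eq_mul]

theorem adj_identityL {V : Type} [Fintype V] [DecidableEq V] (M : CoxeterMatrix V)
    {H : Type} [Group H] (π : M.Group →* H) (ν : V → ℕ) (h c : Finset V → H → ℂ)
    (hh : ∀ σ, Summable fun x => ‖h σ x‖ ^ 2) (hc : ∀ σ, Summable fun x => ‖c σ x‖ ^ 2)
    (hsph : ∀ ρ, c ρ ≠ 0 → Sph M ρ)
    (hanti : ∀ ρ, ∀ v ∈ ρ, ∀ x, c ρ (x * π (M.simple v)) = - c ρ x) :
    ∑ τ : Finset V, ∑' x, (starRingEnd ℂ) (h τ x) *
        (∑ v ∈ τᶜ, (-1 : ℂ) ^ (τ.filter fun u => ν u < ν v).card * c (insert v τ) x) =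
      ∑ ρ : Finset V, (1 / ((parF M ρ).card : ℂ)) * ∑' x, (starRingEnd ℂ)
        (∑ v ∈ ρ, (-1 : ℂ) ^ ((ρ.erase v).filter fun u => ν u < ν v).card *
          altS M π ρ (h (ρ.erase v)) x) * c ρ x := by
  -- the left hand side
  have h1 : ∀ τ : Finset V, ∑' ω, (starRingEnd ℂ) (h τ ω) *
        (∑ v ∈ τᶜ, (-1 : ℂ) ^ (τ.filter fun u => ν u < ν v).card * c (insert v τ) ω) =
      ∑ v ∈ τᶜ, (-1 : ℂ) ^ (τ.filter fun u => ν u < ν v).card *
        ∑' ω, (starRingEnd ℂ) (h τ ω) * c (insert v τ) ω := by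
    intro τ
    have e1 : ∀ ω, (starRingEnd ℂ) (h τ ω) *
        (∑ v ∈ τᶜ, (-1 : ℂ) ^ (τ.filter fun u => ν u < ν v).card * c (insert v τ) ω) =
        ∑ v ∈ τᶜ, (-1 : ℂ) ^ (τ.filter fun u => ν u < ν v).card *
          ((starRingEnd ℂ) (h τ ω) * c (insert v τ) ω) := by
      intro ω
      rw [Finset.mul_sum]
      exact Finset.sum_congr rfl fun v _ => by ring
    rw [tsum_congr e1, Summable.tsum_finsetSum fun v _ => (adjId_summable (hh τ) (hc _)).mul_left _]
    exact Finset.sum_congr rfl fun v _ => tsum_mul_left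
  -- the right hand side
  have h2 : ∀ ρ : Finset V, (1 / ((parF M ρ).card : ℂ)) * ∑' x, (starRingEnd ℂ)
        (∑ v ∈ ρ, (-1 : ℂ) ^ ((ρ.erase v).filter fun u => ν u < ν v).card *
          altS M π ρ (h (ρ.erase v)) x) * c ρ x =
      ∑ v ∈ ρ, (-1 : ℂ) ^ ((ρ.erase v).filter fun u => ν u < ν v).card *
        ∑' x, (starRingEnd ℂ) (h (ρ.erase v) x) * c ρ x := by
    intro ρ
    by_cases hcρ : c ρ = 0
    · simp [hcρ]
    have hρ := hsph ρ hcρ
    have e1 : ∀ x, (starRingEnd ℂ)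
        (∑ v ∈ ρ, (-1 : ℂ) ^ ((ρ.erase v).filter fun u => ν u < ν v).card *
          altS M π ρ (h (ρ.erase v)) x) * c ρ x =
        ∑ v ∈ ρ, (-1 : ℂ) ^ ((ρ.erase v).filter fun u => ν u < ν v).card *
          ((starRingEnd ℂ) (altS M π ρ (h (ρ.erase v)) x) * c ρ x) := by
      intro x
      rw [map_sum, Finset.sum_mul]
      refine Finset.sum_congr rfl fun v _ => ?_
      rw [map_mul, map_pow, map_neg, map_one]
      ring
    have e3 : ∀ v, Summable fun x => (starRingEnd ℂ) (altS M π ρ (h (ρ.erase v)) x) * c ρ x := by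
      intro v
      have e4 : (fun x => (starRingEnd ℂ) (altS M π ρ (h (ρ.erase v)) x) * c ρ x) = fun x =>
          ∑ u ∈ parF M ρ, (eps M u : ℂ) *
            ((starRingEnd ℂ) (h (ρ.erase v) (x * π u)) * c ρ x) := by
        funext x
        unfold altS
        rw [map_sum, Finset.sum_mul]
        refine Finset.sum_congr rfl fun u _ => ?_
        rw [map_mul, map_intCast]
        ring
      rw [e4]
      refine summable_sum fun u _ => Summable.mul_left _ ?_
      exact adjId_summable (adjId_comp (Equiv.mulRight (π u)) (hh _)) (hc ρ)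
    rw [tsum_congr e1, Summable.tsum_finsetSum fun v _ => (e3 v).mul_left _, Finset.mul_sum]
    refine Finset.sum_congr rfl fun v _ => ?_
    have hcard : ((parF M ρ).card : ℂ) ≠ 0 := by
      have := parF_card_pos hρ
      exact_mod_cast this.ne'
    rw [tsum_mul_left, adjL_one M π ρ hρ (h (ρ.erase v)) (c ρ) (hh _) (hc ρ) (hanti ρ)]
    field_simp
  rw [Finset.sum_congr rfl fun τ _ => h1 τ, Finset.sum_congr rfl fun ρ _ => h2 ρ]
  rw [Finset.sum_sigma', Finset.sum_sigma']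
  refine Finset.sum_bij' (fun p _ => ⟨insert p.2 p.1, p.2⟩) (fun p _ => ⟨p.1.erase p.2, p.2⟩)
    ?_ ?_ ?_ ?_ ?_
  · rintro ⟨τ, v⟩ hp
    simp
  · rintro ⟨ρ, v⟩ hp
    simp
  · rintro ⟨τ, v⟩ hp
    simp only [mem_sigma, mem_univ, mem_compl, true_and] at hp
    simp [Finset.erase_insert hp]
  · rintro ⟨ρ, v⟩ hp
    simp only [mem_sigma, mem_univ, true_and] at hp
    simp [Finset.insert_erase hp]
  · rintro ⟨τ, v⟩ hp
    simp only [mem_sigma, mem_univ, mem_compl, true_and] at hp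
    simp only [Finset.erase_insert hp]

end Pool.Agent.H4.FC
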