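import Pool.Agent.H4.FC.Fermi

/-!
# Project FC: matrices over a commutative ring, definitions
-/

set_option autoImplicit false

open Finset

namespace Pool.Agent.H4.FC

/-- the index set of the fermions -/
abbrev FI (V : Type) (n k : ℕ) : Type := (Fin n ⊕ Fin k) ⊕ (V ⊕ Unit)

section

variable {V D : Type} [Fintype V] [Fintype D] [DecidableEq D] {n k : ℕ}

/-- an integer matrix over the ring `R` -/
def ic (R : Type) [CommRing R] (A : Matrix D D ℤ) : Matrix D D R := A.map (Int.cast : ℤ → R)

/-- the operator of a folding vector -/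
def eF (w a : FI V n k → Matrix D D ℤ) {R : Type} [CommRing R] (p : V → Fin n → R)
    (q : V → Fin k → R) (v : V) : Matrix D D R :=
  ∑ i, p v i • ic R (w (.inl (.inl i)) + a (.inl (.inl i))) +
    ∑ j, q v j • ic R (w (.inl (.inr j)) - a (.inl (.inr j)))

/-- the operators with `{g u, g v} = β u v + β v u` -/
def gF (w a : FI V n k → Matrix D D ℤ) {R : Type} [CommRing R] (β : V → V → R) (v : V) :
    Matrix D D R :=
  ic R (w (.inr (.inl v))) + ∑ u, β v u • ic R (a (.inr (.inl u)))

/-- an operator of square `-1` -/
def cF (w a : FI V n k → Matrix D D ℤ) (R : Type) [CommRing R] : Matrix D D R :=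
  ic R (w (.inr (.inr ())) - a (.inr (.inr ())))

/-- `t e + g` -/
def xF (w a : FI V n k → Matrix D D ℤ) {R : Type} [CommRing R] (p : V → Fin n → R)
    (q : V → Fin k → R) (β : V → V → R) (t : R) (v : V) : Matrix D D R :=
  t • eF w a p q v + gF w a β v

/-- the matrices with `(a u * a v) ^ m = -1` -/
def aF (w a : FI V n k → Matrix D D ℤ) {R : Type} [CommRing R] (p : V → Fin n → R)
    (q : V → Fin k → R) (β : V → V → R) (t : R) (v : V) : Matrix D D R :=
  xF w a p q β t v * cF w a R

/-- the representation of the Coxeter group -/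
def bF (w a : FI V n k → Matrix D D ℤ) {R : Type} [CommRing R] (p : V → Fin n → R)
    (q : V → Fin k → R) (β : V → V → R) (t : R) (v : V) : Matrix (D × D) (D × D) R :=
  Matrix.kroneckerMap (· * ·) (aF w a p q β t v) (aF w a p q β 0 v)

end

/-- the coefficients `β` of a symmetric function `c` -/
def bet {V R : Type} [DecidableEq V] [CommRing R] (ν : V → ℕ) (c : V → V → R) (v u : V) : R :=
  if u = v then 1 else if ν v < ν u then c v u else 0

end Pool.Agent.H4.FC
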