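import Pool.Agent.H4.FC.BDefs

/-!
# Project FC: the relations of the matrices

Everything holds over an arbitrary commutative ring. `ic R` is the ring homomorphism
`(Int.castRingHom R).mapMatrix`. Compare `Pool.Agent.H85.Fold2.Bmat`, whose lemmas `gen_anti`, `gen_sq`
(private) may be copied: for `C i` anticommuting with squares `s i`,
`{∑ x i C i, ∑ y i C i} = 2 ∑ s i x i y i` and `(∑ x i C i)² = ∑ s i (x i)²`.

* `w i + a i` has square `w a + a w = 1`, `w i - a i` has square `-1`; for `i ≠ j` all of
  `w i ± a i`, `w j ± a j`, `w i`, `a i`, `w j`, `a j` of different indices anticommute.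
* `gF_sq`: `(w_v + A)² = w_v² + {w_v, A} + A²`, `A = ∑_u β v u a_u`, `A² = 0` (the `a_u` anticommute and have
  square zero: induction on a finite set, valid in characteristic two), `{w_v, A} = β v v`.
* `gF_anti`: `{w_u + ∑ β u x a_x, w_v + ∑ β v y a_y} = β v u {w_u, a_u} + β u v {a_v, w_v}`
  for `u ≠ v`; in general the formula with all `u`, `v` is stated below: the anticommutator is
  `(β u v + β v u) • 1` (for `u = v` it is `2 β v v`).
* `aF u * aF v = x_u c x_v c = -(x_u x_v) c c = x_u x_v` since `c` anticommutes with `x_v` and `c² = -1`.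
-/

set_option autoImplicit false

open Finset

namespace Pool.Agent.H4.FC

variable {V D : Type} [Fintype V] [DecidableEq V] [Fintype D] [DecidableEq D] {n k : ℕ}
  {w a : FI V n k → Matrix D D ℤ} {R : Type} [CommRing R]

section general

variable {M ι : Type} [Ring M] [Algebra R M]

private lemma gen_ac {κ : Type} [Fintype ι] [Fintype κ] {B : ι → M} {C : κ → M} {s : ι → κ → R}
    (hs : ∀ i j, B i * C j + C j * B i = s i j • (1 : M)) (x : ι → R) (y : κ → R) :
    (∑ i, x i • B i) * (∑ j, y j • C j) + (∑ j, y j • C j) * (∑ i, x i • B i) =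
      (∑ i, ∑ j, x i * y j * s i j) • (1 : M) := by
  have h1 : (∑ j, y j • C j) * (∑ i, x i • B i) = ∑ i, ∑ j, (x i * y j) • (C j * B i) := by
    rw [Finset.sum_mul_sum, Finset.sum_comm]
    refine Finset.sum_congr rfl fun i _ => Finset.sum_congr rfl fun j _ => ?_
    rw [smul_mul_smul_comm, mul_comm (y j)]
  have h2 : (∑ i, x i • B i) * (∑ j, y j • C j) = ∑ i, ∑ j, (x i * y j) • (B i * C j) := by
    rw [Finset.sum_mul_sum]
    refine Finset.sum_congr rfl fun i _ => Finset.sum_congr rfl fun j _ => ?_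
    rw [smul_mul_smul_comm]
  rw [h1, h2, ← Finset.sum_add_distrib, Finset.sum_smul]
  refine Finset.sum_congr rfl fun i _ => ?_
  rw [← Finset.sum_add_distrib, Finset.sum_smul]
  refine Finset.sum_congr rfl fun j _ => ?_
  rw [← smul_add, hs, smul_smul]

private lemma gen_sq0 [DecidableEq ι] {B : ι → M} (hs : ∀ i, B i * B i = 0)
    (ha : ∀ i j, B i * B j = -(B j * B i)) (x : ι → R) (T : Finset ι) :
    (∑ i ∈ T, x i • B i) * (∑ j ∈ T, x j • B j) = 0 := by
  induction T using Finset.induction_on with
  | empty => simp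
  | insert k T hk ih =>
    rw [Finset.sum_insert hk, add_mul, mul_add, mul_add, ih, add_zero]
    have h1 : (x k • B k) * (∑ j ∈ T, x j • B j) + (∑ j ∈ T, x j • B j) * (x k • B k) = 0 := by
      rw [Finset.mul_sum, Finset.sum_mul, ← Finset.sum_add_distrib]
      refine Finset.sum_eq_zero fun j _ => ?_
      rw [smul_mul_smul_comm, smul_mul_smul_comm, ha k j, smul_neg, mul_comm (x k),
        neg_add_cancel]
    have h2 : (x k • B k) * (x k • B k) = 0 := by
      rw [smul_mul_smul_comm, hs, smul_zero]
    rw [h2, zero_add]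
    exact h1

end general

/-! ### The matrices over `R` -/

omit [Fintype V] [DecidableEq V] in
private lemma ic_mul (A B : Matrix D D ℤ) : ic R A * ic R B = ic R (A * B) := by
  show (Int.castRingHom R).mapMatrix A * (Int.castRingHom R).mapMatrix B =
    (Int.castRingHom R).mapMatrix (A * B)
  rw [map_mul]

private lemma ic_add (A B : Matrix D D ℤ) : ic R (A + B) = ic R A + ic R B := by
  show (Int.castRingHom R).mapMatrix (A + B) =
    (Int.castRingHom R).mapMatrix A + (Int.castRingHom R).mapMatrix B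
  rw [map_add]

private lemma ic_sub (A B : Matrix D D ℤ) : ic R (A - B) = ic R A - ic R B := by
  show (Int.castRingHom R).mapMatrix (A - B) =
    (Int.castRingHom R).mapMatrix A - (Int.castRingHom R).mapMatrix B
  rw [map_sub]

private lemma ic_neg (A : Matrix D D ℤ) : ic R (-A) = -ic R A := by
  show (Int.castRingHom R).mapMatrix (-A) = -(Int.castRingHom R).mapMatrix A
  rw [map_neg]

private lemma ic_zero : ic R (0 : Matrix D D ℤ) = 0 := by
  show (Int.castRingHom R).mapMatrix (0 : Matrix D D ℤ) = 0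
  rw [map_zero]

private lemma ic_one : ic R (1 : Matrix D D ℤ) = 1 := by
  show (Int.castRingHom R).mapMatrix (1 : Matrix D D ℤ) = 1
  rw [map_one]

/-- linear combinations of the fermions -/
private def Lc (w a : FI V n k → Matrix D D ℤ) (x y : FI V n k → R) : Matrix D D R :=
  ∑ i, x i • ic R (w i) + ∑ i, y i • ic R (a i)

private lemma ww_ac (h : IsFermi w a) (i j : FI V n k) :
    ic R (w i) * ic R (w j) + ic R (w j) * ic R (w i) = (0 : R) • (1 : Matrix D D R) := by
  rw [ic_mul, ic_mul, h.ww i j, ic_neg, neg_add_cancel, zero_smul]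

private lemma aa_ac (h : IsFermi w a) (i j : FI V n k) :
    ic R (a i) * ic R (a j) + ic R (a j) * ic R (a i) = (0 : R) • (1 : Matrix D D R) := by
  rw [ic_mul, ic_mul, h.aa i j, ic_neg, neg_add_cancel, zero_smul]

private lemma wa_ac (h : IsFermi w a) (i j : FI V n k) :
    ic R (w i) * ic R (a j) + ic R (a j) * ic R (w i) =
      (if i = j then 1 else 0 : R) • (1 : Matrix D D R) := by
  by_cases hij : i = j
  · subst hij
    rw [ic_mul, ic_mul, ← ic_add, h.one, ic_one, if_pos rfl, one_smul]
  · rw [ic_mul, ic_mul, h.wa i j hij, ic_neg, neg_add_cancel, if_neg hij, zero_smul]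

private lemma Lc_ac (h : IsFermi w a) (x y x' y' : FI V n k → R) :
    Lc w a x y * Lc w a x' y' + Lc w a x' y' * Lc w a x y =
      (∑ i, (x i * y' i + x' i * y i)) • (1 : Matrix D D R) := by
  have h1 := gen_ac (ww_ac (R := R) h) x x'
  have h2 := gen_ac (aa_ac (R := R) h) y y'
  have h3 := gen_ac (wa_ac (R := R) h) x y'
  have h4 := gen_ac (wa_ac (R := R) h) x' y
  simp only [mul_zero, Finset.sum_const_zero, zero_smul] at h1 h2
  simp only [mul_ite, mul_one, mul_zero, Finset.sum_ite_eq, Finset.mem_univ, if_true] at h3 h4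
  rw [Finset.sum_add_distrib, add_smul, ← h3, ← h4]
  unfold Lc
  generalize (∑ i, x i • ic R (w i)) = P at *
  generalize (∑ i, x' i • ic R (w i)) = P' at *
  generalize (∑ i, y i • ic R (a i)) = Q at *
  generalize (∑ i, y' i • ic R (a i)) = Q' at *
  have e : (P + Q) * (P' + Q') + (P' + Q') * (P + Q) =
      (P * P' + P' * P) + (Q * Q' + Q' * Q) + ((P * Q' + Q' * P) + (P' * Q + Q * P')) := by
    noncomm_ring
  rw [e, h1, h2, zero_add, zero_add]

private lemma Lc_sq (h : IsFermi w a) (x y : FI V n k → R) :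
    Lc w a x y * Lc w a x y = (∑ i, x i * y i) • (1 : Matrix D D R) := by
  have h1 := gen_sq0 (R := R) (B := fun i => ic R (w i))
    (fun i => by rw [ic_mul, h.w_sq, ic_zero])
    (fun i j => by rw [ic_mul, ic_mul, h.ww i j, ic_neg]) x Finset.univ
  have h2 := gen_sq0 (R := R) (B := fun i => ic R (a i))
    (fun i => by rw [ic_mul, h.a_sq, ic_zero])
    (fun i j => by rw [ic_mul, ic_mul, h.aa i j, ic_neg]) y Finset.univ
  have h3 := gen_ac (wa_ac (R := R) h) x y
  simp only [mul_ite, mul_one, mul_zero, Finset.sum_ite_eq, Finset.mem_univ, if_true] at h3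
  rw [← h3]
  unfold Lc
  generalize (∑ i, x i • ic R (w i)) = P at *
  generalize (∑ i, y i • ic R (a i)) = Q at *
  have e : (P + Q) * (P + Q) = P * P + Q * Q + (P * Q + Q * P) := by
    noncomm_ring
  rw [e, h1, h2, zero_add, zero_add]

private def xe (p : V → Fin n → R) (q : V → Fin k → R) (v : V) : FI V n k → R :=
  Sum.elim (Sum.elim (p v) (q v)) (fun _ => 0)

private def ye (p : V → Fin n → R) (q : V → Fin k → R) (v : V) : FI V n k → R :=
  Sum.elim (Sum.elim (p v) (fun j => -q v j)) (fun _ => 0)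

private def xg (n k : ℕ) (R : Type) [CommRing R] (v : V) : FI V n k → R :=
  Sum.elim (fun _ => 0) (Sum.elim (fun u => if u = v then 1 else 0) (fun _ => 0))

private def yg (n k : ℕ) (β : V → V → R) (v : V) : FI V n k → R :=
  Sum.elim (fun _ => 0) (Sum.elim (β v) (fun _ => 0))

private def xc (V : Type) (n k : ℕ) (R : Type) [CommRing R] : FI V n k → R :=
  Sum.elim (fun _ => 0) (Sum.elim (fun _ => 0) (fun _ => 1))

private def yc (V : Type) (n k : ℕ) (R : Type) [CommRing R] : FI V n k → R :=
  Sum.elim (fun _ => 0) (Sum.elim (fun _ => 0) (fun _ => -1))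

private lemma eF_eq (p : V → Fin n → R) (q : V → Fin k → R) (v : V) :
    eF w a p q v = Lc w a (xe p q v) (ye p q v) := by
  unfold eF Lc
  simp only [Fintype.sum_sum_type, xe, ye, Sum.elim_inl, Sum.elim_inr, zero_smul,
    Finset.sum_const_zero, add_zero, ic_add, ic_sub, smul_add, smul_sub, Finset.sum_add_distrib,
    Finset.sum_sub_distrib, neg_smul, Finset.sum_neg_distrib]
  abel

private lemma gF_eq (β : V → V → R) (v : V) :
    gF w a β v = Lc w a (xg n k R v) (yg n k β v) := by
  unfold gF Lc
  simp only [Fintype.sum_sum_type, xg, yg, Sum.elim_inl, Sum.elim_inr, zero_smul,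
    Finset.sum_const_zero, add_zero, zero_add, ite_smul, one_smul, Finset.sum_ite_eq',
    Finset.mem_univ, if_true]

private lemma cF_eq : cF w a R = Lc w a (xc V n k R) (yc V n k R) := by
  unfold cF Lc
  rw [ic_sub]
  simp only [Fintype.sum_sum_type, xc, yc, Sum.elim_inl, Sum.elim_inr, zero_smul,
    Finset.sum_const_zero, zero_add, one_smul, Finset.univ_unique,
    Finset.sum_singleton, neg_smul, sub_eq_add_neg]

theorem eF_anti (h : IsFermi w a) (p : V → Fin n → R) (q : V → Fin k → R) (u v : V) :
    eF w a p q u * eF w a p q v + eF w a p q v * eF w a p q u =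
      (2 * (p u ⬝ᵥ p v - q u ⬝ᵥ q v)) • (1 : Matrix D D R) := by
  rw [eF_eq, eF_eq, Lc_ac h]
  congr 1
  simp only [Fintype.sum_sum_type, xe, ye, Sum.elim_inl, Sum.elim_inr, mul_zero,
    Finset.sum_const_zero, add_zero, dotProduct, mul_sub, Finset.mul_sum]
  rw [sub_eq_add_neg, ← Finset.sum_neg_distrib]
  congr 1
  · exact Finset.sum_congr rfl fun i _ => by ring
  · exact Finset.sum_congr rfl fun i _ => by ring

theorem eF_sq (h : IsFermi w a) (p : V → Fin n → R) (q : V → Fin k → R) (v : V) :
    eF w a p q v * eF w a p q v = (p v ⬝ᵥ p v - q v ⬝ᵥ q v) • (1 : Matrix D D R) := by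
  rw [eF_eq, Lc_sq h]
  congr 1
  simp only [Fintype.sum_sum_type, xe, ye, Sum.elim_inl, Sum.elim_inr, mul_zero,
    Finset.sum_const_zero, add_zero, dotProduct, mul_neg, Finset.sum_neg_distrib, sub_eq_add_neg]

theorem gF_anti (h : IsFermi w a) (β : V → V → R) (u v : V) :
    gF w a β u * gF w a β v + gF w a β v * gF w a β u =
      (β u v + β v u) • (1 : Matrix D D R) := by
  rw [gF_eq, gF_eq, Lc_ac h]
  congr 1
  simp only [Fintype.sum_sum_type, xg, yg, Sum.elim_inl, Sum.elim_inr, mul_zero,
    Finset.sum_const_zero, add_zero, zero_add, Finset.sum_add_distrib, ite_mul, one_mul, zero_mul,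
    Finset.sum_ite_eq', Finset.mem_univ, if_true]
  ring

theorem gF_sq (h : IsFermi w a) (β : V → V → R) (v : V) :
    gF w a β v * gF w a β v = β v v • (1 : Matrix D D R) := by
  rw [gF_eq, Lc_sq h]
  congr 1
  simp only [Fintype.sum_sum_type, xg, yg, Sum.elim_inl, Sum.elim_inr, mul_zero,
    Finset.sum_const_zero, add_zero, zero_add, ite_mul, one_mul, zero_mul,
    Finset.sum_ite_eq', Finset.mem_univ, if_true]

theorem eF_gF (h : IsFermi w a) (p : V → Fin n → R) (q : V → Fin k → R) (β : V → V → R)
    (u v : V) : eF w a p q u * gF w a β v = -(gF w a β v * eF w a p q u) := by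
  rw [eq_neg_iff_add_eq_zero, eF_eq, gF_eq, Lc_ac h]
  simp only [Fintype.sum_sum_type, xe, ye, xg, yg, Sum.elim_inl, Sum.elim_inr, mul_zero, zero_mul,
    Finset.sum_const_zero, add_zero, zero_smul]

theorem cF_sq (h : IsFermi w a) : cF w a R * cF w a R = -1 := by
  rw [cF_eq, Lc_sq h]
  simp [Fintype.sum_sum_type, xc, yc]

theorem eF_cF (h : IsFermi w a) (p : V → Fin n → R) (q : V → Fin k → R) (v : V) :
    eF w a p q v * cF w a R = -(cF w a R * eF w a p q v) := by
  rw [eq_neg_iff_add_eq_zero, eF_eq, cF_eq, Lc_ac h]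
  simp only [Fintype.sum_sum_type, xe, ye, xc, yc, Sum.elim_inl, Sum.elim_inr, mul_zero, zero_mul,
    Finset.sum_const_zero, add_zero, zero_smul]

theorem gF_cF (h : IsFermi w a) (β : V → V → R) (v : V) :
    gF w a β v * cF w a R = -(cF w a R * gF w a β v) := by
  rw [eq_neg_iff_add_eq_zero, gF_eq, cF_eq, Lc_ac h]
  simp only [Fintype.sum_sum_type, xg, yg, xc, yc, Sum.elim_inl, Sum.elim_inr, mul_zero, zero_mul,
    Finset.sum_const_zero, add_zero, zero_smul]

private lemma xF_cF (h : IsFermi w a) (p : V → Fin n → R) (q : V → Fin k → R)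
    (β : V → V → R) (t : R) (v : V) :
    cF w a R * xF w a p q β t v = -(xF w a p q β t v * cF w a R) := by
  unfold xF
  rw [mul_add, add_mul, mul_smul_comm, smul_mul_assoc, eF_cF h, gF_cF h]
  simp only [smul_neg]
  abel

private lemma xx (h : IsFermi w a) (p : V → Fin n → R) (q : V → Fin k → R)
    (β : V → V → R) (t : R) (u v : V) :
    aF w a p q β t u * aF w a p q β t v = xF w a p q β t u * xF w a p q β t v := by
  unfold aF
  rw [mul_assoc, ← mul_assoc (cF w a R), xF_cF h, neg_mul, mul_assoc (xF w a p q β t v), cF_sq h,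
    mul_neg (xF w a p q β t v), mul_one, neg_neg]

private lemma eg0 (h : IsFermi w a) (p : V → Fin n → R) (q : V → Fin k → R) (β : V → V → R)
    (u v : V) : eF w a p q u * gF w a β v + gF w a β v * eF w a p q u = 0 := by
  rw [eF_gF h, neg_add_cancel]

/-- the matrices `a v` have square `1` -/
theorem aF_sq (h : IsFermi w a) (p : V → Fin n → R) (q : V → Fin k → R) (β : V → V → R)
    (t : R) (v : V) (hpq : p v ⬝ᵥ p v = q v ⬝ᵥ q v) (hβ : β v v = 1) :
    aF w a p q β t v * aF w a p q β t v = 1 := by
  have h1 := eF_sq h p q v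
  have h2 := gF_sq h β v
  have h3 := eg0 h p q β v v
  rw [hpq, sub_self, zero_smul] at h1
  rw [hβ, one_smul] at h2
  rw [xx h]
  unfold xF
  have e : (t • eF w a p q v + gF w a β v) * (t • eF w a p q v + gF w a β v) =
      (t * t) • (eF w a p q v * eF w a p q v) + gF w a β v * gF w a β v +
        t • (eF w a p q v * gF w a β v + gF w a β v * eF w a p q v) := by
    rw [add_mul, mul_add, mul_add, smul_mul_smul_comm, smul_mul_assoc, mul_smul_comm, smul_add]
    abel
  rw [e, h1, h2, h3, smul_zero, smul_zero, zero_add, add_zero]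

theorem aF_anti (h : IsFermi w a) (p : V → Fin n → R) (q : V → Fin k → R) (β : V → V → R)
    (t : R) (u v : V) (hpq : p u ⬝ᵥ p v = q u ⬝ᵥ q v) :
    aF w a p q β t u * aF w a p q β t v + aF w a p q β t v * aF w a p q β t u =
      (β u v + β v u) • (1 : Matrix D D R) := by
  have h1 := eF_anti h p q u v
  have h2 := gF_anti h β u v
  have h3 := eg0 h p q β u v
  have h4 := eg0 h p q β v u
  rw [hpq, sub_self, mul_zero, zero_smul] at h1
  rw [xx h, xx h, ← h2]
  unfold xF
  have e : (t • eF w a p q u + gF w a β u) * (t • eF w a p q v + gF w a β v) +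
      (t • eF w a p q v + gF w a β v) * (t • eF w a p q u + gF w a β u) =
      (t * t) • (eF w a p q u * eF w a p q v + eF w a p q v * eF w a p q u) +
        (gF w a β u * gF w a β v + gF w a β v * gF w a β u) +
        (t • (eF w a p q u * gF w a β v + gF w a β v * eF w a p q u) +
          t • (eF w a p q v * gF w a β u + gF w a β u * eF w a p q v)) := by
    simp only [add_mul, mul_add, smul_mul_assoc, mul_smul_comm, smul_add, mul_smul]
    abel
  rw [e, h1, h3, h4, smul_zero, smul_zero, zero_add, add_zero, add_zero]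

private lemma ic_map {R' : Type} [CommRing R'] (f : R →+* R') (A : Matrix D D ℤ) :
    (ic R A).map f = ic R' A := by
  ext i j
  simp [ic]

private lemma smul_map {R' : Type} [CommRing R'] (f : R →+* R') (r : R) (A : Matrix D D R) :
    f.mapMatrix (r • A) = f r • f.mapMatrix A := by
  ext i j
  simp

/-- compatibility with ring homomorphisms -/
theorem aF_map {R' : Type} [CommRing R'] (f : R →+* R') (p : V → Fin n → R)
    (q : V → Fin k → R) (β : V → V → R) (t : R) (v : V) :
    (aF w a p q β t v).map f =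
      aF w a (fun v i => f (p v i)) (fun v j => f (q v j)) (fun u v => f (β u v)) (f t) v := by
  show f.mapMatrix (aF w a p q β t v) = _
  have hi : ∀ A : Matrix D D ℤ, f.mapMatrix (ic R A) = ic R' A := fun A => ic_map f A
  unfold aF xF eF gF cF
  simp only [map_mul, map_add, map_sum, smul_map, hi]

theorem bF_map {R' : Type} [CommRing R'] (f : R →+* R') (p : V → Fin n → R)
    (q : V → Fin k → R) (β : V → V → R) (t : R) (v : V) :
    (bF w a p q β t v).map f =
      bF w a (fun v i => f (p v i)) (fun v j => f (q v j)) (fun u v => f (β u v)) (f t) v := by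
  have h1 := aF_map (w := w) (a := a) f p q β t v
  have h2 := aF_map (w := w) (a := a) f p q β 0 v
  rw [map_zero] at h2
  unfold bF
  rw [← h1, ← h2]
  ext ⟨i, i'⟩ ⟨j, j'⟩
  simp [Matrix.kroneckerMap_apply]

theorem bet_self (ν : V → ℕ) (c : V → V → R) (v : V) : bet ν c v v = 1 := by
  simp [bet]

theorem bet_add {ν : V → ℕ} (hν : Function.Injective ν) {c : V → V → R}
    (hc : ∀ u v, c u v = c v u) {u v : V} (huv : u ≠ v) : bet ν c u v + bet ν c v u = c u v := by
  have h1 : ν u ≠ ν v := fun h => huv (hν h)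
  unfold bet
  rw [if_neg huv.symm, if_neg huv]
  rcases lt_or_gt_of_ne h1 with h | h
  · rw [if_pos h, if_neg (not_lt.mpr h.le), add_zero]
  · rw [if_neg (not_lt.mpr h.le), if_pos h, zero_add, hc]

theorem bet_map {R' : Type} [CommRing R'] (f : R →+* R') (ν : V → ℕ) (c : V → V → R) (u v : V) :
    f (bet ν c u v) = bet ν (fun u v => f (c u v)) u v := by
  unfold bet
  split_ifs <;> simp

end Pool.Agent.H4.FC
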