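import Pool.Agent.H4.FC.RelC
import Pool.Agent.H85.Fold.TwA

/-!
# Project FC: quantitative exactness without conditions on edges

`exists_homotopyR` is the analogue of `exists_homotopy` (in `Pool.Agent.H85.Fold.TwA`) for the complex
of the simplices which contain `τ`, without the part for the operators: let `Ci` be the submodule of
the `c` with `IsF G e ⊤ univ i c` and `c σ ≠ 0 → τ ⊆ σ` and `f : C(i+1) → (Finset V → X)` the restriction
of `bdr ν τ`. Choose a linear right inverse `s` of `f` onto its range, extended to a linear map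
`H` on all of `Finset V → X` with values in `C(i+1)`. By `HVr` `bdr (H z) = z` for `z ∈ Ci` with
`bdr z = 0`. So `x ↦ x - bdr (H x)` vanishes on the kernel of `bdr` on `Ci` and factors as `Φ ∘ bdr` on
`Ci` (see `twA_factor` in `TwA.lean`; private there, copy it): `x = bdr (H x) + Φ (bdr x)` on `Ci`.

`qe_base`: if `tB B` is not a clique then every chain `IsC G e m J ∅ B i x` is zero and `y = 0` works
with `C = 0`. Otherwise take `H`, `Φ` for `τ = tB B`, with bounds `‖H x‖ ≤ CH ‖x‖`, `‖Φ x‖ ≤ CΦ ‖x‖`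
(`exists_bound`; `Finset V → X` is finite-dimensional), `C = max CH CΦ`. Given `J` and `x` with
`IsC G e m J ∅ B i x`, let `y σ ω = H (fun σ' => x σ' ω) σ`. For each `ω` the chain `fun σ => x σ ω` lies in
`Ci`. So `x - bdr y = Φ (bdr x)` pointwise in `ω` (`bdr_ptw`). The conditions `nul` for `y`: the matrix
`K = pe m J b.1 b.2` acts on `ω ↦ (fun σ => x σ ω) : N → (Finset V → X)` and commutes with `H` applied
pointwise (`actL_comp`); `actL K` of this function is zero because `actL K (x σ) = 0` for all `σ`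
(`actL_family`). Norms: sup norms, `‖y‖ ≤ CH ‖x‖` etc.
-/

set_option autoImplicit false

open Finset

namespace Pool.Agent.H4.FC

open Pool.Agent.H85.Fold

variable {V X : Type} [DecidableEq V] [Fintype V]

omit [DecidableEq V] [Fintype V] in
private theorem bqe_factor {K X Y : Type} [AddCommGroup K] [Module ℝ K] [AddCommGroup X]
    [Module ℝ X] [AddCommGroup Y] [Module ℝ Y] (f : K →ₗ[ℝ] Y) (g : K →ₗ[ℝ] X)
    (h : ∀ x, f x = 0 → g x = 0) : ∃ Φ : Y →ₗ[ℝ] X, ∀ x, Φ (f x) = g x := by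
  obtain ⟨r, hr⟩ := f.rangeRestrict.exists_rightInverse_of_surjective
    (LinearMap.range_eq_top.2 f.surjective_rangeRestrict)
  obtain ⟨Φ, hΦ⟩ := (g.comp r).exists_extend
  refine ⟨Φ, fun x => ?_⟩
  have h1 : Φ (f x) = g (r (f.rangeRestrict x)) := by
    have := congrArg (fun k => k (f.rangeRestrict x)) hΦ
    simpa using this
  have h2 : f (r (f.rangeRestrict x)) = f x := by
    have := congrArg (fun k => k (f.rangeRestrict x)) hr
    have := congrArg Subtype.val this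
    simpa using this
  have h3 : g (r (f.rangeRestrict x) - x) = 0 := h _ (by rw [map_sub, h2, sub_self])
  rw [h1]
  rw [map_sub, sub_eq_zero] at h3
  exact h3

omit [DecidableEq V] [Fintype V] in
private theorem bqe_supp_add [AddCommGroup X] {τ : Finset V} {x y : Finset V → X}
    (hx : ∀ σ, x σ ≠ 0 → τ ⊆ σ) (hy : ∀ σ, y σ ≠ 0 → τ ⊆ σ) :
    ∀ σ, (x + y) σ ≠ 0 → τ ⊆ σ := by
  intro σ hσ
  by_cases h : x σ = 0
  · refine hy σ fun h' => hσ ?_
    rw [Pi.add_apply, h, h', add_zero]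
  · exact hx σ h

omit [DecidableEq V] [Fintype V] in
private theorem bqe_supp_smul [AddCommGroup X] [Module ℝ X] {τ : Finset V} {x : Finset V → X}
    (r : ℝ) (hx : ∀ σ, x σ ≠ 0 → τ ⊆ σ) : ∀ σ, (r • x) σ ≠ 0 → τ ⊆ σ := by
  intro σ hσ
  refine hx σ fun h' => hσ ?_
  rw [Pi.smul_apply, h', smul_zero]

theorem exists_homotopyR [AddCommGroup X] [Module ℝ X] [FiniteDimensional ℝ X]
    (ν : V → ℕ) (G : SimpleGraph V) (e : V → X →ₗ[ℝ] X) (τ : Finset V) (i : ℕ)
    (h : HVr ν G e ⊤ univ τ i) :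
    ∃ H Φ : (Finset V → X) →ₗ[ℝ] (Finset V → X),
      (∀ x, IsF G e ⊤ univ (i + 1) (H x) ∧ ∀ σ, H x σ ≠ 0 → τ ⊆ σ) ∧
      ∀ x : Finset V → X, IsF G e ⊤ univ i x → (∀ σ, x σ ≠ 0 → τ ⊆ σ) →
        x = bdr ν τ (H x) + Φ (bdr ν τ x) := by
  let C : Submodule ℝ (Finset V → X) :=
    { carrier := {y | IsF G e ⊤ univ (i + 1) y ∧ ∀ σ, y σ ≠ 0 → τ ⊆ σ}
      add_mem' := fun ha hb => ⟨IsF.add ha.1 hb.1, bqe_supp_add ha.2 hb.2⟩
      zero_mem' := ⟨IsF.zero, fun σ h => absurd rfl h⟩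
      smul_mem' := fun r _ ha => ⟨IsF.smul ha.1 r, bqe_supp_smul r ha.2⟩ }
  let K : Submodule ℝ (Finset V → X) :=
    { carrier := {y | IsF G e ⊤ univ i y ∧ ∀ σ, y σ ≠ 0 → τ ⊆ σ}
      add_mem' := fun ha hb => ⟨IsF.add ha.1 hb.1, bqe_supp_add ha.2 hb.2⟩
      zero_mem' := ⟨IsF.zero, fun σ h => absurd rfl h⟩
      smul_mem' := fun r _ ha => ⟨IsF.smul ha.1 r, bqe_supp_smul r ha.2⟩ }
  let f : C →ₗ[ℝ] (Finset V → X) := (bdr ν τ).comp C.subtype
  obtain ⟨s, hs⟩ := f.rangeRestrict.exists_rightInverse_of_surjective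
    (LinearMap.range_eq_top.2 f.surjective_rangeRestrict)
  obtain ⟨s', hs'⟩ := s.exists_extend
  let H : (Finset V → X) →ₗ[ℝ] (Finset V → X) := C.subtype.comp s'
  have hH : ∀ x, IsF G e ⊤ univ (i + 1) (H x) ∧ ∀ σ, H x σ ≠ 0 → τ ⊆ σ := fun x => (s' x).2
  have hbd : ∀ z, IsF G e ⊤ univ i z → (∀ σ, z σ ≠ 0 → τ ⊆ σ) → bdr ν τ z = 0 →
      bdr ν τ (H z) = z := by
    intro z hz hzs hz0
    obtain ⟨y, hy, hys, hyz⟩ := h z hz hzs hz0
    have hmem : z ∈ LinearMap.range f := ⟨⟨y, hy, hys⟩, hyz⟩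
    have h1 : s' z = s ⟨z, hmem⟩ := by
      have := congrArg (fun k => k ⟨z, hmem⟩) hs'
      simpa using this
    have h2 : f (s ⟨z, hmem⟩) = z := by
      have := congrArg (fun k => k ⟨z, hmem⟩) hs
      have := congrArg Subtype.val this
      simpa using this
    show f (s' z) = z
    rw [h1, h2]
  obtain ⟨Φ, hΦ⟩ := bqe_factor ((bdr ν τ).comp K.subtype)
    ((LinearMap.id - (bdr ν τ).comp H).comp K.subtype) (by
      rintro ⟨x, hx⟩ h0
      have h3 := hbd x hx.1 hx.2 h0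
      show x - bdr ν τ (H x) = 0
      rw [h3, sub_self])
  refine ⟨H, Φ, hH, fun x hx hxs => ?_⟩
  have h1 : Φ (bdr ν τ x) = x - bdr ν τ (H x) := hΦ ⟨x, hx, hxs⟩
  rw [h1]
  abel

theorem qe_base [NormedAddCommGroup X] [NormedSpace ℝ X] [FiniteDimensional ℝ X]
    (ν : V → ℕ) (G : SimpleGraph V) (e : V → X →ₗ[ℝ] X) (m : V → V → ℕ) (κ : ℝ)
    (B : Finset (V × V)) (i : ℕ) (h : Cl G (tB B) → HVr ν G e ⊤ univ (tB B) i) :
    QE ν G e m κ ∅ B i := by
  by_cases hcl : Cl G (tB B)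
  · obtain ⟨H, Φ, hH, hΦ⟩ := exists_homotopyR ν G e (tB B) i (h hcl)
    obtain ⟨CH, hCH0, hCH⟩ := exists_bound H
    obtain ⟨CF, hCF0, hCF⟩ := exists_bound Φ
    refine ⟨max CH CF, le_max_of_le_left hCH0, ?_⟩
    intro N _ _ J hJ x hx
    have hxs : ∀ ω σ, x σ ω ≠ 0 → x σ ≠ 0 := fun ω σ h0 h1 => h0 (by rw [h1]; rfl)
    have hxF : ∀ ω, IsF G e ⊤ univ i (fun σ => x σ ω) := by
      intro ω
      refine ⟨fun σ => Submodule.mem_top, fun σ v hv => hx.ker σ v hv ω, fun σ h0 => ?_⟩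
      obtain ⟨_, h2, h3⟩ := hx.supp σ (hxs ω σ h0)
      exact ⟨Finset.subset_univ σ, h2, h3⟩
    have hxτ : ∀ ω σ, x σ ω ≠ 0 → tB B ⊆ σ := fun ω σ h0 => (hx.supp σ (hxs ω σ h0)).1
    have hnx : ∀ ω, ‖(fun σ => x σ ω : Finset V → X)‖ ≤ ‖x‖ := by
      intro ω
      refine (pi_norm_le_iff_of_nonneg (norm_nonneg _)).2 fun σ => ?_
      exact (norm_le_pi_norm (x σ) ω).trans (norm_le_pi_norm x σ)
    refine ⟨fun σ ω => H (fun σ' => x σ' ω) σ, ⟨?_, ?_, ?_, ?_⟩, ?_, ?_⟩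
    · intro σ h0
      obtain ⟨ω, hω⟩ : ∃ ω, H (fun σ' => x σ' ω) σ ≠ 0 := by
        by_contra hcon
        push Not at hcon
        exact h0 (funext hcon)
      obtain ⟨h1, h2⟩ := hH (fun σ' => x σ' ω)
      obtain ⟨_, h3, h4⟩ := h1.supp σ hω
      exact ⟨h2 σ hω, h3, h4⟩
    · intro σ v hv ω
      exact (hH (fun σ' => x σ' ω)).1.ker σ v hv
    · intro f hf
      exact absurd hf (Finset.notMem_empty f)
    · intro b hb σ
      have h1 := actL_comp ((LinearMap.proj (R := ℝ) (φ := fun _ : Finset V => X) σ).comp H)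
        (pe m J b.1 b.2) (fun ω σ' => x σ' ω)
      have h2 : actL (pe m J b.1 b.2) (fun ω σ' => x σ' ω) = (0 : N → Finset V → X) := by
        rw [actL_family]
        funext ω k
        exact congrFun (hx.nul b hb k) ω
      rw [h2] at h1
      refine (show actL (pe m J b.1 b.2) (fun ω => H (fun σ' => x σ' ω) σ) = 0 from ?_)
      refine h1.trans ?_
      funext ω
      exact map_zero _
    · refine (pi_norm_le_iff_of_nonneg (by positivity)).2 fun σ => ?_
      refine (pi_norm_le_iff_of_nonneg (by positivity)).2 fun ω => ?_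
      calc ‖H (fun σ' => x σ' ω) σ‖ ≤ ‖H (fun σ' => x σ' ω)‖ := norm_le_pi_norm _ σ
        _ ≤ CH * ‖(fun σ' => x σ' ω : Finset V → X)‖ := hCH _
        _ ≤ max CH CF * ‖x‖ := by
            have := hnx ω
            gcongr
            exact le_max_left _ _
    · refine (pi_norm_le_iff_of_nonneg (by positivity)).2 fun σ => ?_
      refine (pi_norm_le_iff_of_nonneg (by positivity)).2 fun ω => ?_
      have h1 := hΦ (fun σ' => x σ' ω) (hxF ω) (hxτ ω)
      have h2 : (x - bdr ν (tB B) (fun σ ω => H (fun σ' => x σ' ω) σ)) σ ω =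
          Φ (bdr ν (tB B) (fun σ' => x σ' ω)) σ := by
        rw [Pi.sub_apply, Pi.sub_apply, bdr_ptw]
        have h3 := congrFun h1 σ
        rw [Pi.add_apply] at h3
        rw [h3]
        exact add_sub_cancel_left _ _
      rw [h2]
      have h5 : ‖bdr ν (tB B) (fun σ' => x σ' ω)‖ ≤ ‖bdr ν (tB B) x‖ := by
        refine (pi_norm_le_iff_of_nonneg (norm_nonneg _)).2 fun ρ => ?_
        rw [← bdr_ptw]
        exact (norm_le_pi_norm (bdr ν (tB B) x ρ) ω).trans (norm_le_pi_norm (bdr ν (tB B) x) ρ)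
      calc ‖Φ (bdr ν (tB B) (fun σ' => x σ' ω)) σ‖ ≤ ‖Φ (bdr ν (tB B) (fun σ' => x σ' ω))‖ :=
            norm_le_pi_norm _ σ
        _ ≤ CF * ‖bdr ν (tB B) (fun σ' => x σ' ω)‖ := hCF _
        _ ≤ max CH CF * ‖bdr ν (tB B) x‖ := by
            gcongr
            exact le_max_right _ _
  · refine ⟨0, le_rfl, fun N _ _ J hJ x hx => ⟨0, IsC.zero, ?_, ?_⟩⟩
    · rw [norm_zero, zero_mul]
    · have hx0 : x = 0 := by
        funext σ
        by_contra hσ
        obtain ⟨h1, h2, _⟩ := hx.supp σ hσ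
        exact hcl fun u hu v hv huv => h2 u (h1 hu) v (h1 hv) huv
      rw [hx0, map_zero, sub_zero, norm_zero, zero_mul]

end Pool.Agent.H4.FC
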