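import Pool.Agent.H4.FC.XopL
import Pool.Agent.H85.Fold.TwA

/-!
# Project FC: deformation of chains

`deformL_simplex`, induction on `σ` (`Finset.induction_on`), modelled on `deform_simplex` in
`Pool.Agent.H85.Fold.TwB`. `σ = ∅`: `z' = z`, `C = 0`. Step `insert v σ`: there is a linear map
`D : X → X` with `e u (D x) = 0` for all `u ∈ σ`, `x`, and `e v (D x) = x` whenever `e u x = 0` for all
`u ∈ insert v σ` (hypothesis `lift`, as in `twB_section`). Let `z` be as in the statement and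
`m ω = D (z ω)`. The projections commute with `D` applied pointwise (`actL_comp`), so they fix `m`. By
induction there is `m'` for `m` and `σ`. Put `z' = δ • Xop e g γ J δ⁻¹ v m'`, i.e.
`z' ω = e v (m' ω) + δ • (g v (m' ω) + γ (actL (J v) m' ω))`.
* `X v z' = 0` by `Xop_sq`; for `u ∈ σ`: `X u z' = δ X u X v m' = -δ X v X u m' = 0` by `Xop_anti_fix`
  (`u`, `v` are in the clique `σ₀`, `u ≠ v`, and `pe m J u v` fixes `m'`) and `X u m' = 0`.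
* the projections of the pairs in `σ₀` fix `z'`: `Xop_pe` (they fix `m'`).
* `‖z' - z‖ ≤ ‖e v (m' - m)‖ + δ ‖g v m' + γ (J v m')‖ ≤ CE ‖m' - m‖ + δ (Cg + Cγ κ) ‖m'‖`, with
  `‖m‖ ≤ CD ‖z‖`, `‖m' - m‖ ≤ C δ ‖m‖`, `‖m'‖ ≤ (1 + C) ‖m‖` (`δ ≤ 1`).

`deformL`: do this for every `σ` with `z σ ≠ 0` (a clique with `i` elements; `σ₀ = σ`); put `z' σ = 0` for
the others; `C = ∑ C σ`.
-/

set_option autoImplicit false

open Finset

namespace Pool.Agent.H4.FC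

open Pool.Agent.H85.Fold

variable {V X : Type} [DecidableEq V] [Fintype V] [NormedAddCommGroup X] [NormedSpace ℝ X]
  [FiniteDimensional ℝ X] {G : SimpleGraph V} {m : V → V → ℕ} {e g : V → X →ₗ[ℝ] X}
  {γ : X →ₗ[ℝ] X}

/-- the kernels of the cliques are images -/
def Lift (G : SimpleGraph V) (e : V → X →ₗ[ℝ] X) : Prop :=
  ∀ (σ : Finset V) (v : V), v ∉ σ → Cl G (insert v σ) → ∀ x : X,
    (∀ u ∈ insert v σ, e u x = 0) → ∃ y : X, (∀ u ∈ σ, e u y = 0) ∧ e v y = x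

private def dflK (e : V → X →ₗ[ℝ] X) (σ : Finset V) : Submodule ℝ X where
  carrier := {x | ∀ u ∈ σ, e u x = 0}
  add_mem' := by
    intro a b ha hb u hu
    rw [map_add, ha u hu, hb u hu, add_zero]
  zero_mem' := fun u _ => map_zero _
  smul_mem' := by
    intro r a ha u hu
    rw [map_smul, ha u hu, smul_zero]

omit [Fintype V] in
/-- a linear section of `e v` -/
private theorem dfl_section (hl : Lift G e) {σ : Finset V} {v : V} (hv : v ∉ σ)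
    (hcl : Cl G (insert v σ)) :
    ∃ D : X →ₗ[ℝ] X, (∀ x, ∀ u ∈ σ, e u (D x) = 0) ∧
      ∀ x, (∀ u ∈ insert v σ, e u x = 0) → e v (D x) = x := by
  let E : dflK e σ →ₗ[ℝ] X := (e v).comp (dflK e σ).subtype
  obtain ⟨r, hr⟩ := LinearMap.exists_rightInverse_of_surjective E.rangeRestrict
    (LinearMap.range_rangeRestrict E)
  obtain ⟨D, hD⟩ := LinearMap.exists_extend r
  refine ⟨(dflK e σ).subtype.comp D, fun x u hu => (D x).2 u hu, fun x hx => ?_⟩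
  obtain ⟨w, hw1, hw2⟩ := hl σ v hv hcl x hx
  have hmem : x ∈ LinearMap.range E := ⟨⟨w, hw1⟩, hw2⟩
  have h1 : D x = r ⟨x, hmem⟩ := by
    rw [← hD]
    rfl
  have h2 : E (r ⟨x, hmem⟩) = x := by
    have h3 := congrArg Subtype.val (LinearMap.congr_fun hr ⟨x, hmem⟩)
    exact h3
  have h4 : E (D x) = x := by rw [h1, h2]
  exact h4

theorem deformL_simplex (hL : IsLab G m) (h : IsPertL G m e g γ) (hl : Lift G e) {κ : ℝ}
    (hκ : 0 ≤ κ) (σ : Finset V) (hσ : Cl G σ) :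
    ∃ C : ℝ, 0 ≤ C ∧ ∀ (N : Type) [Fintype N] [DecidableEq N] (J : V → Matrix N N ℝ),
      IsRep G m κ J → ∀ δ : ℝ, 0 < δ → δ ≤ 1 → ∀ σ₀ : Finset V, σ ⊆ σ₀ → Cl G σ₀ →
      ∀ z : N → X, (∀ v ∈ σ, ∀ ω, e v (z ω) = 0) →
        (∀ u ∈ σ₀, ∀ v ∈ σ₀, u ≠ v → actL (pe m J u v) z = z) →
        ∃ z' : N → X, (∀ v ∈ σ, Xop e g γ J δ⁻¹ v z' = 0) ∧
          (∀ u ∈ σ₀, ∀ v ∈ σ₀, u ≠ v → actL (pe m J u v) z' = z') ∧
          ‖z' - z‖ ≤ C * δ * ‖z‖ := by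
  induction σ using Finset.induction_on with
  | empty =>
    refine ⟨0, le_rfl, fun N _ _ J _ δ _ _ σ₀ _ _ z _ hz =>
      ⟨z, fun v hv => absurd hv (Finset.notMem_empty v), hz, ?_⟩⟩
    rw [sub_self, norm_zero, zero_mul, zero_mul]
  | insert v σ hv ih =>
    have hcσ : Cl G σ := fun a ha b hb hab =>
      hσ a (Finset.mem_insert_of_mem ha) b (Finset.mem_insert_of_mem hb) hab
    obtain ⟨C, hC0, hC⟩ := ih hcσ
    obtain ⟨D, hD1, hD2⟩ := dfl_section hl hv hσ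
    obtain ⟨CD, hCD0, hCD⟩ := exists_bound D
    obtain ⟨CE, hCE0, hCE⟩ := exists_bound (e v)
    obtain ⟨Cg, hCg0, hCg⟩ := exists_bound (g v)
    obtain ⟨Cγ, hCγ0, hCγ⟩ := exists_bound γ
    refine ⟨CE * C * CD + (Cg + Cγ * κ) * (1 + C) * CD, by positivity, ?_⟩
    intro N _ _ J hJ δ hδ hδ1 σ₀ hσ₀ hcl₀ z hz hfix
    have hvσ₀ : v ∈ σ₀ := hσ₀ (Finset.mem_insert_self v σ)
    have hm : ∀ u ∈ σ, ∀ ω, e u (D (z ω)) = 0 := fun u hu ω => hD1 _ u hu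
    have hmf : ∀ u ∈ σ₀, ∀ w ∈ σ₀, u ≠ w →
        actL (pe m J u w) (fun ω => D (z ω)) = fun ω => D (z ω) := by
      intro u hu w hw huw
      rw [actL_comp, hfix u hu w hw huw]
    obtain ⟨m', hm1, hm3, hm2⟩ := hC N J hJ δ hδ hδ1 σ₀
      (fun u hu => hσ₀ (Finset.mem_insert_of_mem hu)) hcl₀ (fun ω => D (z ω)) hm hmf
    have hmn : ‖(fun ω => D (z ω) : N → X)‖ ≤ CD * ‖z‖ := by
      refine (pi_norm_le_iff_of_nonneg (by positivity)).2 fun ω => ?_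
      exact (hCD _).trans (mul_le_mul_of_nonneg_left (norm_le_pi_norm z ω) hCD0)
    have hmn' : ‖m'‖ ≤ (1 + C) * (CD * ‖z‖) := by
      have h1 : ‖m'‖ ≤ ‖m' - (fun ω => D (z ω))‖ + ‖(fun ω => D (z ω) : N → X)‖ := by
        have := norm_add_le (m' - (fun ω => D (z ω))) (fun ω => D (z ω))
        rwa [sub_add_cancel] at this
      have h2 : C * δ * ‖(fun ω => D (z ω) : N → X)‖ ≤ C * (CD * ‖z‖) := by
        calc C * δ * ‖(fun ω => D (z ω) : N → X)‖ ≤ C * 1 * (CD * ‖z‖) := by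
              gcongr
          _ = C * (CD * ‖z‖) := by ring
      calc ‖m'‖ ≤ C * (CD * ‖z‖) + CD * ‖z‖ := by linarith
        _ = (1 + C) * (CD * ‖z‖) := by ring
    refine ⟨δ • Xop e g γ J δ⁻¹ v m', ?_, ?_, ?_⟩
    · intro u hu
      rw [map_smul]
      rcases Finset.mem_insert.1 hu with rfl | huσ
      · rw [Xop_sq h hJ, smul_zero]
      · have huv : u ≠ v := fun h' => hv (h' ▸ huσ)
        have hu₀ : u ∈ σ₀ := hσ₀ hu
        have hadj : G.Adj u v := hcl₀ u hu₀ v hvσ₀ huv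
        rw [Xop_anti_fix hL h hJ δ⁻¹ hadj (hm3 u hu₀ v hvσ₀ huv), hm1 u huσ, map_zero, neg_zero,
          smul_zero]
    · intro u hu w hw huw
      rw [map_smul, ← Xop_pe hL hJ δ⁻¹ hcl₀ hu hw hvσ₀ huw, hm3 u hu w hw huw]
    · refine (pi_norm_le_iff_of_nonneg (by positivity)).2 fun ω => ?_
      have h1 : (δ • Xop e g γ J δ⁻¹ v m') ω - z ω =
          e v (m' ω - D (z ω)) + δ • (g v (m' ω) + γ (actL (J v) m' ω)) := by
        show δ • (δ⁻¹ • e v (m' ω) + g v (m' ω) + γ (actL (J v) m' ω)) - z ω = _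
        rw [smul_add, smul_add, smul_smul, mul_inv_cancel₀ hδ.ne', one_smul, map_sub,
          hD2 (z ω) (fun u hu => hz u hu ω), smul_add]
        abel
      rw [Pi.sub_apply, h1]
      have h2 : ‖e v (m' ω - D (z ω))‖ ≤ CE * (C * δ * (CD * ‖z‖)) := by
        refine (hCE _).trans (mul_le_mul_of_nonneg_left ?_ hCE0)
        refine (norm_le_pi_norm (m' - fun ω => D (z ω)) ω).trans (hm2.trans ?_)
        gcongr
      have h3 : ‖g v (m' ω) + γ (actL (J v) m' ω)‖ ≤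
          (Cg + Cγ * κ) * ((1 + C) * (CD * ‖z‖)) := by
        refine (norm_add_le _ _).trans ?_
        have h4 : ‖g v (m' ω)‖ ≤ Cg * ((1 + C) * (CD * ‖z‖)) :=
          (hCg _).trans (mul_le_mul_of_nonneg_left ((norm_le_pi_norm m' ω).trans hmn') hCg0)
        have h5 : ‖actL (J v) m' ω‖ ≤ κ * ((1 + C) * (CD * ‖z‖)) :=
          (norm_le_pi_norm (actL (J v) m') ω).trans ((norm_actL_le hκ (hJ.bound v) m').trans
            (mul_le_mul_of_nonneg_left hmn' hκ))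
        have h6 : ‖γ (actL (J v) m' ω)‖ ≤ Cγ * (κ * ((1 + C) * (CD * ‖z‖))) :=
          (hCγ _).trans (mul_le_mul_of_nonneg_left h5 hCγ0)
        calc ‖g v (m' ω)‖ + ‖γ (actL (J v) m' ω)‖ ≤
            Cg * ((1 + C) * (CD * ‖z‖)) + Cγ * (κ * ((1 + C) * (CD * ‖z‖))) := add_le_add h4 h6
          _ = (Cg + Cγ * κ) * ((1 + C) * (CD * ‖z‖)) := by ring
      calc ‖e v (m' ω - D (z ω)) + δ • (g v (m' ω) + γ (actL (J v) m' ω))‖
          ≤ ‖e v (m' ω - D (z ω))‖ + ‖δ • (g v (m' ω) + γ (actL (J v) m' ω))‖ := norm_add_le _ _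
        _ = ‖e v (m' ω - D (z ω))‖ + δ * ‖g v (m' ω) + γ (actL (J v) m' ω)‖ := by
            rw [norm_smul, Real.norm_of_nonneg hδ.le]
        _ ≤ CE * (C * δ * (CD * ‖z‖)) + δ * ((Cg + Cγ * κ) * ((1 + C) * (CD * ‖z‖))) :=
            add_le_add h2 (mul_le_mul_of_nonneg_left h3 hδ.le)
        _ = (CE * C * CD + (Cg + Cγ * κ) * (1 + C) * CD) * δ * ‖z‖ := by ring

/-- **Deformation.** -/
theorem deformL (hL : IsLab G m) (h : IsPertL G m e g γ) (hl : Lift G e) {κ : ℝ} (hκ : 0 ≤ κ)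
    (A : Finset (V × V)) (hA : ∀ u v, G.Adj u v → (u, v) ∈ A) (i : ℕ) :
    ∃ C : ℝ, 0 ≤ C ∧ ∀ (N : Type) [Fintype N] [DecidableEq N] (J : V → Matrix N N ℝ),
      IsRep G m κ J → ∀ δ : ℝ, 0 < δ → δ ≤ 1 → ∀ z : Finset V → N → X,
        IsC G e m J A ∅ i z →
        ∃ z' : Finset V → N → X, IsTwL G e g γ J δ⁻¹ i z' ∧ ‖z' - z‖ ≤ C * δ * ‖z‖ := by
  classical
  have hs : ∀ σ : Finset V, ∃ C : ℝ, 0 ≤ C ∧ (Cl G σ → ∀ (N : Type) [Fintype N] [DecidableEq N]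
      (J : V → Matrix N N ℝ), IsRep G m κ J → ∀ δ : ℝ, 0 < δ → δ ≤ 1 →
      ∀ z : N → X, (∀ v ∈ σ, ∀ ω, e v (z ω) = 0) →
        (∀ u ∈ σ, ∀ v ∈ σ, u ≠ v → actL (pe m J u v) z = z) →
        ∃ z' : N → X, (∀ v ∈ σ, Xop e g γ J δ⁻¹ v z' = 0) ∧ ‖z' - z‖ ≤ C * δ * ‖z‖) := by
    intro σ
    by_cases hσ : Cl G σ
    · obtain ⟨C, hC0, hC⟩ := deformL_simplex hL h hl hκ σ hσ
      refine ⟨C, hC0, fun _ N _ _ J hJ δ hδ hδ1 z hz hz2 => ?_⟩
      obtain ⟨z', h1, _, h3⟩ := hC N J hJ δ hδ hδ1 σ (Finset.Subset.refl σ) hσ z hz hz2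
      exact ⟨z', h1, h3⟩
    · exact ⟨0, le_rfl, fun h' => absurd h' hσ⟩
  choose C hC0 hC using hs
  refine ⟨∑ σ, C σ, Finset.sum_nonneg fun σ _ => hC0 σ, ?_⟩
  intro N _ _ J hJ δ hδ hδ1 z hz
  have hz' : ∀ σ : Finset V, ∃ y : N → X, (y ≠ 0 → Cl G σ ∧ σ.card = i) ∧
      (∀ v ∈ σ, Xop e g γ J δ⁻¹ v y = 0) ∧ ‖y - z σ‖ ≤ C σ * δ * ‖z σ‖ := by
    intro σ
    by_cases h0 : z σ = 0
    · refine ⟨0, fun h' => absurd rfl h', fun v _ => map_zero _, ?_⟩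
      rw [h0, sub_zero, norm_zero, mul_zero]
    · obtain ⟨_, h2, h3⟩ := hz.supp σ h0
      obtain ⟨y, hy1, hy2⟩ := hC σ h2 N J hJ δ hδ hδ1 (z σ) (fun v hv ω => hz.ker σ v hv ω)
        (fun u hu v hv huv => hz.fix (u, v) (hA u v (h2 u hu v hv huv)) σ hu hv)
      exact ⟨y, fun _ => ⟨h2, h3⟩, hy1, hy2⟩
  choose y hy1 hy2 hy3 using hz'
  refine ⟨y, ⟨hy1, hy2⟩, ?_⟩
  have hS : 0 ≤ ∑ σ, C σ := Finset.sum_nonneg fun σ _ => hC0 σ
  refine (pi_norm_le_iff_of_nonneg (by positivity)).2 fun σ => ?_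
  refine (hy3 σ).trans ?_
  have h1 : C σ ≤ ∑ σ, C σ := Finset.single_le_sum (fun σ _ => hC0 σ) (Finset.mem_univ σ)
  have h2 : ‖z σ‖ ≤ ‖z‖ := norm_le_pi_norm z σ
  have h3 := hC0 σ
  gcongr

end Pool.Agent.H4.FC
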