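import Pool.Agent.H85.Fold2.DropY

/-!
# Project FC: twisted Betti numbers modulo a prime

Use the linear maps of `Pool.Agent.H85.Fold2.MatsY` (`Op1Y`, whose kernel is `YZ`: `ker_Op1Y`,
no relations needed; `Op1Y_cast`, `Op1Y_bound`, `row_bound`, `rank_eq`). Define `Op0Y` in the same way
without the last component (the boundary); its kernel is `YCh K G Y (mc K A) s i`.
Let `r₁(K)`, `r₁'(K)` be the ranks of the integer matrices of `Op1Y` in degrees `i`, `i + 1` over `K` and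
`r₀(K)` that of `Op0Y` in degree `i + 1`, and `N` the number of columns. Then
`dim YZ_i = N - r₁`, `dim YZ_{i+1} = N - r₁'`, `dim YCh_{i+1} = N - r₀`, and
`dim YB_i = dim YCh_{i+1} - dim YZ_{i+1} = r₁' - r₀` (rank-nullity for the restriction of `tdl K ν` to
`YCh_{i+1}`, whose kernel is `YZ_{i+1}`). From `YZ ≤ YB` over `ℝ`:
`N - r₁(ℝ) ≤ r₁'(ℝ) - r₀(ℝ)`. `r₀(ZMod p) ≤ r₀(ℝ)` (`rank_le_real`). Hence
`bY (ZMod p) ≤ (r₁(ℝ) - r₁(ZMod p)) + (r₁'(ℝ) - r₁'(ZMod p))` and `rank_drop` (both matrices have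
at most `R |Ω|` rows of `ℓ¹`-norm at most `C`), as in `bY_drop` / `tw_drop` (`Pool.Agent.H85.Fold.ModA`).
-/

set_option autoImplicit false

open Finset

namespace Pool.Agent.H4.FC

open Pool.Agent.H85.Fold Pool.Agent.H85.Fold2
open Pool.Agent.H85.Fold.ModM Pool.Agent.H85.Fold2.MatsY

/-- dimension of the boundaries -/
theorem finrank_YB {V D Ω : Type} [DecidableEq V] [Fintype V] [Fintype D] [DecidableEq D]
    [Fintype Ω] (K : Type) [Field K] (G : SimpleGraph V) (Y : Finset V)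
    (B : V → Matrix D D K) (s : V → Ω → Ω) (ν : V → ℕ) (i : ℕ) :
    Module.finrank K (YB K G Y B s ν i) + Module.finrank K (YZ K G Y B s ν (i + 1)) =
      Module.finrank K (YCh K G Y B s (i + 1)) := by
  have h := (((tdl K ν).domRestrict (YCh K G Y B s (i + 1))).finrank_range_add_finrank_ker)
  have h1 : LinearMap.range ((tdl K ν).domRestrict (YCh K G Y B s (i + 1))) = YB K G Y B s ν i := by
    rw [LinearMap.range_domRestrict]
    rfl
  have h2 : (LinearMap.ker ((tdl K ν).domRestrict (YCh K G Y B s (i + 1)))).map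
      (YCh K G Y B s (i + 1)).subtype = YZ K G Y B s ν (i + 1) := by
    ext x
    constructor
    · rintro ⟨y, hy, rfl⟩
      exact ⟨y.2, hy⟩
    · rintro ⟨hx1, hx2⟩
      exact ⟨⟨x, hx1⟩, hx2, rfl⟩
  rw [h1, ← Submodule.finrank_map_subtype_eq, h2] at h
  exact h

open Classical in
/-- the equations of the chains -/
private noncomputable def dropl_Op0 {V D Ω : Type} [DecidableEq V] [Fintype V] [Fintype D]
    [DecidableEq D] (G : SimpleGraph V) (Y : Finset V) (A : V → Matrix D D ℤ)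
    (s : V → Ω → Ω) (i : ℕ) (R : Type) [CommRing R] : ((Finset V × Ω × D) → R) →ₗ[R]
      (((Finset V × Ω × D) ⊕ (V × Finset V × Ω × D)) ⊕ (Finset V × Ω × D) → R) where
  toFun x := Sum.elim (Sum.elim (fun p => if p.1 ⊆ Y ∧ Cl G p.1 ∧ p.1.card = i then 0 else x p)
    (fun q => if q.1 ∈ q.2.1 then
      Lop R (A q.1) (s q.1) 1 (cur R x q.2.1) q.2.2.1 q.2.2.2 else 0))
    (fun _ => 0)
  map_add' x y := by
    funext j
    rcases j with (p | q) | p
    · by_cases h : p.1 ⊆ Y ∧ Cl G p.1 ∧ p.1.card = i <;> simp [h]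
    · by_cases h : q.1 ∈ q.2.1 <;> simp [h]
    · simp
  map_smul' r x := by
    funext j
    rcases j with (p | q) | p
    · by_cases h : p.1 ⊆ Y ∧ Cl G p.1 ∧ p.1.card = i <;> simp [h]
    · by_cases h : q.1 ∈ q.2.1 <;> simp [h]
    · simp

private theorem dropl_Op0_cast {V D Ω : Type} [DecidableEq V] [Fintype V] [Fintype D]
    [DecidableEq D] (G : SimpleGraph V) (Y : Finset V) (A : V → Matrix D D ℤ) (s : V → Ω → Ω)
    (i : ℕ) (R : Type) [CommRing R] (x : (Finset V × Ω × D) → ℤ)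
    (j : ((Finset V × Ω × D) ⊕ (V × Finset V × Ω × D)) ⊕ (Finset V × Ω × D)) :
    dropl_Op0 G Y A s i R (fun k => (x k : R)) j = ((dropl_Op0 G Y A s i ℤ x j : ℤ) : R) := by
  rcases j with (p | q) | p
  · by_cases h : p.1 ⊆ Y ∧ Cl G p.1 ∧ p.1.card = i <;> simp [dropl_Op0, h]
  · by_cases h : q.1 ∈ q.2.1
    · simp only [dropl_Op0, LinearMap.coe_mk, AddHom.coe_mk, Sum.elim_inl, Sum.elim_inr, h, if_true]
      have := congrFun (congrFun (Lop_cast R (A q.1) (s q.1) 1 (cur ℤ x q.2.1)) q.2.2.1) q.2.2.2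
      exact this
    · simp [dropl_Op0, h]
  · simp [dropl_Op0]

private theorem dropl_ker {V D Ω : Type} [DecidableEq V] [Fintype V] [Fintype D]
    [DecidableEq D] (G : SimpleGraph V) (Y : Finset V) (A : V → Matrix D D ℤ) (s : V → Ω → Ω)
    (i : ℕ) (K : Type) [Field K] :
    (LinearMap.ker (dropl_Op0 G Y A s i K)).map (cur K).toLinearMap =
      YCh K G Y (mc K A) s i := by
  ext f
  constructor
  · rintro ⟨x, hx, rfl⟩
    have hx' : dropl_Op0 G Y A s i K x = 0 := hx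
    refine ⟨fun σ ω h => ?_, fun σ v hv ω => ?_⟩
    · by_contra hc
      apply h
      funext d
      have h1 := congrFun hx' (Sum.inl (Sum.inl (σ, ω, d)))
      simp only [dropl_Op0, LinearMap.coe_mk, AddHom.coe_mk, Sum.elim_inl, Pi.zero_apply] at h1
      rw [if_neg hc] at h1
      exact h1
    · funext d
      have h1 := congrFun hx' (Sum.inl (Sum.inr (v, σ, ω, d)))
      simp only [dropl_Op0, LinearMap.coe_mk, AddHom.coe_mk, Sum.elim_inl, Sum.elim_inr,
        Pi.zero_apply] at h1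
      rw [if_pos hv, Lop_apply, Pi.add_apply, Int.cast_one, one_smul] at h1
      exact eq_neg_of_add_eq_zero_left h1
  · rintro ⟨h1, h2⟩
    refine ⟨(cur K).symm f, ?_, (cur K).apply_symm_apply f⟩
    refine (LinearMap.mem_ker).2 ?_
    funext j
    rcases j with (p | q) | p
    · simp only [dropl_Op0, LinearMap.coe_mk, AddHom.coe_mk, Sum.elim_inl, Pi.zero_apply]
      split_ifs with h
      · rfl
      · by_contra hc
        exact h (h1 p.1 p.2.1 (fun h0 => hc (congrFun h0 p.2.2)))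
    · simp only [dropl_Op0, LinearMap.coe_mk, AddHom.coe_mk, Sum.elim_inl, Sum.elim_inr,
        Pi.zero_apply]
      split_ifs with h
      · rw [Lop_apply, Pi.add_apply, Int.cast_one, one_smul]
        have := h2 q.2.1 q.1 h q.2.2.1
        have h4 := congrFun this q.2.2.2
        rw [Pi.neg_apply] at h4
        exact add_eq_zero_iff_eq_neg.2 h4
      · rfl
    · rfl

/-- the chains and the cycles are kernels of integer matrices with bounded rows -/
theorem exists_matsL {V D : Type} [DecidableEq V] [Fintype V] [Fintype D] [DecidableEq D]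
    (G : SimpleGraph V) (A : V → Matrix D D ℤ) (ν : V → ℕ) (Y : Finset V) (i : ℕ) :
    ∃ C R : ℕ, 1 ≤ C ∧ ∀ (Ω : Type) [Fintype Ω] (s : V → Ω → Ω),
      ∃ (m n : Type) (_ : Fintype m) (_ : Fintype n) (A₀ A₁ : Matrix m n ℤ),
        Fintype.card m ≤ R * Fintype.card Ω ∧
        (∀ j, ∑ k, |A₁ j k| ≤ (C : ℤ)) ∧
        ∀ (K : Type) [Field K],
          Module.finrank K (YCh K G Y (mc K A) s i) + (A₀.map (Int.cast : ℤ → K)).rank =
            Fintype.card n ∧
          Module.finrank K (YZ K G Y (mc K A) s ν i) + (A₁.map (Int.cast : ℤ → K)).rank =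
            Fintype.card n := by
  classical
  have hnn := bdA_nonneg A
  have hC1 : 0 ≤ 1 + bdA A + (Fintype.card V : ℤ) := by positivity
  refine ⟨(1 + bdA A + (Fintype.card V : ℤ)).toNat + 1,
    (Fintype.card (Finset V) * Fintype.card D) * (2 + Fintype.card V), by omega, ?_⟩
  intro Ω _ s
  have hcast : (((1 + bdA A + (Fintype.card V : ℤ)).toNat + 1 : ℕ) : ℤ) =
      (1 + bdA A + (Fintype.card V : ℤ)) + 1 := by
    rw [Nat.cast_add, Int.toNat_of_nonneg hC1, Nat.cast_one]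
  refine ⟨((Finset V × Ω × D) ⊕ (V × Finset V × Ω × D)) ⊕ (Finset V × Ω × D),
    Finset V × Ω × D, inferInstance, inferInstance,
    LinearMap.toMatrix' (dropl_Op0 G Y A s i ℤ),
    LinearMap.toMatrix' (Op1Y G Y A s ν i ℤ), ?_, ?_, ?_⟩
  · simp only [Fintype.card_sum, Fintype.card_prod]
    apply le_of_eq
    ring
  · intro j
    rw [hcast]
    refine (row_bound _ _ (fun x hx j => Op1Y_bound G Y A s ν i x hx j) j).trans ?_
    linarith
  · intro K _
    refine ⟨?_, ?_⟩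
    · rw [rank_eq (fun R _ => dropl_Op0 G Y A s i R)
          (fun R _ x j => dropl_Op0_cast G Y A s i R x j) K,
        ← dropl_ker G Y A s i K, LinearEquiv.finrank_map_eq, add_comm,
        LinearMap.finrank_range_add_finrank_ker, Module.finrank_fintype_fun_eq_card]
    · rw [rank_eq (fun R _ => Op1Y G Y A s ν i R)
          (fun R _ x j => Op1Y_cast G Y A s ν i R x j) K,
        ← ker_Op1Y G Y A s ν i K, LinearEquiv.finrank_map_eq, add_comm,
        LinearMap.finrank_range_add_finrank_ker, Module.finrank_fintype_fun_eq_card]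

/-- **Twisted Betti numbers modulo a prime.** -/
theorem drop_genL {V D : Type} [DecidableEq V] [Fintype V] [Fintype D] [DecidableEq D]
    (G : SimpleGraph V) (A : V → Matrix D D ℤ) (ν : V → ℕ) (Y : Finset V) (i : ℕ) :
    ∃ C : ℕ, 1 ≤ C ∧ ∀ (Ω : Type) [Fintype Ω] (s : V → Ω → Ω),
      YZ ℝ G Y (mc ℝ A) s ν i ≤ YB ℝ G Y (mc ℝ A) s ν i → ∀ (p : ℕ) [Fact p.Prime],
        p ^ bY (ZMod p) G Y (mc (ZMod p) A) s ν i ≤ C ^ Fintype.card Ω := by
  obtain ⟨C, R, hC1, H⟩ := exists_matsL G A ν Y i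
  obtain ⟨C', R', hC1', H'⟩ := exists_matsL G A ν Y (i + 1)
  refine ⟨C ^ R * C' ^ R', Nat.mul_pos (Nat.pow_pos hC1) (Nat.pow_pos hC1'), ?_⟩
  intro Ω _ s hle p hp
  obtain ⟨m, n, _, _, A₀, A₁, hm, h1, hAll⟩ := H Ω s
  obtain ⟨m', n', _, _, A₀', A₁', hm', h1', hAll'⟩ := H' Ω s
  have d1 := rank_drop A₁ C hC1 h1 p
  have d2 := rank_drop A₁' C' hC1' h1' p
  have e0 := rank_le_real A₀' (ZMod p)
  have e1 := rank_le_real A₁ (ZMod p)
  have e2 := rank_le_real A₁' (ZMod p)
  have a1 := (hAll ℝ).2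
  have a2 := (hAll' ℝ).1
  have a3 := (hAll' ℝ).2
  have b1 := (hAll (ZMod p)).2
  have b2 := (hAll' (ZMod p)).1
  have b3 := (hAll' (ZMod p)).2
  have c1 := finrank_YB ℝ G Y (mc ℝ A) s ν i
  have c2 := finrank_YB (ZMod p) G Y (mc (ZMod p) A) s ν i
  have c3 := Submodule.finrank_mono hle
  have hexp : bY (ZMod p) G Y (mc (ZMod p) A) s ν i ≤
      ((A₁.map (Int.cast : ℤ → ℝ)).rank - (A₁.map (Int.cast : ℤ → ZMod p)).rank) +
      ((A₁'.map (Int.cast : ℤ → ℝ)).rank - (A₁'.map (Int.cast : ℤ → ZMod p)).rank) := by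
    unfold bY
    omega
  have hp1 : 1 ≤ p := hp.out.one_lt.le
  calc p ^ bY (ZMod p) G Y (mc (ZMod p) A) s ν i
      ≤ p ^ (((A₁.map (Int.cast : ℤ → ℝ)).rank - (A₁.map (Int.cast : ℤ → ZMod p)).rank) +
        ((A₁'.map (Int.cast : ℤ → ℝ)).rank - (A₁'.map (Int.cast : ℤ → ZMod p)).rank)) :=
        Nat.pow_le_pow_right hp1 hexp
    _ = p ^ ((A₁.map (Int.cast : ℤ → ℝ)).rank - (A₁.map (Int.cast : ℤ → ZMod p)).rank) *
        p ^ ((A₁'.map (Int.cast : ℤ → ℝ)).rank - (A₁'.map (Int.cast : ℤ → ZMod p)).rank) :=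
        pow_add _ _ _
    _ ≤ C ^ Fintype.card m * C' ^ Fintype.card m' := Nat.mul_le_mul d1 d2
    _ ≤ C ^ (R * Fintype.card Ω) * C' ^ (R' * Fintype.card Ω) :=
        Nat.mul_le_mul (Nat.pow_le_pow_right hC1 hm) (Nat.pow_le_pow_right hC1' hm')
    _ = (C ^ R * C' ^ R') ^ Fintype.card Ω := by
        rw [mul_pow, pow_mul, pow_mul]

end Pool.Agent.H4.FC
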