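import Pool.Agent.H4.FC.RelC
import Pool.Agent.H85.Fold2.Embed

/-!
# Project FC: induced subgraphs

Modelled on `exact_embed` in `Pool.Agent.H85.Fold2.Embed`.

Let `c` be a chain on `V` as in `HVr` for `τ`. Define the chain `c'` on `W` by `c' τ' = c (pre τ')` if
`τ' ⊆ univ.image φ` and `0` otherwise, where `pre τ' = {v | φ v ∈ τ'}`.
-/

set_option autoImplicit false

open Finset

namespace Pool.Agent.H4.FC

open Pool.Agent.H85.Fold

section

variable {V W : Type} [DecidableEq V] [Fintype V] [DecidableEq W]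

private def pre (φ : V → W) (τ : Finset W) : Finset V := univ.filter fun v => φ v ∈ τ

private theorem mem_pre {φ : V → W} {τ : Finset W} {v : V} : v ∈ pre φ τ ↔ φ v ∈ τ := by
  simp [pre]

private theorem image_pre {φ : V → W} {τ : Finset W} (h : τ ⊆ univ.image φ) :
    (pre φ τ).image φ = τ := by
  ext w
  rw [Finset.mem_image]
  constructor
  · rintro ⟨v, hv, rfl⟩
    exact mem_pre.1 hv
  · intro hw
    obtain ⟨v, hv, rfl⟩ := Finset.mem_image.1 (h hw)
    exact ⟨v, mem_pre.2 hw, rfl⟩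

private theorem pre_image {φ : V → W} (hφ : Function.Injective φ) (σ : Finset V) :
    pre φ (σ.image φ) = σ := by
  ext v
  rw [mem_pre, Finset.mem_image]
  constructor
  · rintro ⟨u, hu, huv⟩
    rwa [← hφ huv]
  · intro hv
    exact ⟨v, hv, rfl⟩

private theorem pre_insert {φ : V → W} (hφ : Function.Injective φ) (v : V) (τ : Finset W) :
    pre φ (insert (φ v) τ) = insert v (pre φ τ) := by
  ext u
  rw [mem_pre, Finset.mem_insert, Finset.mem_insert, mem_pre]
  constructor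
  · rintro (h | h)
    · exact Or.inl (hφ h)
    · exact Or.inr h
  · rintro (rfl | h)
    · exact Or.inl rfl
    · exact Or.inr h

private theorem card_pre {φ : V → W} (hφ : Function.Injective φ) {τ : Finset W}
    (h : τ ⊆ univ.image φ) : (pre φ τ).card = τ.card := by
  have h1 := Finset.card_image_of_injective (pre φ τ) hφ
  rw [image_pre h] at h1
  exact h1.symm

private theorem sgn_pre {φ : V → W} (hφ : Function.Injective φ) {ν : V → ℕ} {ν' : W → ℕ}
    (hν : ∀ u v, ν' (φ u) < ν' (φ v) ↔ ν u < ν v) {τ : Finset W}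
    (h : τ ⊆ univ.image φ) (v : V) : sgn ν' (φ v) τ = sgn ν v (pre φ τ) := by
  unfold sgn
  congr 1
  have h1 : τ.filter (fun w => ν' w < ν' (φ v)) =
      ((pre φ τ).filter fun u => ν u < ν v).image φ := by
    ext w
    rw [Finset.mem_filter, Finset.mem_image]
    constructor
    · rintro ⟨hw, hlt⟩
      obtain ⟨u, hu, rfl⟩ := Finset.mem_image.1 (h hw)
      exact ⟨u, Finset.mem_filter.2 ⟨mem_pre.2 hw, (hν u v).1 hlt⟩, rfl⟩
    · rintro ⟨u, hu, rfl⟩
      obtain ⟨h2, h3⟩ := Finset.mem_filter.1 hu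
      exact ⟨mem_pre.1 h2, (hν u v).2 h3⟩
  rw [h1, Finset.card_image_of_injective _ hφ]

private theorem bd_embed [Fintype W] {S : Type} [AddCommGroup S] [Module ℝ S] {φ : V → W}
    (hφ : Function.Injective φ) {ν : V → ℕ} {ν' : W → ℕ}
    (hν : ∀ u v, ν' (φ u) < ν' (φ v) ↔ ν u < ν v) {f : Finset V → S} {f' : Finset W → S}
    (hf1 : ∀ τ, τ ⊆ univ.image φ → f' τ = f (pre φ τ))
    (hf2 : ∀ τ, ¬ τ ⊆ univ.image φ → f' τ = 0) {τ : Finset W} (hτ : τ ⊆ univ.image φ) :
    bd ν' f' τ = bd ν f (pre φ τ) := by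
  change ∑ w ∈ τᶜ, sgn ν' w τ • f' (insert w τ) =
    ∑ v ∈ (pre φ τ)ᶜ, sgn ν v (pre φ τ) • f (insert v (pre φ τ))
  have e2 : ∑ w ∈ τᶜ, sgn ν' w τ • f' (insert w τ) =
      ∑ w ∈ ((pre φ τ)ᶜ).image φ, sgn ν' w τ • f' (insert w τ) := by
    symm
    refine Finset.sum_subset (fun w hw => ?_) fun w hw hw2 => ?_
    · obtain ⟨v, hv, rfl⟩ := Finset.mem_image.1 hw
      rw [Finset.mem_compl] at hv ⊢
      exact fun h => hv (mem_pre.2 h)
    · have h3 : ¬ insert w τ ⊆ univ.image φ := by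
        intro h
        obtain ⟨v, _, hvw⟩ := Finset.mem_image.1 (h (Finset.mem_insert_self _ _))
        refine hw2 (Finset.mem_image.2 ⟨v, Finset.mem_compl.2 fun h4 => ?_, hvw⟩)
        exact Finset.mem_compl.1 hw (hvw ▸ mem_pre.1 h4)
      rw [hf2 _ h3, smul_zero]
  rw [e2, Finset.sum_image (fun a _ b _ h => hφ h)]
  refine Finset.sum_congr rfl fun v _ => ?_
  have h4 : insert (φ v) τ ⊆ univ.image φ := by
    intro w hw
    rcases Finset.mem_insert.1 hw with rfl | hw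
    · exact Finset.mem_image_of_mem φ (Finset.mem_univ v)
    · exact hτ hw
  rw [sgn_pre hφ hν hτ, hf1 _ h4, pre_insert hφ]

end

theorem hvr_embed {V W S : Type} [DecidableEq V] [Fintype V] [DecidableEq W] [Fintype W]
    [AddCommGroup S] [Module ℝ S] (G : SimpleGraph V) (H : SimpleGraph W) (φ : V → W)
    (hφ : Function.Injective φ) (hadj : ∀ u v, G.Adj u v ↔ H.Adj (φ u) (φ v)) (ν : V → ℕ)
    (hν : Function.Injective ν) (ν' : W → ℕ) (hν' : Function.Injective ν')
    (hνν : ∀ u v, ν' (φ u) < ν' (φ v) ↔ ν u < ν v) (e : W → S →ₗ[ℝ] S) (τ : Finset V) (i : ℕ)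
    (h : HVr ν' H e ⊤ (univ.image φ) (τ.image φ) i) :
    HVr ν G (fun v => e (φ v)) ⊤ univ τ i := by
  classical
  intro c hc hsupp hbd
  have himg : ∀ σ : Finset V, σ.image φ ⊆ univ.image φ := fun σ =>
    Finset.image_subset_image (Finset.subset_univ σ)
  obtain ⟨c', hc'⟩ : ∃ c' : Finset W → S,
      c' = fun τ' => if τ' ⊆ univ.image φ then c (pre φ τ') else 0 := ⟨_, rfl⟩
  have hc1 : ∀ τ', τ' ⊆ univ.image φ → c' τ' = c (pre φ τ') := fun τ' h' => by
    rw [hc']; exact if_pos h'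
  have hc2 : ∀ τ', ¬ τ' ⊆ univ.image φ → c' τ' = 0 := fun τ' h' => by
    rw [hc']; exact if_neg h'
  have hne : ∀ τ', c' τ' ≠ 0 → τ' ⊆ univ.image φ ∧ c (pre φ τ') ≠ 0 := by
    intro τ' h'
    by_cases h1 : τ' ⊆ univ.image φ
    · exact ⟨h1, by rwa [← hc1 _ h1]⟩
    · exact absurd (hc2 _ h1) h'
  have hF : IsF H e ⊤ (univ.image φ) i c' := by
    refine ⟨fun _ => Submodule.mem_top, fun σ w hw => ?_, fun σ hσ => ?_⟩
    · by_cases h1 : σ ⊆ univ.image φ
      · rw [hc1 _ h1]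
        obtain ⟨v, _, rfl⟩ := Finset.mem_image.1 (h1 hw)
        exact hc.ker (pre φ σ) v (mem_pre.2 hw)
      · rw [hc2 _ h1, map_zero]
    · obtain ⟨h1, h2⟩ := hne σ hσ
      obtain ⟨_, h3, h4⟩ := hc.supp _ h2
      refine ⟨h1, fun a ha b hb hab => ?_, by rw [← card_pre hφ h1, h4]⟩
      obtain ⟨u, _, rfl⟩ := Finset.mem_image.1 (h1 ha)
      obtain ⟨v, _, rfl⟩ := Finset.mem_image.1 (h1 hb)
      exact (hadj u v).1 (h3 u (mem_pre.2 ha) v (mem_pre.2 hb) fun h5 => hab (by rw [h5]))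
  have hsub : ∀ σ : Finset W, c' σ ≠ 0 → τ.image φ ⊆ σ := by
    intro σ hσ
    obtain ⟨h1, h2⟩ := hne σ hσ
    intro w hw
    obtain ⟨v, hv, rfl⟩ := Finset.mem_image.1 hw
    exact mem_pre.1 (hsupp _ h2 hv)
  have hb' : bdr ν' (τ.image φ) c' = 0 := by
    funext ρ
    rw [bdr_apply]
    split_ifs with h1
    · by_cases h2 : ρ ⊆ univ.image φ
      · rw [bd_embed hφ hνν hc1 hc2 h2]
        have h3 := congrFun hbd (pre φ ρ)
        rw [bdr_apply, if_pos] at h3
        · exact h3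
        · intro v hv
          exact mem_pre.2 (h1 (Finset.mem_image_of_mem φ hv))
      · show ∑ w ∈ ρᶜ, sgn ν' w ρ • c' (insert w ρ) = 0
        refine Finset.sum_eq_zero fun w _ => ?_
        rw [hc2 _ fun h3 => h2 ((Finset.subset_insert w ρ).trans h3), smul_zero]
    · rfl
  obtain ⟨y', hy, hys, hyb⟩ := h c' hF hsub hb'
  have hy1 : ∀ τ', τ' ⊆ univ.image φ → y' τ' = (fun σ : Finset V => y' (σ.image φ)) (pre φ τ') := by
    intro τ' h'
    show y' τ' = y' ((pre φ τ').image φ)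
    rw [image_pre h']
  have hy2 : ∀ τ', ¬ τ' ⊆ univ.image φ → y' τ' = 0 := by
    intro τ' h'
    by_contra h1
    exact h' (hy.supp _ h1).1
  refine ⟨fun σ => y' (σ.image φ), ⟨fun _ => Submodule.mem_top, fun σ v hv =>
    hy.ker _ (φ v) (Finset.mem_image_of_mem φ hv), fun σ hσ => ?_⟩, fun σ hσ => ?_, ?_⟩
  · obtain ⟨_, h2, h3⟩ := hy.supp _ hσ
    refine ⟨Finset.subset_univ σ, fun u hu v hv huv => ?_, by
      rw [← Finset.card_image_of_injective σ hφ, h3]⟩
    exact (hadj u v).2 (h2 _ (Finset.mem_image_of_mem φ hu) _ (Finset.mem_image_of_mem φ hv)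
      fun h4 => huv (hφ h4))
  · have h1 := hys _ hσ
    intro v hv
    obtain ⟨u, hu, huv⟩ := Finset.mem_image.1 (h1 (Finset.mem_image_of_mem φ hv))
    rwa [← hφ huv]
  · funext ρ
    rw [bdr_apply]
    split_ifs with h1
    · have h2 := congrFun hyb (ρ.image φ)
      have h3 := bd_embed (f := fun σ : Finset V => y' (σ.image φ)) hφ hνν hy1 hy2 (himg ρ)
      rw [bdr_apply, if_pos (Finset.image_subset_image h1), h3, pre_image hφ,
        hc1 _ (himg ρ), pre_image hφ] at h2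
      exact h2
    · by_contra h2
      exact h1 (hsupp ρ (Ne.symm h2))

end Pool.Agent.H4.FC
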