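import Mathlib

/-!
# Project FC: projections to common kernels

Proof: let `K` be the common kernel of the `e v`, `v ∈ σ`. Choose a linear projection `pr` onto `K`
(`Submodule.exists_isCompl`, or `exists_leftInverse_of_injective` for `K.subtype`). The map
`x ↦ x - pr x` vanishes on `K`, the kernel of `T : X → (V → X)`, `T x v = e v x` for `v ∈ σ` and `0`
otherwise. So `x - pr x = Φ (T x)` for a linear map `Φ : (V → X) → X` (a linear map which vanishes on
the kernel of `T` factors through the range of `T` and extends: see `twA_factor` in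
`Pool.Agent.H85.Fold.TwA`), and `‖x - pr x‖ ≤ ‖Φ‖ ‖T x‖ ≤ ‖Φ‖ δ`.
-/

set_option autoImplicit false

namespace Pool.Agent.H4.FC

theorem exists_pr {V X : Type} [Fintype V] [NormedAddCommGroup X] [NormedSpace ℝ X]
    [FiniteDimensional ℝ X] (e : V → X →ₗ[ℝ] X) (σ : Finset V) :
    ∃ (pr : X →ₗ[ℝ] X) (C : ℝ), 0 ≤ C ∧ (∀ x, ∀ v ∈ σ, e v (pr x) = 0) ∧
      ∀ (x : X) (δ : ℝ), 0 ≤ δ → (∀ v ∈ σ, ‖e v x‖ ≤ δ) → ‖x - pr x‖ ≤ C * δ := by
  classical
  set T : X →ₗ[ℝ] (V → X) := LinearMap.pi (fun v => if v ∈ σ then e v else 0) with hT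
  have hTv : ∀ x, ∀ v ∈ σ, T x v = e v x := by
    intro x v hv
    simp [hT, hv]
  have hTn : ∀ x, ∀ v, v ∉ σ → T x v = 0 := by
    intro x v hv
    simp [hT, hv]
  obtain ⟨f, hf⟩ := (LinearMap.ker T).subtype.exists_leftInverse_of_injective
    (Submodule.ker_subtype _)
  set pr : X →ₗ[ℝ] X := (LinearMap.ker T).subtype.comp f with hpr
  have hprK : ∀ x, T (pr x) = 0 := fun x => (f x).2
  have hprid : ∀ x, T x = 0 → pr x = x := by
    intro x hx
    have h1 := LinearMap.congr_fun hf ⟨x, hx⟩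
    have h2 : f x = ⟨x, hx⟩ := h1
    rw [hpr, LinearMap.comp_apply, h2]
    rfl
  obtain ⟨s, hs⟩ := T.rangeRestrict.exists_rightInverse_of_surjective T.range_rangeRestrict
  set g : X →ₗ[ℝ] X := LinearMap.id - pr with hg
  obtain ⟨Φ, hΦ⟩ := LinearMap.exists_extend (g.comp s)
  have hfac : ∀ x, Φ (T x) = x - pr x := by
    intro x
    have h1 : Φ (T x) = g (s (T.rangeRestrict x)) :=
      LinearMap.congr_fun hΦ (T.rangeRestrict x)
    have h2 : T.rangeRestrict (s (T.rangeRestrict x)) = T.rangeRestrict x :=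
      LinearMap.congr_fun hs (T.rangeRestrict x)
    have h3 : T (s (T.rangeRestrict x)) = T x := congrArg Subtype.val h2
    have h4 : T (x - s (T.rangeRestrict x)) = 0 := by rw [map_sub, h3, sub_self]
    have h5 := hprid _ h4
    have h6 : g (x - s (T.rangeRestrict x)) = 0 := by
      rw [hg, LinearMap.sub_apply, LinearMap.id_apply, h5, sub_self]
    rw [map_sub, sub_eq_zero] at h6
    rw [h1, ← h6]
    rfl
  refine ⟨pr, ‖LinearMap.toContinuousLinearMap Φ‖, norm_nonneg _, ?_, ?_⟩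
  · intro x v hv
    rw [← hTv _ v hv, hprK]
    rfl
  · intro x δ hδ h
    have h1 : ‖T x‖ ≤ δ := by
      refine (pi_norm_le_iff_of_nonneg hδ).2 fun v => ?_
      by_cases hv : v ∈ σ
      · rw [hTv x v hv]
        exact h v hv
      · rw [hTn x v hv, norm_zero]
        exact hδ
    rw [← hfac x]
    calc ‖Φ (T x)‖ = ‖LinearMap.toContinuousLinearMap Φ (T x)‖ := rfl
      _ ≤ ‖LinearMap.toContinuousLinearMap Φ‖ * ‖T x‖ := ContinuousLinearMap.le_opNorm _ _
      _ ≤ ‖LinearMap.toContinuousLinearMap Φ‖ * δ :=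
        mul_le_mul_of_nonneg_left h1 (norm_nonneg _)

end Pool.Agent.H4.FC
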