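import Pool.Agent.H4.FC.RelC

/-!
# Project FC: the induction step of quantitative exactness

Notation: `A`, `B` sets of pairs, `p = (p.1, p.2)` an edge, `τ = tB B`, `τ' = tB (insert p B) =
τ ∪ {p.1, p.2}`, `K = pe m J p.1 p.2` (idempotent, `pe_sq`; bounded, `pe_RB` and `norm_actL_le`).

`qe_step`. Let `C₁` be the constant of `QE A B i` and `C₂` that of `QE A (insert p B) (i + 1)`. Let
`x` satisfy `IsC (insert p A) B i`. Then `IsC A B i x` (`IsC.mono`): get `y` with `IsC A B (i + 1) y`,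
`‖y‖ ≤ C₁ ‖x‖`, `‖x - bdr ν τ y‖ ≤ C₁ ‖bdr ν τ x‖`. Put `q σ = y σ - actL K (y σ)` if `τ' ⊆ σ` and `0`
otherwise.
(1) `IsC A (insert p B) (i + 1) q`: support clear; `ker`: the `e v` act pointwise and commute with
`actL K` (`actL_comp`); `fix` for `f ∈ A`, `f.1, f.2 ∈ σ`: if `q σ ≠ 0` then `σ` is a clique containing
`p.1 ≠ p.2`, and `pe m J f.1 f.2` commutes with `K` (`pe_comm_pe`), so it fixes `q σ` as it fixes `y σ`;
`nul`: for `b ∈ B` likewise (`b.1, b.2 ∈ tB B ⊆ σ`), and `K q σ = K y - K K y = 0`.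
(2) for `ρ ⊇ τ'` (all `insert v ρ` contain `τ'`): `bdr ν τ' q ρ = (1 - K) (bdr ν τ y ρ) =
-(1 - K) ((x - bdr ν τ y) ρ)` because `K (x ρ) = x ρ` by `fix` for `p ∈ insert p A` (`p.1, p.2 ∈ ρ`).
So `‖bdr ν τ' q‖ ≤ (1 + k) ‖x - bdr ν τ y‖ ≤ (1 + k) C₁ ‖bdr ν τ x‖`, `k` the norm bound of `actL K`, and
`‖q‖ ≤ (1 + k) ‖y‖`.
(3) by `QE A (insert p B) (i + 1)` there is `r` with `IsC A (insert p B) (i + 2) r`,
`‖r‖ ≤ C₂ ‖q‖`, `‖q - bdr ν τ' r‖ ≤ C₂ ‖bdr ν τ' q‖`. Let `w = q - bdr ν τ' r`; `IsC A (insert p B) (i + 1) w`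
(`IsC.bdr`). Put `y' = y - bdr ν τ r - w`.
(4) `IsC (insert p A) B (i + 1) y'`: `IsC A B (i + 1)` for `y`, `w` (`IsC.mono`) and for `bdr ν τ r`
(`IsC.mono` and `IsC.bdr'`, `tB B = τ`); the new condition `fix` for `p`, `σ ∋ p.1, p.2`: if `τ ⊆ σ` then
`τ' ⊆ σ` and
`(1 - K) (y' σ) = q σ - (1 - K) (bdr ν τ r σ) - (1 - K) (w σ) = q σ - bdr ν τ' r σ - w σ = 0` since
`K r = 0`, `K w = 0` (`nul` for `p`), `actL_bdr`, and `bdr ν τ r σ = bdr ν τ' r σ = bd ν r σ`. If not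
`τ ⊆ σ` then `y' σ = 0` (all three chains vanish there; for `bdr ν τ r` by definition).
(5) `bdr ν τ y' = bdr ν τ y - bdr ν τ w` (`bdr_bdr`), so
`‖x - bdr ν τ y'‖ ≤ ‖x - bdr ν τ y‖ + |V| ‖w‖ ≤ C ‖bdr ν τ x‖` and `‖y'‖ ≤ C ‖x‖`
(`‖bdr ν τ r‖ ≤ |V| ‖r‖`, `‖bdr ν τ' q‖ ≤ |V| ‖q‖`), where `C` depends only on `C₁`, `C₂`, `k`, `|V|`.
The hypothesis on `p`: `G.Adj p.1 p.2`.
-/

set_option autoImplicit false

open Finset

namespace Pool.Agent.H4.FC

open Pool.Agent.H85.Fold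

variable {V X : Type} [DecidableEq V] [Fintype V] [NormedAddCommGroup X] [NormedSpace ℝ X]

omit [Fintype V] in
private theorem StepQE_mem_tB {B : Finset (V × V)} {v : V} :
    v ∈ tB B ↔ ∃ b ∈ B, b.1 = v ∨ b.2 = v := by
  unfold tB
  rw [Finset.mem_union, Finset.mem_image, Finset.mem_image]
  constructor
  · rintro (⟨b, hb, h⟩ | ⟨b, hb, h⟩)
    · exact ⟨b, hb, Or.inl h⟩
    · exact ⟨b, hb, Or.inr h⟩
  · rintro ⟨b, hb, h | h⟩
    · exact Or.inl ⟨b, hb, h⟩
    · exact Or.inr ⟨b, hb, h⟩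

omit [Fintype V] in
private theorem StepQE_tB_insert (B : Finset (V × V)) (p : V × V) :
    tB (insert p B) = insert p.1 (insert p.2 (tB B)) := by
  ext v
  rw [StepQE_mem_tB, Finset.mem_insert, Finset.mem_insert, StepQE_mem_tB]
  constructor
  · rintro ⟨b, hb, h⟩
    rw [Finset.mem_insert] at hb
    rcases hb with rfl | hb
    · rcases h with h | h
      · exact Or.inl h.symm
      · exact Or.inr (Or.inl h.symm)
    · exact Or.inr (Or.inr ⟨b, hb, h⟩)
  · rintro (h | h | ⟨b, hb, h⟩)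
    · exact ⟨p, Finset.mem_insert_self _ _, Or.inl h.symm⟩
    · exact ⟨p, Finset.mem_insert_self _ _, Or.inr h.symm⟩
    · exact ⟨b, Finset.mem_insert_of_mem hb, h⟩

omit [Fintype V] in
open Classical in
/-- the chain `q` of the proof -/
private noncomputable def StepQE_q {N : Type} [Fintype N] [DecidableEq N] (K : Matrix N N ℝ)
    (τ' : Finset V) (y : Finset V → N → X) : Finset V → N → X := fun σ =>
  if τ' ⊆ σ then y σ - actL K (y σ) else 0

omit [Fintype V] in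
private theorem StepQE_q_isC {G : SimpleGraph V} {e : V → X →ₗ[ℝ] X} {m : V → V → ℕ}
    (hL : IsLab G m) {κ : ℝ} {A B : Finset (V × V)} {i : ℕ} (p : V × V) (hp : G.Adj p.1 p.2)
    {N : Type} [Fintype N] [DecidableEq N] {J : V → Matrix N N ℝ} (hJ : IsRep G m κ J)
    {y : Finset V → N → X} (hy : IsC G e m J A B i y) :
    IsC G e m J A (insert p B) i (StepQE_q (pe m J p.1 p.2) (tB (insert p B)) y) := by
  have hpne : p.1 ≠ p.2 := hp.ne
  have hp1 : p.1 ∈ tB (insert p B) := by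
    rw [StepQE_tB_insert]
    exact Finset.mem_insert_self _ _
  have hp2 : p.2 ∈ tB (insert p B) := by
    rw [StepQE_tB_insert]
    exact Finset.mem_insert_of_mem (Finset.mem_insert_self _ _)
  have hsub : tB B ⊆ tB (insert p B) := by
    rw [StepQE_tB_insert]
    exact (Finset.subset_insert _ _).trans (Finset.subset_insert _ _)
  have hpos : ∀ σ, tB (insert p B) ⊆ σ →
      StepQE_q (pe m J p.1 p.2) (tB (insert p B)) y σ = y σ - actL (pe m J p.1 p.2) (y σ) :=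
    fun σ h => if_pos h
  have hneg : ∀ σ, ¬ tB (insert p B) ⊆ σ →
      StepQE_q (pe m J p.1 p.2) (tB (insert p B)) y σ = 0 := fun σ h => if_neg h
  refine ⟨?_, ?_, ?_, ?_⟩
  · intro σ hσ
    by_cases h : tB (insert p B) ⊆ σ
    · refine ⟨h, ?_⟩
      have h1 : y σ ≠ 0 := by
        intro h0
        apply hσ
        rw [hpos σ h, h0, map_zero, sub_zero]
      exact (hy.supp σ h1).2
    · exact absurd (hneg σ h) hσ
  · intro σ v hv ω
    by_cases h : tB (insert p B) ⊆ σ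
    · rw [hpos σ h, Pi.sub_apply, map_sub, hy.ker σ v hv ω, zero_sub, neg_eq_zero]
      have h1 := congrFun (actL_comp (e v) (pe m J p.1 p.2) (y σ)) ω
      rw [← h1]
      have h2 : (fun ω => e v (y σ ω)) = (0 : N → X) := by
        funext ω
        exact hy.ker σ v hv ω
      rw [h2, map_zero]
      rfl
    · rw [hneg σ h, Pi.zero_apply, map_zero]
  · intro f hf σ h1 h2
    by_cases h : tB (insert p B) ⊆ σ
    · rw [hpos σ h]
      by_cases h0 : y σ = 0
      · rw [h0, map_zero, sub_zero, map_zero]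
      · have hcl := (hy.supp σ h0).2.1
        have hc := pe_comm_pe hL hJ hcl (h hp1) (h hp2) h1 h2 hpne
        rw [map_sub, ← actL_mul, ← hc, actL_mul, hy.fix f hf σ h1 h2]
    · rw [hneg σ h, map_zero]
  · intro b hb σ
    by_cases h : tB (insert p B) ⊆ σ
    · rw [hpos σ h]
      by_cases h0 : y σ = 0
      · rw [h0, map_zero, sub_zero, map_zero]
      · have hcl := (hy.supp σ h0).2.1
        rw [Finset.mem_insert] at hb
        rcases hb with rfl | hb
        · rw [map_sub, ← actL_mul, pe_sq hL hJ hp, sub_self]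
        · have hb1 : b.1 ∈ σ := h (hsub (StepQE_mem_tB.2 ⟨b, hb, Or.inl rfl⟩))
          have hb2 : b.2 ∈ σ := h (hsub (StepQE_mem_tB.2 ⟨b, hb, Or.inr rfl⟩))
          have hc := pe_comm_pe hL hJ hcl (h hp1) (h hp2) hb1 hb2 hpne
          rw [map_sub, ← actL_mul, ← hc, actL_mul, hy.nul b hb σ, map_zero, sub_zero]
    · rw [hneg σ h, map_zero]

private theorem StepQE_q_norm {N : Type} [Fintype N] [DecidableEq N] {K : Matrix N N ℝ} {k : ℝ}
    (hk : 0 ≤ k) (hK : RB k K) (τ' : Finset V) (y : Finset V → N → X) :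
    ‖StepQE_q K τ' y‖ ≤ (1 + k) * ‖y‖ := by
  have h0 : 0 ≤ (1 + k) * ‖y‖ := by positivity
  refine (pi_norm_le_iff_of_nonneg h0).2 fun σ => ?_
  by_cases h : τ' ⊆ σ
  · have h1 : StepQE_q K τ' y σ = y σ - actL K (y σ) := if_pos h
    rw [h1]
    have h2 := norm_sub_le (y σ) (actL K (y σ))
    have h3 := norm_actL_le hk hK (y σ)
    have h4 := norm_le_pi_norm y σ
    have h5 : k * ‖y σ‖ ≤ k * ‖y‖ := mul_le_mul_of_nonneg_left h4 hk
    linarith
  · have h1 : StepQE_q K τ' y σ = 0 := if_neg h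
    rw [h1, norm_zero]
    exact h0

theorem qe_step {ν : V → ℕ} (hν : Function.Injective ν) {G : SimpleGraph V}
    {e : V → X →ₗ[ℝ] X} {m : V → V → ℕ} (hL : IsLab G m) {κ : ℝ} (hκ : 0 ≤ κ)
    {A B : Finset (V × V)} {i : ℕ} (p : V × V) (hp : G.Adj p.1 p.2)
    (h1 : QE ν G e m κ A B i) (h2 : QE ν G e m κ A (insert p B) (i + 1)) :
    QE ν G e m κ (insert p A) B i := by
  obtain ⟨C₁, hC₁, H1⟩ := h1
  obtain ⟨C₂, hC₂, H2⟩ := h2
  set k : ℝ := kpe κ (m p.1 p.2) with hk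
  have hk0 : 0 ≤ k := kpe_nonneg hκ _
  set n : ℝ := (Fintype.card V : ℝ) with hn
  have hn0 : 0 ≤ n := Nat.cast_nonneg _
  refine ⟨C₁ * (1 + 2 * n * C₂ * (1 + k)), by positivity, ?_⟩
  intro N _ _ J hJ x hx
  have hK : RB k (pe m J p.1 p.2) := pe_RB hJ hκ _ _
  have hxA : IsC G e m J A B i x := hx.mono (Finset.subset_insert _ _) (Finset.Subset.refl _)
  obtain ⟨y, hy, hy1, hy2⟩ := H1 N J hJ x hxA
  set τ := tB B with hτ
  set τ' := tB (insert p B) with hτ'
  have hτ'eq : τ' = insert p.1 (insert p.2 τ) := StepQE_tB_insert B p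
  have hsub : τ ⊆ τ' := by
    rw [hτ'eq]
    exact (Finset.subset_insert _ _).trans (Finset.subset_insert _ _)
  have hp1 : p.1 ∈ τ' := by
    rw [hτ'eq]
    exact Finset.mem_insert_self _ _
  have hp2 : p.2 ∈ τ' := by
    rw [hτ'eq]
    exact Finset.mem_insert_of_mem (Finset.mem_insert_self _ _)
  set q := StepQE_q (pe m J p.1 p.2) τ' y with hq
  have hqpos : ∀ σ, τ' ⊆ σ → q σ = y σ - actL (pe m J p.1 p.2) (y σ) := fun σ h => if_pos h
  have hqC : IsC G e m J A (insert p B) (i + 1) q := StepQE_q_isC hL p hp hJ hy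
  have hqn : ‖q‖ ≤ (1 + k) * ‖y‖ := StepQE_q_norm hk0 hK τ' y
  -- the boundary of `q`
  have hbq : ‖bdr ν τ' q‖ ≤ (1 + k) * ‖x - bdr ν τ y‖ := by
    refine (pi_norm_le_iff_of_nonneg (by positivity)).2 fun ρ => ?_
    by_cases h : τ' ⊆ ρ
    · have h3 : bdr ν τ' q ρ = bdr ν τ y ρ - actL (pe m J p.1 p.2) (bdr ν τ y ρ) := by
        rw [bdr_apply, if_pos h, bdr_apply, if_pos (hsub.trans h)]
        have h4 : bd ν q ρ = bd ν (fun σ => y σ - actL (pe m J p.1 p.2) (y σ)) ρ := by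
          show ∑ v ∈ ρᶜ, sgn ν v ρ • q (insert v ρ) =
            ∑ v ∈ ρᶜ, sgn ν v ρ • (y (insert v ρ) - actL (pe m J p.1 p.2) (y (insert v ρ)))
          refine Finset.sum_congr rfl fun v _ => ?_
          rw [hqpos _ (h.trans (Finset.subset_insert _ _))]
        have h5 : (fun σ => y σ - actL (pe m J p.1 p.2) (y σ)) =
            y - fun σ => actL (pe m J p.1 p.2) (y σ) := rfl
        rw [h4, h5, map_sub, Pi.sub_apply, bd_map]
      have h6 : actL (pe m J p.1 p.2) (x ρ) = x ρ :=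
        hx.fix p (Finset.mem_insert_self _ _) ρ (h hp1) (h hp2)
      have h7 : bdr ν τ' q ρ = actL (pe m J p.1 p.2) ((x - bdr ν τ y) ρ) - (x - bdr ν τ y) ρ := by
        rw [h3, Pi.sub_apply, map_sub, h6]
        abel
      rw [h7]
      have h8 := norm_sub_le (actL (pe m J p.1 p.2) ((x - bdr ν τ y) ρ)) ((x - bdr ν τ y) ρ)
      have h9 := norm_actL_le hk0 hK ((x - bdr ν τ y) ρ)
      have h10 := norm_le_pi_norm (x - bdr ν τ y) ρ
      have h11 : k * ‖(x - bdr ν τ y) ρ‖ ≤ k * ‖x - bdr ν τ y‖ :=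
        mul_le_mul_of_nonneg_left h10 hk0
      linarith
    · rw [bdr_apply, if_neg h, norm_zero]
      positivity
  obtain ⟨r, hr, hr1, hr2⟩ := H2 N J hJ q hqC
  set w := q - bdr ν τ' r with hw
  have hwC : IsC G e m J A (insert p B) (i + 1) w := hqC.sub (IsC.bdr ν hr)
  have hwC' : IsC G e m J A B (i + 1) w :=
    hwC.mono (Finset.Subset.refl _) (Finset.subset_insert _ _)
  have hrC : IsC G e m J A B (i + 1 + 1) r :=
    hr.mono (Finset.Subset.refl _) (Finset.subset_insert _ _)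
  have hbrC : IsC G e m J A B (i + 1) (bdr ν τ r) := IsC.bdr ν hrC
  have hyC : IsC G e m J A B (i + 1) (y - bdr ν τ r - w) := (hy.sub hbrC).sub hwC'
  refine ⟨y - bdr ν τ r - w, ⟨hyC.supp, hyC.ker, ?_, hyC.nul⟩, ?_, ?_⟩
  · intro f hf σ hf1 hf2
    rw [Finset.mem_insert] at hf
    rcases hf with rfl | hf
    · by_cases h : τ ⊆ σ
      · have h' : τ' ⊆ σ := by
          rw [hτ'eq, Finset.insert_subset_iff, Finset.insert_subset_iff]
          exact ⟨hf1, hf2, h⟩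
        have e1 : actL (pe m J f.1 f.2) (bdr ν τ r σ) = 0 := by
          rw [actL_bdr]
          have h3 : (fun σ => actL (pe m J f.1 f.2) (r σ)) = (0 : Finset V → N → X) := by
            funext σ
            exact hr.nul f (Finset.mem_insert_self _ _) σ
          rw [h3, map_zero]
          rfl
        have e2 : actL (pe m J f.1 f.2) (w σ) = 0 := hwC.nul f (Finset.mem_insert_self _ _) σ
        have e3 : w σ = y σ - actL (pe m J f.1 f.2) (y σ) - bdr ν τ r σ := by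
          rw [hw, Pi.sub_apply, hqpos σ h', bdr_apply, if_pos h', bdr_apply, if_pos h]
        have e4 : (y - bdr ν τ r - w) σ = actL (pe m J f.1 f.2) (y σ) := by
          rw [Pi.sub_apply, Pi.sub_apply, e3]
          abel
        have e5 : actL (pe m J f.1 f.2) ((y - bdr ν τ r - w) σ) =
            actL (pe m J f.1 f.2) (y σ) := by
          rw [Pi.sub_apply, Pi.sub_apply, map_sub, map_sub, e1, e2, sub_zero, sub_zero]
        rw [e5, e4]
      · have h3 : (y - bdr ν τ r - w) σ = 0 := by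
          by_contra h4
          exact h (hyC.supp σ h4).1
        rw [h3, map_zero]
    · exact hyC.fix f hf σ hf1 hf2
  · have e1 := norm_sub_le (y - bdr ν τ r) w
    have e2 := norm_sub_le y (bdr ν τ r)
    have e3 : ‖bdr ν τ r‖ ≤ n * ‖r‖ := norm_bdr_le ν τ r
    have e4 : ‖w‖ ≤ C₂ * ‖bdr ν τ' q‖ := hr2
    have e5 : ‖bdr ν τ' q‖ ≤ n * ‖q‖ := norm_bdr_le ν τ' q
    have e6 : n * ‖r‖ ≤ n * (C₂ * ((1 + k) * ‖y‖)) :=
      mul_le_mul_of_nonneg_left (hr1.trans (mul_le_mul_of_nonneg_left hqn hC₂)) hn0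
    have e7 : C₂ * ‖bdr ν τ' q‖ ≤ C₂ * (n * ((1 + k) * ‖y‖)) :=
      mul_le_mul_of_nonneg_left (e5.trans (mul_le_mul_of_nonneg_left hqn hn0)) hC₂
    have e8 : ‖y - bdr ν τ r - w‖ ≤ (1 + 2 * n * C₂ * (1 + k)) * ‖y‖ := by
      have : (1 + 2 * n * C₂ * (1 + k)) * ‖y‖ =
          ‖y‖ + n * (C₂ * ((1 + k) * ‖y‖)) + C₂ * (n * ((1 + k) * ‖y‖)) := by ring
      rw [this]
      linarith
    refine e8.trans ?_
    have e9 : (1 + 2 * n * C₂ * (1 + k)) * ‖y‖ ≤ (1 + 2 * n * C₂ * (1 + k)) * (C₁ * ‖x‖) :=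
      mul_le_mul_of_nonneg_left hy1 (by positivity)
    refine e9.trans (le_of_eq (by ring))
  · have e1 : x - bdr ν τ (y - bdr ν τ r - w) = (x - bdr ν τ y) + bdr ν τ w := by
      rw [map_sub, map_sub, bdr_bdr hν]
      abel
    rw [e1]
    have e2 := norm_add_le (x - bdr ν τ y) (bdr ν τ w)
    have e3 : ‖bdr ν τ w‖ ≤ n * ‖w‖ := norm_bdr_le ν τ w
    have e4 : ‖w‖ ≤ C₂ * ((1 + k) * (C₁ * ‖bdr ν τ x‖)) :=
      hr2.trans (mul_le_mul_of_nonneg_left
        (hbq.trans (mul_le_mul_of_nonneg_left hy2 (by positivity))) hC₂)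
    have e5 : n * ‖w‖ ≤ n * (C₂ * ((1 + k) * (C₁ * ‖bdr ν τ x‖))) :=
      mul_le_mul_of_nonneg_left e4 hn0
    have e6 : 0 ≤ n * (C₂ * ((1 + k) * (C₁ * ‖bdr ν τ x‖))) := by positivity
    have e7 : C₁ * (1 + 2 * n * C₂ * (1 + k)) * ‖bdr ν τ x‖ =
        C₁ * ‖bdr ν τ x‖ + n * (C₂ * ((1 + k) * (C₁ * ‖bdr ν τ x‖))) +
          n * (C₂ * ((1 + k) * (C₁ * ‖bdr ν τ x‖))) := by ring
    rw [e7]
    linarith

/-- **Quantitative exactness.** Proof: induction on `A`; for all `B`, `i` with `n + |tB B| < 2 i`. The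
empty set: `qe_base`. Step: `qe_step`; `|tB (insert p B)| ≤ |tB B| + 2`. -/
theorem qe_all {ν : V → ℕ} (hν : Function.Injective ν) {G : SimpleGraph V}
    {e : V → X →ₗ[ℝ] X} {m : V → V → ℕ} (hL : IsLab G m) {κ : ℝ} (hκ : 0 ≤ κ) {n : ℕ}
    (h0 : ∀ B i, n + (tB B).card < 2 * i → QE ν G e m κ ∅ B i)
    (A : Finset (V × V)) (hA : ∀ p ∈ A, G.Adj p.1 p.2) :
    ∀ B i, n + (tB B).card < 2 * i → QE ν G e m κ A B i := by
  induction A using Finset.induction_on with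
  | empty => exact h0
  | insert p A _ ih =>
    intro B i hBi
    have ih' := ih fun f hf => hA f (Finset.mem_insert_of_mem hf)
    refine qe_step hν hL hκ p (hA p (Finset.mem_insert_self _ _)) (ih' B i hBi)
      (ih' (insert p B) (i + 1) ?_)
    have h3 : (tB (insert p B)).card ≤ (tB B).card + 2 := by
      rw [StepQE_tB_insert]
      have h4 := Finset.card_insert_le p.1 (insert p.2 (tB B))
      have h5 := Finset.card_insert_le p.2 (tB B)
      omega
    omega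

end Pool.Agent.H4.FC
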