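import Pool.Agent.H4.FC.BaseQE
import Pool.Agent.H4.FC.StepQE
import Pool.Agent.H4.FC.DeformL
import Pool.Agent.H4.FC.PrKer

/-!
# Project FC: exactness of the twisted complexes

Let `A` be the finite set of all `(u, v)` with `G.Adj u v` (classical decidability). By `qe_all` and
`qe_base` (with the hypothesis `hHV`) `QE ν G e m κ A ∅ i`, constant `C₁` (`tB ∅ = ∅`, `n < 2 i`).
`deformL` for degree `i + 1`: constant `C₂`. `exists_pr` for every `σ`: `pr σ`, constants `≤ C₃`, and a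
bound `‖pr σ x‖ ≤ C₄ ‖x‖`. Let `C₅` bound all `‖g v x‖ ≤ C₅ ‖x‖`, `‖γ x‖ ≤ C₅ ‖x‖`.

Let `t ≥ 1`, `δ = 1/t`, `J` with `IsRep G m κ J`. `Z` = submodule of all `f` with
`IsTwL G e g γ J t i f` and `bd ν f = 0`, `B` = image under `bd ν` of the submodule of `IsTwL … (i+1)`.
`B ≤ Z`: the boundary of a twisted chain is a twisted chain (`Xop` is linear; the supports), and
`bd ν (bd ν y) = 0`. By `le_of_half` (in `Pool.Agent.H85.Fold.TwA`) it is enough to find for every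
`f ∈ Z` an element of `B` at distance at most `‖f‖ / 2`, for large `t`.

(1) `e v (f σ ω) = -δ (g v (f σ ω) + γ (actL (J v) (f σ) ω))` for `v ∈ σ`, so
`‖e v (f σ ω)‖ ≤ δ C₅ (1 + κ) ‖f‖`. Put `h σ ω = pr σ (f σ ω)`; `‖f - h‖ ≤ C₃ δ C₅ (1 + κ) ‖f‖`,
`‖h‖ ≤ C₄ ‖f‖`.
(2) `IsC G e m J A ∅ i h`: supports (`pr σ 0 = 0`), `ker` by the choice of `pr`; `fix`: for adjacent
`u v ∈ σ` the projection `pe m J u v` fixes `f σ` by `Xop_fix` and commutes with `pr σ` applied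
pointwise (`actL_comp`).
(3) `bd ν h = bd ν (h - f)` has norm at most `|V| ‖h - f‖` (`norm_bdr_le`, `bdr_empty`). By `QE` there is
`y` with `IsC … (i + 1) y`, `‖y‖ ≤ C₁ ‖h‖`, `‖h - bd ν y‖ ≤ C₁ ‖bd ν h‖`.
(4) `deformL` gives `z'` with `IsTwL … t (i + 1) z'` (`δ⁻¹ = t`) and `‖z' - y‖ ≤ C₂ δ ‖y‖`.
(5) `‖f - bd ν z'‖ ≤ ‖f - h‖ + ‖h - bd ν y‖ + ‖bd ν (y - z')‖ ≤ C δ ‖f‖` with `C` independent of `N`,
`J`, `t`, `f`. Take `t₀ = max 1 (2 C)`.
-/

set_option autoImplicit false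

open Finset

namespace Pool.Agent.H4.FC

open Pool.Agent.H85.Fold

variable {V X : Type} [DecidableEq V] [Fintype V] [NormedAddCommGroup X] [NormedSpace ℝ X]
  [FiniteDimensional ℝ X]

/-- the submodule of twisted chains -/
private def twSubL {N : Type} [Fintype N] [DecidableEq N] (G : SimpleGraph V)
    (e g : V → X →ₗ[ℝ] X) (γ : X →ₗ[ℝ] X) (J : V → Matrix N N ℝ) (t : ℝ) (i : ℕ) :
    Submodule ℝ (Finset V → N → X) where
  carrier := {f | IsTwL G e g γ J t i f}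
  zero_mem' := by
    refine ⟨fun σ h => absurd rfl h, fun σ v _ => ?_⟩
    rw [Pi.zero_apply, map_zero]
  add_mem' := by
    intro f f' hf hf'
    refine ⟨fun σ h => ?_, fun σ v hv => ?_⟩
    · by_cases h1 : f σ = 0
      · apply hf'.supp σ
        intro h2
        apply h
        show f σ + f' σ = 0
        rw [h1, h2, add_zero]
      · exact hf.supp σ h1
    · rw [Pi.add_apply, map_add, hf.eq σ v hv, hf'.eq σ v hv, add_zero]
  smul_mem' := by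
    intro r f hf
    refine ⟨fun σ h => ?_, fun σ v hv => ?_⟩
    · apply hf.supp σ
      intro h2
      apply h
      show r • f σ = 0
      rw [h2, smul_zero]
    · rw [Pi.smul_apply, map_smul, hf.eq σ v hv, smul_zero]

omit [FiniteDimensional ℝ X] in
private theorem isTwL_bd (ν : V → ℕ) {N : Type} [Fintype N] [DecidableEq N] {G : SimpleGraph V}
    {e g : V → X →ₗ[ℝ] X} {γ : X →ₗ[ℝ] X} {J : V → Matrix N N ℝ} {t : ℝ} {i : ℕ}
    {y : Finset V → N → X} (hy : IsTwL G e g γ J t (i + 1) y) :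
    IsTwL G e g γ J t i (bd ν y) := by
  refine ⟨fun ρ h => ?_, fun ρ v hv => ?_⟩
  · have h' : ∑ v ∈ ρᶜ, sgn ν v ρ • y (insert v ρ) ≠ 0 := h
    obtain ⟨w, hw, hw'⟩ := Finset.exists_ne_zero_of_sum_ne_zero h'
    have hne : y (insert w ρ) ≠ 0 := by
      intro h0
      exact hw' (by rw [h0, smul_zero])
    obtain ⟨h1, h2⟩ := hy.supp _ hne
    refine ⟨fun a ha b hb hab => h1 a (Finset.mem_insert_of_mem ha) b
      (Finset.mem_insert_of_mem hb) hab, ?_⟩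
    rw [Finset.card_insert_of_notMem (Finset.mem_compl.mp hw)] at h2
    omega
  · have h' : bd ν y ρ = ∑ v ∈ ρᶜ, sgn ν v ρ • y (insert v ρ) := rfl
    rw [h', map_sum]
    apply Finset.sum_eq_zero
    intro w _
    rw [map_smul, hy.eq _ v (Finset.mem_insert_of_mem hv), smul_zero]

/-- **Exactness of the twisted complexes.** -/
theorem tw_exactL {ν : V → ℕ} (hν : Function.Injective ν) {G : SimpleGraph V}
    {m : V → V → ℕ} (hL : IsLab G m) {e g : V → X →ₗ[ℝ] X} {γ : X →ₗ[ℝ] X}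
    (h : IsPertL G m e g γ) (hl : Lift G e) {n : ℕ}
    (hHV : ∀ τ i, Cl G τ → n + τ.card < 2 * i → HVr ν G e ⊤ univ τ i) {κ : ℝ} (hκ : 0 ≤ κ)
    (i : ℕ) (hi : n < 2 * i) :
    ∃ t₀ : ℝ, ∀ t : ℝ, t₀ ≤ t → ∀ (N : Type) [Fintype N] [DecidableEq N]
      (J : V → Matrix N N ℝ), IsRep G m κ J → ∀ f : Finset V → N → X,
        IsTwL G e g γ J t i f → bd ν f = 0 →
        ∃ y : Finset V → N → X, IsTwL G e g γ J t (i + 1) y ∧ bd ν y = f := by
  classical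
  set A : Finset (V × V) := univ.filter fun p => G.Adj p.1 p.2 with hA
  have hA1 : ∀ p ∈ A, G.Adj p.1 p.2 := fun p hp => (Finset.mem_filter.1 hp).2
  have hA2 : ∀ u v, G.Adj u v → (u, v) ∈ A := fun u v huv =>
    Finset.mem_filter.2 ⟨Finset.mem_univ _, huv⟩
  have htB : tB (∅ : Finset (V × V)) = ∅ := by simp [tB]
  obtain ⟨C₁, hC₁0, hC₁⟩ := qe_all (e := e) (n := n) hν hL hκ
    (fun B i hB => qe_base ν G e m κ B i fun hcl => hHV (tB B) i hcl hB) A hA1 ∅ i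
    (by rw [htB, Finset.card_empty]; omega)
  obtain ⟨C₂, hC₂0, hC₂⟩ := deformL hL h hl hκ A hA2 (i + 1)
  choose pr Cp hCp0 hpr1 hpr2 using fun σ : Finset V => exists_pr e σ
  choose Cq hCq0 hCq using fun σ : Finset V => exists_bound (pr σ)
  obtain ⟨Cg, hCg0, hCg⟩ := exists_bound (LinearMap.pi g : X →ₗ[ℝ] (V → X))
  obtain ⟨Cγ, hCγ0, hCγ⟩ := exists_bound γ
  have hg : ∀ v x, ‖g v x‖ ≤ Cg * ‖x‖ := fun v x =>
    (norm_le_pi_norm (LinearMap.pi g x) v).trans (hCg x)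
  set C₃ : ℝ := ∑ σ, Cp σ with hC₃
  set C₄ : ℝ := ∑ σ, Cq σ with hC₄
  have hC₃0 : 0 ≤ C₃ := Finset.sum_nonneg fun σ _ => hCp0 σ
  have hC₄0 : 0 ≤ C₄ := Finset.sum_nonneg fun σ _ => hCq0 σ
  have hCp : ∀ σ, Cp σ ≤ C₃ := fun σ =>
    Finset.single_le_sum (fun τ _ => hCp0 τ) (Finset.mem_univ σ)
  have hCq' : ∀ σ, Cq σ ≤ C₄ := fun σ =>
    Finset.single_le_sum (fun τ _ => hCq0 τ) (Finset.mem_univ σ)
  set nV : ℝ := (Fintype.card V : ℝ) with hnV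
  have hnV0 : 0 ≤ nV := Nat.cast_nonneg _
  set K₀ : ℝ := C₃ * (Cg + Cγ * κ) with hK₀
  have hK₀0 : 0 ≤ K₀ := by positivity
  set K : ℝ := K₀ + C₁ * (nV * K₀) + nV * (C₂ * (C₁ * C₄)) with hK
  have hK0 : 0 ≤ K := by positivity
  refine ⟨2 * K + 1, ?_⟩
  intro t ht N _ _ J hJ f hf hbd
  have ht1 : 1 ≤ t := by linarith
  have ht0 : 0 < t := by linarith
  have hδ1 : t⁻¹ ≤ 1 := inv_le_one_of_one_le₀ ht1
  have hδK : t⁻¹ * K ≤ 1 / 2 := by
    rw [inv_mul_le_iff₀ ht0]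
    linarith
  -- the estimate
  have key : ∀ f : Finset V → N → X, IsTwL G e g γ J t i f → bd ν f = 0 →
      ∃ z', IsTwL G e g γ J t (i + 1) z' ∧ ‖f - bd ν z'‖ ≤ ‖f‖ / 2 := by
    intro f hf hbd
    have hfn : ∀ σ ω, ‖f σ ω‖ ≤ ‖f‖ := fun σ ω =>
      (norm_le_pi_norm (f σ) ω).trans (norm_le_pi_norm f σ)
    have hev : ∀ σ ω, ∀ v ∈ σ, ‖e v (f σ ω)‖ ≤ t⁻¹ * ((Cg + Cγ * κ) * ‖f‖) := by
      intro σ ω v hv
      have h1 : t • e v (f σ ω) + g v (f σ ω) + γ (actL (J v) (f σ) ω) = 0 :=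
        congrFun (hf.eq σ v hv) ω
      have h2 : t • e v (f σ ω) = -(g v (f σ ω) + γ (actL (J v) (f σ) ω)) := by
        rw [eq_neg_iff_add_eq_zero, ← add_assoc]
        exact h1
      have h5 : e v (f σ ω) = t⁻¹ • -(g v (f σ ω) + γ (actL (J v) (f σ) ω)) := by
        rw [← h2, smul_smul, inv_mul_cancel₀ ht0.ne', one_smul]
      rw [h5, norm_smul, norm_neg, Real.norm_of_nonneg (inv_nonneg.mpr ht0.le)]
      apply mul_le_mul_of_nonneg_left _ (inv_nonneg.mpr ht0.le)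
      have h6 : ‖actL (J v) (f σ) ω‖ ≤ κ * ‖f‖ :=
        (norm_le_pi_norm (actL (J v) (f σ)) ω).trans ((norm_actL_le hκ (hJ.bound v) (f σ)).trans
          (mul_le_mul_of_nonneg_left (norm_le_pi_norm f σ) hκ))
      calc ‖g v (f σ ω) + γ (actL (J v) (f σ) ω)‖
          ≤ ‖g v (f σ ω)‖ + ‖γ (actL (J v) (f σ) ω)‖ := norm_add_le _ _
        _ ≤ Cg * ‖f σ ω‖ + Cγ * ‖actL (J v) (f σ) ω‖ := add_le_add (hg _ _) (hCγ _)
        _ ≤ Cg * ‖f‖ + Cγ * (κ * ‖f‖) := add_le_add (mul_le_mul_of_nonneg_left (hfn _ _) hCg0)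
            (mul_le_mul_of_nonneg_left h6 hCγ0)
        _ = (Cg + Cγ * κ) * ‖f‖ := by ring
    set k : Finset V → N → X := fun σ ω => pr σ (f σ ω) with hk
    have hkn : ‖k‖ ≤ C₄ * ‖f‖ := by
      rw [pi_norm_le_iff_of_nonneg (by positivity)]
      intro σ
      rw [pi_norm_le_iff_of_nonneg (by positivity)]
      intro ω
      calc ‖k σ ω‖ ≤ Cq σ * ‖f σ ω‖ := hCq σ _
        _ ≤ C₄ * ‖f‖ := mul_le_mul (hCq' σ) (hfn σ ω) (norm_nonneg _) hC₄0
    have hfk : ‖f - k‖ ≤ t⁻¹ * (K₀ * ‖f‖) := by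
      rw [pi_norm_le_iff_of_nonneg (by positivity)]
      intro σ
      rw [pi_norm_le_iff_of_nonneg (by positivity)]
      intro ω
      have h1 := hpr2 σ (f σ ω) (t⁻¹ * ((Cg + Cγ * κ) * ‖f‖)) (by positivity)
        (fun v hv => hev σ ω v hv)
      calc ‖(f - k) σ ω‖ = ‖f σ ω - pr σ (f σ ω)‖ := rfl
        _ ≤ Cp σ * (t⁻¹ * ((Cg + Cγ * κ) * ‖f‖)) := h1
        _ ≤ C₃ * (t⁻¹ * ((Cg + Cγ * κ) * ‖f‖)) :=
          mul_le_mul_of_nonneg_right (hCp σ) (by positivity)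
        _ = t⁻¹ * (K₀ * ‖f‖) := by rw [hK₀]; ring
    have hkC : IsC G e m J A ∅ i k := by
      refine ⟨fun σ hσ => ?_, fun σ v hv ω => hpr1 σ _ v hv, ?_, fun b hb => ?_⟩
      · have h1 : f σ ≠ 0 := by
          intro h0
          apply hσ
          funext ω
          show pr σ (f σ ω) = 0
          rw [h0, Pi.zero_apply, map_zero]
        refine ⟨?_, hf.supp σ h1⟩
        rw [htB]
        exact Finset.empty_subset _
      · intro p hp σ hp1 hp2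
        have h1 : actL (pe m J p.1 p.2) (f σ) = f σ :=
          Xop_fix hL h hJ t (hA1 p hp) (hf.eq σ _ hp1) (hf.eq σ _ hp2)
        show actL (pe m J p.1 p.2) (fun ω => pr σ (f σ ω)) = fun ω => pr σ (f σ ω)
        rw [actL_comp (pr σ), h1]
      · exact absurd hb (Finset.notMem_empty _)
    obtain ⟨y, hyC, hyn, hyb⟩ := hC₁ N J hJ k hkC
    rw [htB, bdr_empty, bdr_empty] at hyb
    have hbw : ∀ w : Finset V → N → X, ‖bd ν w‖ ≤ nV * ‖w‖ := by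
      intro w
      rw [← bdr_empty]
      exact norm_bdr_le ν ∅ w
    have hbk : ‖bd ν k‖ ≤ nV * (t⁻¹ * (K₀ * ‖f‖)) := by
      have h1 : bd ν k = -bd ν (f - k) := by
        rw [map_sub, hbd, zero_sub, neg_neg]
      rw [h1, norm_neg]
      exact (hbw _).trans (mul_le_mul_of_nonneg_left hfk hnV0)
    obtain ⟨z', hz', hzz⟩ := hC₂ N J hJ t⁻¹ (inv_pos.mpr ht0) hδ1 y hyC
    rw [inv_inv] at hz'
    refine ⟨z', hz', ?_⟩
    have e1 : f - bd ν z' = ((f - k) + (k - bd ν y)) - bd ν (z' - y) := by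
      rw [map_sub]; abel
    rw [e1]
    calc ‖((f - k) + (k - bd ν y)) - bd ν (z' - y)‖
        ≤ ‖(f - k) + (k - bd ν y)‖ + ‖bd ν (z' - y)‖ := norm_sub_le _ _
      _ ≤ (‖f - k‖ + ‖k - bd ν y‖) + ‖bd ν (z' - y)‖ :=
          add_le_add_left (norm_add_le _ _) _
      _ ≤ (t⁻¹ * (K₀ * ‖f‖) + C₁ * (nV * (t⁻¹ * (K₀ * ‖f‖)))) +
          nV * (C₂ * t⁻¹ * (C₁ * (C₄ * ‖f‖))) := by
          refine add_le_add (add_le_add hfk (hyb.trans (mul_le_mul_of_nonneg_left hbk hC₁0))) ?_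
          refine (hbw _).trans (mul_le_mul_of_nonneg_left ?_ hnV0)
          exact hzz.trans (mul_le_mul_of_nonneg_left
            (hyn.trans (mul_le_mul_of_nonneg_left hkn hC₁0)) (by positivity))
      _ = (t⁻¹ * K) * ‖f‖ := by rw [hK]; ring
      _ ≤ 1 / 2 * ‖f‖ := mul_le_mul_of_nonneg_right hδK (norm_nonneg _)
      _ = ‖f‖ / 2 := by ring
  -- the subspaces
  set Z : Submodule ℝ (Finset V → N → X) :=
    twSubL G e g γ J t i ⊓ LinearMap.ker (bd ν) with hZ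
  set B : Submodule ℝ (Finset V → N → X) :=
    (twSubL G e g γ J t (i + 1)).map (bd ν) with hB
  have hBZ : B ≤ Z := by
    rintro _ ⟨y, hy, rfl⟩
    exact ⟨isTwL_bd ν hy, LinearMap.mem_ker.mpr (bd_bd ν hν y)⟩
  have hZB : Z ≤ B := by
    apply le_of_half Z B hBZ
    rintro f ⟨hf1, hf2⟩
    obtain ⟨z', hz', hn⟩ := key f hf1 hf2
    exact ⟨bd ν z', ⟨z', hz', rfl⟩, hn⟩
  obtain ⟨y, hy, hyf⟩ := hZB (show f ∈ Z from ⟨hf, hbd⟩)
  exact ⟨y, hy, hyf⟩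

end Pool.Agent.H4.FC
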