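import Pool.Agent.H4.FC.Par
import Pool.Agent.H4.Singer.HarmAct

/-!
# Project FC: the matrix of the harmonic chains

Modelled on `Pool.Agent.H4.Singer.HarmAct`, whose `gact`, `gact_zero`, `gact_add`, `gact_single`, `sz` are
generic and public (the private `gact_sub`, `gact_sum`, `gact_ite` and `sum_RI` must be copied). The only
difference is the column of the coboundary: for spherical `ρ` with `i + 1` elements the entry is
`∑_{v ∈ ρ, ρ.erase v = σ} ∑_{u ∈ parF M ρ} single u (sz ν v (ρ.erase v) * eps M u)`, which acts by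
`φ ↦ ∑_u ± eps u * φ (h * (π u)⁻¹) = ± altS M π ρ φ h` (`altS_inv`).
-/

set_option autoImplicit false

open Finset

namespace Pool.Agent.H4.FC

open Pool.Agent.H4.Singer

variable {V : Type} [Fintype V] [DecidableEq V]

/-- the spherical sets with `i` elements -/
abbrev RIL (M : CoxeterMatrix V) (i : ℕ) : Type := {σ : Finset V // Sph M σ ∧ σ.card = i}

noncomputable instance (M : CoxeterMatrix V) (i : ℕ) : Fintype (RIL M i) := Fintype.ofFinite _

/-- the columns: antisymmetry, boundary, coboundary -/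
abbrev CIL (M : CoxeterMatrix V) (i : ℕ) : Type := (RIL M i × V) ⊕ (Finset V ⊕ Finset V)

open Classical in
/-- the matrix over the group ring whose left kernel consists of the harmonic chains -/
noncomputable def HML (M : CoxeterMatrix V) (ν : V → ℕ) (i : ℕ) :
    Matrix (RIL M i) (CIL M i) (MonoidAlgebra ℤ M.Group) :=
  Matrix.of fun σ c => match c with
    | Sum.inl (σ', v) =>
      if σ = σ' ∧ v ∈ σ'.1 then
        MonoidAlgebra.single 1 1 + MonoidAlgebra.single (M.simple v) 1 else 0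
    | Sum.inr (Sum.inl τ) =>
      ∑ v ∈ τᶜ, if insert v τ = σ.1 then MonoidAlgebra.single 1 (sz ν v τ) else 0
    | Sum.inr (Sum.inr ρ) =>
      if Sph M ρ ∧ ρ.card = i + 1 then
        ∑ v ∈ ρ, if ρ.erase v = σ.1 then
          ∑ u ∈ parF M ρ, MonoidAlgebra.single u (sz ν v (ρ.erase v) * eps M u) else 0
      else 0

private lemma hm_gact_sum {W H ι : Type} [Group W] [Group H] (π : W →* H) (s : Finset ι)
    (f : ι → MonoidAlgebra ℤ W) (φ : H → ℂ) (h : H) :
    gact π (∑ k ∈ s, f k) φ h = ∑ k ∈ s, gact π (f k) φ h := by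
  classical
  induction s using Finset.induction_on with
  | empty => simp [gact_zero]
  | insert k s hk ih => rw [Finset.sum_insert hk, Finset.sum_insert hk, gact_add, ih]

private lemma hm_gact_ite {W H : Type} [Group W] [Group H] (π : W →* H) (p : Prop) [Decidable p]
    (a : MonoidAlgebra ℤ W) (φ : H → ℂ) (h : H) :
    gact π (if p then a else 0) φ h = if p then gact π a φ h else 0 := by
  split_ifs
  · rfl
  · exact gact_zero π φ h

private lemma hm_sum (M : CoxeterMatrix V) (i : ℕ) (S : Finset V) (F : Finset V → ℂ)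
    (hF : ¬ (Sph M S ∧ S.card = i) → F S = 0) :
    ∑ σ : RIL M i, (if S = σ.1 then F σ.1 else 0) = F S := by
  classical
  by_cases hS : Sph M S ∧ S.card = i
  · rw [Finset.sum_eq_single (⟨S, hS⟩ : RIL M i)]
    · simp
    · intro σ _ hσ
      rw [if_neg]
      intro h1
      exact hσ (Subtype.ext h1.symm)
    · intro h1
      exact absurd (Finset.mem_univ _) h1
  · rw [hF hS]
    refine Finset.sum_eq_zero fun σ _ => ?_
    rw [if_neg]
    intro h1
    exact hS (h1 ▸ σ.2)

variable (M : CoxeterMatrix V) (ν : V → ℕ) (i : ℕ) {H : Type} [Group H] (π : M.Group →* H)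
  (φ : Finset V → H → ℂ)

theorem HML_anti (σ' : RIL M i) (v : V) (h : H) :
    ∑ σ : RIL M i, gact π (HML M ν i σ (Sum.inl (σ', v))) (φ σ.1) h =
      if v ∈ σ'.1 then φ σ'.1 h + φ σ'.1 (h * (π (M.simple v))⁻¹) else 0 := by
  classical
  have key : ∀ σ : RIL M i, gact π (HML M ν i σ (Sum.inl (σ', v))) (φ σ.1) h =
      if σ = σ' then (if v ∈ σ'.1 then φ σ'.1 h + φ σ'.1 (h * (π (M.simple v))⁻¹) else 0)
        else 0 := by
    intro σ
    have h1 : HML M ν i σ (Sum.inl (σ', v)) = if σ = σ' ∧ v ∈ σ'.1 then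
        MonoidAlgebra.single 1 1 + MonoidAlgebra.single (M.simple v) 1 else 0 := by
      simp only [HML, Matrix.of_apply]
    rw [h1, hm_gact_ite, gact_add, gact_single, gact_single]
    by_cases h2 : σ = σ'
    · subst h2
      by_cases h3 : v ∈ σ.1
      · simp [h3]
      · simp [h3]
    · simp [h2]
  rw [Finset.sum_congr rfl fun σ _ => key σ, Finset.sum_ite_eq' Finset.univ σ']
  simp

theorem HML_bd (hφ : ∀ σ : Finset V, ¬ (Sph M σ ∧ σ.card = i) → φ σ = 0)
    (τ : Finset V) (h : H) :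
    ∑ σ : RIL M i, gact π (HML M ν i σ (Sum.inr (Sum.inl τ))) (φ σ.1) h =
      ∑ v ∈ τᶜ, (-1 : ℂ) ^ (τ.filter fun u => ν u < ν v).card * φ (insert v τ) h := by
  classical
  have key : ∀ σ : RIL M i, gact π (HML M ν i σ (Sum.inr (Sum.inl τ))) (φ σ.1) h =
      ∑ v ∈ τᶜ, if insert v τ = σ.1 then φ σ.1 h * ((sz ν v τ : ℤ) : ℂ) else 0 := by
    intro σ
    have h1 : HML M ν i σ (Sum.inr (Sum.inl τ)) =
        ∑ v ∈ τᶜ, if insert v τ = σ.1 then MonoidAlgebra.single 1 (sz ν v τ) else 0 := by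
      simp only [HML, Matrix.of_apply]
    rw [h1, hm_gact_sum]
    refine Finset.sum_congr rfl fun v _ => ?_
    rw [hm_gact_ite, gact_single]
    simp
  rw [Finset.sum_congr rfl fun σ _ => key σ, Finset.sum_comm]
  refine Finset.sum_congr rfl fun v _ => ?_
  rw [hm_sum M i (insert v τ) (fun S => φ S h * ((sz ν v τ : ℤ) : ℂ))]
  · simp only [sz]
    push_cast
    ring
  · intro h1
    rw [hφ _ h1]
    simp

theorem HML_cobd (hφ : ∀ σ : Finset V, ¬ (Sph M σ ∧ σ.card = i) → φ σ = 0)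
    (ρ : Finset V) (hρ : Sph M ρ) (hρi : ρ.card = i + 1) (h : H) :
    ∑ σ : RIL M i, gact π (HML M ν i σ (Sum.inr (Sum.inr ρ))) (φ σ.1) h =
      ∑ v ∈ ρ, (-1 : ℂ) ^ ((ρ.erase v).filter fun u => ν u < ν v).card *
        altS M π ρ (φ (ρ.erase v)) h := by
  classical
  have key : ∀ σ : RIL M i, gact π (HML M ν i σ (Sum.inr (Sum.inr ρ))) (φ σ.1) h =
      ∑ v ∈ ρ, if ρ.erase v = σ.1 then
        ((sz ν v (ρ.erase v) : ℤ) : ℂ) * altS M π ρ (φ σ.1) h else 0 := by
    intro σ
    have h1 : HML M ν i σ (Sum.inr (Sum.inr ρ)) =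
        ∑ v ∈ ρ, if ρ.erase v = σ.1 then
          ∑ u ∈ parF M ρ, MonoidAlgebra.single u (sz ν v (ρ.erase v) * eps M u) else 0 := by
      simp only [HML, Matrix.of_apply]
      rw [if_pos ⟨hρ, hρi⟩]
    rw [h1, hm_gact_sum]
    refine Finset.sum_congr rfl fun v _ => ?_
    rw [hm_gact_ite, hm_gact_sum, altS_inv M π hρ, Finset.mul_sum]
    congr 1
    refine Finset.sum_congr rfl fun u _ => ?_
    rw [gact_single]
    push_cast
    ring
  rw [Finset.sum_congr rfl fun σ _ => key σ, Finset.sum_comm]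
  refine Finset.sum_congr rfl fun v _ => ?_
  rw [hm_sum M i (ρ.erase v) (fun S => ((sz ν v (ρ.erase v) : ℤ) : ℂ) * altS M π ρ (φ S) h)]
  · simp only [sz]
    push_cast
    ring
  · intro h1
    rw [hφ _ h1]
    simp [altS]

theorem HML_cobd_zero (ρ : Finset V) (hρ : ¬ (Sph M ρ ∧ ρ.card = i + 1)) (h : H) :
    ∑ σ : RIL M i, gact π (HML M ν i σ (Sum.inr (Sum.inr ρ))) (φ σ.1) h = 0 := by
  classical
  refine Finset.sum_eq_zero fun σ _ => ?_
  have h1 : HML M ν i σ (Sum.inr (Sum.inr ρ)) = 0 := by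
    simp only [HML, Matrix.of_apply]
    rw [if_neg hρ]
  rw [h1, gact_zero]

end Pool.Agent.H4.FC
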