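import Pool.Agent.H4.FC.HodgeL
import Pool.Agent.H4.FC.HarmMatL
import Pool.Agent.H4.Singer.LuckVanish

/-!
# Project FC: harmonic `ℓ²`-chains are in the kernel of the matrix

Modelled on `Pool.Agent.H4.Singer.HarmInf` (replace `HM` by `HML`, `gen_inv'` by `simple_inv`; `IsHarmL.cocyc`
is the vanishing of the column of the coboundary by `HML_cobd` with `π = MonoidHom.id`).
-/

set_option autoImplicit false

open Finset

namespace Pool.Agent.H4.FC

open Pool.Agent.H4.Atiyah Pool.Agent.H4.Singer

variable {V : Type} [Fintype V] [DecidableEq V]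

/-- the matrix `HML` with rows and columns numbered by `Fin` -/
noncomputable def HAL (M : CoxeterMatrix V) (ν : V → ℕ) (i : ℕ) :
    Matrix (Fin (Fintype.card (RIL M i))) (Fin (Fintype.card (CIL M i)))
      (MonoidAlgebra ℤ M.Group) :=
  (HML M ν i).submatrix (Fintype.equivFin (RIL M i)).symm (Fintype.equivFin (CIL M i)).symm

private lemma coeff_toC {W : Type} [Group W] (a : MonoidAlgebra ℤ W) (h : W) :
    (MonoidAlgebra.mapRingHom W (Int.castRingHom ℂ) a).coeff h = ((a.coeff h : ℤ) : ℂ) := by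
  simp [MonoidAlgebra.mapRingHom]

private lemma sum_toC {W : Type} [Group W] (a : MonoidAlgebra ℤ W) (φ : W → ℂ) (g : W) :
    ∑ h ∈ (MonoidAlgebra.mapRingHom W (Int.castRingHom ℂ) a).coeff.support,
      φ (g * h⁻¹) * (MonoidAlgebra.mapRingHom W (Int.castRingHom ℂ) a).coeff h =
      gact (MonoidHom.id W) a φ g := by
  unfold gact
  have hs : (MonoidAlgebra.mapRingHom W (Int.castRingHom ℂ) a).coeff.support =
      a.coeff.support := by
    ext h
    rw [Finsupp.mem_support_iff, Finsupp.mem_support_iff, coeff_toC]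
    simp
  rw [hs]
  refine Finset.sum_congr rfl fun h _ => ?_
  rw [coeff_toC]
  rfl

theorem harm_infL (M : CoxeterMatrix V) (ν : V → ℕ) (i : ℕ)
    (h0 : ∀ x ∈ l2ker (toC (HAL M ν i)), x = 0) :
    ∀ x : Finset V → M.Group → ℂ, IsHarmL M ν i x → x = 0 := by
  classical
  intro x hx
  have hsupp : ∀ σ : Finset V, ¬ (Sph M σ ∧ σ.card = i) → x σ = 0 := by
    intro σ hσ
    funext w
    by_contra hne
    exact hσ (hx.chain.supp σ w hne)
  -- the function on `Fin k × W`
  let row : Fin (Fintype.card (RIL M i)) → RIL M i := (Fintype.equivFin (RIL M i)).symm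
  let F : Fin (Fintype.card (RIL M i)) × M.Group → ℂ := fun p => x (row p.1).1 p.2
  have hF : Memℓp F 2 := by
    refine memℓp_gen ?_
    have h1 : Summable fun p : Fin (Fintype.card (RIL M i)) × M.Group => ‖F p‖ ^ 2 := by
      rw [summable_prod_of_nonneg (fun p => by positivity)]
      refine ⟨fun j => hx.chain.l2 (row j).1, ?_⟩
      exact Summable.of_finite
    refine h1.congr fun p => ?_
    norm_num
  let X : lp (fun _ : Fin (Fintype.card (RIL M i)) × M.Group => ℂ) 2 := ⟨F, hF⟩
  have hX : X ∈ l2ker (toC (HAL M ν i)) := by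
    intro c g
    have h1 : ∀ j : Fin (Fintype.card (RIL M i)),
        ∑ h ∈ ((toC (HAL M ν i)) j c).coeff.support, X (j, g * h⁻¹) *
          ((toC (HAL M ν i)) j c).coeff h =
        gact (MonoidHom.id M.Group)
          (HML M ν i (row j) ((Fintype.equivFin (CIL M i)).symm c)) (x (row j).1) g := by
      intro j
      exact sum_toC (HML M ν i (row j) ((Fintype.equivFin (CIL M i)).symm c)) (x (row j).1) g
    rw [Finset.sum_congr rfl fun j _ => h1 j]
    have h2 : ∑ j : Fin (Fintype.card (RIL M i)), gact (MonoidHom.id M.Group)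
          (HML M ν i (row j) ((Fintype.equivFin (CIL M i)).symm c)) (x (row j).1) g =
        ∑ σ : RIL M i, gact (MonoidHom.id M.Group)
          (HML M ν i σ ((Fintype.equivFin (CIL M i)).symm c)) (x σ.1) g :=
      Equiv.sum_comp (Fintype.equivFin (RIL M i)).symm (fun σ : RIL M i =>
        gact (MonoidHom.id M.Group) (HML M ν i σ ((Fintype.equivFin (CIL M i)).symm c)) (x σ.1) g)
    rw [h2]
    generalize (Fintype.equivFin (CIL M i)).symm c = cc
    rcases cc with ⟨σ', v⟩ | τ | ρ
    · rw [HML_anti M ν i (MonoidHom.id M.Group) x σ' v g]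
      split_ifs with hv
      · rw [MonoidHom.id_apply, simple_inv, hx.chain.anti σ'.1 v hv g]
        ring
      · rfl
    · rw [HML_bd M ν i (MonoidHom.id M.Group) x hsupp τ g]
      exact congrFun (congrFun hx.cyc τ) g
    · by_cases hρ : Sph M ρ ∧ ρ.card = i + 1
      · rw [HML_cobd M ν i (MonoidHom.id M.Group) x hsupp ρ hρ.1 hρ.2 g]
        exact hx.cocyc ρ g hρ.1 hρ.2
      · exact HML_cobd_zero M ν i (MonoidHom.id M.Group) x ρ hρ g
  have hX0 := h0 X hX
  funext σ w
  by_cases hσ : Sph M σ ∧ σ.card = i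
  · have h4 : X (Fintype.equivFin (RIL M i) ⟨σ, hσ⟩, w) = 0 := by rw [hX0]; rfl
    have h5 : X (Fintype.equivFin (RIL M i) ⟨σ, hσ⟩, w) = x σ w := by
      change x (row (Fintype.equivFin (RIL M i) ⟨σ, hσ⟩)).1 w = x σ w
      simp only [row, Equiv.symm_apply_apply]
    rw [h5] at h4
    simpa using h4
  · rw [hsupp σ hσ]
    rfl

end Pool.Agent.H4.FC
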