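import Pool.Agent.H4.FC.RealEx
import Pool.Agent.H4.FC.NumK
import Pool.Agent.H4.FC.RestrL
import Pool.Agent.H85.Fold2.IntMod

/-!
# Project FC: integer representations with exact twisted complexes

Modelled on `exists_imod` in `Pool.Agent.H85.Fold2.IntMod`. Let `P`, `Q` be the folding vectors of `H`.
`exists_intdata` with `ι = V × V` and `y (u, v) = 2 cos (π / M u v)` (`two_cos_integral`) gives a number
field `K`, an embedding `τ`, integral folding vectors `P'`, `Q'` and `z (u, v)`; let
`c u v = z (u, v)` (symmetric because `τ` is injective). `exists_fermi` for `FI V n k`. Let `t₀` be the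
bound of `bF_exact` for the folding vectors `τ P'`, `τ Q'`, and `N ≥ t₀` a natural number. The matrices
`B v = bF w a (P' ∘ φ) (Q' ∘ φ) (bet ν c) N v` over `𝓞 K` satisfy the Coxeter relations: `M u v = 0` is
trivial, `u = v` is `bF_sq` (`M u u = 1`), otherwise `M u v ≥ 2`, `u v` is an edge of `gr M`, so
`H.Adj (φ u) (φ v)` and `bF_pow` applies (the equations between dot products hold over `𝓞 K` because
`τ` is injective, see `IntMod_dot`). Let `ρ.A v = Φ (B v)` with `Φ` of `restrict_scalarsL` (a ring
homomorphism, so the relations hold). Exactness: `bF_exact`, `bF_map`, `bet_map`.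
-/

set_option autoImplicit false

open Finset

namespace Pool.Agent.H4.FC

open Pool.Agent.H85.Fold Pool.Agent.H85.Fold2

private theorem IModEx_dot {O : Type} [CommRing O] (f : O →+* ℝ) (hf : Function.Injective f)
    {n m : ℕ} (x y : Fin n → O) (z w : Fin m → O)
    (h : (fun i => f (x i)) ⬝ᵥ (fun i => f (y i)) = (fun j => f (z j)) ⬝ᵥ fun j => f (w j)) :
    x ⬝ᵥ y = z ⬝ᵥ w := by
  apply hf
  rw [dotProduct, dotProduct, map_sum, map_sum]
  simp only [map_mul]
  exact h

/-- **Integer representations with exact twisted complexes.** -/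
theorem exists_imodL {V W : Type} [DecidableEq V] [Fintype V] [DecidableEq W] [Fintype W]
    (M : CoxeterMatrix V) (hM : IsDih M) (n : ℕ) (H : SimpleGraph W) (hH : IsFoldSphere H n)
    (φ : V → W) (hφ : Function.Injective φ)
    (hadj : ∀ u v, (gr M).Adj u v ↔ H.Adj (φ u) (φ v))
    {ν : V → ℕ} (hν : Function.Injective ν) (i : ℕ) (hi : n < 2 * i) :
    ∃ ρ : IModL M, Nonempty ρ.D ∧ ∀ (P : Type) [Group P] [Fintype P] (g : V → P), IsGen M g →
      YZ ℝ (gr M) univ (mc ℝ ρ.A) (fun v x => x * g v) ν i ≤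
        YB ℝ (gr M) univ (mc ℝ ρ.A) (fun v x => x * g v) ν i := by
  obtain ⟨hsph, k, P, Q, hf⟩ := hH
  obtain ⟨K, iK, iN, τ, P', Q', z, hf', hz⟩ := exists_intdata H P Q hf (ι := V × V)
    (fun uv => 2 * Real.cos (Real.pi / M uv.1 uv.2)) (fun uv => two_cos_integral _)
  obtain ⟨D, iD, dD, nD, w, a, hw⟩ := exists_fermi (FI V n k)
  obtain ⟨t₀, ht₀⟩ := bF_exact hw M hM H hsph (fun v i => τ (P' v i)) (fun v j => τ (Q' v j))
    hf' φ hφ hadj hν i hi
  obtain ⟨N, hN⟩ := exists_nat_ge t₀
  let f : NumberField.RingOfIntegers K →+* ℝ :=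
    τ.comp (algebraMap (NumberField.RingOfIntegers K) K)
  have hinj : Function.Injective f :=
    τ.injective.comp NumberField.RingOfIntegers.coe_injective
  have hfx : ∀ x : NumberField.RingOfIntegers K, f x = τ x := fun _ => rfl
  let c : V → V → NumberField.RingOfIntegers K := fun u v => z (u, v)
  have hcf : ∀ u v, f (c u v) = 2 * Real.cos (Real.pi / M u v) := fun u v => hz (u, v)
  have hc : ∀ u v, c u v = c v u := by
    intro u v
    apply hinj
    rw [hcf, hcf, M.symmetric]
  have hdot : ∀ u v, u = v ∨ H.Adj u v → P' u ⬝ᵥ P' v = Q' u ⬝ᵥ Q' v := fun u v huv =>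
    IModEx_dot f hinj _ _ _ _ (hf'.zero u v huv)
  let B : V → Matrix (D × D) (D × D) (NumberField.RingOfIntegers K) := fun v =>
    bF w a (fun v => P' (φ v)) (fun v => Q' (φ v)) (bet ν c)
      (N : NumberField.RingOfIntegers K) v
  have hrel : ∀ u v, (B u * B v) ^ M u v = 1 := by
    intro u v
    by_cases h0 : M u v = 0
    · rw [h0, pow_zero]
    · by_cases huv : u = v
      · subst huv
        rw [M.diagonal, pow_one]
        exact bF_sq hw ν c _ _ _ u (hdot _ _ (Or.inl rfl))
      · have hadj' : H.Adj (φ u) (φ v) := (hadj u v).1 ⟨huv, h0⟩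
        have h1 : M u v ≠ 1 := M.off_diagonal u v huv
        exact bF_pow hw f hinj hν hc _ _ _ huv (by omega) (hcf u v) (hdot _ _ (Or.inl rfl))
          (hdot _ _ (Or.inl rfl)) (hdot _ _ (Or.inr hadj'))
  obtain ⟨D', iD', dD', Φ, hΦ, hne, hex⟩ := restrict_scalarsL K (D × D)
  refine ⟨⟨D', iD', dD', fun v => Φ (B v), fun u v => ?_⟩, ?_, ?_⟩
  · rw [← map_mul, ← map_pow, hrel, map_one]
  · exact hne inferInstance
  · intro Γ _ _ g hg
    refine hex τ V (gr M) B univ ν i Γ (fun v x => x * g v) ?_
    have h2 : (fun v => (B v).map fun x : NumberField.RingOfIntegers K => τ (x : K)) =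
        bF w a (fun v i => τ (P' (φ v) i)) (fun v j => τ (Q' (φ v) j))
          (bet ν fun u v => 2 * Real.cos (Real.pi / M u v)) (N : ℝ) := by
      funext v
      have h3 := bF_map (w := w) (a := a) f (fun v => P' (φ v)) (fun v => Q' (φ v)) (bet ν c)
        (N : NumberField.RingOfIntegers K) v
      rw [map_natCast] at h3
      have h4 : (fun u v => f (bet ν c u v)) =
          bet ν fun u v => 2 * Real.cos (Real.pi / M u v) := by
        funext u v
        rw [bet_map]
        congr 1
        funext u v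
        exact hcf u v
      rw [h4] at h3
      exact h3
    rw [h2]
    exact ht₀ (N : ℝ) hN Γ g hg

end Pool.Agent.H4.FC
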