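import Pool.Agent.H4.FC.Par
import Pool.Agent.H4.FC.IModDefs

/-!
# Project FC: cliques are spherical in dihedral type

`finite_of_comm`: if `σ = σ₁ ∪ σ₂` and all `s_u`, `u ∈ σ₁`, commute with all `s_v`, `v ∈ σ₂`, then every element of
`par M σ` is a product `a b` with `a ∈ par M σ₁`, `b ∈ par M σ₂` (`par_induction`; elements of
`par M σ₂` commute with the generators of `par M σ₁`), so `par M σ` is finite if both are.
`par M ∅` is trivial, `par M {v} = {1, s_v}`. `par M {u, v}` with `m = M u v ≠ 0`: every element is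
`(s_u s_v)^j` or `(s_u s_v)^j s_u` with `j < m` (`par_induction`: the set of these elements for all integers
`j` is closed under left multiplication by `s_u` and `s_v`, as
`s_u (s_u s_v)^j = (s_v s_u)^(j-1) s_v = (s_u s_v)^(-(j-1)) s_v = (s_u s_v)^(-j) s_u`, and the powers
depend only on `j` modulo `m`).

`par_finite`: strong induction on `|σ|`. `σ = ∅`: clear. Let `v ∈ σ`. If `M v u = 2` for all `u ∈ σ`,
`u ≠ v`, use `σ₁ = {v}`, `σ₂ = σ.erase v` (`M v u = 2` means that `s_v`, `s_u` commute:
`(s_v s_u)² = 1`). Otherwise there is `u ∈ σ`, `u ≠ v`, `M v u ≠ 2`, and by `IsDih` all labels between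
`{u, v}` and `σ \ {u, v}` are `2`; use `σ₁ = {u, v}`, `σ₂ = σ \ {u, v}`.
-/

set_option autoImplicit false

open Finset

namespace Pool.Agent.H4.FC

open Pool.Agent.H85.Fold

variable {V : Type} [DecidableEq V]

omit [DecidableEq V] in
private theorem pf_rel (M : CoxeterMatrix V) (u v : V) :
    (M.simple u * M.simple v) ^ M u v = 1 := by
  have h := M.toCoxeterSystem.simple_mul_simple_pow u v
  rwa [M.toCoxeterSystem_simple] at h

omit [DecidableEq V] in
private theorem pf_comm_of_two (M : CoxeterMatrix V) {u v : V} (h : M u v = 2) :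
    M.simple u * M.simple v = M.simple v * M.simple u := by
  have h1 := pf_rel M u v
  rw [h, pow_two] at h1
  have h2 : M.simple u * M.simple v = (M.simple u * M.simple v)⁻¹ :=
    eq_inv_of_mul_eq_one_left h1
  rw [h2, mul_inv_rev, simple_inv, simple_inv]

omit [DecidableEq V] in
private theorem pf_fin {M : CoxeterMatrix V} {σ : Finset V} {A : Set M.Group} (hA : A.Finite)
    (h : ∀ w ∈ par M σ, w ∈ A) : Sph M σ :=
  (hA.subset h).to_subtype

omit [DecidableEq V] in
private theorem pf_set {M : CoxeterMatrix V} {σ : Finset V} (h : Sph M σ) :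
    (par M σ : Set M.Group).Finite := by
  have : Finite (par M σ) := h
  exact Set.toFinite _

omit [DecidableEq V] in
private theorem pf_empty (M : CoxeterMatrix V) : Sph M ∅ := by
  refine pf_fin (Set.finite_singleton (1 : M.Group)) ?_
  refine par_induction M ∅ rfl ?_
  intro v hv
  exact absurd hv (Finset.notMem_empty v)

omit [DecidableEq V] in
private theorem pf_single (M : CoxeterMatrix V) (v : V) : Sph M {v} := by
  refine pf_fin ((Set.finite_singleton (1 : M.Group)).union (Set.finite_singleton (M.simple v))) ?_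
  refine par_induction M {v} (Or.inl rfl) ?_
  intro u hu w hw
  rw [Finset.mem_singleton.mp hu]
  rcases hw with hw | hw
  · right
    rw [Set.mem_singleton_iff.mp hw, mul_one]
    exact rfl
  · left
    rw [Set.mem_singleton_iff.mp hw, simple_sq]
    exact rfl

private theorem pf_pair (M : CoxeterMatrix V) {u v : V} (h : M u v ≠ 0) : Sph M {u, v} := by
  obtain ⟨r, hr⟩ : ∃ r, r = M.simple u * M.simple v := ⟨_, rfl⟩
  have hfin : IsOfFinOrder r :=
    isOfFinOrder_iff_pow_eq_one.mpr ⟨M u v, Nat.pos_of_ne_zero h, by rw [hr]; exact pf_rel M u v⟩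
  have hz : (Subgroup.zpowers r : Set M.Group).Finite := finite_zpowers.mpr hfin
  have hcr : M.simple u * r * (M.simple u)⁻¹ = r⁻¹ := by
    rw [hr, simple_inv, mul_inv_rev, simple_inv, simple_inv, ← mul_assoc, simple_sq, one_mul]
  have hc : ∀ z ∈ Subgroup.zpowers r, M.simple u * z = z⁻¹ * M.simple u := by
    rintro z ⟨j, rfl⟩
    have h1 : M.simple u * r ^ j * (M.simple u)⁻¹ = (r ^ j)⁻¹ := by
      rw [← conj_zpow, hcr, inv_zpow]
    have h2 : M.simple u * r ^ j = (r ^ j)⁻¹ * M.simple u := by
      rw [← h1, inv_mul_cancel_right]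
    exact h2
  have hv : M.simple v = M.simple u * r := by
    rw [hr, ← mul_assoc, simple_sq, one_mul]
  refine pf_fin (hz.union (hz.image (fun z => z * M.simple u))) ?_
  refine par_induction M {u, v} (Or.inl (one_mem _)) ?_
  have hu : ∀ w, w ∈ (Subgroup.zpowers r : Set M.Group) ∪
      (fun z => z * M.simple u) '' (Subgroup.zpowers r : Set M.Group) →
      M.simple u * w ∈ (Subgroup.zpowers r : Set M.Group) ∪
      (fun z => z * M.simple u) '' (Subgroup.zpowers r : Set M.Group) := by
    rintro w (hw | ⟨z, hz, rfl⟩)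
    · right
      exact ⟨w⁻¹, inv_mem hw, (hc w hw).symm⟩
    · left
      show M.simple u * (z * M.simple u) ∈ Subgroup.zpowers r
      rw [← mul_assoc, hc z hz, mul_assoc, simple_sq, mul_one]
      exact inv_mem hz
  have hrm : ∀ w, w ∈ (Subgroup.zpowers r : Set M.Group) ∪
      (fun z => z * M.simple u) '' (Subgroup.zpowers r : Set M.Group) →
      r * w ∈ (Subgroup.zpowers r : Set M.Group) ∪
      (fun z => z * M.simple u) '' (Subgroup.zpowers r : Set M.Group) := by
    rintro w (hw | ⟨z, hz, rfl⟩)
    · left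
      exact mul_mem (Subgroup.mem_zpowers r) hw
    · right
      exact ⟨r * z, mul_mem (Subgroup.mem_zpowers r) hz, by
        show r * z * M.simple u = r * (z * M.simple u)
        rw [mul_assoc]⟩
  intro x hx w hw
  rcases Finset.mem_insert.mp hx with hx | hx
  · rw [hx]
    exact hu w hw
  · rw [Finset.mem_singleton.mp hx, hv, mul_assoc]
    exact hu _ (hrm w hw)

private theorem pf_union (M : CoxeterMatrix V) {σ₁ σ₂ : Finset V}
    (hc : ∀ u ∈ σ₁, ∀ v ∈ σ₂, M.simple u * M.simple v = M.simple v * M.simple u)
    (h1 : Sph M σ₁) (h2 : Sph M σ₂) : Sph M (σ₁ ∪ σ₂) := by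
  have k1 : ∀ b ∈ par M σ₂, ∀ u ∈ σ₁, M.simple u * b = b * M.simple u := by
    refine par_induction M σ₂ ?_ ?_
    · intro u _
      rw [mul_one, one_mul]
    · intro v hv w ih u hu
      rw [← mul_assoc, hc u hu v hv, mul_assoc, ih u hu, mul_assoc]
  have k2 : ∀ a ∈ par M σ₁, ∀ b ∈ par M σ₂, a * b = b * a := by
    refine par_induction M σ₁ ?_ ?_
    · intro b _
      rw [mul_one, one_mul]
    · intro u hu w ih b hb
      rw [mul_assoc, ih b hb, ← mul_assoc, k1 b hb u hu, mul_assoc]
  refine pf_fin (Set.Finite.image2 (fun a b => a * b) (pf_set h1) (pf_set h2)) ?_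
  refine par_induction M (σ₁ ∪ σ₂) ⟨1, one_mem _, 1, one_mem _, mul_one _⟩ ?_
  rintro v hv _ ⟨a, ha, b, hb, rfl⟩
  rcases Finset.mem_union.mp hv with hv | hv
  · exact ⟨M.simple v * a, mul_mem (simple_mem_par M hv) ha, b, hb, by
      show M.simple v * a * b = M.simple v * (a * b)
      rw [mul_assoc]⟩
  · refine ⟨a, ha, M.simple v * b, mul_mem (simple_mem_par M hv) hb, ?_⟩
    show a * (M.simple v * b) = M.simple v * (a * b)
    rw [← mul_assoc, k2 a ha _ (simple_mem_par M hv), mul_assoc]

theorem par_finite (M : CoxeterMatrix V) (hM : IsDih M) (σ : Finset V) (hσ : Cl (gr M) σ) :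
    Sph M σ := by
  induction hn : σ.card using Nat.strong_induction_on generalizing σ with
  | _ n ih =>
  rcases σ.eq_empty_or_nonempty with h0 | ⟨v, hv⟩
  · rw [h0]
    exact pf_empty M
  · by_cases hc : ∀ u ∈ σ, u ≠ v → M v u = 2
    · have e : σ = {v} ∪ σ.erase v := by
        ext x
        by_cases hx : x = v
        · simp [hx, hv]
        · simp [hx]
      rw [e]
      refine pf_union M ?_ (pf_single M v) ?_
      · intro u hu w hw
        rw [Finset.mem_singleton.mp hu]
        exact pf_comm_of_two M (hc w (Finset.mem_of_mem_erase hw) (Finset.ne_of_mem_erase hw))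
      · refine ih _ ?_ (σ.erase v) ?_ rfl
        · rw [← hn]
          exact Finset.card_erase_lt_of_mem hv
        · intro a ha b hb hab
          exact hσ a (Finset.mem_of_mem_erase ha) b (Finset.mem_of_mem_erase hb) hab
    · push Not at hc
      obtain ⟨u, hu, huv, h2⟩ := hc
      have e : σ = {v, u} ∪ σ \ {v, u} := by
        rw [Finset.union_sdiff_of_subset]
        intro x hx
        rcases Finset.mem_insert.mp hx with hx | hx
        · rw [hx]; exact hv
        · rw [Finset.mem_singleton.mp hx]; exact hu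
      rw [e]
      refine pf_union M ?_ (pf_pair M (hσ v hv u hu huv.symm).2) ?_
      · intro x hx y hy
        obtain ⟨hy1, hy2⟩ := Finset.mem_sdiff.mp hy
        rw [Finset.mem_insert, Finset.mem_singleton] at hy2
        push Not at hy2
        obtain ⟨hyv, hyu⟩ := hy2
        apply pf_comm_of_two M
        rcases Finset.mem_insert.mp hx with hx | hx
        · rw [hx]
          rcases hM u v y (hσ u hu v hv huv) (hσ v hv y hy1 hyv.symm)
            (hσ u hu y hy1 hyu.symm) with h | h
          · exfalso
            rw [M.symmetric] at h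
            exact h2 h
          · exact h
        · rw [Finset.mem_singleton.mp hx]
          rcases hM v u y (hσ v hv u hu huv.symm) (hσ u hu y hy1 hyu.symm)
            (hσ v hv y hy1 hyv.symm) with h | h
          · exact absurd h h2
          · exact h
      · refine ih _ ?_ (σ \ {v, u}) ?_ rfl
        · rw [← hn]
          refine Finset.card_lt_card ?_
          rw [Finset.ssubset_iff_of_subset Finset.sdiff_subset]
          exact ⟨v, hv, fun h => (Finset.mem_sdiff.mp h).2 (Finset.mem_insert_self _ _)⟩
        · intro a ha b hb hab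
          exact hσ a (Finset.mem_sdiff.mp ha).1 b (Finset.mem_sdiff.mp hb).1 hab

end Pool.Agent.H4.FC
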