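import Pool.Agent.H4.FC.Act

/-!
# Project FC: the projections `pe`

All statements are about two matrices `A`, `B` (`= J u`, `J v`) with `A * A = 1`, `B * B = 1`,
`(A * B) ^ m = -1`, `2 ≤ m`. Put `R = A * B`, so `R⁻¹ = B * A` (i.e. `R * (B * A) = 1`,
`(B * A) * R = 1`), `θ = π / m`, `c = 2 cos θ`, and
`prj m A B = (2 / m) ∑_{j<m} cos (j θ) R ^ j`. Proofs.

* `prj_rel`: `(R + R⁻¹) prj = c prj`. Multiply the sum by `R`: `∑_{j<m} cos (jθ) R^(j+1)
  = ∑_{j<m} cos ((j-1)θ) R^j` because the boundary terms `cos ((m-1)θ) R^m = (-cos θ)(-1) = cos θ`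
  (at `j = m`) and `cos (-θ) R^0 = cos θ` (at `j = 0`) agree. Similarly
  `∑_{j<m} cos (jθ) R^(j-1) = ∑_{j<m} cos ((j+1)θ) R^j` (here `R^(-1) = R⁻¹`; boundary terms: `j = 0`
  gives `R⁻¹`, and `cos (mθ) R^(m-1) = -R^(m-1) = R⁻¹` since `R^m = -1`). Add and use
  `cos ((j-1)θ) + cos ((j+1)θ) = 2 cos θ cos (jθ)`.
* `prj_fix`: if `(R + R⁻¹) Z = c Z` then `prj Z = Z`. By induction `(R^j + R⁻¹^j) Z = 2 cos (jθ) Z`
  (recursion `a_{j+1} = c a_j - a_{j-1}`). By `prj_symm` `prj` is also `(2/m) ∑ cos (jθ) R⁻¹^j`, so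
  `2 prj Z = (2/m) ∑_{j<m} cos (jθ) (R^j + R⁻¹^j) Z = (4/m) ∑_{j<m} cos² (jθ) Z = 2 Z`, because
  `∑_{j<m} cos² (jπ/m) = m/2` for `2 ≤ m` (`cos² x = (1 + cos 2x)/2`, and
  `∑_{j<m} cos (2πj/m) = 0`, e.g. multiply by `2 sin (π/m)` and telescope).
* `prj_symm`: `prj m A B = prj m B A`: `R⁻¹^j = -R^(m-j)` and `cos ((m-j)θ) = -cos (jθ)`, reindex
  `j ↦ m - j` on `1 ≤ j < m` (the term `j = 0` is the same).
* `prj_sq`: `prj_fix` for `Z = prj`, by `prj_rel`.
* `prj_comm_left`: `A R A = R⁻¹`, so `A R^j A = R⁻¹^j` and `A prj A = prj m B A = prj`. The same for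
  `B`.
* `prj_comm_anti`: if `C A = -A C`, `C B = -B C` then `C` commutes with `R`, hence with `prj`.
* `prj_two`: for `m = 2` the sum is `cos 0 • 1 + cos (π/2) • R = 1`.
* `prj_RB`: triangle inequality, `|cos| ≤ 1`, `RB.mul`, `RB.pow`, `RB.smul`, `RB.sum`; `κ ≥ 0`.
-/

set_option autoImplicit false

open Finset

namespace Pool.Agent.H4.FC

variable {N : Type} [Fintype N] [DecidableEq N]

/-- the projection of two matrices -/
noncomputable def prj (m : ℕ) (A B : Matrix N N ℝ) : Matrix N N ℝ :=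
  (2 / (m : ℝ)) • ∑ j ∈ range m, Real.cos (j * Real.pi / m) • (A * B) ^ j

theorem pe_eq {V : Type} (m : V → V → ℕ) (J : V → Matrix N N ℝ) (u v : V) :
    pe m J u v = prj (m u v) (J u) (J v) := rfl

variable {m : ℕ} {A B : Matrix N N ℝ}

private theorem prj_inv_left (hA : A * A = 1) (hB : B * B = 1) : (B * A) * (A * B) = 1 := by
  rw [Matrix.mul_assoc, ← Matrix.mul_assoc A A B, hA, Matrix.one_mul, hB]

private theorem prj_commute (hA : A * A = 1) (hB : B * B = 1) : Commute (A * B) (B * A) := by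
  unfold Commute SemiconjBy
  rw [prj_inv_left hA hB, prj_inv_left hB hA]

private theorem prj_pow_mul (hA : A * A = 1) (hB : B * B = 1) (j : ℕ) :
    (B * A) ^ j * (A * B) ^ j = 1 := by
  rw [← (prj_commute hA hB).symm.mul_pow, prj_inv_left hA hB, one_pow]

/-- the powers of the inverse -/
private theorem prj_pow_inv (hA : A * A = 1) (hB : B * B = 1) (h : (A * B) ^ m = -1) {j : ℕ}
    (hj : j ≤ m) : (A * B) ^ (m - j) = -(B * A) ^ j := by
  have h1 : (B * A) ^ j * (A * B) ^ m = -(B * A) ^ j := by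
    rw [h, mul_neg, mul_one]
  rw [← h1]
  have h2 : m = j + (m - j) := by omega
  conv_rhs => rw [h2, pow_add, ← mul_assoc, prj_pow_mul hA hB, one_mul]

theorem prj_symm (hA : A * A = 1) (hB : B * B = 1) (hm : 2 ≤ m) (h : (A * B) ^ m = -1) :
    prj m A B = prj m B A := by
  have hm0 : (m : ℝ) ≠ 0 := by
    have : 0 < m := by omega
    exact_mod_cast this.ne'
  obtain ⟨n, rfl⟩ : ∃ n, m = n + 1 := ⟨m - 1, by omega⟩
  unfold prj
  congr 1
  rw [sum_range_succ' _ n, sum_range_succ' _ n, ← sum_range_reflect _ n]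
  congr 1
  refine sum_congr rfl fun j hj => ?_
  rw [mem_range] at hj
  have e1 : n - 1 - j + 1 = (n + 1) - (j + 1) := by omega
  have hle : j + 1 ≤ n + 1 := by omega
  rw [e1]
  have h1 := prj_pow_inv hA hB h hle
  have h2 : Real.cos (((n + 1 - (j + 1) : ℕ) : ℝ) * Real.pi / ((n + 1 : ℕ) : ℝ)) =
      -Real.cos (((j + 1 : ℕ) : ℝ) * Real.pi / ((n + 1 : ℕ) : ℝ)) := by
    rw [Nat.cast_sub hle]
    rw [← Real.cos_pi_sub]
    congr 1
    field_simp
  rw [h2, h1, neg_smul, smul_neg, neg_neg]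

theorem prj_rel (hA : A * A = 1) (hB : B * B = 1) (hm : 2 ≤ m) (h : (A * B) ^ m = -1) :
    (A * B + B * A) * prj m A B = (2 * Real.cos (Real.pi / m)) • prj m A B := by
  have hm0 : (m : ℝ) ≠ 0 := by
    have : 0 < m := by omega
    exact_mod_cast this.ne'
  set θ : ℝ := Real.pi / m with hθ
  have hmθ : (m : ℝ) * θ = Real.pi := by rw [hθ]; field_simp
  have hc : ∀ j : ℕ, Real.cos (j * Real.pi / m) = Real.cos (j * θ) := by
    intro j
    congr 1
    rw [hθ]
    ring
  unfold prj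
  simp only [hc]
  rw [mul_smul_comm, smul_comm _ (2 / (m : ℝ))]
  congr 1
  set R := A * B with hR
  set Q := B * A with hQ
  have hQR : Q * R = 1 := prj_inv_left hA hB
  -- R times the sum
  have e1 : R * ∑ j ∈ range m, Real.cos (j * θ) • R ^ j =
      ∑ j ∈ range m, Real.cos (((j : ℝ) - 1) * θ) • R ^ j := by
    have h1 : R * ∑ j ∈ range m, Real.cos (j * θ) • R ^ j =
        ∑ j ∈ range m, Real.cos ((((j + 1 : ℕ) : ℝ) - 1) * θ) • R ^ (j + 1) := by
      rw [mul_sum]
      refine sum_congr rfl fun j _ => ?_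
      rw [mul_smul_comm, ← pow_succ']
      congr 2
      push_cast
      ring
    have h2 := sum_range_succ' (fun j : ℕ => Real.cos (((j : ℝ) - 1) * θ) • R ^ j) m
    have h3 := sum_range_succ (fun j : ℕ => Real.cos (((j : ℝ) - 1) * θ) • R ^ j) m
    have h4 : Real.cos (((m : ℝ) - 1) * θ) • R ^ m = Real.cos θ • (1 : Matrix N N ℝ) := by
      rw [h, sub_mul, hmθ, one_mul, Real.cos_pi_sub, smul_neg, neg_smul, neg_neg]
    have h5 : Real.cos ((((0 : ℕ) : ℝ) - 1) * θ) • R ^ 0 = Real.cos θ • (1 : Matrix N N ℝ) := by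
      rw [pow_zero]
      congr 1
      rw [← Real.cos_neg]
      congr 1
      push_cast
      ring
    rw [h5] at h2
    rw [h4] at h3
    rw [h1]
    exact add_right_cancel (h2.symm.trans h3)
  have e2 : Q * ∑ j ∈ range m, Real.cos (j * θ) • R ^ j =
      ∑ j ∈ range m, Real.cos (((j : ℝ) + 1) * θ) • R ^ j := by
    have h1 : Q * ∑ j ∈ range m, Real.cos (j * θ) • R ^ j =
        ∑ j ∈ range m, Real.cos (j * θ) • (Q * R ^ j) := by
      rw [mul_sum]
      exact sum_congr rfl fun j _ => mul_smul_comm _ _ _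
    have h2 := sum_range_succ' (fun j : ℕ => Real.cos ((j : ℝ) * θ) • (Q * R ^ j)) m
    have h3 := sum_range_succ (fun j : ℕ => Real.cos ((j : ℝ) * θ) • (Q * R ^ j)) m
    have h4 : Real.cos ((m : ℝ) * θ) • (Q * R ^ m) = Q := by
      rw [h, hmθ, Real.cos_pi, mul_neg, mul_one, smul_neg, neg_smul, neg_neg, one_smul]
    have h5 : Real.cos (((0 : ℕ) : ℝ) * θ) • (Q * R ^ 0) = Q := by
      rw [pow_zero, mul_one, Nat.cast_zero, zero_mul, Real.cos_zero, one_smul]
    rw [h5] at h2
    rw [h4] at h3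
    rw [h1]
    refine (add_right_cancel (h2.symm.trans h3)).symm.trans ?_
    refine sum_congr rfl fun j _ => ?_
    rw [pow_succ', ← mul_assoc, hQR, one_mul]
    push_cast
    rfl
  rw [add_mul, e1, e2, ← sum_add_distrib, smul_sum]
  refine sum_congr rfl fun j _ => ?_
  rw [← add_smul, smul_smul]
  congr 1
  rw [sub_mul, add_mul, one_mul, Real.cos_sub, Real.cos_add]
  ring

private theorem prj_sum_cos_sq {m : ℕ} (hm : 2 ≤ m) :
    ∑ j ∈ range m, Real.cos (j * (Real.pi / m)) ^ 2 = m / 2 := by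
  have hm0 : (0 : ℝ) < m := by exact_mod_cast (by omega : 0 < m)
  set θ : ℝ := Real.pi / m with hθ
  have hmθ : (m : ℝ) * θ = Real.pi := by rw [hθ]; field_simp
  have hθ0 : 0 < θ := by rw [hθ]; positivity
  have hθπ : θ < Real.pi := by
    rw [hθ, div_lt_iff₀ hm0]
    have : (2 : ℝ) ≤ m := by exact_mod_cast hm
    nlinarith [Real.pi_pos]
  have hsin : 0 < Real.sin θ := Real.sin_pos_of_pos_of_lt_pi hθ0 hθπ
  have h1 : (2 * Real.sin θ) * ∑ j ∈ range m, Real.cos (2 * (j * θ)) = 0 := by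
    rw [mul_sum]
    have h2 : ∀ j : ℕ, 2 * Real.sin θ * Real.cos (2 * (j * θ)) =
        Real.sin ((2 * ((j + 1 : ℕ) : ℝ) - 1) * θ) - Real.sin ((2 * (j : ℝ) - 1) * θ) := by
      intro j
      have e1 : (2 * ((j + 1 : ℕ) : ℝ) - 1) * θ = 2 * (j * θ) + θ := by push_cast; ring
      have e2 : (2 * (j : ℝ) - 1) * θ = 2 * (j * θ) - θ := by ring
      rw [e1, e2, Real.sin_add, Real.sin_sub]
      ring
    simp only [h2]
    rw [sum_range_sub (fun j : ℕ => Real.sin ((2 * (j : ℝ) - 1) * θ))]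
    have e1 : (2 * (m : ℝ) - 1) * θ = 2 * Real.pi - θ := by rw [← hmθ]; ring
    have e2 : (2 * ((0 : ℕ) : ℝ) - 1) * θ = -θ := by push_cast; ring
    rw [e1, e2, Real.sin_two_pi_sub, Real.sin_neg]
    ring
  have h2 : ∑ j ∈ range m, Real.cos (2 * (j * θ)) = 0 := by
    rcases mul_eq_zero.1 h1 with h | h
    · exact absurd h (by positivity)
    · exact h
  have h3 : ∀ j : ℕ, Real.cos (j * θ) ^ 2 = 1 / 2 + Real.cos (2 * (j * θ)) / 2 := by
    intro j
    rw [Real.cos_sq]
  simp only [h3]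
  rw [sum_add_distrib, sum_const, card_range, nsmul_eq_mul,
    ← sum_div (range m) (fun j : ℕ => Real.cos (2 * (j * θ))) 2, h2]
  ring

theorem prj_fix (hA : A * A = 1) (hB : B * B = 1) (hm : 2 ≤ m) (h : (A * B) ^ m = -1)
    {X : Type} [AddCommGroup X] [Module ℝ X] (z : N → X)
    (hz : actL (A * B + B * A) z = (2 * Real.cos (Real.pi / m)) • z) :
    actL (prj m A B) z = z := by
  have hm0 : (m : ℝ) ≠ 0 := by
    have : 0 < m := by omega
    exact_mod_cast this.ne'
  set θ : ℝ := Real.pi / m with hθ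
  have hc : ∀ j : ℕ, Real.cos (j * Real.pi / m) = Real.cos (j * θ) := by
    intro j
    congr 1
    rw [hθ]
    ring
  have hs : ∀ j : ℕ, actL ((A * B) ^ j + (B * A) ^ j) z = (2 * Real.cos (j * θ)) • z := by
    intro j
    induction j using Nat.twoStepInduction with
    | zero =>
      rw [pow_zero, pow_zero, actL_add, actL_one, Nat.cast_zero, zero_mul, Real.cos_zero, mul_one,
        two_smul]
    | one => rw [pow_one, pow_one, Nat.cast_one, one_mul]; exact hz
    | more j ih1 ih2 =>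
      have h1 : (A * B) ^ (j + 2) + (B * A) ^ (j + 2) =
          (A * B + B * A) * ((A * B) ^ (j + 1) + (B * A) ^ (j + 1)) - ((A * B) ^ j + (B * A) ^ j) := by
        have h2 : (A * B) * (B * A) ^ (j + 1) = (B * A) ^ j := by
          rw [pow_succ', ← mul_assoc, prj_inv_left hB hA, one_mul]
        have h3 : (B * A) * (A * B) ^ (j + 1) = (A * B) ^ j := by
          rw [pow_succ', ← mul_assoc, prj_inv_left hA hB, one_mul]
        rw [add_mul, mul_add, mul_add, h2, h3, ← pow_succ', ← pow_succ']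
        abel
      rw [h1, actL_sub, actL_mul, ih1, ih2, map_smul, hz, smul_smul, ← sub_smul]
      congr 1
      push_cast
      have h4 : ((j : ℝ) + 2) * θ = (j + 1) * θ + θ := by ring
      have h5 : (j : ℝ) * θ = (j + 1) * θ - θ := by ring
      rw [h4, h5, Real.cos_add, Real.cos_sub]
      ring
  have hsum : ∑ j ∈ range m, Real.cos (j * θ) ^ 2 = m / 2 := prj_sum_cos_sq hm
  have h2 : (2 : ℝ) • actL (prj m A B) z = (2 : ℝ) • z := by
    have h3 : (2 : ℝ) • prj m A B = prj m A B + prj m B A := by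
      rw [← prj_symm hA hB hm h, two_smul]
    rw [← actL_smul, h3]
    unfold prj
    rw [← smul_add, ← sum_add_distrib, actL_smul]
    have h4 : actL (∑ j ∈ range m, (Real.cos (j * Real.pi / m) • (A * B) ^ j +
        Real.cos (j * Real.pi / m) • (B * A) ^ j)) z = (m : ℝ) • z := by
      have h5 : ∀ s : Finset ℕ, actL (∑ j ∈ s, (Real.cos (j * Real.pi / m) • (A * B) ^ j +
        Real.cos (j * Real.pi / m) • (B * A) ^ j)) z =
          ∑ j ∈ s, (2 * Real.cos (j * θ) ^ 2) • z := by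
        intro s
        classical
        induction s using Finset.induction_on with
        | empty =>
          rw [sum_empty, sum_empty]
          funext ω
          rw [actL_apply]
          simp
        | insert a s ha ih =>
          rw [sum_insert ha, sum_insert ha, actL_add, ih, ← smul_add, actL_smul, hs, hc, smul_smul]
          congr 2
          ring
      rw [h5, ← sum_smul, ← mul_sum, hsum]
      congr 1
      ring
    rw [h4, smul_smul]
    congr 1
    field_simp
  have h3 := congrArg (fun y => (2 : ℝ)⁻¹ • y) h2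
  simpa [smul_smul] using h3

theorem prj_sq (hA : A * A = 1) (hB : B * B = 1) (hm : 2 ≤ m) (h : (A * B) ^ m = -1) :
    prj m A B * prj m A B = prj m A B := by
  have key : ∀ J K : Matrix N N ℝ, actL J (fun ω k => K ω k) = fun ω k => (J * K) ω k := by
    intro J K
    funext ω k
    rw [actL_apply, Finset.sum_apply, Matrix.mul_apply]
    rfl
  have h1 := prj_fix hA hB hm h (X := N → ℝ) (fun ω k => prj m A B ω k) (by
    rw [key, prj_rel hA hB hm h]
    rfl)
  rw [key] at h1
  ext ω k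
  exact congrFun (congrFun h1 ω) k

theorem prj_comm_left (hA : A * A = 1) (hB : B * B = 1) (hm : 2 ≤ m) (h : (A * B) ^ m = -1) :
    A * prj m A B = prj m A B * A := by
  have h1 : A * prj m A B = prj m B A * A := by
    unfold prj
    rw [mul_smul_comm, smul_mul_assoc, mul_sum, sum_mul]
    congr 1
    refine sum_congr rfl fun j _ => ?_
    rw [mul_smul_comm, smul_mul_assoc]
    congr 1
    have h2 : SemiconjBy A (A * B) (B * A) := by
      unfold SemiconjBy
      rw [← mul_assoc, hA, one_mul, mul_assoc, hA, mul_one]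
    exact h2.pow_right j
  rw [h1, ← prj_symm hA hB hm h]

theorem prj_comm_right (hA : A * A = 1) (hB : B * B = 1) (hm : 2 ≤ m) (h : (A * B) ^ m = -1) :
    B * prj m A B = prj m A B * B := by
  have h1 : B * prj m A B = prj m B A * B := by
    unfold prj
    rw [mul_smul_comm, smul_mul_assoc, mul_sum, sum_mul]
    congr 1
    refine sum_congr rfl fun j _ => ?_
    rw [mul_smul_comm, smul_mul_assoc]
    congr 1
    have h2 : SemiconjBy B (A * B) (B * A) := by
      unfold SemiconjBy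
      rw [mul_assoc]
    exact h2.pow_right j
  rw [h1, ← prj_symm hA hB hm h]

private theorem prj_commute_of {C : Matrix N N ℝ} (hC : C * (A * B) = A * B * C) :
    C * prj m A B = prj m A B * C := by
  unfold prj
  rw [mul_smul_comm, smul_mul_assoc, mul_sum, sum_mul]
  congr 1
  refine sum_congr rfl fun j _ => ?_
  rw [mul_smul_comm, smul_mul_assoc]
  congr 1
  have h2 : SemiconjBy C (A * B) (A * B) := hC
  exact h2.pow_right j

theorem prj_comm_anti {C : Matrix N N ℝ} (hCA : C * A = -(A * C)) (hCB : C * B = -(B * C)) :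
    C * prj m A B = prj m A B * C := by
  refine prj_commute_of ?_
  rw [← mul_assoc, hCA, neg_mul, mul_assoc, hCB, mul_neg, neg_neg, ← mul_assoc]

/-- matrices which commute with `A` and `B` commute with the projection -/
theorem prj_comm_of {C : Matrix N N ℝ} (hCA : C * A = A * C) (hCB : C * B = B * C) :
    C * prj m A B = prj m A B * C := by
  refine prj_commute_of ?_
  rw [← mul_assoc, hCA, mul_assoc, hCB, ← mul_assoc]

theorem prj_two (A B : Matrix N N ℝ) : prj 2 A B = 1 := by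
  unfold prj
  rw [sum_range_succ, sum_range_one]
  simp

/-- a bound for the rows of the projections -/
noncomputable def kpe (κ : ℝ) (m : ℕ) : ℝ := |2 / (m : ℝ)| * ∑ j ∈ range m, (κ * κ) ^ j

theorem kpe_nonneg {κ : ℝ} (hκ : 0 ≤ κ) (m : ℕ) : 0 ≤ kpe κ m := by
  unfold kpe
  exact mul_nonneg (abs_nonneg _) (sum_nonneg fun j _ => pow_nonneg (mul_nonneg hκ hκ) j)

theorem prj_RB {κ : ℝ} (hκ : 0 ≤ κ) (hA : RB κ A) (hB : RB κ B) : RB (kpe κ m) (prj m A B) := by
  unfold prj kpe
  refine RB.smul ?_ _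
  refine RB.sum _ fun j _ => ?_
  have h1 : RB ((κ * κ) ^ j) ((A * B) ^ j) := RB.pow (mul_nonneg hκ hκ) (RB.mul hκ hA hB) j
  refine RB.mono ?_ (RB.smul h1 _)
  have h2 : |Real.cos (j * Real.pi / m)| ≤ 1 := Real.abs_cos_le_one _
  have h3 : 0 ≤ (κ * κ) ^ j := pow_nonneg (mul_nonneg hκ hκ) j
  nlinarith

end Pool.Agent.H4.FC
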