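import Pool.Agent.H4.FC.Proj

/-!
# Project FC: the projections of the edges of a clique commute

`J` is a representation (`IsRep G m κ J`) and `m` are labels of dihedral type (`IsLab G m`).

Proofs.
* `IsRep.anti`: if `G.Adj u v` and `m u v = 2` then `J u J v J u J v = -1`, so `J u J v = -J v J u`.
* `pe_comm_J`: for pairwise different or equal `u`, `v`, `w` in a clique with `u ≠ v`. If `w = u` or
  `w = v` use `prj_comm_left`, `prj_comm_right`. Otherwise `u v w` is a triangle. If `m u v = 2` then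
  `pe m J u v = 1` (`prj_two`). If `m u v ≠ 2` then by `IsLab.dih` (for `u v w`) `m v w = 2` and (for
  `v u w`, with `symm`) `m u w = 2`, so `J w` anticommutes with `J u` and `J v`: `prj_comm_anti`.
* `pe_comm_pe`: `pe m J w z` is a polynomial in `J w J z`; use `prj_comm_of` with `C = pe m J u v`.
-/

set_option autoImplicit false

open Finset

namespace Pool.Agent.H4.FC

open Pool.Agent.H85.Fold

variable {V N : Type} [Fintype N] [DecidableEq N] {G : SimpleGraph V} {m : V → V → ℕ} {κ : ℝ}
  {J : V → Matrix N N ℝ}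

theorem IsRep.anti (h : IsRep G m κ J) {u v : V} (huv : G.Adj u v) (h2 : m u v = 2) :
    J u * J v = -(J v * J u) := by
  have h1 := h.rel u v huv
  rw [h2, pow_two] at h1
  have hu := h.sq u
  have hv := h.sq v
  have h3 : J v * J u = J u * (J u * J v * (J u * J v)) * J v := by
    calc J v * J u = 1 * (J v * J u) * 1 := by rw [one_mul, mul_one]
      _ = (J u * J u) * (J v * J u) * (J v * J v) := by rw [hu, hv]
      _ = J u * (J u * J v * (J u * J v)) * J v := by noncomm_ring
  rw [h3, h1]
  noncomm_ring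

theorem pe_symm (hL : IsLab G m) (h : IsRep G m κ J) {u v : V} (huv : G.Adj u v) :
    pe m J u v = pe m J v u := by
  rw [pe_eq, pe_eq, ← hL.symm u v]
  exact prj_symm (h.sq u) (h.sq v) (hL.two u v huv) (h.rel u v huv)

theorem pe_sq (hL : IsLab G m) (h : IsRep G m κ J) {u v : V} (huv : G.Adj u v) :
    pe m J u v * pe m J u v = pe m J u v := by
  rw [pe_eq]
  exact prj_sq (h.sq u) (h.sq v) (hL.two u v huv) (h.rel u v huv)

theorem pe_comm_J (hL : IsLab G m) (h : IsRep G m κ J) {σ : Finset V} (hσ : Cl G σ) {u v w : V}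
    (hu : u ∈ σ) (hv : v ∈ σ) (hw : w ∈ σ) (huv : u ≠ v) :
    J w * pe m J u v = pe m J u v * J w := by
  have auv : G.Adj u v := hσ u hu v hv huv
  rw [pe_eq]
  by_cases hwu : w = u
  · subst hwu
    exact prj_comm_left (h.sq w) (h.sq v) (hL.two w v auv) (h.rel w v auv)
  by_cases hwv : w = v
  · subst hwv
    exact prj_comm_right (h.sq u) (h.sq w) (hL.two u w auv) (h.rel u w auv)
  have auw : G.Adj u w := hσ u hu w hw (fun h => hwu h.symm)
  have avw : G.Adj v w := hσ v hv w hw (fun h => hwv h.symm)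
  by_cases h2 : m u v = 2
  · rw [h2, prj_two, mul_one, one_mul]
  · have h3 : m v w = 2 := (hL.dih u v w auv avw auw).resolve_left h2
    have h4 : m u w = 2 :=
      (hL.dih v u w auv.symm auw avw).resolve_left (fun h5 => h2 ((hL.symm u v).trans h5))
    have h5 := h.anti auw h4
    have h6 := h.anti avw h3
    exact prj_comm_anti (by rw [h5, neg_neg]) (by rw [h6, neg_neg])

theorem pe_comm_pe (hL : IsLab G m) (h : IsRep G m κ J) {σ : Finset V} (hσ : Cl G σ)
    {u v w z : V} (hu : u ∈ σ) (hv : v ∈ σ) (hw : w ∈ σ) (hz : z ∈ σ) (huv : u ≠ v) :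
    pe m J u v * pe m J w z = pe m J w z * pe m J u v := by
  rw [pe_eq m J w z]
  exact prj_comm_of (pe_comm_J hL h hσ hu hv hw huv).symm (pe_comm_J hL h hσ hu hv hz huv).symm

theorem pe_RB (h : IsRep G m κ J) (hκ : 0 ≤ κ) (u v : V) :
    RB (kpe κ (m u v)) (pe m J u v) := by
  rw [pe_eq]
  exact prj_RB hκ (h.bound u) (h.bound v)

end Pool.Agent.H4.FC
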