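import Pool.Agent.H4.FC.BRel

/-!
# Project FC: powers

`rot_pow`: `X Y = Y X = 1`, `X + Y = c`, `c = 2 cos θ`, `θ = π / m`: by induction
`sin θ • X ^ j = sin (j θ) • X - sin ((j - 1) θ) • 1` (multiply by `X` and use `X² = c X - 1` and
`sin ((j+1) θ) = c sin (j θ) - sin ((j-1) θ)`). For `j = m`: `sin θ • X ^ m = -sin ((m-1) θ) = -sin θ`,
and `sin θ ≠ 0`.

`aF_pow`: over a ring `R` with an injective ring homomorphism `τ` to `ℝ` and elements `c u v` with
`τ (c u v) = 2 cos (π / m)`, `β = bet ν c`: the map of matrices induced by `τ` is an injective ring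
homomorphism; use `aF_map`, `bet_map` and `rot_pow` over `ℝ` with `X = aF u * aF v`,
`Y = aF v * aF u` (`aF_sq`, `aF_anti`, `bet_add`).

`bF_pow`: `Matrix.mul_kronecker_mul`: the Kronecker product of `X ^ m = -1` with `X' ^ m = -1` is `1`.
`bF_sq` likewise.
-/

set_option autoImplicit false

open Finset

namespace Pool.Agent.H4.FC

theorem rot_pow {A : Type} [Ring A] [Algebra ℝ A] {X Y : A} (hXY : X * Y = 1)
    (hYX : Y * X = 1) {m : ℕ} (hm : 2 ≤ m)
    (hc : X + Y = (2 * Real.cos (Real.pi / m)) • (1 : A)) : X ^ m = -1 := by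
  set θ : ℝ := Real.pi / m with hθ
  have hm0 : (0 : ℝ) < m := by
    have : 0 < m := by omega
    exact_mod_cast this
  have hm2 : (2 : ℝ) ≤ m := by exact_mod_cast hm
  have hθ0 : 0 < θ := div_pos Real.pi_pos hm0
  have hθ1 : θ < Real.pi := by
    rw [hθ, div_lt_iff₀ hm0]
    nlinarith [Real.pi_pos]
  have hs : 0 < Real.sin θ := Real.sin_pos_of_pos_of_lt_pi hθ0 hθ1
  have hsq : X * X = (2 * Real.cos θ) • X - 1 := by
    have h1 : X * (X + Y) = (2 * Real.cos θ) • X := by
      rw [hc, mul_smul_comm, mul_one]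
    rw [mul_add, hXY] at h1
    rw [← h1, add_sub_cancel_right]
  have key : ∀ j : ℕ, Real.sin θ • X ^ j =
      Real.sin (j * θ) • X - Real.sin (j * θ - θ) • (1 : A) := by
    intro j
    induction j with
    | zero => simp
    | succ j ih =>
      rw [pow_succ, ← smul_mul_assoc, ih, sub_mul, smul_mul_assoc, smul_mul_assoc, one_mul, hsq,
        smul_sub, smul_smul]
      have e1 : Real.sin (((j + 1 : ℕ) : ℝ) * θ) =
          Real.sin (j * θ) * (2 * Real.cos θ) - Real.sin (j * θ - θ) := by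
        have : ((j + 1 : ℕ) : ℝ) * θ = j * θ + θ := by
          push_cast
          ring
        rw [this, Real.sin_add, Real.sin_sub]
        ring
      have e2 : ((j + 1 : ℕ) : ℝ) * θ - θ = j * θ := by
        push_cast
        ring
      rw [e1, e2, sub_smul]
      abel
  have h := key m
  have h1 : (m : ℝ) * θ = Real.pi := by
    rw [hθ]
    field_simp
  rw [h1, Real.sin_pi, zero_smul, zero_sub, Real.sin_pi_sub, ← smul_neg] at h
  exact smul_right_injective A hs.ne' h

variable {V D : Type} [Fintype V] [DecidableEq V] [Fintype D] [DecidableEq D] {n k : ℕ}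
  {w a : FI V n k → Matrix D D ℤ} {R : Type} [CommRing R]

omit [Fintype V] [DecidableEq V] [Fintype D] [DecidableEq D] in
private lemma dot_map (τ : R →+* ℝ) {r s : ℕ} {x y : Fin r → R} {x' y' : Fin s → R}
    (h : x ⬝ᵥ y = x' ⬝ᵥ y') :
    (fun i => τ (x i)) ⬝ᵥ (fun i => τ (y i)) = (fun i => τ (x' i)) ⬝ᵥ (fun i => τ (y' i)) := by
  have h1 := congrArg τ h
  simpa only [dotProduct, map_sum, map_mul] using h1

omit [Fintype V] [DecidableEq V] in
private lemma kron_pow (A B : Matrix D D R) (m : ℕ) :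
    (Matrix.kroneckerMap (· * ·) A B) ^ m = Matrix.kroneckerMap (· * ·) (A ^ m) (B ^ m) := by
  induction m with
  | zero =>
    rw [pow_zero, pow_zero, pow_zero]
    exact Matrix.one_kronecker_one.symm
  | succ m ih =>
    rw [pow_succ, pow_succ, pow_succ, ih]
    exact (Matrix.mul_kronecker_mul _ _ _ _).symm

theorem aF_pow (h : IsFermi w a) (τ : R →+* ℝ) (hτ : Function.Injective τ) {ν : V → ℕ}
    (hν : Function.Injective ν) {c : V → V → R} (hc : ∀ u v, c u v = c v u)
    (p : V → Fin n → R) (q : V → Fin k → R) (t : R) {u v : V} (huv : u ≠ v) {m : ℕ}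
    (hm : 2 ≤ m) (hcm : τ (c u v) = 2 * Real.cos (Real.pi / m))
    (hu : p u ⬝ᵥ p u = q u ⬝ᵥ q u) (hv : p v ⬝ᵥ p v = q v ⬝ᵥ q v)
    (hpq : p u ⬝ᵥ p v = q u ⬝ᵥ q v) :
    (aF w a p q (bet ν c) t u * aF w a p q (bet ν c) t v) ^ m = -1 := by
  have hinj : Function.Injective (τ.mapMatrix : Matrix D D R →+* Matrix D D ℝ) := by
    intro A B hAB
    ext i j
    exact hτ (congrFun (congrFun hAB i) j)
  apply hinj
  rw [map_pow, map_mul, map_neg, map_one]
  have hau : τ.mapMatrix (aF w a p q (bet ν c) t u) =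
      aF w a (fun v i => τ (p v i)) (fun v j => τ (q v j)) (bet ν fun u v => τ (c u v)) (τ t) u := by
    have h1 := aF_map (w := w) (a := a) τ p q (bet ν c) t u
    simp only [bet_map] at h1
    exact h1
  have hav : τ.mapMatrix (aF w a p q (bet ν c) t v) =
      aF w a (fun v i => τ (p v i)) (fun v j => τ (q v j)) (bet ν fun u v => τ (c u v)) (τ t) v := by
    have h1 := aF_map (w := w) (a := a) τ p q (bet ν c) t v
    simp only [bet_map] at h1
    exact h1
  rw [hau, hav]
  have h2u := aF_sq h (fun v i => τ (p v i)) (fun v j => τ (q v j)) (bet ν fun u v => τ (c u v))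
    (τ t) u (dot_map τ hu) (bet_self _ _ _)
  have h2v := aF_sq h (fun v i => τ (p v i)) (fun v j => τ (q v j)) (bet ν fun u v => τ (c u v))
    (τ t) v (dot_map τ hv) (bet_self _ _ _)
  have h3 := aF_anti h (fun v i => τ (p v i)) (fun v j => τ (q v j)) (bet ν fun u v => τ (c u v))
    (τ t) u v (dot_map τ hpq)
  rw [bet_add hν (fun u v => by rw [hc u v]) huv, hcm] at h3
  generalize aF w a (fun v i => τ (p v i)) (fun v j => τ (q v j)) (bet ν fun u v => τ (c u v))
    (τ t) u = U at *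
  generalize aF w a (fun v i => τ (p v i)) (fun v j => τ (q v j)) (bet ν fun u v => τ (c u v))
    (τ t) v = W at *
  refine rot_pow (Y := W * U) ?_ ?_ hm h3
  · rw [mul_assoc, ← mul_assoc W W U, h2v, one_mul, h2u]
  · rw [mul_assoc, ← mul_assoc U U W, h2u, one_mul, h2v]

theorem bF_sq (h : IsFermi w a) (ν : V → ℕ) (c : V → V → R)
    (p : V → Fin n → R) (q : V → Fin k → R) (t : R) (v : V)
    (hv : p v ⬝ᵥ p v = q v ⬝ᵥ q v) :
    bF w a p q (bet ν c) t v * bF w a p q (bet ν c) t v = 1 := by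
  unfold bF
  have h1 := aF_sq h p q (bet ν c) t v hv (bet_self _ _ _)
  have h2 := aF_sq h p q (bet ν c) 0 v hv (bet_self _ _ _)
  have h3 := Matrix.mul_kronecker_mul (aF w a p q (bet ν c) t v) (aF w a p q (bet ν c) t v)
    (aF w a p q (bet ν c) 0 v) (aF w a p q (bet ν c) 0 v)
  rw [h1, h2] at h3
  rw [← h3]
  exact Matrix.one_kronecker_one

theorem bF_pow (h : IsFermi w a) (τ : R →+* ℝ) (hτ : Function.Injective τ) {ν : V → ℕ}
    (hν : Function.Injective ν) {c : V → V → R} (hc : ∀ u v, c u v = c v u)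
    (p : V → Fin n → R) (q : V → Fin k → R) (t : R) {u v : V} (huv : u ≠ v) {m : ℕ}
    (hm : 2 ≤ m) (hcm : τ (c u v) = 2 * Real.cos (Real.pi / m))
    (hu : p u ⬝ᵥ p u = q u ⬝ᵥ q u) (hv : p v ⬝ᵥ p v = q v ⬝ᵥ q v)
    (hpq : p u ⬝ᵥ p v = q u ⬝ᵥ q v) :
    (bF w a p q (bet ν c) t u * bF w a p q (bet ν c) t v) ^ m = 1 := by
  unfold bF
  have h1 := aF_pow h τ hτ hν hc p q t huv hm hcm hu hv hpq
  have h2 := aF_pow h τ hτ hν hc p q 0 huv hm hcm hu hv hpq
  have h3 := Matrix.mul_kronecker_mul (aF w a p q (bet ν c) t u) (aF w a p q (bet ν c) t v)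
    (aF w a p q (bet ν c) 0 u) (aF w a p q (bet ν c) 0 v)
  rw [← h3]
  refine (kron_pow _ _ m).trans ?_
  rw [h1, h2]
  ext ⟨i, i'⟩ ⟨j, j'⟩
  simp only [Matrix.kroneckerMap_apply, Matrix.neg_apply, neg_mul_neg, Matrix.one_apply,
    Prod.mk.injEq, mul_ite, mul_one, mul_zero]
  by_cases hi : i = j
  · by_cases hj : i' = j'
    · simp [hi, hj]
    · simp [hj]
  · simp [hi]

end Pool.Agent.H4.FC
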