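import Pool.Agent.H4.FC.ExactL
import Pool.Agent.H4.FC.HVSys
import Pool.Agent.H4.FC.EmbedL
import Pool.Agent.H4.FC.RotPow
import Pool.Agent.H4.FC.IModDefs
import Pool.Agent.H85.Fold2.RealFold

/-!
# Project FC: real exactness for Coxeter groups

Setting: `M` of dihedral type, `G = gr M`, `φ` a full embedding of `G` into `H`, a homology sphere with
folding vectors `P : W → ℝ^n`, `Q : W → ℝ^k`; `p v = P (φ v)`, `q v = Q (φ v)`; fermions `w`, `a` (index set
`FI V n k`); `c u v = 2 cos (π / M u v)`, `β = bet ν c`.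

Operators on `X = D → ℝ` (sup norm): `e v = Matrix.toLin' (eF w a p q v)`,
`g v = toLin' (gF w a β v)`, `γ = toLin' (cF w a ℝ)`. Compare `Pool.Agent.H85.Fold2.RealFold`, whose private
lemmas may be copied.

(1) `isPertL_F`: `IsPertL G (fun u v => M u v) e g γ` from `BRel`.
(2) `IsClMod` for the dot product, `γ_i = toLin' (w_i + a_i)` (symmetric, square `1`),
`η_j = toLin' (w_j - a_j)` (antisymmetric, square `-1`), `i`, `j` in the first part of the index set. For the
operators `ev γ η P Q x`, `x : W`, of the vectors of `W`: `ev γ η P Q (φ v) = e v`.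
(3) `hvr_fold` for `H`, `ν'` from `exists_nu` (in `Pool.Agent.H85.Fold2.Embed`), then `hvr_embed`:
`HVr ν G e ⊤ univ τ i` for `n + |τ| < 2 i`. `Lift G e` from `lift_fold` for `H` (images of cliques are
cliques; `v ∉ σ` implies `φ v ∉ σ.image φ`).
(4) `IsLab G (fun u v => M u v)`: `two`: `u ≠ v` and `M u v ≠ 0`, `M u v ≠ 1` (`M.off_diagonal`).
(5) For a finite group `Γ` with `IsGen M s` let `N = D × Γ` and `J v` the matrix
`J v (d, x) (d', x') = if x' = x * s v then S v d d' else 0`, `S v = aF w a p q β 0 v`. Then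
`IsRep G M κ J` with `κ = max over v, d of ∑_{d'} |S v d d'|` (independent of `Γ`): `J v * J v = 1` and
`(J u J v)^m = (S u S v)^m ⊗ (right translation by (s u s v)^m) = -1` (`aF_pow` with `t = 0`; it may be
useful to note that `J v = S v ⊗ₖ ρ (s v)` with `ρ g` the matrix of `x ↦ x * g`, and
`Matrix.mul_kronecker_mul`).
(6) Translation: a chain `f : Finset V → Γ → (D × D → ℝ)` corresponds to
`f' : Finset V → N → X`, `f' σ (d₂, x) d₁ = f σ x (d₁, d₂)`. For `v ∈ σ`:
`f σ (x s_v) = -(A_v ⊗ S_v) f σ x` (`A_v = aF … t v = x̂ γ`) is equivalent to `Xop e g γ J t v (f' σ) = 0`: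
apply `1 ⊗ S_v` (`S_v² = 1`): `(1 ⊗ S_v) f σ (x s_v) = -(A_v ⊗ 1) f σ x`, i.e.
`actL (J v) (f' σ) = -x̂ γ f' σ = γ x̂ f' σ` pointwise, then apply `γ` (`γ² = -1`):
`γ (J f') = -x̂ f'`, i.e. `x̂ f' + γ J f' = 0`. All steps are reversible.
`tdl ℝ ν` corresponds to `bd ν`. So `tw_exactL` gives the claim.
-/

set_option autoImplicit false

open Finset

namespace Pool.Agent.H4.FC

open Pool.Agent.H85.Fold Pool.Agent.H85.Fold2

/-- the real operator of a real matrix -/
private noncomputable def rop {D : Type} [Fintype D] [DecidableEq D] (A : Matrix D D ℝ) :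
    (D → ℝ) →ₗ[ℝ] (D → ℝ) := Matrix.toLin' A

section

variable {D : Type} [Fintype D] [DecidableEq D]

private theorem rop_mul (A B : Matrix D D ℝ) (x : D → ℝ) : rop (A * B) x = rop A (rop B x) := by
  unfold rop
  rw [Matrix.toLin'_mul]
  rfl

private theorem rop_neg (A : Matrix D D ℝ) : rop (-A) = -rop A := by
  unfold rop
  rw [map_neg]

private theorem rop_one (x : D → ℝ) : rop (1 : Matrix D D ℝ) x = x := by
  unfold rop
  rw [Matrix.toLin'_one]
  rfl

private theorem rop_smul (r : ℝ) (A : Matrix D D ℝ) : rop (r • A) = r • rop A := by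
  unfold rop
  rw [map_smul]

private theorem rop_add (A B : Matrix D D ℝ) : rop (A + B) = rop A + rop B := by
  unfold rop
  rw [map_add]

private theorem rop_apply (A : Matrix D D ℝ) (x : D → ℝ) : rop A x = A.mulVec x := rfl

private theorem rop_anti {A B : Matrix D D ℝ} (h : A * B = -(B * A)) (x : D → ℝ) :
    rop A (rop B x) = -rop B (rop A x) := by
  rw [← rop_mul, h, rop_neg, LinearMap.neg_apply, rop_mul]

/-- the dot product -/
private noncomputable def dotR (D : Type) [Fintype D] : (D → ℝ) →ₗ[ℝ] (D → ℝ) →ₗ[ℝ] ℝ :=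
  LinearMap.mk₂ ℝ (fun x y => x ⬝ᵥ y) (fun x y z => add_dotProduct x y z)
    (fun c x y => smul_dotProduct c x y) (fun x y z => dotProduct_add x y z)
    (fun c x y => dotProduct_smul c x y)

omit [DecidableEq D] in
private theorem dotR_apply (x y : D → ℝ) : dotR D x y = x ⬝ᵥ y := rfl

private theorem rop_adj (A : Matrix D D ℝ) (x y : D → ℝ) :
    dotR D (rop A x) y = dotR D x (rop A.transpose y) := by
  simp only [dotR_apply, rop_apply]
  rw [Matrix.mulVec_transpose, dotProduct_comm, Matrix.dotProduct_mulVec, dotProduct_comm]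

private theorem ic_mul (A B : Matrix D D ℤ) : ic ℝ (A * B) = ic ℝ A * ic ℝ B :=
  map_mul (Int.castRingHom ℝ).mapMatrix A B

private theorem ic_add (A B : Matrix D D ℤ) : ic ℝ (A + B) = ic ℝ A + ic ℝ B :=
  map_add (Int.castRingHom ℝ).mapMatrix A B

private theorem ic_neg (A : Matrix D D ℤ) : ic ℝ (-A) = -ic ℝ A :=
  map_neg (Int.castRingHom ℝ).mapMatrix A

private theorem ic_one : ic ℝ (1 : Matrix D D ℤ) = 1 :=
  map_one (Int.castRingHom ℝ).mapMatrix

omit [Fintype D] [DecidableEq D] in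
private theorem ic_tr (A : Matrix D D ℤ) : ic ℝ A.transpose = (ic ℝ A).transpose := by
  ext i j
  rfl

private theorem fermi_p {I : Type} {w a : I → Matrix D D ℤ} (h : IsFermi w a) (i : I) :
    (w i + a i) * (w i + a i) = 1 := by
  rw [add_mul, mul_add, mul_add, h.w_sq, h.a_sq, zero_add, add_zero, h.one]

private theorem fermi_m {I : Type} {w a : I → Matrix D D ℤ} (h : IsFermi w a) (i : I) :
    (w i - a i) * (w i - a i) = -1 := by
  rw [sub_mul, mul_sub, mul_sub, h.w_sq, h.a_sq, zero_sub, sub_zero, ← h.one i]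
  abel

private theorem fermi_tr {I : Type} {w a : I → Matrix D D ℤ} (h : IsFermi w a) (i : I) :
    (a i).transpose = w i := by
  rw [← h.tr i, Matrix.transpose_transpose]

private theorem fermi_aw {I : Type} {w a : I → Matrix D D ℤ} (h : IsFermi w a) {i j : I}
    (hij : i ≠ j) : a i * w j = -(w j * a i) := by
  rw [h.wa j i hij.symm, neg_neg]

private theorem fermi_pp {I : Type} {w a : I → Matrix D D ℤ} (h : IsFermi w a) {i j : I}
    (hij : i ≠ j) : (w i + a i) * (w j + a j) = -((w j + a j) * (w i + a i)) := by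
  rw [add_mul, mul_add, mul_add, add_mul, mul_add, mul_add, h.ww i j, h.aa i j, h.wa i j hij,
    fermi_aw h hij]
  abel

private theorem fermi_mm {I : Type} {w a : I → Matrix D D ℤ} (h : IsFermi w a) {i j : I}
    (hij : i ≠ j) : (w i - a i) * (w j - a j) = -((w j - a j) * (w i - a i)) := by
  rw [sub_mul, mul_sub, mul_sub, sub_mul, mul_sub, mul_sub, h.ww i j, h.aa i j, h.wa i j hij,
    fermi_aw h hij]
  abel

private theorem fermi_pm {I : Type} {w a : I → Matrix D D ℤ} (h : IsFermi w a) {i j : I}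
    (hij : i ≠ j) : (w i + a i) * (w j - a j) = -((w j - a j) * (w i + a i)) := by
  rw [add_mul, mul_sub, mul_sub, sub_mul, mul_add, mul_add, h.ww i j, h.aa i j, h.wa i j hij,
    fermi_aw h hij]
  abel

end

section

variable {V D : Type} [Fintype V] [Fintype D] [DecidableEq D] {n k : ℕ}
  {w a : FI V n k → Matrix D D ℤ}

private noncomputable def gP (w a : FI V n k → Matrix D D ℤ) (i : Fin n) :
    (D → ℝ) →ₗ[ℝ] (D → ℝ) := rop (ic ℝ (w (.inl (.inl i)) + a (.inl (.inl i))))

private noncomputable def gQ (w a : FI V n k → Matrix D D ℤ) (j : Fin k) :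
    (D → ℝ) →ₗ[ℝ] (D → ℝ) := rop (ic ℝ (w (.inl (.inr j)) - a (.inl (.inr j))))

private theorem rop_ic_anti {A B : Matrix D D ℤ} (h : A * B = -(B * A)) (x : D → ℝ) :
    rop (ic ℝ A) (rop (ic ℝ B) x) = -rop (ic ℝ B) (rop (ic ℝ A) x) := by
  refine rop_anti ?_ x
  rw [← ic_mul, h, ic_neg, ic_mul]

omit [Fintype V] in
/-- the Clifford module -/
private theorem isClModF (h : IsFermi w a) : IsClMod (dotR D) (gP w a) (gQ w a) where
  symm x y := dotProduct_comm x y
  pos x hx := by
    rw [dotR_apply]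
    have h0 : (0 : ℝ) ≤ x ⬝ᵥ x := Finset.sum_nonneg fun i _ => mul_self_nonneg _
    rcases h0.lt_or_eq with h | h
    · exact h
    · exact absurd (dotProduct_self_eq_zero.1 h.symm) hx
  γ_sq i x := by
    unfold gP
    rw [← rop_mul, ← ic_mul, fermi_p h, ic_one, rop_one]
  η_sq i x := by
    unfold gQ
    rw [← rop_mul, ← ic_mul, fermi_m h, ic_neg, ic_one, rop_neg, LinearMap.neg_apply, rop_one]
  γγ i j hij x := rop_ic_anti (fermi_pp h (by simpa using hij)) x
  ηη i j hij x := rop_ic_anti (fermi_mm h (by simpa using hij)) x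
  γη i j x := rop_ic_anti (fermi_pm h (by simp)) x
  γ_adj i x y := by
    unfold gP
    rw [rop_adj, ← ic_tr, Matrix.transpose_add, h.tr, fermi_tr h, add_comm]
  η_adj i x y := by
    unfold gQ
    rw [rop_adj, ← ic_tr, Matrix.transpose_sub, h.tr, fermi_tr h, ← neg_sub, ic_neg, rop_neg,
      LinearMap.neg_apply, map_neg]

omit [Fintype V] in
/-- the operators of the folding vectors -/
private theorem ev_eqF {W : Type} (P : W → Fin n → ℝ) (Q : W → Fin k → ℝ) (φ : V → W) (v : V) :
    ev (gP w a) (gQ w a) P Q (φ v) =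
      rop (eF w a (fun v => P (φ v)) (fun v => Q (φ v)) v) := by
  unfold ev lc eF rop gP gQ rop
  rw [map_add, map_sum, map_sum]
  simp only [map_smul]

end

/-! ### The representation -/

section

variable {D Γ : Type} [Fintype D] [DecidableEq D] [Group Γ] [Fintype Γ] [DecidableEq Γ]

/-- right translations -/
private def rho (g : Γ) : Matrix Γ Γ ℝ := Matrix.of fun x x' => if x' = x * g then 1 else 0

private theorem rho_mul (g h : Γ) : rho g * rho h = rho (g * h) := by
  ext x z
  simp only [Matrix.mul_apply, rho, Matrix.of_apply]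
  rw [Finset.sum_eq_single (x * g)]
  · simp [mul_assoc]
  · intro y _ hy
    simp [hy]
  · intro h
    exact absurd (Finset.mem_univ _) h

omit [Fintype Γ] in
private theorem rho_one : rho (1 : Γ) = 1 := by
  ext x z
  simp only [rho, Matrix.of_apply, mul_one, Matrix.one_apply]
  by_cases h : z = x
  · simp [h]
  · simp [h, Ne.symm h]

/-- the matrices of the representation -/
private def jM (S : Matrix D D ℝ) (g : Γ) : Matrix (D × Γ) (D × Γ) ℝ :=
  Matrix.kroneckerMap (· * ·) S (rho g)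

omit [DecidableEq D] in
private theorem jM_mul (S T : Matrix D D ℝ) (g h : Γ) : jM S g * jM T h = jM (S * T) (g * h) := by
  unfold jM
  rw [← rho_mul]
  exact (Matrix.mul_kronecker_mul S T (rho g) (rho h)).symm

omit [Fintype D] [Fintype Γ] in
private theorem jM_one : jM (1 : Matrix D D ℝ) (1 : Γ) = 1 := by
  unfold jM
  rw [rho_one]
  exact Matrix.one_kronecker_one

private theorem jM_pow (S : Matrix D D ℝ) (g : Γ) (m : ℕ) : jM S g ^ m = jM (S ^ m) (g ^ m) := by
  induction m with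
  | zero => simp only [pow_zero]; exact jM_one.symm
  | succ m ih => rw [pow_succ, pow_succ, pow_succ, ih, jM_mul]

omit [Fintype D] [DecidableEq D] [Fintype Γ] in
private theorem jM_neg (S : Matrix D D ℝ) (g : Γ) : jM (-S) g = -jM S g := by
  ext i j
  simp [jM, Matrix.kroneckerMap_apply]

omit [DecidableEq D] in
private theorem jM_rb (S : Matrix D D ℝ) (g : Γ) {κ : ℝ} (h : ∀ d, ∑ d', |S d d'| ≤ κ) :
    RB κ (jM S g) := by
  rintro ⟨d, x⟩
  rw [Fintype.sum_prod_type]
  refine le_trans (le_of_eq ?_) (h d)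
  refine Finset.sum_congr rfl fun d' _ => ?_
  rw [Finset.sum_eq_single (x * g)]
  · simp [jM, Matrix.kroneckerMap_apply, rho]
  · intro y _ hy
    simp [jM, Matrix.kroneckerMap_apply, rho, hy]
  · intro h
    exact absurd (Finset.mem_univ _) h

/-- the matrix of a value -/
private def mt (f : D × D → ℝ) : Matrix D D ℝ := Matrix.of fun d₁ d₂ => f (d₁, d₂)

omit [Fintype D] [DecidableEq D] in
private theorem mt_inj {f f' : D × D → ℝ} (h : mt f = mt f') : f = f' := by
  funext d
  exact congrFun (congrFun h d.1) d.2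

omit [DecidableEq D] in
private theorem mt_kron (A S : Matrix D D ℝ) (f : D × D → ℝ) :
    mt ((Matrix.kroneckerMap (· * ·) A S).mulVec f) = A * mt f * S.transpose := by
  ext d₁ d₂
  simp only [mt, Matrix.of_apply, Matrix.mulVec, dotProduct, Matrix.mul_apply,
    Matrix.kroneckerMap_apply, Fintype.sum_prod_type, Matrix.transpose_apply, Finset.sum_mul]
  rw [Finset.sum_comm]
  refine Finset.sum_congr rfl fun x _ => Finset.sum_congr rfl fun y _ => ?_
  ring

omit [Fintype D] [DecidableEq D] in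
private theorem mt_neg (f : D × D → ℝ) : mt (-f) = -mt f := rfl

/-- the chains as functions on `D × Γ` -/
private def toF {V : Type} (f : Finset V → Γ → D × D → ℝ) : Finset V → D × Γ → D → ℝ :=
  fun σ ω d₁ => f σ ω.2 (d₁, ω.1)

/-- the inverse -/
private def ofF {V : Type} (g : Finset V → D × Γ → D → ℝ) : Finset V → Γ → D × D → ℝ :=
  fun σ x d => g σ (d.2, x) d.1

omit [Fintype D] [DecidableEq D] [Group Γ] [Fintype Γ] [DecidableEq Γ] in
private theorem to_of {V : Type} (g : Finset V → D × Γ → D → ℝ) : toF (ofF g) = g := rfl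

/-- the operator of the twisted condition in terms of matrices -/
private theorem xop_iff {V : Type} (f : Finset V → Γ → D × D → ℝ) (σ : Finset V)
    (E Gm C S : Matrix D D ℝ) (t : ℝ) (g : Γ) :
    (∀ ω : D × Γ, t • rop E (toF f σ ω) + rop Gm (toF f σ ω) +
      rop C (actL (jM S g) (toF f σ) ω) = 0) ↔
    ∀ x : Γ, (t • E + Gm) * mt (f σ x) + C * (mt (f σ (x * g)) * S.transpose) = 0 := by
  have hact : ∀ (d₂ : D) (x : Γ) (d₁ : D), actL (jM S g) (toF f σ) (d₂, x) d₁ =
      (mt (f σ (x * g)) * S.transpose) d₁ d₂ := by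
    intro d₂ x d₁
    simp only [actL, LinearMap.coe_mk, AddHom.coe_mk, Finset.sum_apply, Pi.smul_apply,
      smul_eq_mul, Fintype.sum_prod_type, Matrix.mul_apply, Matrix.transpose_apply]
    refine Finset.sum_congr rfl fun d' _ => ?_
    rw [Finset.sum_eq_single (x * g)]
    · simp [jM, Matrix.kroneckerMap_apply, rho, toF, mt, mul_comm]
    · intro y _ hy
      simp [jM, Matrix.kroneckerMap_apply, rho, hy]
    · intro h
      exact absurd (Finset.mem_univ _) h
  have hkey : ∀ (d₂ : D) (x : Γ) (d₁ : D),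
      (t • rop E (toF f σ (d₂, x)) + rop Gm (toF f σ (d₂, x)) +
        rop C (actL (jM S g) (toF f σ) (d₂, x))) d₁ =
      ((t • E + Gm) * mt (f σ x) + C * (mt (f σ (x * g)) * S.transpose)) d₁ d₂ := by
    intro d₂ x d₁
    have h1 : ∀ (A : Matrix D D ℝ), rop A (toF f σ (d₂, x)) d₁ = (A * mt (f σ x)) d₁ d₂ := by
      intro A
      simp only [rop_apply, Matrix.mulVec, dotProduct, Matrix.mul_apply, toF, mt,
        Matrix.of_apply]
    have h2 : rop C (actL (jM S g) (toF f σ) (d₂, x)) d₁ =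
        (C * (mt (f σ (x * g)) * S.transpose)) d₁ d₂ := by
      rw [rop_apply, Matrix.mul_apply]
      simp only [Matrix.mulVec, dotProduct]
      exact Finset.sum_congr rfl fun d' _ => by rw [hact]
    simp only [Pi.add_apply, Pi.smul_apply, smul_eq_mul]
    rw [h1, h1, h2, Matrix.add_apply, Matrix.add_mul, Matrix.add_apply, Matrix.smul_mul,
      Matrix.smul_apply, smul_eq_mul]
  constructor
  · intro h x
    ext d₁ d₂
    rw [← hkey, h (d₂, x)]
    rfl
  · rintro h ⟨d₂, x⟩
    funext d₁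
    rw [hkey, h x]
    rfl

omit [Fintype Γ] [DecidableEq Γ] in
/-- the twisted conditions agree -/
private theorem tw_iff {V : Type} (f : Finset V → Γ → D × D → ℝ) (σ : Finset V)
    {E Gm C S : Matrix D D ℝ} {t : ℝ} {g : Γ} (hS : S * S = 1) (hC : C * C = -1)
    (hE : (t • E + Gm) * C = -(C * (t • E + Gm))) :
    (∀ x : Γ, (t • E + Gm) * mt (f σ x) + C * (mt (f σ (x * g)) * S.transpose) = 0) ↔
    ∀ x : Γ, f σ (x * g) =
      -(Matrix.kroneckerMap (· * ·) ((t • E + Gm) * C) S).mulVec (f σ x) := by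
  have hST : S.transpose * S.transpose = 1 := by
    rw [← Matrix.transpose_mul, hS, Matrix.transpose_one]
  refine forall_congr' fun x => ⟨fun h => ?_, fun h => ?_⟩
  · refine mt_inj ?_
    rw [mt_neg, mt_kron]
    have h1 : C * ((t • E + Gm) * mt (f σ x)) +
        C * (C * (mt (f σ (x * g)) * S.transpose)) = 0 := by
      rw [← Matrix.mul_add, h, Matrix.mul_zero]
    rw [← Matrix.mul_assoc, ← Matrix.mul_assoc C C, hC, neg_mul, one_mul] at h1
    have h2 : C * (t • E + Gm) = -((t • E + Gm) * C) := by rw [hE, neg_neg]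
    rw [h2, neg_mul, ← neg_add, neg_eq_zero] at h1
    have h3 : mt (f σ (x * g)) * S.transpose = -((t • E + Gm) * C * mt (f σ x)) :=
      eq_neg_of_add_eq_zero_right h1
    calc mt (f σ (x * g)) = mt (f σ (x * g)) * S.transpose * S.transpose := by
          rw [Matrix.mul_assoc, hST, Matrix.mul_one]
      _ = _ := by rw [h3, neg_mul]
  · have h0 : mt (f σ (x * g)) = -((t • E + Gm) * C * mt (f σ x) * S.transpose) := by
      rw [h, mt_neg, mt_kron]
    rw [h0, neg_mul, Matrix.mul_assoc _ S.transpose S.transpose, hST, Matrix.mul_one,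
      Matrix.mul_neg, Matrix.mul_assoc (t • E + Gm) C, ← Matrix.mul_assoc C (t • E + Gm)]
    have h2 : C * (t • E + Gm) = -((t • E + Gm) * C) := by rw [hE, neg_neg]
    rw [h2, neg_mul, neg_neg, Matrix.mul_assoc, ← Matrix.mul_assoc C C, hC, neg_mul, one_mul,
      Matrix.mul_neg, add_neg_cancel]

end

/-- **Real exactness.** -/
theorem bF_exact {V W D : Type} [DecidableEq V] [Fintype V] [DecidableEq W] [Fintype W]
    [Fintype D] [DecidableEq D] {n k : ℕ} {w a : FI V n k → Matrix D D ℤ} (hw : IsFermi w a)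
    (M : CoxeterMatrix V) (hM : IsDih M) (H : SimpleGraph W) (hH : IsHomologySphere H n)
    (P : W → Fin n → ℝ) (Q : W → Fin k → ℝ) (hf : IsFoldR H P Q) (φ : V → W)
    (hφ : Function.Injective φ) (hadj : ∀ u v, (gr M).Adj u v ↔ H.Adj (φ u) (φ v))
    {ν : V → ℕ} (hν : Function.Injective ν) (i : ℕ) (hi : n < 2 * i) :
    ∃ t₀ : ℝ, ∀ t : ℝ, t₀ ≤ t → ∀ (Γ : Type) [Group Γ] [Fintype Γ] (s : V → Γ), IsGen M s →
      YZ ℝ (gr M) univ (bF w a (fun v => P (φ v)) (fun v => Q (φ v))
        (bet ν fun u v => 2 * Real.cos (Real.pi / M u v)) t) (fun v x => x * s v) ν i ≤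
      YB ℝ (gr M) univ (bF w a (fun v => P (φ v)) (fun v => Q (φ v))
        (bet ν fun u v => 2 * Real.cos (Real.pi / M u v)) t) (fun v x => x * s v) ν i := by
  classical
  obtain ⟨p, hp⟩ : ∃ p : V → Fin n → ℝ, p = fun v => P (φ v) := ⟨_, rfl⟩
  obtain ⟨q, hq⟩ : ∃ q : V → Fin k → ℝ, q = fun v => Q (φ v) := ⟨_, rfl⟩
  obtain ⟨c, hc⟩ : ∃ c : V → V → ℝ, c = fun u v => 2 * Real.cos (Real.pi / M u v) := ⟨_, rfl⟩
  rw [← hp, ← hq, ← hc]
  have hcs : ∀ u v, c u v = c v u := by
    intro u v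
    rw [hc]
    simp only
    rw [M.symmetric]
  have hpq : ∀ u v, u = v ∨ (gr M).Adj u v → p u ⬝ᵥ p v = q u ⬝ᵥ q v := by
    intro u v huv
    rw [hp, hq]
    refine hf.zero (φ u) (φ v) ?_
    rcases huv with h | h
    · exact Or.inl (by rw [h])
    · exact Or.inr ((hadj u v).1 h)
  have hclm : IsClMod (dotR D) (gP w a) (gQ w a) := isClModF hw
  have hfold : IsFold H n P Q := by
    refine ⟨?_, hf.zero, hf.neg⟩
    refine (Submodule.finrank_le _).trans ?_
    simp
  obtain ⟨e, he⟩ : ∃ e : V → (D → ℝ) →ₗ[ℝ] (D → ℝ),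
      e = fun v => ev (gP w a) (gQ w a) P Q (φ v) := ⟨_, rfl⟩
  have heF : ∀ v, e v = rop (eF w a p q v) := by
    intro v
    rw [he, hp, hq]
    exact ev_eqF P Q φ v
  -- labels
  have hL : IsLab (gr M) (fun u v => M u v) := by
    refine ⟨fun u v => M.symmetric u v, fun u v huv => ?_, fun u v x h1 h2 h3 => hM u v x h1 h2 h3⟩
    have h1 : M.M u v ≠ 1 := M.off_diagonal u v huv.1
    have h2 : M.M u v ≠ 0 := huv.2
    exact (by omega : 2 ≤ M.M u v)
  -- the operators
  have hpert : IsPertL (gr M) (fun u v => M u v) e (fun v => rop (gF w a (bet ν c) v))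
      (rop (cF w a ℝ)) := by
    refine ⟨?_, ?_, ?_, ?_, ?_, ?_, ?_, ?_⟩
    · intro v x
      rw [heF, ← rop_mul, eF_sq hw, hpq v v (Or.inl rfl), sub_self, zero_smul]
      simp [rop]
    · intro u v huv x
      have h1 := eF_anti hw p q u v
      rw [hpq u v (Or.inr huv), sub_self, mul_zero, zero_smul] at h1
      rw [heF, heF]
      exact rop_anti (eq_neg_of_add_eq_zero_left h1) x
    · intro v x
      rw [← rop_mul, gF_sq hw, bet_self, one_smul, rop_one]
    · intro u v huv x
      rw [← rop_mul, ← rop_mul, ← LinearMap.add_apply, ← rop_add, gF_anti hw,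
        bet_add hν hcs huv.1, rop_smul, LinearMap.smul_apply, rop_one, hc]
    · intro u v x
      rw [heF]
      exact rop_anti (eF_gF hw p q _ u v) x
    · intro x
      rw [← rop_mul, cF_sq hw, rop_neg, LinearMap.neg_apply, rop_one]
    · intro v x
      rw [heF]
      exact rop_anti (eF_cF hw p q v) x
    · intro v x
      exact rop_anti (gF_cF hw _ v) x
  -- lifting
  have hlift : Lift (gr M) e := by
    intro σ v hv hcl x hx
    have h1 : Cl H (insert (φ v) (σ.image φ)) := by
      rw [← Finset.image_insert]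
      intro a' ha' b' hb' hab
      obtain ⟨a₁, ha₁, rfl⟩ := Finset.mem_image.1 ha'
      obtain ⟨b₁, hb₁, rfl⟩ := Finset.mem_image.1 hb'
      exact (hadj _ _).1 (hcl a₁ ha₁ b₁ hb₁ fun h => hab (by rw [h]))
    have h2 : φ v ∉ σ.image φ := by
      intro h
      obtain ⟨u, hu, huv⟩ := Finset.mem_image.1 h
      exact hv (hφ huv ▸ hu)
    obtain ⟨y, hy1, hy2⟩ := lift_fold hH hfold hclm (σ.image φ) (φ v) h2 h1 x (by
      intro u hu
      rw [← Finset.image_insert] at hu
      obtain ⟨u₁, hu₁, rfl⟩ := Finset.mem_image.1 hu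
      have h3 := hx u₁ hu₁
      rw [he] at h3
      exact h3)
    refine ⟨y, fun u hu => ?_, ?_⟩
    · rw [he]
      exact hy1 (φ u) (Finset.mem_image_of_mem φ hu)
    · rw [he]
      exact hy2
  -- homology
  obtain ⟨ν', hν', hνν⟩ := exists_nu univ φ (fun u _ v _ h => hφ h) ν hν
  have hHV : ∀ (τ : Finset V) (i : ℕ), Cl (gr M) τ → n + τ.card < 2 * i →
      HVr ν (gr M) e ⊤ univ τ i := by
    intro τ j _ hj
    rw [he]
    refine hvr_embed (gr M) H φ hφ hadj ν hν ν' hν'
      (fun u v => hνν u (mem_univ _) v (mem_univ _)) (ev (gP w a) (gQ w a) P Q) τ j ?_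
    refine hvr_fold hν' hH hfold hclm _ _ j ?_
    rw [Finset.card_image_of_injective _ hφ]
    exact hj
  obtain ⟨κ, hκ⟩ : ∃ κ : ℝ, κ = ∑ v, ∑ d, ∑ d', |aF w a p q (bet ν c) 0 v d d'| := ⟨_, rfl⟩
  have hκ0 : 0 ≤ κ := by
    rw [hκ]
    exact Finset.sum_nonneg fun v _ => Finset.sum_nonneg fun d _ => Finset.sum_nonneg fun d' _ =>
      abs_nonneg _
  obtain ⟨t₀, ht₀⟩ := tw_exactL hν hL hpert hlift hHV hκ0 i hi
  refine ⟨t₀, fun t ht Γ _ _ s hs f hfZ => ?_⟩
  obtain ⟨hf1, hf2⟩ := Submodule.mem_inf.1 hfZ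
  have haS : ∀ v, aF w a p q (bet ν c) 0 v * aF w a p q (bet ν c) 0 v = 1 := fun v =>
    aF_sq hw p q _ 0 v (hpq v v (Or.inl rfl)) (bet_self ν c v)
  -- the representation
  have hrep : IsRep (gr M) (fun u v => M u v) κ
      (fun v => jM (aF w a p q (bet ν c) 0 v) (s v)) := by
    refine ⟨fun v => ?_, fun u v huv => ?_, fun v => ?_⟩
    · rw [jM_mul, haS, hs.sq, jM_one]
    · have h2 : 2 ≤ M u v := hL.two u v huv
      have h3 := aF_pow hw (RingHom.id ℝ) (fun _ _ h => h) hν hcs p q 0 huv.1 h2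
        (by rw [hc]; rfl) (hpq u u (Or.inl rfl)) (hpq v v (Or.inl rfl)) (hpq u v (Or.inr huv))
      rw [jM_mul, jM_pow, h3, hs u v, jM_neg, jM_one]
    · refine jM_rb _ _ fun d => ?_
      rw [hκ]
      refine le_trans ?_ (Finset.single_le_sum
        (f := fun v => ∑ d, ∑ d', |aF w a p q (bet ν c) 0 v d d'|)
        (fun v _ => Finset.sum_nonneg fun d _ => Finset.sum_nonneg fun d' _ => abs_nonneg _)
        (mem_univ v))
      exact Finset.single_le_sum (f := fun d => ∑ d', |aF w a p q (bet ν c) 0 v d d'|)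
        (fun d _ => Finset.sum_nonneg fun d' _ => abs_nonneg _) (mem_univ d)
  have hCC : cF w a ℝ * cF w a ℝ = -1 := cF_sq hw
  have hXC : ∀ v, (t • eF w a p q v + gF w a (bet ν c) v) * cF w a ℝ =
      -(cF w a ℝ * (t • eF w a p q v + gF w a (bet ν c) v)) := by
    intro v
    rw [add_mul, mul_add, smul_mul_assoc, mul_smul_comm, eF_cF hw, gF_cF hw, smul_neg, neg_add]
  have hcond : ∀ (f' : Finset V → Γ → D × D → ℝ) (σ : Finset V) (v : V),
      (Xop e (fun v => rop (gF w a (bet ν c) v)) (rop (cF w a ℝ))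
        (fun v => jM (aF w a p q (bet ν c) 0 v) (s v)) t v (toF f' σ) = 0 ↔
      ∀ x : Γ, f' σ (x * s v) = -(bF w a p q (bet ν c) t v).mulVec (f' σ x)) := by
    intro f' σ v
    have h1 := xop_iff f' σ (eF w a p q v) (gF w a (bet ν c) v) (cF w a ℝ)
      (aF w a p q (bet ν c) 0 v) t (s v)
    have h2 := tw_iff f' σ (g := s v) (haS v) hCC (hXC v)
    rw [show bF w a p q (bet ν c) t v = Matrix.kroneckerMap (· * ·)
      ((t • eF w a p q v + gF w a (bet ν c) v) * cF w a ℝ) (aF w a p q (bet ν c) 0 v) from rfl]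
    rw [← h2, ← h1]
    constructor
    · intro h ω
      have h3 := congrFun h ω
      simp only [Xop, LinearMap.coe_mk, AddHom.coe_mk] at h3
      rw [heF] at h3
      exact h3
    · intro h
      funext ω
      simp only [Xop, LinearMap.coe_mk, AddHom.coe_mk]
      rw [heF]
      exact h ω
  have hbd : ∀ f' : Finset V → Γ → D × D → ℝ, bd ν (toF f') = toF (tdl ℝ ν f') := by
    intro f'
    funext τ ω d₁
    simp only [bd, tdl, toF, LinearMap.coe_mk, AddHom.coe_mk, Finset.sum_apply, Pi.smul_apply]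
    refine Finset.sum_congr rfl fun v _ => ?_
    simp [sgn, Pool.Agent.H4.Singer.sg]
  have htw : IsTwL (gr M) e (fun v => rop (gF w a (bet ν c) v)) (rop (cF w a ℝ))
      (fun v => jM (aF w a p q (bet ν c) 0 v) (s v)) t i (toF f) := by
    refine ⟨fun σ hσ => ?_, fun σ v hv => (hcond f σ v).2 (hf1.2 σ v hv)⟩
    by_contra hcon
    refine hσ ?_
    funext ω d₁
    by_contra h0
    refine hcon (hf1.1 σ ω.2 ?_).2
    intro h1
    exact h0 (by simp [toF, h1])
  obtain ⟨y, hy1, hy2⟩ := ht₀ t ht (D × Γ) _ hrep (toF f) htw (by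
    rw [hbd, LinearMap.mem_ker.1 hf2]
    rfl)
  refine ⟨ofF y, ⟨fun σ ω h => ?_, fun σ v hv => (hcond (ofF y) σ v).1 ?_⟩, ?_⟩
  · refine ⟨subset_univ _, hy1.supp σ ?_⟩
    intro h1
    refine h ?_
    funext d
    simp [ofF, h1]
  · rw [to_of]
    exact hy1.eq σ v hv
  · have h1 : toF (tdl ℝ ν (ofF y)) = toF f := by
      rw [← hbd, to_of, hy2]
    funext σ x d
    exact congrFun (congrFun (congrFun h1 σ) (d.2, x)) d.1

end Pool.Agent.H4.FC
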