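import Pool.Agent.H4.FC.ProjC
import Pool.Agent.H85.Fold.Sgn

/-!
# Project FC: relative complexes

* `bdr_bdr`: at `ρ ⊇ τ` all faces `insert v ρ` contain `τ`, so this is `bd_bd` (see
  `Pool.Agent.H85.Fold.Sgn` for the identity `bd ν (bd ν c) = 0` and its proof).
* `bdr_supp`, `IsC.bdr`: `bdr ν (tB B)` maps chains of degree `i + 1` to chains of degree `i`: a nonzero
  value at `ρ` has a nonzero term `y (insert v ρ)`, `v ∉ ρ`; the conditions `ker`, `fix`, `nul` at `ρ`
  follow from those at all `insert v ρ` (`bd` is a finite sum of multiples; `ker` for `u ∈ ρ` from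
  `u ∈ insert v ρ`, etc.).
* `IsC.bdr'`: the same for `bdr ν τ` with `tB B ⊆ τ`.
* `norm_bdr_le`: every value is a signed sum of at most `|V|` values of `y`.
* `actL_bdr`: `bdr` commutes with the action of a matrix (applied to all the values).
* `bdr_ptw`: `bdr` is computed pointwise in `N`.
-/

set_option autoImplicit false

open Finset

namespace Pool.Agent.H4.FC

open Pool.Agent.H85.Fold

section A

variable {V : Type} [DecidableEq V] [Fintype V]

theorem bdr_apply {S : Type} [AddCommGroup S] [Module ℝ S] (ν : V → ℕ) (τ : Finset V)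
    (c : Finset V → S) (ρ : Finset V) : bdr ν τ c ρ = if τ ⊆ ρ then bd ν c ρ else 0 := rfl

theorem bdr_empty {S : Type} [AddCommGroup S] [Module ℝ S] (ν : V → ℕ) (c : Finset V → S) :
    bdr ν ∅ c = bd ν c := by
  funext ρ
  rw [bdr_apply, if_pos (Finset.empty_subset ρ)]

private theorem RelC_eq {S : Type} [AddCommGroup S] [Module ℝ S] (ν : V → ℕ) (τ : Finset V)
    (c : Finset V → S) (ρ : Finset V) : bdr ν τ c ρ =
      if τ ⊆ ρ then ∑ v ∈ ρᶜ, sgn ν v ρ • c (insert v ρ) else 0 := rfl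

theorem bdr_bdr {S : Type} [AddCommGroup S] [Module ℝ S] {ν : V → ℕ} (hν : Function.Injective ν)
    (τ : Finset V) (c : Finset V → S) : bdr ν τ (bdr ν τ c) = 0 := by
  funext ρ
  rw [RelC_eq]
  split_ifs with h
  · have e : ∑ v ∈ ρᶜ, sgn ν v ρ • bdr ν τ c (insert v ρ) = bd ν (bd ν c) ρ := by
      show _ = ∑ v ∈ ρᶜ, sgn ν v ρ • bd ν c (insert v ρ)
      refine Finset.sum_congr rfl fun v _ => ?_
      rw [bdr_apply, if_pos (h.trans (Finset.subset_insert v ρ))]
    rw [e, bd_bd ν hν]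
  · rfl

theorem norm_bdr_le {S : Type} [NormedAddCommGroup S] [NormedSpace ℝ S] (ν : V → ℕ)
    (τ : Finset V) (c : Finset V → S) : ‖bdr ν τ c‖ ≤ Fintype.card V * ‖c‖ := by
  have h0 : (0 : ℝ) ≤ Fintype.card V * ‖c‖ := by positivity
  refine (pi_norm_le_iff_of_nonneg h0).2 fun ρ => ?_
  rw [RelC_eq]
  split_ifs
  · refine (norm_sum_le _ _).trans ?_
    have h1 : ∀ v ∈ ρᶜ, ‖sgn ν v ρ • c (insert v ρ)‖ ≤ ‖c‖ := by
      intro v _
      have h2 : ‖sgn ν v ρ‖ = 1 := by
        rcases sgn_cases ν v ρ with h | h <;> rw [h] <;> simp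
      rw [norm_smul, h2, one_mul]
      exact norm_le_pi_norm c _
    refine (Finset.sum_le_sum h1).trans ?_
    rw [Finset.sum_const, nsmul_eq_mul]
    refine mul_le_mul_of_nonneg_right ?_ (norm_nonneg _)
    exact_mod_cast Finset.card_le_univ _
  · rw [norm_zero]
    exact h0

end A

section B

variable {V N X : Type} [DecidableEq V] [Fintype V] [Fintype N] [DecidableEq N]
  [AddCommGroup X] [Module ℝ X] {G : SimpleGraph V} {e : V → X →ₗ[ℝ] X} {m : V → V → ℕ}
  {J : V → Matrix N N ℝ} {A B : Finset (V × V)} {i : ℕ} {x y : Finset V → N → X}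

omit [Fintype N] [DecidableEq N] in
theorem bdr_ptw (ν : V → ℕ) (τ : Finset V) (x : Finset V → N → X) (ρ : Finset V) (ω : N) :
    bdr ν τ x ρ ω = bdr ν τ (fun σ => x σ ω) ρ := by
  rw [RelC_eq, RelC_eq]
  split_ifs
  · rw [Finset.sum_apply]
    rfl
  · rfl

omit [DecidableEq N] in
theorem actL_bdr (ν : V → ℕ) (τ : Finset V) (K : Matrix N N ℝ) (x : Finset V → N → X)
    (ρ : Finset V) : actL K (bdr ν τ x ρ) = bdr ν τ (fun σ => actL K (x σ)) ρ := by
  rw [RelC_eq, RelC_eq]
  split_ifs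
  · rw [map_sum]
    exact Finset.sum_congr rfl fun v _ => map_smul _ _ _
  · exact map_zero _

theorem IsC.zero : IsC G e m J A B i (0 : Finset V → N → X) where
  supp _ h := absurd rfl h
  ker _ v _ _ := map_zero (e v)
  fix _ _ _ _ _ := map_zero _
  nul _ _ _ := map_zero _

theorem IsC.add (hx : IsC G e m J A B i x) (hy : IsC G e m J A B i y) :
    IsC G e m J A B i (x + y) where
  supp σ h := by
    by_cases h1 : x σ = 0
    · refine hy.supp σ fun h2 => h ?_
      show x σ + y σ = 0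
      rw [h1, h2, add_zero]
    · exact hx.supp σ h1
  ker σ v hv ω := by
    show e v (x σ ω + y σ ω) = 0
    rw [map_add, hx.ker σ v hv ω, hy.ker σ v hv ω, add_zero]
  fix f hf σ h1 h2 := by
    show actL _ (x σ + y σ) = x σ + y σ
    rw [map_add, hx.fix f hf σ h1 h2, hy.fix f hf σ h1 h2]
  nul b hb σ := by
    show actL _ (x σ + y σ) = 0
    rw [map_add, hx.nul b hb σ, hy.nul b hb σ, add_zero]

theorem IsC.smul (r : ℝ) (hx : IsC G e m J A B i x) : IsC G e m J A B i (r • x) where
  supp σ h := by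
    refine hx.supp σ fun h2 => h ?_
    show r • x σ = 0
    rw [h2, smul_zero]
  ker σ v hv ω := by
    show e v (r • x σ ω) = 0
    rw [map_smul, hx.ker σ v hv ω, smul_zero]
  fix f hf σ h1 h2 := by
    show actL _ (r • x σ) = r • x σ
    rw [map_smul, hx.fix f hf σ h1 h2]
  nul b hb σ := by
    show actL _ (r • x σ) = 0
    rw [map_smul, hx.nul b hb σ, smul_zero]

theorem IsC.sub (hx : IsC G e m J A B i x) (hy : IsC G e m J A B i y) :
    IsC G e m J A B i (x - y) := by
  have h := hx.add (hy.smul (-1))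
  rwa [neg_one_smul, ← sub_eq_add_neg] at h

/-- fewer conditions -/
theorem IsC.mono {A' B' : Finset (V × V)} (hA : A' ⊆ A) (hB : B' ⊆ B)
    (hx : IsC G e m J A B i x) : IsC G e m J A' B' i x where
  supp σ h := ⟨(Finset.union_subset_union (Finset.image_subset_image hB)
    (Finset.image_subset_image hB)).trans (hx.supp σ h).1, (hx.supp σ h).2⟩
  ker := hx.ker
  fix f hf := hx.fix f (hA hf)
  nul b hb := hx.nul b (hB hb)

theorem IsC.bdr' (ν : V → ℕ) {τ : Finset V} (hτ : tB B ⊆ τ) (hx : IsC G e m J A B (i + 1) x) :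
    IsC G e m J A B i (bdr ν τ x) where
  supp ρ h := by
    rw [RelC_eq] at h
    have h1 : τ ⊆ ρ := by
      by_contra h2
      exact h (if_neg h2)
    rw [if_pos h1] at h
    obtain ⟨v, hv, hne⟩ := Finset.exists_ne_zero_of_sum_ne_zero h
    rw [Finset.mem_compl] at hv
    have h2 : x (insert v ρ) ≠ 0 := fun h3 => hne (by rw [h3, smul_zero])
    obtain ⟨-, h3, h4⟩ := hx.supp _ h2
    refine ⟨hτ.trans h1, fun a ha b hb hab => h3 a (Finset.mem_insert_of_mem ha) b
      (Finset.mem_insert_of_mem hb) hab, ?_⟩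
    rw [Finset.card_insert_of_notMem hv] at h4
    omega
  ker ρ v hv ω := by
    rw [bdr_ptw, RelC_eq]
    split_ifs
    · rw [map_sum]
      refine Finset.sum_eq_zero fun u _ => ?_
      rw [map_smul, hx.ker _ v (Finset.mem_insert_of_mem hv) ω, smul_zero]
    · exact map_zero _
  fix f hf ρ h1 h2 := by
    rw [actL_bdr, RelC_eq, RelC_eq]
    split_ifs
    · refine Finset.sum_congr rfl fun u _ => ?_
      rw [hx.fix f hf _ (Finset.mem_insert_of_mem h1) (Finset.mem_insert_of_mem h2)]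
    · rfl
  nul b hb ρ := by
    rw [actL_bdr, RelC_eq]
    split_ifs
    · refine Finset.sum_eq_zero fun u _ => ?_
      rw [hx.nul b hb, smul_zero]
    · rfl

theorem IsC.bdr (ν : V → ℕ) (hx : IsC G e m J A B (i + 1) x) :
    IsC G e m J A B i (bdr ν (tB B) x) :=
  hx.bdr' ν subset_rfl

end B

end Pool.Agent.H4.FC
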