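import Mathlib

/-!
# Project FC: the geometric representation

`refl k v` is the matrix of `z ↦ z - (∑_u k v u z_u) α_v`; `kR M u v = 2 B(α_u, α_v)`, i.e.
`-2 cos (π / m(u,v))` and `-2` if `m(u,v) = 0` (that is, infinity). In particular `kR M v v = 2`.

`refl_mulVec`: by definition. `refl_sq`: `T T z = z - f z α - f (z - f z α) α = z - 2 f z α + 2 f z α`
with `f α = 2`.

`refl_rel`: `(T_u T_v)^m = 1` for `m = M u v`. For `u = v`: `M u u = 1` and `refl_sq`. `m = 0`: trivial.
`m = 2`: `k = -2 cos (π/2) = 0`, so `T_u T_v = T_v T_u` (both are `z - f_u z α_u - f_v z α_v`) and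
`(T_u T_v)² = 1`. `m ≥ 3`: one way: `Module.reflection_mul_reflection_pow_apply` in Mathlib
(`Mathlib.LinearAlgebra.Reflection`) gives `(T_u T_v)^m z` with Chebyshev polynomials `S` evaluated at
`t = k² - 2 = 2 cos (2θ)`, `θ = π/m`, and `S_j (2 cos φ) sin φ = sin ((j+1) φ)` for `φ = 2θ`,
`sin φ ≠ 0`; both coefficients vanish: for `m = 2j` because `S_{j-1} (t) = sin (2 j θ) / sin 2θ = 0`,
for `m = 2j+1` because `S_j (t) + S_{j-1} (t) = (sin ((2j+2) θ) + sin (2jθ)) / sin 2θ = 0`. Another way
(no Chebyshev polynomials): `R = T_u T_v` satisfies `(R - 1) z ∈ span (α_u, α_v)` and on this span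
`R² = 2 cos (2θ) R - 1`; hence `(R² - 2 cos (2θ) R + 1) (R - 1) = 0`. By induction
`sin 2θ • R^j (R - 1) = sin (2jθ) • R (R - 1) - sin ((2j-2) θ) • (R - 1)`; for `j = m`: `R^m (R - 1) =
R - 1` as `sin (2mθ) = 0` and `-sin ((2m-2)θ) = sin 2θ`; then sum: `R^m - 1 = ∑_{j<m} R^j (R - 1)` and the
sum of the formula over `j < m` vanishes (`∑_{j<m} sin (2jθ) = 0`, `∑_{j<m} sin ((2j-2)θ) = 0`).
-/

set_option autoImplicit false

open Finset

namespace Pool.Agent.H4.FC

/-- the matrix of a reflection -/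
def refl {V R : Type} [DecidableEq V] [CommRing R] (k : V → V → R) (v : V) : Matrix V V R :=
  1 - Matrix.of fun i j => if i = v then k v j else 0

/-- twice the canonical bilinear form of a Coxeter matrix -/
noncomputable def kR {V : Type} (M : CoxeterMatrix V) (u v : V) : ℝ :=
  if M u v = 0 then -2 else -2 * Real.cos (Real.pi / M u v)

section

private theorem tr_rec {A : Type} [Ring A] [Algebra ℝ A] (p q : A) (k : ℝ)
    (hp : p * p = (2 : ℝ) • p) (hq : q * q = (2 : ℝ) • q) (hpqp : p * q * p = (k ^ 2) • p)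
    (hqpq : q * p * q = (k ^ 2) • q) :
    (1 - p) * (1 - q) * ((1 - p) * (1 - q)) * ((1 - p) * (1 - q) - 1) =
      (k ^ 2 - 2) • ((1 - p) * (1 - q) * ((1 - p) * (1 - q) - 1)) -
        ((1 - p) * (1 - q) - 1) := by
  obtain ⟨N, hN⟩ : ∃ N : A, N = p * q - p - q := ⟨_, rfl⟩
  have hR : (1 - p) * (1 - q) = 1 + N := by
    rw [hN]
    noncomm_ring
  have h1 : p * q * N = (k ^ 2 - 2) • (p * q) - (k ^ 2) • p := by
    have e : p * q * N = p * q * p * q - p * q * p - p * (q * q) := by
      rw [hN]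
      noncomm_ring
    rw [e, hpqp, hq, smul_mul_assoc, mul_smul_comm]
    module
  have h2 : q * p * N = (k ^ 2) • q - (2 : ℝ) • (q * p) := by
    have e : q * p * N = q * (p * p) * q - q * (p * p) - q * p * q := by
      rw [hN]
      noncomm_ring
    rw [e, hp, mul_smul_comm, smul_mul_assoc, hqpq]
    module
  have h3 : p * N = p * q - (2 : ℝ) • p := by
    have e : p * N = p * p * q - p * p - p * q := by
      rw [hN]
      noncomm_ring
    rw [e, hp, smul_mul_assoc]
    module
  have h4 : q * N = (k ^ 2 - 2) • q - q * p := by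
    have e : q * N = q * p * q - q * p - q * q := by
      rw [hN]
      noncomm_ring
    rw [e, hqpq, hq]
    module
  have h5 : N * N = (k ^ 2 - 3) • (p * q) + (2 - k ^ 2) • p + (2 - k ^ 2) • q + q * p := by
    have e : N * N = p * q * N - p * N - q * N := by
      rw [← sub_mul, ← sub_mul, ← hN]
    rw [e, h1, h3, h4]
    module
  have h6 : N * N * N = (k ^ 2 - 3) • (p * q * N) + (2 - k ^ 2) • (p * N) +
      (2 - k ^ 2) • (q * N) + q * p * N := by
    rw [h5]
    simp only [add_mul, smul_mul_assoc]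
  rw [hR]
  have e : (1 + N) * (1 + N) * (1 + N - 1) = N + (2 : ℝ) • (N * N) + N * N * N := by
    rw [two_smul]
    noncomm_ring
  have e2 : (1 + N) * (1 + N - 1) = N + N * N := by noncomm_ring
  have e3 : 1 + N - 1 = N := by noncomm_ring
  rw [e, e2, e3, h6, h1, h2, h3, h4, h5, hN]
  module

private theorem tr_sin (φ c : ℝ) (m : ℕ) :
    2 * Real.sin (φ / 2) * ∑ j ∈ range m, Real.sin (j * φ + c) =
      Real.cos (c - φ / 2) - Real.cos (m * φ + c - φ / 2) := by
  induction m with
  | zero => simp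
  | succ m ih =>
    rw [sum_range_succ, mul_add, ih]
    have h1 : Real.cos (((m + 1 : ℕ) : ℝ) * φ + c - φ / 2) =
        Real.cos (m * φ + c) * Real.cos (φ / 2) - Real.sin (m * φ + c) * Real.sin (φ / 2) := by
      rw [← Real.cos_add]
      congr 1
      push_cast
      ring
    have h2 : Real.cos (m * φ + c - φ / 2) =
        Real.cos (m * φ + c) * Real.cos (φ / 2) + Real.sin (m * φ + c) * Real.sin (φ / 2) := by
      rw [Real.cos_sub]
    rw [h1, h2]
    ring

private theorem tr_pow {A : Type} [Ring A] [Algebra ℝ A] (R : A) {m : ℕ} (hm : 3 ≤ m)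
    (h : R * R * (R - 1) = (2 * Real.cos (2 * Real.pi / m)) • (R * (R - 1)) - (R - 1)) :
    R ^ m = 1 := by
  obtain ⟨φ, hφ⟩ : ∃ φ : ℝ, φ = 2 * Real.pi / m := ⟨_, rfl⟩
  rw [← hφ] at h
  have hpi := Real.pi_pos
  have hm' : (3 : ℝ) ≤ m := by exact_mod_cast hm
  have h0 : 0 < φ := by
    rw [hφ]
    positivity
  have h1 : φ < Real.pi := by
    rw [hφ, div_lt_iff₀ (by linarith)]
    nlinarith
  have hmφ : (m : ℝ) * φ = 2 * Real.pi := by
    rw [hφ]
    field_simp
  have hs : Real.sin φ ≠ 0 := (Real.sin_pos_of_pos_of_lt_pi h0 h1).ne'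
  have hs2 : Real.sin (φ / 2) ≠ 0 :=
    (Real.sin_pos_of_pos_of_lt_pi (by linarith) (by linarith)).ne'
  have key : ∀ j : ℕ, Real.sin φ • (R ^ j * (R - 1)) =
      Real.sin (j * φ + 0) • (R * (R - 1)) - Real.sin (j * φ + -φ) • (R - 1) ∧
      Real.sin φ • (R ^ (j + 1) * (R - 1)) =
      Real.sin (((j + 1 : ℕ) : ℝ) * φ + 0) • (R * (R - 1)) -
        Real.sin (((j + 1 : ℕ) : ℝ) * φ + -φ) • (R - 1) := by
    intro j
    induction j with
    | zero => simp
    | succ j ih =>
      refine ⟨ih.2, ?_⟩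
      have e : R ^ (j + 1 + 1) * (R - 1) = R ^ j * (R * R * (R - 1)) := by
        rw [pow_succ, pow_succ]
        noncomm_ring
      have e2 : R ^ j * (R * (R - 1)) = R ^ (j + 1) * (R - 1) := by
        rw [pow_succ]
        noncomm_ring
      rw [e, h, mul_sub, mul_smul_comm, e2, smul_sub, smul_comm, ih.1, ih.2]
      have s1 : Real.sin (((j + 1 + 1 : ℕ) : ℝ) * φ + 0) =
          2 * Real.cos φ * Real.sin (((j + 1 : ℕ) : ℝ) * φ + 0) - Real.sin (j * φ + 0) := by
        have a1 : ((j + 1 + 1 : ℕ) : ℝ) * φ + 0 = (((j + 1 : ℕ) : ℝ) * φ + 0) + φ := by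
          push_cast
          ring
        have a2 : (j : ℝ) * φ + 0 = (((j + 1 : ℕ) : ℝ) * φ + 0) - φ := by
          push_cast
          ring
        rw [a1, a2, Real.sin_add, Real.sin_sub]
        ring
      have s2 : Real.sin (((j + 1 + 1 : ℕ) : ℝ) * φ + -φ) =
          2 * Real.cos φ * Real.sin (((j + 1 : ℕ) : ℝ) * φ + -φ) - Real.sin (j * φ + -φ) := by
        have a1 : ((j + 1 + 1 : ℕ) : ℝ) * φ + -φ = (((j + 1 : ℕ) : ℝ) * φ + -φ) + φ := by
          push_cast
          ring
        have a2 : (j : ℝ) * φ + -φ = (((j + 1 : ℕ) : ℝ) * φ + -φ) - φ := by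
          push_cast
          ring
        rw [a1, a2, Real.sin_add, Real.sin_sub]
        ring
      rw [s1, s2]
      module
  have hsum : R ^ m - 1 = ∑ j ∈ range m, R ^ j * (R - 1) := by
    rw [← sum_mul, geom_sum_mul]
  have hz : ∀ c : ℝ, ∑ j ∈ range m, Real.sin (j * φ + c) = 0 := by
    intro c
    have := tr_sin φ c m
    have e : Real.cos (m * φ + c - φ / 2) = Real.cos (c - φ / 2) := by
      rw [hmφ, show 2 * Real.pi + c - φ / 2 = (c - φ / 2) + 2 * Real.pi by ring,
        Real.cos_add_two_pi]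
    rw [e, sub_self] at this
    rcases mul_eq_zero.1 this with h | h
    · exact absurd h (mul_ne_zero two_ne_zero hs2)
    · exact h
  have hfin : Real.sin φ • (R ^ m - 1) = 0 := by
    rw [hsum, smul_sum, sum_congr rfl fun j _ => (key j).1, sum_sub_distrib, ← sum_smul,
      ← sum_smul, hz, hz, zero_smul, zero_smul, sub_zero]
  rcases smul_eq_zero.1 hfin with h | h
  · exact absurd h hs
  · exact sub_eq_zero.1 h

variable {V : Type} [Fintype V] [DecidableEq V]

theorem refl_mulVec {R : Type} [CommRing R] (k : V → V → R) (v : V) (z : V → R) :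
    (refl k v).mulVec z = z - (∑ u, k v u * z u) • (Pi.single v 1 : V → R) := by
  unfold refl
  rw [Matrix.sub_mulVec, Matrix.one_mulVec]
  congr 1
  funext i
  rw [Pi.smul_apply, smul_eq_mul]
  show ∑ j, (if i = v then k v j else 0) * z j = _
  by_cases h : i = v
  · subst h
    rw [Pi.single_eq_same, mul_one]
    refine sum_congr rfl fun j _ => ?_
    rw [if_pos rfl]
  · rw [Pi.single_eq_of_ne h, mul_zero]
    refine sum_eq_zero fun j _ => ?_
    rw [if_neg h, zero_mul]

private theorem tr_mul {R : Type} [CommRing R] (f g : V → R) (u v : V) :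
    (Matrix.of fun i j => if i = u then f j else 0 : Matrix V V R) *
      (Matrix.of fun i j => if i = v then g j else 0) =
      f v • (Matrix.of fun i j => if i = u then g j else 0) := by
  ext i j
  rw [Matrix.mul_apply, Matrix.smul_apply, smul_eq_mul]
  simp only [Matrix.of_apply]
  rw [Finset.sum_eq_single v]
  · rw [if_pos rfl]
    by_cases h : i = u
    · rw [if_pos h, if_pos h]
    · rw [if_neg h, if_neg h, zero_mul, mul_zero]
  · intro l _ hl
    rw [if_neg hl, mul_zero]
  · intro hv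
    exact absurd (mem_univ v) hv

theorem refl_sq {R : Type} [CommRing R] (k : V → V → R) (v : V) (h : k v v = 2) :
    refl k v * refl k v = 1 := by
  unfold refl
  have h1 := tr_mul (k v) (k v) v v
  rw [h] at h1
  rw [sub_mul, one_mul, mul_sub, mul_one, h1, two_smul]
  abel

omit [Fintype V] in
theorem refl_map {R R' : Type} [CommRing R] [CommRing R'] (f : R →+* R') (k : V → V → R)
    (v : V) : (refl k v).map f = refl (fun u v => f (k u v)) v := by
  ext i j
  unfold refl
  rw [Matrix.map_apply, Matrix.sub_apply, Matrix.sub_apply, map_sub, Matrix.of_apply,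
    Matrix.of_apply, Matrix.one_apply, Matrix.one_apply]
  split_ifs <;> simp

omit [Fintype V] [DecidableEq V] in
theorem kR_self (M : CoxeterMatrix V) (v : V) : kR M v v = 2 := by
  unfold kR
  rw [M.diagonal, if_neg one_ne_zero, Nat.cast_one, div_one, Real.cos_pi]
  norm_num

omit [Fintype V] [DecidableEq V] in
theorem kR_symm (M : CoxeterMatrix V) (u v : V) : kR M u v = kR M v u := by
  unfold kR
  rw [M.symmetric u v]

/-- **The Coxeter relations.** -/
theorem refl_rel (M : CoxeterMatrix V) (u v : V) :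
    (refl (kR M) u * refl (kR M) v) ^ M u v = 1 := by
  by_cases huv : u = v
  · subst huv
    rw [refl_sq _ _ (kR_self M u), one_pow]
  have h1 : M u v ≠ 1 := M.off_diagonal u v huv
  obtain ⟨p, hp⟩ : ∃ p : Matrix V V ℝ, p =
    Matrix.of fun i j => if i = u then kR M u j else 0 := ⟨_, rfl⟩
  obtain ⟨q, hq⟩ : ∃ q : Matrix V V ℝ, q =
    Matrix.of fun i j => if i = v then kR M v j else 0 := ⟨_, rfl⟩
  have hpp : p * p = (2 : ℝ) • p := by
    rw [hp, tr_mul, kR_self]
  have hqq : q * q = (2 : ℝ) • q := by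
    rw [hq, tr_mul, kR_self]
  have hpqp : p * q * p = (kR M u v ^ 2) • p := by
    rw [hp, hq, tr_mul, smul_mul_assoc, tr_mul, smul_smul, kR_symm M v u, sq]
  have hqpq : q * p * q = (kR M u v ^ 2) • q := by
    rw [hp, hq, tr_mul, smul_mul_assoc, tr_mul, smul_smul, kR_symm M v u, sq]
  have hu : refl (kR M) u = 1 - p := by
    rw [hp]
    rfl
  have hv : refl (kR M) v = 1 - q := by
    rw [hq]
    rfl
  rw [hu, hv]
  rcases Nat.lt_or_ge (M u v) 3 with h3 | h3
  · have h02 : M u v = 0 ∨ M u v = 2 := by omega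
    rcases h02 with h0 | h2
    · rw [h0, pow_zero]
    · have hk : kR M u v = 0 := by
        unfold kR
        rw [h2, if_neg two_ne_zero, Nat.cast_ofNat, Real.cos_pi_div_two, mul_zero]
      have hpq : p * q = 0 := by
        rw [hp, hq, tr_mul, hk, zero_smul]
      have hqp : q * p = 0 := by
        rw [hp, hq, tr_mul, kR_symm M v u, hk, zero_smul]
      have e : (1 - p) * (1 - q) = 1 - p - q := by
        have : (1 - p) * (1 - q) = 1 - p - q + p * q := by noncomm_ring
        rw [this, hpq, add_zero]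
      have e2 : (1 - p - q) * (1 - p - q) = 1 - (2 : ℝ) • p - (2 : ℝ) • q + p * p + q * q +
          p * q + q * p := by
        rw [two_smul, two_smul]
        noncomm_ring
      rw [h2, sq, e, e2, hpp, hqq, hpq, hqp]
      abel
  · refine tr_pow _ h3 ?_
    rw [tr_rec p q (kR M u v) hpp hqq hpqp hqpq]
    have hk : kR M u v ^ 2 - 2 = 2 * Real.cos (2 * Real.pi / M u v) := by
      have h0 : M u v ≠ 0 := by omega
      unfold kR
      rw [if_neg h0, show 2 * Real.pi / (M u v : ℝ) = 2 * (Real.pi / (M u v : ℝ)) by ring,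
        Real.cos_two_mul]
      ring
    rw [hk]

/-- the geometric representation -/
noncomputable def titsHom (M : CoxeterMatrix V) : M.Group →* Matrix V V ℝ :=
  M.toCoxeterSystem.lift ⟨refl (kR M), fun u v => refl_rel M u v⟩

theorem titsHom_simple (M : CoxeterMatrix V) (v : V) :
    titsHom M (M.toCoxeterSystem.simple v) = refl (kR M) v :=
  M.toCoxeterSystem.lift_apply_simple _ v

end

end Pool.Agent.H4.FC
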