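import Pool.Agent.H4.FC.ProjC

/-!
# Project FC: the relations of the operators `X v`

`X v = t e v + g v + γ J v` on `N → X`, `J v` acting by `actL`. Everything that acts pointwise commutes
with `actL` (`actL_comp`).

* `Xop_sq`: `(t e + g)² = t² e² + t (e g + g e) + g² = 1`, `(t e + g) γ = -γ (t e + g)`, and
  `(γ J)² = γ² J² = -1`. So `X v (X v z) = 0`.
* `Xop_anti`: for adjacent `u v`:
  `X u X v + X v X u = {t e u + g u, t e v + g v} + γ² (J u J v + J v J u) = c - (J u J v + J v J u)`,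
  `c = 2 cos (π / m u v)`.
* `Xop_fix`: if `X u z = 0` and `X v z = 0` then `(J u J v + J v J u) z = c z`, so `pe m J u v` fixes
  `z` (`prj_fix`).
* `Xop_pe`: `X w` commutes with `pe m J u v` if `J w` does (`pe_comm_J`).
-/

set_option autoImplicit false

open Finset

namespace Pool.Agent.H4.FC

open Pool.Agent.H85.Fold

variable {V N X : Type} [Fintype N] [DecidableEq N] [AddCommGroup X] [Module ℝ X]
  {G : SimpleGraph V} {m : V → V → ℕ} {κ : ℝ} {J : V → Matrix N N ℝ}
  {e g : V → X →ₗ[ℝ] X} {γ : X →ₗ[ℝ] X}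

omit [DecidableEq N] in
theorem Xop_apply (t : ℝ) (v : V) (z : N → X) (ω : N) :
    Xop e g γ J t v z ω = t • e v (z ω) + g v (z ω) + γ (actL (J v) z ω) := rfl

/-- a matrix acting on the values of `Xop` -/
theorem actL_Xop (K : Matrix N N ℝ) (t : ℝ) (v : V) (z : N → X) (ω : N) :
    actL K (Xop e g γ J t v z) ω =
      t • e v (actL K z ω) + g v (actL K z ω) + γ (actL (K * J v) z ω) := by
  have h0 : Xop e g γ J t v z =
      (fun ω => (t • e v) (z ω)) + (fun ω => g v (z ω)) + (fun ω => γ (actL (J v) z ω)) := by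
    funext ω
    rfl
  rw [h0, map_add, map_add, actL_comp, actL_comp, actL_comp, actL_mul]
  rfl

theorem Xop_sq (h : IsPertL G m e g γ) (hJ : IsRep G m κ J) (t : ℝ) (v : V) (z : N → X) :
    Xop e g γ J t v (Xop e g γ J t v z) = 0 := by
  funext ω
  rw [Xop_apply, actL_Xop, hJ.sq, actL_one, Xop_apply]
  simp only [map_add, map_smul, h.e_sq, h.g_sq, h.eg, h.eγ, h.gγ, h.γ_sq, Pi.zero_apply,
    smul_zero, smul_neg, smul_add]
  abel

theorem Xop_anti (h : IsPertL G m e g γ) (hJ : IsRep G m κ J) (t : ℝ) {u v : V}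
    (huv : G.Adj u v) (z : N → X) :
    Xop e g γ J t u (Xop e g γ J t v z) + Xop e g γ J t v (Xop e g γ J t u z) =
      (2 * Real.cos (Real.pi / m u v)) • z - actL (J u * J v + J v * J u) z := by
  funext ω
  have h1 := h.gg u v huv (z ω)
  have h2 := h.ee u v huv (z ω)
  rw [Pi.add_apply, Xop_apply, actL_Xop, Xop_apply, Xop_apply, actL_Xop, Xop_apply, actL_add]
  simp only [map_add, map_smul, h.eg, h.eγ, h.gγ, h.γ_sq, Pi.sub_apply, Pi.smul_apply,
    Pi.add_apply, smul_neg, smul_add, h2]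
  rw [← h1]
  abel

theorem Xop_fix (hL : IsLab G m) (h : IsPertL G m e g γ) (hJ : IsRep G m κ J) (t : ℝ) {u v : V}
    (huv : G.Adj u v) {z : N → X} (hu : Xop e g γ J t u z = 0) (hv : Xop e g γ J t v z = 0) :
    actL (pe m J u v) z = z := by
  rw [pe_eq]
  refine prj_fix (hJ.sq u) (hJ.sq v) (hL.two u v huv) (hJ.rel u v huv) z ?_
  have h1 := Xop_anti h hJ t huv z
  rw [hu, hv, map_zero, map_zero, add_zero] at h1
  exact (sub_eq_zero.1 h1.symm).symm

/-- conversely, on the image of the projection the operators `X u`, `X v` anticommute -/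
theorem Xop_anti_fix (hL : IsLab G m) (h : IsPertL G m e g γ) (hJ : IsRep G m κ J) (t : ℝ)
    {u v : V} (huv : G.Adj u v) {z : N → X} (hz : actL (pe m J u v) z = z) :
    Xop e g γ J t u (Xop e g γ J t v z) = -Xop e g γ J t v (Xop e g γ J t u z) := by
  have h1 := Xop_anti h hJ t huv z
  have h2 : actL (J u * J v + J v * J u) z = (2 * Real.cos (Real.pi / m u v)) • z := by
    rw [pe_eq] at hz
    conv_lhs => rw [← hz]
    rw [← actL_mul, prj_rel (hJ.sq u) (hJ.sq v) (hL.two u v huv) (hJ.rel u v huv), actL_smul, hz]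
  rw [h2, sub_self] at h1
  exact eq_neg_of_add_eq_zero_left h1

theorem Xop_pe (hL : IsLab G m) (hJ : IsRep G m κ J) (t : ℝ) {σ : Finset V} (hσ : Cl G σ)
    {u v w : V} (hu : u ∈ σ) (hv : v ∈ σ) (hw : w ∈ σ) (huv : u ≠ v) (z : N → X) :
    Xop e g γ J t w (actL (pe m J u v) z) = actL (pe m J u v) (Xop e g γ J t w z) := by
  funext ω
  rw [Xop_apply, actL_Xop, ← actL_mul, pe_comm_J hL hJ hσ hu hv hw huv]

end Pool.Agent.H4.FC
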